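import Pool.Agent.Q99.VC.Diag3

/-!
# The data of a tree, and the general form of the expansions
-/

set_option autoImplicit false
set_option maxHeartbeats 1000000

namespace Pool.Agent.Q99.VC

open Filter Finset Topology Metric
open Pool.Agent.W711.HT hiding XX
open Pool.Agent.W719.AX (UX EXY GX KXD cv)
open Pool.Agent.W719.AR (kp)
open Pool.Agent.TH563.UV
open scoped Real

/-- the exponent and the two expansions at the root -/
theorem diag_data : ∃ K : ℝ, 0 < K ∧ ∀ t : Tb, t.Below K → 1 ≤ t.nc → ∃ F0 : ℂ, ∀ b : ℤ,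
    (∃ y : ℕ → ℂ, y 0 ≠ 0 ∧ UX (fun (N : ℕ) (_ : Unit) => (Real.sqrt N : ℂ) *
      (((N : ℂ) ^ (2 * t.ne) * (-1) ^ (N * t.ne) * Complex.exp (-(N * F0))) *
        upp (1 / N) fun ψ => Eb true b N ψ * XX t N ψ * kr N ψ)) (fun k _ => y k) Set.univ) ∧
    (∃ y : ℕ → ℂ, y 0 ≠ 0 ∧ UX (fun (N : ℕ) (_ : Unit) => (Real.sqrt N : ℂ) *
      (((N : ℂ) ^ (2 * t.ne) * (-1) ^ (N * t.ne) * Complex.exp (-(N * F0))) *
        (N * upp (1 / N) fun ψ => (ψ * Wd N ψ) * (Ea b N ψ * XX t N ψ) * kr N ψ)))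
        (fun k _ => y k) Set.univ) := by
  obtain ⟨ρ, τ, κ, c, s, dl, hK⟩ := Pool.Agent.W719.AR.f_KER
  obtain ⟨ρ₂, τ₂, hρ₂, hτ₂, Ak, hAk⟩ :=
    (Pool.Agent.W719.AX.f_KXC Pool.Agent.W719.AX.f_WIN) ρ τ κ c s dl hK
  obtain ⟨ε₀, K, hε, hε1, hK0, hre, h1, h2⟩ := f_STEPU ρ τ κ c s dl hK ρ₂ τ₂ Ak hρ₂ hτ₂ hAk
  obtain ⟨b1, b2⟩ := Pool.Agent.TH929.stepb ρ τ κ c s dl hK ρ₂ τ₂ Ak hρ₂ hτ₂ hAk ε₀ hε hε1 hre
  obtain ⟨h0, hp⟩ := f_PRU ρ τ κ c s dl hK ε₀ hε
  obtain ⟨h0x, hpx⟩ := (Pool.Agent.W52.AX.prdx Pool.Agent.W303.AX.uxmul) ρ₂ τ₂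
  refine ⟨K, hK0, fun t hB ht => ?_⟩
  obtain ⟨F, A, hG, hA, -⟩ := mainu_ind hK h0 hp h0x hpx h1 b1 t hB
  refine ⟨F 0, fun b => ⟨?_, ?_⟩⟩
  · obtain ⟨y, hy0, hux⟩ := b2 t.nc t.ne (XX t) F A ht hG hA b
    refine ⟨y, hy0, ?_⟩
    have e : (fun (N : ℕ) (_ : Unit) => (Real.sqrt N : ℂ) *
      (((N : ℂ) ^ (2 * t.ne) * (-1) ^ (N * t.ne) * Complex.exp (-(N * F 0))) *
        upp (1 / N) fun ψ => Eb true b N ψ * XX t N ψ * kr N ψ)) =
        (fun (N : ℕ) (_ : Unit) => (N : ℂ) ^ (2 * t.ne) * (Real.sqrt N : ℂ) *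
          (-1) ^ (N * (t.ne + 1)) * Complex.exp (-(N * (F 0 + π * Complex.I))) *
          upp (1 / N) fun ψ => Eb true b N ψ * XX t N ψ * kr N ψ) := by
      funext N _
      have e4 : Complex.exp (-(N * (F 0 + π * Complex.I))) =
          Complex.exp (-(N * F 0)) * (-1) ^ N := by
        have e5 : -((N : ℂ) * (F 0 + π * Complex.I)) =
            -(N * F 0) + -((N : ℂ) * (π * Complex.I)) := by ring
        rw [e5, Complex.exp_add, Complex.exp_neg (N * (π * Complex.I)), Complex.exp_nat_mul,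
          Complex.exp_pi_mul_I, ← inv_pow]
        norm_num
      have e5 : ((-1 : ℂ)) ^ (N * (t.ne + 1)) * (-1) ^ N = (-1) ^ (N * t.ne) := by
        rw [Nat.mul_add, mul_one, pow_add, mul_assoc, ← pow_add, ← two_mul, pow_mul]
        norm_num
      rw [e4, ← e5]
      ring
    rw [e]
    exact hux
  · obtain ⟨y, hy0, hux⟩ := circ_xsin hK hρ₂ hτ₂ hAk.hρ hAk.hτ hre ht hG hA b
    refine ⟨y, hy0, ?_⟩
    have e : (fun (N : ℕ) (_ : Unit) => (Real.sqrt N : ℂ) *
      (((N : ℂ) ^ (2 * t.ne) * (-1) ^ (N * t.ne) * Complex.exp (-(N * F 0))) *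
        (N * upp (1 / N) fun ψ => (ψ * Wd N ψ) * (Ea b N ψ * XX t N ψ) * kr N ψ))) =
        (fun (N : ℕ) (_ : Unit) => (Real.sqrt N : ℂ) * (N *
      ((N : ℂ) ^ (2 * t.ne) * (-1) ^ (N * t.ne) * Complex.exp (-(N * F 0)) *
        upp (1 / N) fun ψ => (ψ * Wd N ψ) * (Ea b N ψ * XX t N ψ) * kr N ψ))) := by
      funext N _
      ring
    rw [e]
    exact hux

/-- the general form of the expansions -/
theorem exy_of {n : ℕ} {F0 : ℂ} {W : ℕ → ℂ} {y : ℕ → ℂ} (hy0 : y 0 ≠ 0)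
    (hux : UX (fun (N : ℕ) (_ : Unit) => (Real.sqrt N : ℂ) *
      (((N : ℂ) ^ (2 * n) * (-1) ^ (N * n) * Complex.exp (-(N * F0))) * W N))
      (fun k _ => y k) Set.univ) (w : ℤ) (n' : ℕ) {c₀ : ℂ} (hc₀ : c₀ ≠ 0) :
    ∃ y' : ℕ → ℂ, y' 0 ≠ 0 ∧ EXY (fun N : ℕ => (-1) ^ ((N - 1) * n) *
      (Complex.I * N ^ 2 / (2 * π)) ^ (n + 1) * kp N ^ w * kb N ^ n' * (c₀ * W N))
      (F0 - Complex.I * π * w / 4) y' := by
  set c : ℂ := 3 * π * Complex.I * w / 4 + 2 * π * Complex.I * n' with hc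
  set K0 : ℂ := (Complex.I / (2 * π)) ^ (n + 1) * (-1) ^ n * (-Complex.I) ^ w * c₀ with hK0'
  have hπ : (π : ℂ) ≠ 0 := by exact_mod_cast Real.pi_ne_zero
  have hK0n : K0 ≠ 0 := by
    rw [hK0']
    refine mul_ne_zero (mul_ne_zero (mul_ne_zero (pow_ne_zero _ ?_) (pow_ne_zero _ (by norm_num)))
      (zpow_ne_zero _ (neg_ne_zero.2 Complex.I_ne_zero))) hc₀
    exact div_ne_zero Complex.I_ne_zero (mul_ne_zero two_ne_zero hπ)
  have hprod := Pool.Agent.W303.AX.uxmul Unit _ _ _ _ _ hux (Pool.Agent.W962.AX.ux_exp c)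
  refine ⟨fun k => K0 * cv (fun k (_ : Unit) => y k) (fun k _ => c ^ k / (k.factorial : ℂ)) k (),
    ?_, ?_⟩
  · refine mul_ne_zero hK0n ?_
    unfold cv
    simp only [zero_add, range_one, sum_singleton, Nat.sub_zero, pow_zero, Nat.factorial_zero,
      Nat.cast_one, div_one, mul_one]
    exact hy0
  · intro K
    obtain ⟨C, hC⟩ := hprod K
    refine ⟨‖K0‖ * C, ?_⟩
    filter_upwards [hC, eventually_ge_atTop 2] with N hN hN2
    have hN0 : (N : ℂ) ≠ 0 := by
      have : N ≠ 0 := by omega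
      exact_mod_cast this
    have hNr : (0 : ℝ) < N := by
      have : 0 < N := by omega
      exact_mod_cast this
    have hsq : ((Real.sqrt N : ℝ) : ℂ) ≠ 0 := by
      have : Real.sqrt N ≠ 0 := (Real.sqrt_pos.2 hNr).ne'
      exact_mod_cast this
    have hsq2 : ((Real.sqrt N : ℝ) : ℂ) ^ 2 = N := by
      rw [← Complex.ofReal_pow, Real.sq_sqrt hNr.le]
      simp
    have hb := hN () (Set.mem_univ _)
    have hexp0 := Complex.exp_ne_zero (N * F0)
    have hexp1 := Complex.exp_ne_zero (N * (-(Complex.I * π * w / 4)))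
    -- the identity
    have key : ((-1) ^ ((N - 1) * n) *
      (Complex.I * N ^ 2 / (2 * π)) ^ (n + 1) * kp N ^ w * kb N ^ n' * (c₀ * W N)) /
        (((Real.sqrt N) ^ 3 : ℝ) * Complex.exp (N * (F0 - Complex.I * π * w / 4)))
        = K0 * ((Real.sqrt N : ℂ) * (((N : ℂ) ^ (2 * n) * (-1) ^ (N * n) *
          Complex.exp (-(N * F0))) * W N) * Complex.exp (c / N)) := by
      have hex : Complex.exp (N * (F0 - Complex.I * π * w / 4))
          = Complex.exp (N * F0) * Complex.exp (N * (-(Complex.I * π * w / 4))) := by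
        rw [← Complex.exp_add]
        congr 1
        ring
      have hcube : (((Real.sqrt N) ^ 3 : ℝ) : ℂ) = (N : ℂ) * (Real.sqrt N : ℂ) := by
        push_cast
        rw [pow_succ, hsq2]
      have hneg : Complex.exp (-(N * F0)) = (Complex.exp (N * F0))⁻¹ := Complex.exp_neg _
      have hsgn : (-1 : ℂ) ^ ((N - 1) * n) = (-1) ^ n * (-1) ^ (N * n) := by
        obtain ⟨N', rfl⟩ : ∃ N', N = N' + 1 := ⟨N - 1, by omega⟩
        rw [Nat.add_sub_cancel, ← pow_add]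
        have e2 : n + (N' + 1) * n = N' * n + 2 * n := by ring
        rw [e2, pow_add, pow_mul (-1 : ℂ) 2]
        norm_num
      have hpow : (Complex.I * (N : ℂ) ^ 2 / (2 * π)) ^ (n + 1)
          = (Complex.I / (2 * π)) ^ (n + 1) * ((N : ℂ) ^ (2 * n) * (N : ℂ) ^ 2) := by
        rw [show Complex.I * (N : ℂ) ^ 2 / (2 * π) = Complex.I / (2 * π) * (N : ℂ) ^ 2 by ring,
          mul_pow, ← pow_mul, ← pow_add]
        congr 2
      have hkb : kb N ^ n' = Complex.exp ((2 * π * Complex.I * n') / N) := by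
        unfold kb
        rw [← Complex.exp_nat_mul]
        congr 1
        ring
      have hcs : Complex.exp (c / N) = Complex.exp ((3 * π * Complex.I * w / 4) / N) *
          Complex.exp ((2 * π * Complex.I * n') / N) := by
        rw [← Complex.exp_add, ← add_div, hc]
      rw [hex, hcube, Pool.Agent.W962.AX.kp_zpow N _ (by omega), hkb, hneg, hcs, hsgn, hpow, hK0']
      rw [div_eq_iff (mul_ne_zero (mul_ne_zero hN0 hsq) (mul_ne_zero hexp0 hexp1))]
      have hinv : (Complex.exp (N * F0))⁻¹ * Complex.exp (N * F0) = 1 := inv_mul_cancel₀ hexp0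
      have hN2' : (N : ℂ) ^ 2 = (N : ℂ) * ((Real.sqrt N : ℝ) : ℂ) ^ 2 := by rw [hsq2]; ring
      calc _ = (Complex.I / (2 * π)) ^ (n + 1) * (-1) ^ n * (-Complex.I) ^ w * c₀ *
            (N : ℂ) ^ (2 * n) * (-1) ^ (N * n) * W N *
            (Complex.exp ((3 * π * Complex.I * w / 4) / N) *
              Complex.exp ((2 * π * Complex.I * n') / N)) *
            Complex.exp (N * (-(Complex.I * π * w / 4))) * (N : ℂ) ^ 2 := by ring
        _ = (Complex.I / (2 * π)) ^ (n + 1) * (-1) ^ n * (-Complex.I) ^ w * c₀ *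
            (N : ℂ) ^ (2 * n) * (-1) ^ (N * n) * W N *
            (Complex.exp ((3 * π * Complex.I * w / 4) / N) *
              Complex.exp ((2 * π * Complex.I * n') / N)) *
            Complex.exp (N * (-(Complex.I * π * w / 4))) *
            ((N : ℂ) * ((Real.sqrt N : ℝ) : ℂ) ^ 2) *
            ((Complex.exp (N * F0))⁻¹ * Complex.exp (N * F0)) := by rw [hinv, ← hN2', mul_one]
        _ = _ := by ring
    rw [key]
    have e3 : ∑ k ∈ range K, K0 * cv (fun k (_ : Unit) => y k)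
          (fun k _ => c ^ k / (k.factorial : ℂ)) k () / (N : ℂ) ^ k
        = K0 * ∑ k ∈ range K, cv (fun k (_ : Unit) => y k)
          (fun k _ => c ^ k / (k.factorial : ℂ)) k () / (N : ℂ) ^ k := by
      rw [Finset.mul_sum]
      exact Finset.sum_congr rfl fun k _ => mul_div_assoc _ _ _
    rw [e3, ← mul_sub, norm_mul, mul_div_assoc]
    exact mul_le_mul_of_nonneg_left hb (norm_nonneg _)

/-- the total phase of `k N` half twists is `(-1)^k` -/
theorem kp_uk {N : ℕ} (hN : 0 < N) {k : ℤ} (hk : Even N ∨ Even k) :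
    kp N ^ (k * N) * uk k N = (-1) ^ k := by
  have hN0 : (N : ℂ) ≠ 0 := by exact_mod_cast hN.ne'
  rw [Pool.Agent.W962.AX.kp_zpow N _ hN]
  have eI : ∀ l : ℤ, (-Complex.I) ^ (2 * l) = (-1) ^ l := by
    intro l
    rw [zpow_mul]
    congr 1
    rw [zpow_ofNat, neg_sq, Complex.I_sq]
  have epi : ∀ n : ℤ, Complex.exp (Complex.I * π * n) = (-1) ^ n := exp_int
  unfold uk
  rcases Nat.even_or_odd N with h | h
  · rw [if_pos h]
    obtain ⟨n, hn⟩ := h
    have e1 : (-Complex.I) ^ (k * (N : ℤ)) = (-1) ^ (k * n) := by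
      rw [← eI]
      congr 1
      rw [hn]; push_cast; ring
    have e2 : Complex.exp (N * (-(Complex.I * π * ((k * N : ℤ) : ℂ) / 4))) *
        Complex.exp ((3 * π * Complex.I * ((k * N : ℤ) : ℂ) / 4) / N) *
        Complex.exp (Complex.I * ((π * k / 4 : ℝ) : ℂ)) =
        Complex.exp (Complex.I * π * ((k * (1 - n ^ 2) : ℤ) : ℂ)) := by
      rw [← Complex.exp_add, ← Complex.exp_add]
      congr 1
      push_cast
      field_simp
      rw [hn]
      push_cast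
      ring
    have e3 : (-Complex.I) ^ (k * (N : ℤ)) * Complex.exp (N * (-(Complex.I * π *
        ((k * N : ℤ) : ℂ) / 4))) * Complex.exp ((3 * π * Complex.I * ((k * N : ℤ) : ℂ) / 4) / N) *
        Complex.exp (Complex.I * ((π * k / 4 : ℝ) : ℂ)) = (-Complex.I) ^ (k * (N : ℤ)) *
        (Complex.exp (N * (-(Complex.I * π * ((k * N : ℤ) : ℂ) / 4))) *
        Complex.exp ((3 * π * Complex.I * ((k * N : ℤ) : ℂ) / 4) / N) *
        Complex.exp (Complex.I * ((π * k / 4 : ℝ) : ℂ))) := by ring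
    rw [e3, e2, epi, e1, ← zpow_add₀ (by norm_num : (-1 : ℂ) ≠ 0)]
    have e4 : k * (n : ℤ) + k * (1 - (n : ℤ) ^ 2) = k + k * (n * (1 - n)) := by ring
    rw [e4, zpow_add₀ (by norm_num : (-1 : ℂ) ≠ 0)]
    have e5 : Even (k * ((n : ℤ) * (1 - n))) := by
      have : Even ((n : ℤ) * (1 - n)) := by
        rcases Int.even_or_odd (n : ℤ) with h | h
        · exact h.mul_right _
        · exact (odd_one.sub_odd h).mul_left _
      exact this.mul_left k
    rw [e5.neg_one_zpow, mul_one]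
  · have hne : ¬ Even N := Nat.not_even_iff_odd.2 h
    rw [if_neg hne, mul_one]
    have hke := hk.resolve_left hne
    rw [hke.neg_one_zpow]
    obtain ⟨l, hl⟩ := hke
    obtain ⟨n, hn⟩ := h
    have e1 : (-Complex.I) ^ (k * (N : ℤ)) = (-1) ^ (l * N) := by
      rw [← eI]
      congr 1
      rw [hl]; ring
    have e2 : Complex.exp (N * (-(Complex.I * π * ((k * N : ℤ) : ℂ) / 4))) *
        Complex.exp ((3 * π * Complex.I * ((k * N : ℤ) : ℂ) / 4) / N) =
        Complex.exp (Complex.I * π * ((l * (1 - 2 * n * (n + 1)) : ℤ) : ℂ)) := by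
      rw [← Complex.exp_add]
      congr 1
      push_cast
      field_simp
      rw [hl, hn]
      push_cast
      ring
    rw [mul_assoc, e2, epi, e1, ← zpow_add₀ (by norm_num : (-1 : ℂ) ≠ 0)]
    refine Even.neg_one_zpow ?_
    have e4 : l * (N : ℤ) + l * (1 - 2 * (n : ℤ) * (n + 1)) = 2 * (l * (n + 1 - n * (n + 1))) := by
      rw [hn]; push_cast; ring
    rw [e4]
    exact even_two_mul _

end Pool.Agent.Q99.VC
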