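import Pool.Agent.Q99.VC.Theta5
import Pool.Agent.Q99.VC.Diag4

/-!
# The data of a tree for all root weights
-/

set_option autoImplicit false
set_option maxHeartbeats 1000000

namespace Pool.Agent.Q99.VC

open Filter Finset Topology Metric
open Pool.Agent.W711.HT hiding XX sv
open Pool.Agent.W719.AX (UX EXY GX KXD cv)
open Pool.Agent.W719.AR (ps)
open Pool.Agent.TH563.UV
open Pool.Agent.W85.HT (Kc Kc_mem Kc_compact)
open scoped Real

/-- the exponents for large root weights tend to that of the tree with a circle -/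
lemma crit_close {ρ τ κ c : ℝ} {s dl : ℂ → ℂ → ℂ} (hK : KD ρ τ κ c s dl) {F : ℂ → ℂ}
    (hFan : DifferentiableOn ℂ F (Rc (3 * ρ) (3 * τ)))
    (hFev : ∀ ψ ∈ Rc (3 * ρ) (3 * τ), F (-ψ) = F ψ) :
    ∃ D K₁ : ℝ, ∀ (a : ℤ) (z : ℂ), K₁ ≤ |(a : ℝ)| → 1 ≤ |(a : ℝ)| → z ∈ Rc ρ τ →
      Complex.I * a * z / (2 * π) + Complex.I + deriv F z = 0 → ‖qq a F z - F 0‖ ≤ D / |(a : ℝ)| := by
  obtain ⟨hρ0, hρ1⟩ := hK.hρ
  obtain ⟨hτ0, hτ1⟩ := hK.hτ
  have hπ := Real.pi_gt_three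
  have hopen : IsOpen (Rc (3 * ρ) (3 * τ)) := Pool.Agent.W688.AX.isOpen_Rcx _ _
  have hKc : Kc ρ τ ⊆ Rc (3 * ρ) (3 * τ) := by
    intro w hw
    rw [Kc_mem] at hw
    exact ⟨by linarith [hw.1], by linarith [hw.2]⟩
  have hSK : Rc ρ τ ⊆ Kc ρ τ := by
    intro w hw
    rw [Kc_mem]
    exact ⟨hw.1.le, hw.2.le⟩
  obtain ⟨B, hB⟩ := (Kc_compact ρ τ).exists_bound_of_continuousOn
    ((hFan.deriv hopen).continuousOn.mono hKc)
  have hball : ball (0 : ℂ) τ ⊆ Rc (3 * ρ) (3 * τ) := by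
    intro u hu
    rw [mem_ball_zero_iff] at hu
    exact ⟨(Complex.abs_re_le_norm u).trans_lt (by linarith),
      (Complex.abs_im_le_norm u).trans_lt (by linarith)⟩
  obtain ⟨a₂, C, hC, hF⟩ := even_exp hτ0 (hFan.mono hball) (fun z hz => hFev z (hball hz))
  obtain ⟨G, hG⟩ : ∃ G : ℝ, G = 2 * π * (1 + |B|) := ⟨_, rfl⟩
  have hG0 : 0 < G := by rw [hG]; positivity
  refine ⟨G ^ 2 + G + C * G ^ 2, 2 * G / τ, fun a z hK1 ha1 hz hcrit => ?_⟩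
  have ha0 : 0 < |(a : ℝ)| := by linarith
  have hac : ‖(a : ℂ)‖ = |(a : ℝ)| := Complex.norm_intCast a
  have hz1 : ‖z‖ ≤ G / |(a : ℝ)| := by
    have e1 : Complex.I * a * z = -(2 * π) * (Complex.I + deriv F z) := by
      have hpi : (π : ℂ) ≠ 0 := by exact_mod_cast Real.pi_ne_zero
      field_simp at hcrit
      linear_combination hcrit
    have e2 := congrArg norm e1
    rw [norm_mul, norm_mul, Complex.norm_I, one_mul, hac, norm_mul, norm_neg, norm_mul,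
      Complex.norm_ofNat, Complex.norm_real, Real.norm_eq_abs, abs_of_pos Real.pi_pos] at e2
    have e3 : ‖Complex.I + deriv F z‖ ≤ 1 + |B| := by
      refine (norm_add_le _ _).trans ?_
      rw [Complex.norm_I]
      have := (hB z (hSK hz)).trans (le_abs_self B)
      linarith
    rw [le_div_iff₀ ha0, mul_comm, e2, hG]
    gcongr
  have hz2 : ‖z‖ ≤ τ / 2 := by
    refine hz1.trans ?_
    rw [div_le_iff₀ hτ0] at hK1
    rw [div_le_div_iff₀ ha0 (by norm_num)]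
    linarith
  have hz3 : ‖z‖ ≤ G := hz1.trans (div_le_self hG0.le ha1)
  have hF1 := (hF z hz2).1
  unfold qq
  have e4 : Complex.I * a * z ^ 2 / (4 * π) + Complex.I * z + F z - F 0 =
      Complex.I * a * z ^ 2 / (4 * π) + Complex.I * z + (F z - F 0) := by ring
  rw [e4]
  refine (norm_add_le _ _).trans ?_
  refine (add_le_add (norm_add_le _ _) hF1).trans ?_
  have n1 : ‖Complex.I * a * z ^ 2 / (4 * π)‖ ≤ G ^ 2 / |(a : ℝ)| := by
    rw [norm_div, norm_mul, norm_mul, Complex.norm_I, one_mul, hac, norm_pow, norm_mul,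
      Complex.norm_ofNat, Complex.norm_real, Real.norm_eq_abs, abs_of_pos Real.pi_pos]
    calc |(a : ℝ)| * ‖z‖ ^ 2 / (4 * π) ≤ |(a : ℝ)| * ‖z‖ ^ 2 / 1 := by
          gcongr
          linarith
      _ ≤ |(a : ℝ)| * (G / |(a : ℝ)|) ^ 2 / 1 := by gcongr
      _ = _ := by field_simp
  have n2 : ‖Complex.I * z‖ ≤ G / |(a : ℝ)| := by
    rw [norm_mul, Complex.norm_I, one_mul]
    exact hz1
  have n3 : C * ‖z‖ ^ 2 ≤ C * G ^ 2 / |(a : ℝ)| := by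
    calc C * ‖z‖ ^ 2 = C * (‖z‖ * ‖z‖) := by ring
      _ ≤ C * (G * (G / |(a : ℝ)|)) := by gcongr
      _ = _ := by ring
  calc _ ≤ G ^ 2 / |(a : ℝ)| + G / |(a : ℝ)| + C * G ^ 2 / |(a : ℝ)| :=
        add_le_add (add_le_add n1 n2) n3
    _ = _ := by ring

/-- the sign in the normalisation -/
lemma sign_conv (n : ℕ) (q : ℂ) (N : ℕ) (U : ℂ) :
    (N : ℂ) ^ (2 * n) * (Real.sqrt N : ℂ) * (-1) ^ (N * (n + 1)) *
      Complex.exp (-(N * q)) * U = (Real.sqrt N : ℂ) * (((N : ℂ) ^ (2 * n) * (-1) ^ (N * n) *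
        Complex.exp (-(N * (q - π * Complex.I)))) * U) := by
  have e4 : Complex.exp (-(N * (q - π * Complex.I))) =
      Complex.exp (-(N * q)) * (-1) ^ N := by
    have e5 : -((N : ℂ) * (q - π * Complex.I)) =
        -(N * q) + (N : ℂ) * (π * Complex.I) := by ring
    rw [e5, Complex.exp_add, Complex.exp_nat_mul, Complex.exp_pi_mul_I]
  rw [e4, Nat.mul_add, mul_one, pow_add]
  ring

/-- **The data of a tree.** -/
theorem theta_data : ∃ K : ℝ, 0 < K ∧ ∀ t : Tb, t.Below K → 1 ≤ t.nc → ∃ F0 : ℂ,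
    (∃ α β c₀ C' : ℝ, 0 < β ∧ 0 < c₀ ∧ 0 < C' ∧ ∀ᶠ N : ℕ in atTop, ∀ A : ℤ,
      (c₀ * mn (ta α β N A) - C' ≤ ‖Pn t.ne F0 N * Zs (XX t) A N‖ ∧
        ‖Pn t.ne F0 N * Zs (XX t) A N‖ ≤ C' * mx (ta α β N A) + C') ∧
      c₀ * mn (ta α β N A) - C' ≤
        C' * (‖Pn t.ne F0 N * S1 (XX t) A N‖ + ‖Pn t.ne F0 N * S2 (XX t) A N‖) ∧
      ‖Pn t.ne F0 N * S1 (XX t) A N‖ ≤ C' * N ∧ ‖Pn t.ne F0 N * S2 (XX t) A N‖ ≤ C' * N) ∧
    (∀ b : ℤ, ∃ y : ℕ → ℂ, y 0 ≠ 0 ∧ UX (fun (N : ℕ) (_ : Unit) => (Real.sqrt N : ℂ) *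
      (((N : ℂ) ^ (2 * t.ne) * (-1) ^ (N * t.ne) * Complex.exp (-(N * F0))) *
        upp (1 / N) fun ψ => Eb true b N ψ * XX t N ψ * kr N ψ)) (fun k _ => y k) Set.univ) ∧
    ∃ D K₁ : ℝ, ∀ a : ℤ, K₁ ≤ |(a : ℝ)| → ∃ (q : ℂ) (y : ℕ → ℂ), y 0 ≠ 0 ∧
      |q.re - F0.re| ≤ D / |(a : ℝ)| ∧
      UX (fun (N : ℕ) (_ : Unit) => (Real.sqrt N : ℂ) *
      (((N : ℂ) ^ (2 * t.ne) * (-1) ^ (N * t.ne) * Complex.exp (-(N * q))) *
        upp (1 / N) fun ψ => Eb false a N ψ * XX t N ψ * kr N ψ)) (fun k _ => y k) Set.univ := by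
  obtain ⟨ρ, τ, κ, c, s, dl, hK⟩ := Pool.Agent.W719.AR.f_KER
  obtain ⟨ρ₂, τ₂, hρ₂, hτ₂, Ak, hAk⟩ :=
    (Pool.Agent.W719.AX.f_KXC Pool.Agent.W719.AX.f_WIN) ρ τ κ c s dl hK
  obtain ⟨ε₀, K, hε, hε1, hK0, hre, h1, h2⟩ := f_STEPU ρ τ κ c s dl hK ρ₂ τ₂ Ak hρ₂ hτ₂ hAk
  obtain ⟨b1, b2⟩ := Pool.Agent.TH929.stepb ρ τ κ c s dl hK ρ₂ τ₂ Ak hρ₂ hτ₂ hAk ε₀ hε hε1 hre
  obtain ⟨h0, hp⟩ := f_PRU ρ τ κ c s dl hK ε₀ hε
  obtain ⟨h0x, hpx⟩ := (Pool.Agent.W52.AX.prdx Pool.Agent.W303.AX.uxmul) ρ₂ τ₂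
  refine ⟨K, hK0, fun t hB ht => ?_⟩
  obtain ⟨F, A, hG, hA, -⟩ := mainu_ind hK h0 hp h0x hpx h1 b1 t hB
  refine ⟨F 0, ?_, fun b => ?_, ?_⟩
  · obtain ⟨a₂, A₀, C, ha₂, hA₀, hC, hnode⟩ := node_est hK hρ₂ hτ₂ hAk.hρ hAk.hτ hre ht hG hA
    exact sums_est ha₂ hA₀ hC hnode
  · obtain ⟨y, hy0, hux⟩ := b2 t.nc t.ne (XX t) F A ht hG hA b
    refine ⟨y, hy0, ?_⟩
    have e : (fun (N : ℕ) (_ : Unit) => (Real.sqrt N : ℂ) *
      (((N : ℂ) ^ (2 * t.ne) * (-1) ^ (N * t.ne) * Complex.exp (-(N * F 0))) *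
        upp (1 / N) fun ψ => Eb true b N ψ * XX t N ψ * kr N ψ)) =
        (fun (N : ℕ) (_ : Unit) => (N : ℂ) ^ (2 * t.ne) * (Real.sqrt N : ℂ) *
          (-1) ^ (N * (t.ne + 1)) * Complex.exp (-(N * (F 0 + π * Complex.I))) *
          upp (1 / N) fun ψ => Eb true b N ψ * XX t N ψ * kr N ψ) := by
      funext N _
      rw [sign_conv, add_sub_cancel_right]
    rw [e]
    exact hux
  · obtain ⟨D, K₁, hD⟩ := crit_close hK hG.Fan hG.Fev
    refine ⟨D, max K₁ (max K 1), fun a ha => ?_⟩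
    have ha1 : K₁ ≤ |(a : ℝ)| := (le_max_left _ _).trans ha
    have ha2 : K ≤ |(a : ℝ)| := (le_max_left _ _).trans ((le_max_right _ _).trans ha)
    have ha3 : 1 ≤ |(a : ℝ)| := (le_max_right _ _).trans ((le_max_right _ _).trans ha)
    have hbig : K ^ 2 ≤ (t.nc : ℝ) ^ 2 + (a : ℝ) ^ 2 := by
      have : K ^ 2 ≤ (a : ℝ) ^ 2 := by
        rw [← sq_abs (a : ℝ)]
        exact pow_le_pow_left₀ hK0.le ha2 2
      nlinarith [sq_nonneg (t.nc : ℝ)]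
    obtain ⟨z, y, hz, hcrit, hy0, hux⟩ := h2 t.nc t.ne (XX t) F A ht hG hA a hbig
    have h3 := hD a z ha1 ha3 hz.mem hcrit
    refine ⟨qq a F z - π * Complex.I, y, hy0, ?_, ?_⟩
    · have h4 := (Complex.abs_re_le_norm _).trans h3
      have h5 : (qq a F z - π * Complex.I).re - (F 0).re = (qq a F z - F 0).re := by simp
      rw [h5]
      exact h4
    · have e : (fun (N : ℕ) (_ : Unit) => (Real.sqrt N : ℂ) *
        (((N : ℂ) ^ (2 * t.ne) * (-1) ^ (N * t.ne) *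
          Complex.exp (-(N * (qq a F z - π * Complex.I)))) *
          upp (1 / N) fun ψ => Eb false a N ψ * XX t N ψ * kr N ψ)) =
          (fun (N : ℕ) (_ : Unit) => (N : ℂ) ^ (2 * t.ne) * (Real.sqrt N : ℂ) *
            (-1) ^ (N * (t.ne + 1)) * Complex.exp (-(N * qq a F z)) *
            upp (1 / N) fun ψ => Eb false a N ψ * XX t N ψ * kr N ψ) := by
        funext N _
        rw [sign_conv]
      rw [e]
      exact hux

/-! ### Exact formulas -/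

lemma Ea_hasDeriv (A : ℤ) (N : ℕ) (ψ : ℂ) :
    HasDerivAt (Ea A N) (Complex.I * A * N * ψ / (2 * π) * Ea A N ψ) ψ := by
  have a1 : HasDerivAt (fun ψ : ℂ => Complex.I * A * N * ψ ^ 2 / (4 * π))
      (Complex.I * A * N * (2 * ψ) / (4 * π)) ψ := by
    have := ((hasDerivAt_pow 2 ψ).const_mul (Complex.I * A * N)).div_const (4 * (π : ℂ))
    simpa using this
  have a2 := (Complex.hasDerivAt_exp (Complex.I * A * N * ψ ^ 2 / (4 * π))).comp ψ a1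
  refine a2.congr_deriv ?_
  unfold Ea
  ring

/-- the sum over the nodes without circle -/
theorem sum_free {X : ℕ → ℂ → ℂ} (hX : ∀ N, Differentiable ℂ (X N))
    (hev : ∀ N ψ, X N (-ψ) = X N ψ) (A : ℤ) {N : ℕ} (hN : 2 ≤ N) :
    Complex.I * N ^ 2 / (2 * π) * (upp (1 / N) fun ψ => Ea A N ψ * X N ψ * kr N ψ) =
      S1 X A N + A * S2 X A N := by
  have hF : Differentiable ℂ fun ψ => Ea A N ψ * X N ψ := (Ea_diff A N).mul (hX N)
  rw [disc hF (fun ψ => by rw [Ea_even, hev]) hN]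
  unfold S1 S2
  rw [Finset.mul_sum, Finset.mul_sum, ← Finset.sum_add_distrib]
  refine Finset.sum_congr rfl fun k _ => ?_
  have d1 := ((Ea_hasDeriv A N (ps N k)).mul ((hX N (ps N k)).hasDerivAt)).mul
    (Complex.hasDerivAt_sin (ps N k))
  rw [show deriv (fun ψ => Ea A N ψ * X N ψ * Complex.sin ψ) (ps N k) = _ from d1.deriv,
    Pi.mul_apply]
  ring

lemma UN_mul_sin (N : ℕ) (ψ : ℂ) : UN N ψ * Complex.sin ψ = Wd N ψ :=
  Pool.Agent.TH929.J29.UN_sin N ψ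

lemma ps_pz' (N c : ℕ) : ((ps N c : ℝ) : ℂ) = pz N c := ps_pz N c

/-- the sum over the nodes with a circle -/
theorem sum_circ {X : ℕ → ℂ → ℂ} (hX : ∀ N, Differentiable ℂ (X N))
    (hev : ∀ N ψ, X N (-ψ) = X N ψ) (A : ℤ) {N : ℕ} (hN : 2 ≤ N) :
    Complex.I * N ^ 2 / (2 * π) * (upp (1 / N) fun ψ => Eb true A N ψ * X N ψ * kr N ψ) =
      N * Zs X A N := by
  have hN0 : 0 < N := by omega
  have hUN : Differentiable ℂ (UN N) := Pool.Agent.TH929.J29.UN_diff N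
  have hUNe : ∀ ψ, UN N (-ψ) = UN N ψ := by
    intro ψ
    unfold UN
    rw [← Finset.sum_range_reflect]
    refine Finset.sum_congr rfl fun j hj => ?_
    have hj' : j < N := Finset.mem_range.1 hj
    have e1 : ((N - 1 - j : ℕ) : ℂ) = N - 1 - j := by
      rw [Nat.sub_sub, Nat.cast_sub (by omega)]
      push_cast
      ring
    rw [e1]
    have e2 : ((N : ℂ) - 1 - 2 * (N - 1 - j)) * (-ψ + π) =
        ((N : ℂ) - 1 - 2 * j) * (ψ + π) - ((N : ℤ) - 1 - 2 * j : ℤ) * (2 * π) := by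
      push_cast
      ring
    rw [e2, Complex.cos_sub_int_mul_two_pi]
  have hF : Differentiable ℂ fun ψ => Eb true A N ψ * X N ψ := by
    have : (fun ψ => Eb true A N ψ * X N ψ) = fun ψ => Ea A N ψ * UN N ψ * X N ψ := by
      funext ψ
      unfold Eb
      simp
    rw [this]
    exact ((Ea_diff A N).mul hUN).mul (hX N)
  rw [disc hF (fun ψ => by
    unfold Eb
    simp only [if_true]
    rw [Ea_even, hUNe, hev]) hN]
  unfold Zs
  rw [Finset.mul_sum]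
  refine Finset.sum_congr rfl fun k _ => ?_
  have e0 : (fun ψ => Eb true A N ψ * X N ψ * Complex.sin ψ) =
      fun ψ => Wd N ψ * (Ea A N ψ * X N ψ) := by
    funext ψ
    rw [← UN_mul_sin]
    unfold Eb
    simp only [if_true]
    ring
  rw [e0]
  have d0 : HasDerivAt (fun ψ => Ea A N ψ * X N ψ) (deriv (fun ψ => Ea A N ψ * X N ψ) (pz N k))
    (pz N k) := (((Ea_diff A N).mul (hX N)) _).hasDerivAt
  have d1 := (Wd_deriv hN0 (k : ℤ)).mul d0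
  have d2 := Wd_node hN0 (k : ℤ)
  rw [ps_pz', show deriv (fun ψ => Wd N ψ * (Ea A N ψ * X N ψ)) (pz N k) = _ from d1.deriv, d2]
  ring

end Pool.Agent.Q99.VC
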