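import Pool.Agent.Q99.VC.Swap

/-!
# The integral as a sum over the nodes
-/

set_option autoImplicit false

namespace Pool.Agent.Q99.VC

open Filter Finset Topology Metric
open Pool.Agent.W711.HT hiding XX sv
open Pool.Agent.W719.AR
open Pool.Agent.W490.AR (yy yy_l0 yy_l1 ps_symm)
open Pool.Agent.W709.VC (zz sv)
open Pool.Agent.H550R3.Jones (br)
open scoped Real

lemma lm_yy {F : ℂ → ℂ} (hF : Differentiable ℂ F) (hev : ∀ ψ, F (-ψ) = F ψ) {N : ℕ}
    (hN : 2 ≤ N) : Lm N (yy F N) F :=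
  ⟨hF, hev, fun c _ => (hF.continuous.tendsto _).comp (yy_l0 hN c),
    fun _ hc h => yy_l1 hF hev hN hc h⟩

/-- the path to the root of unity -/
noncomputable def wp (N : ℕ) (s : ℝ) : ℂ := Complex.exp (π * Complex.I * s / N)

lemma wp_one (N : ℕ) : wp N 1 = vN N := by
  unfold wp vN
  congr 1
  push_cast
  ring

lemma sv_wp {N : ℕ} (hN : 2 ≤ N) {s : ℝ} (h0 : 0 < s) (h2 : s < 2) : sv N (wp N s) = s := by
  have hNr : (2 : ℝ) ≤ N := by exact_mod_cast hN
  have hNc : (N : ℂ) ≠ 0 := by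
    have : N ≠ 0 := by omega
    exact_mod_cast this
  have hpi : (π : ℂ) ≠ 0 := by exact_mod_cast Real.pi_ne_zero
  have him : (π * Complex.I * s / N : ℂ).im = π * s / N := by
    have : (π * Complex.I * s / N : ℂ) = ((π * s / N : ℝ) : ℂ) * Complex.I := by
      push_cast; ring
    rw [this]
    simp
  have hp := Real.pi_pos
  have h3 : 0 < π * s / N := by positivity
  have h4 : π * s / N ≤ π := by
    rw [div_le_iff₀ (by linarith)]
    exact mul_le_mul_of_nonneg_left (by linarith) hp.le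
  unfold sv wp
  rw [Complex.log_exp (by rw [him]; linarith) (by rw [him]; exact h4)]
  have hI := Complex.I_ne_zero
  field_simp

lemma br_wp (N : ℕ) (s : ℝ) (m : ℤ) : br (wp N s) m = 2 * Complex.I *
    Complex.sin (s * (π * m / N)) := by
  unfold br wp
  rw [← Complex.exp_int_mul, ← Complex.exp_int_mul, Complex.sin]
  have e1 : (m : ℂ) * (π * Complex.I * s / N) = (s * (π * m / N)) * Complex.I := by ring
  have e2 : ((-m : ℤ) : ℂ) * (π * Complex.I * s / N) = -(s * (π * m / N)) * Complex.I := by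
    push_cast; ring
  rw [e1, e2]
  linear_combination (Complex.exp (s * (π * m / N) * Complex.I) -
    Complex.exp (-(s * (π * m / N)) * Complex.I)) * Complex.I_sq

lemma wp_tendsto {N : ℕ} (hN : 2 ≤ N) : Tendsto (wp N) (𝓝[≠] 1) (𝓝[≠] (vN N)) := by
  rw [← wp_one N]
  refine tendsto_nhdsWithin_of_tendsto_nhds_of_eventually_within _ ?_ ?_
  · have hc : Continuous (wp N) := by
      unfold wp
      fun_prop
    exact (hc.tendsto 1).mono_left nhdsWithin_le_nhds
  · have h1 : ∀ᶠ s : ℝ in 𝓝[≠] 1, s ∈ Set.Ioo (0 : ℝ) 2 :=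
      nhdsWithin_le_nhds (Ioo_mem_nhds (by norm_num) (by norm_num))
    filter_upwards [h1, self_mem_nhdsWithin] with s hs hs1
    intro h
    have h2 := sv_wp hN hs.1 hs.2
    rw [h, sv_wp hN one_pos one_lt_two] at h2
    exact hs1 (by exact_mod_cast h2.symm)

/-- **The path integral is a sum over the nodes.** -/
theorem disc {F : ℂ → ℂ} (hF : Differentiable ℂ F) (hev : ∀ ψ, F (-ψ) = F ψ) {N : ℕ}
    (hN : 2 ≤ N) : Complex.I * N ^ 2 / (2 * π) * (upp (1 / N) fun ψ => F ψ * kr N ψ) =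
      ∑ c ∈ range N, deriv (fun ψ => F ψ * Complex.sin ψ) (ps N c) := by
  have hN0 : 0 < N := by omega
  have hNc : (N : ℂ) ≠ 0 := by exact_mod_cast hN0.ne'
  have hNr : (N : ℝ) ≠ 0 := by exact_mod_cast hN0.ne'
  have hpi : (π : ℂ) ≠ 0 := by exact_mod_cast Real.pi_ne_zero
  have l1 := (lmt_all N _ _ hN (lm_yy hF hev hN)).comp (wp_tendsto hN)
  refine tendsto_nhds_unique l1 ?_
  -- the function `g`
  obtain ⟨g, hg⟩ : ∃ g : ℂ → ℂ, g = fun ψ => F ψ * Complex.sin ψ := ⟨_, rfl⟩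
  have hgd : Differentiable ℂ g := by
    rw [hg]
    exact hF.mul Complex.differentiable_sin
  have hgo : ∀ ψ, g (-ψ) = -g ψ := by
    intro ψ
    rw [hg]
    simp only
    rw [hev, Complex.sin_neg]
    ring
  have hg' : ∀ ψ, deriv g (-ψ) = deriv g ψ := by
    intro ψ
    have h1 : HasDerivAt (fun z => g (-z)) (-deriv g (-ψ)) ψ := by
      have := (hgd (-ψ)).hasDerivAt.comp ψ (hasDerivAt_neg ψ)
      exact this.congr_deriv (by ring)
    have h2 : (fun z => g (-z)) = fun z => -g z := funext hgo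
    rw [h2] at h1
    have h3 := (hgd ψ).hasDerivAt.neg
    have := h1.unique h3
    simpa using this
  have hθ : ∀ c : ℕ, ((π * (2 * (c : ℝ) + 1) / N : ℝ) : ℂ) = ps N c + π := by
    intro c
    unfold ps
    push_cast
    field_simp
    ring
  -- the numerator
  obtain ⟨G, hG⟩ : ∃ G : ℝ → ℂ, G = fun s : ℝ => ∑ c ∈ range N,
    -g (s * ((π * (2 * (c : ℝ) + 1) / N : ℝ) : ℂ) - π) := ⟨_, rfl⟩
  have hGd : HasDerivAt G (-(π * ∑ c ∈ range N, deriv g (ps N c))) 1 := by
    have h1 : HasDerivAt G (∑ c ∈ range N, -(deriv g (ps N c) * ((ps N c : ℂ) + π))) 1 := by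
      rw [hG]
      refine HasDerivAt.fun_sum fun c _ => ?_
      have h2 : HasDerivAt (fun s : ℝ => (s : ℂ) * ((π * (2 * (c : ℝ) + 1) / N : ℝ) : ℂ) - π)
          ((π * (2 * (c : ℝ) + 1) / N : ℝ) : ℂ) 1 := by
        have := ((Complex.ofRealCLM.hasDerivAt (x := (1 : ℝ))).mul_const
          ((π * (2 * (c : ℝ) + 1) / N : ℝ) : ℂ)).sub_const (π : ℂ)
        simpa using this
      have h3 : ((1 : ℝ) : ℂ) * ((π * (2 * (c : ℝ) + 1) / N : ℝ) : ℂ) - π = ps N c := by
        rw [hθ]; push_cast; ring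
      have h4 := (hgd (((1 : ℝ) : ℂ) * ((π * (2 * (c : ℝ) + 1) / N : ℝ) : ℂ) - π)).hasDerivAt
      have h5 := (h4.scomp (1 : ℝ) h2).neg
      refine h5.congr_deriv ?_
      rw [h3, hθ, smul_eq_mul]
      ring
    refine h1.congr_deriv ?_
    have h2 : ∑ c ∈ range N, deriv g (ps N c) * (ps N c : ℂ) = 0 := by
      have h3 := Finset.sum_range_reflect (fun c => deriv g (ps N c) * (ps N c : ℂ)) N
      have h4 : ∑ c ∈ range N, deriv g (ps N (N - 1 - c)) * (ps N (N - 1 - c) : ℂ) =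
          -∑ c ∈ range N, deriv g (ps N c) * (ps N c : ℂ) := by
        rw [← Finset.sum_neg_distrib]
        refine Finset.sum_congr rfl fun c hc => ?_
        rw [ps_symm (Finset.mem_range.1 hc)]
        push_cast
        rw [hg']
        ring
      rw [h4] at h3
      linear_combination (-1 / 2 : ℂ) * h3
    rw [Finset.mul_sum, ← Finset.sum_neg_distrib]
    have h3 : ∀ c ∈ range N, -(deriv g (ps N c) * ((ps N c : ℂ) + π)) =
        -(π * deriv g (ps N c)) - deriv g (ps N c) * (ps N c : ℂ) := fun c _ => by ring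
    rw [Finset.sum_congr rfl h3, Finset.sum_sub_distrib, h2, sub_zero]
  have hG1 : G 1 = 0 := by
    rw [hG]
    simp only
    have h1 : ∀ c ∈ range N, -g (((1 : ℝ) : ℂ) * ((π * (2 * (c : ℝ) + 1) / N : ℝ) : ℂ) - π) =
        -g (ps N c) := by
      intro c _
      rw [hθ]
      congr 2
      push_cast
      ring
    rw [Finset.sum_congr rfl h1]
    have h3 := Finset.sum_range_reflect (fun c => -g (ps N c)) N
    have h4 : ∑ c ∈ range N, -g (ps N (N - 1 - c)) = -∑ c ∈ range N, -g (ps N c) := by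
      rw [← Finset.sum_neg_distrib]
      refine Finset.sum_congr rfl fun c hc => ?_
      rw [ps_symm (Finset.mem_range.1 hc)]
      push_cast
      rw [hgo]
    rw [h4] at h3
    linear_combination (-1 / 2 : ℂ) * h3
  -- the denominator
  have hS : HasDerivAt (fun s : ℝ => Complex.sin (s * π)) (-π) 1 := by
    have h2 : HasDerivAt (fun s : ℝ => (s : ℂ) * (π : ℂ)) (π : ℂ) 1 := by
      have := (Complex.ofRealCLM.hasDerivAt (x := (1 : ℝ))).mul_const (π : ℂ)
      simpa using this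
    have h4 := (Complex.hasDerivAt_sin (((1 : ℝ) : ℂ) * π)).scomp (1 : ℝ) h2
    refine h4.congr_deriv ?_
    simp
  have hS1 : Complex.sin (((1 : ℝ) : ℂ) * π) = 0 := by simp
  have hq := (hasDerivAt_iff_tendsto_slope.1 hGd).div (hasDerivAt_iff_tendsto_slope.1 hS)
    (neg_ne_zero.2 hpi)
  have hlim : -(π * ∑ c ∈ range N, deriv g (ps N c)) / (-(π : ℂ)) =
      ∑ c ∈ range N, deriv (fun ψ => F ψ * Complex.sin ψ) (ps N c) := by
    rw [← hg]
    field_simp
  rw [hlim] at hq
  refine hq.congr' ?_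
  have h1 : ∀ᶠ s : ℝ in 𝓝[≠] 1, s ∈ Set.Ioo (0 : ℝ) 2 :=
    nhdsWithin_le_nhds (Ioo_mem_nhds (by norm_num) (by norm_num))
  filter_upwards [h1, self_mem_nhdsWithin] with s hs hs1
  have hs1' : s - 1 ≠ 0 := sub_ne_zero.2 hs1
  simp only [Pi.div_apply, Function.comp_apply, slope_def_module, hG1, hS1, sub_zero]
  have e1 : ((s - 1)⁻¹ • G s) / ((s - 1)⁻¹ • Complex.sin (s * π)) =
      G s / Complex.sin (s * π) := by
    rw [Complex.real_smul, Complex.real_smul, mul_div_mul_left]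
    have : ((s - 1 : ℝ) : ℂ) ≠ 0 := by exact_mod_cast hs1'
    push_cast at this ⊢
    exact inv_ne_zero this
  rw [e1]
  have e2 : br (wp N s) N = 2 * Complex.I * Complex.sin (s * π) := by
    rw [br_wp]
    congr 2
    push_cast
    field_simp
  have e3 : ∑ c ∈ range N, yy F N (wp N s) c * br (wp N s) (2 * (c : ℤ) + 1) =
      2 * Complex.I * G s := by
    rw [hG]
    simp only
    rw [Finset.mul_sum]
    refine Finset.sum_congr rfl fun c _ => ?_
    rw [br_wp]
    unfold yy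
    rw [sv_wp hN hs.1 hs.2, hg]
    unfold zz
    simp only
    have e4 : (π : ℂ) * s * (2 * c + 1) / N - π =
        s * ((π * (2 * (c : ℝ) + 1) / N : ℝ) : ℂ) - π := by push_cast; ring
    have e5 : (s : ℂ) * (π * ((2 * (c : ℤ) + 1 : ℤ) : ℂ) / N) =
        s * ((π * (2 * (c : ℝ) + 1) / N : ℝ) : ℂ) := by push_cast; ring
    rw [e4, e5, Complex.sin_sub_pi]
    ring
  rw [e2, e3]
  have hI : (2 * Complex.I : ℂ) ≠ 0 := mul_ne_zero two_ne_zero Complex.I_ne_zero
  rw [mul_div_mul_left _ _ hI]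

end Pool.Agent.Q99.VC
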