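import Pool.Agent.Q99.VC.Theta3

/-!
# The integrand at all the nodes
-/

set_option autoImplicit false

namespace Pool.Agent.Q99.VC

open Filter Finset Topology Metric
open Pool.Agent.W711.HT hiding XX
open Pool.Agent.W719.AX
open Pool.Agent.W21.AX (ux_comp exp_small)
open Pool.Agent.TH563.UV (GoodU)
open Pool.Agent.TH929.J29 (bounds m0)
open Pool.Agent.W719.AR (ps)
open scoped Real

/-- the normalisation -/
noncomputable def Pn (m : ℕ) (F0 : ℂ) (N : ℕ) : ℂ :=
  (N : ℂ) ^ (2 * m) * (-1) ^ (N * m) * Complex.exp (-(N * F0))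

lemma norm_Pn (m : ℕ) (F0 : ℂ) (N : ℕ) :
    ‖Pn m F0 N‖ = (N : ℝ) ^ (2 * m) * Real.exp (-(N * F0.re)) := by
  unfold Pn
  rw [norm_mul, norm_mul, norm_pow, norm_pow, norm_neg, norm_one, one_pow, mul_one,
    Complex.norm_natCast, Complex.norm_exp]
  congr 2
  simp

/-- away from the origin -/
lemma far_bd {ρ τ κ c : ℝ} {s dl : ℂ → ℂ → ℂ} (hK : KD ρ τ κ c s dl) {ε₀ : ℝ}
    {t : ℕ} {X : ℕ → ℂ → ℂ} {F : ℂ → ℂ} (ht : 1 ≤ t)
    (hX : GoodU ρ τ κ ε₀ s t X F)
    (hdec : ∀ x : ℝ, |x| ≤ ρ → (F x).re ≤ (F 0).re - c / 4 * x ^ 2) {r : ℝ} (hr : 0 < r) :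
    ∃ κ' : ℝ, 0 < κ' ∧ ∀ᶠ N : ℕ in atTop, ∀ x y : ℝ, r ≤ |x| → |x| ≤ π → |y| ≤ 1 / N →
      ‖X N (x + y * Complex.I)‖ ≤ Real.exp (N * ((F 0).re - κ')) := by
  obtain ⟨hρ0, hρ1⟩ := hK.hρ
  obtain ⟨hτ0, hτ1⟩ := hK.hτ
  obtain ⟨hκ0, hκ1⟩ := hK.hκ
  have hc0 := hK.hc
  have ht' : (1 : ℝ) ≤ t := by exact_mod_cast ht
  obtain ⟨L, hL, hLF, -⟩ := bounds hK hX
  obtain ⟨g, hg⟩ : ∃ g : ℝ, g = c * r ^ 2 / 16 := ⟨_, rfl⟩
  have hg0 : 0 < g := by rw [hg]; positivity
  refine ⟨min (κ / 2) g, lt_min (by positivity) hg0, ?_⟩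
  have hev1 : ∀ᶠ N : ℕ in atTop, 1 / τ ≤ N := eventually_ge_atTop ⌈1 / τ⌉₊ |>.mono
    fun N hN => (Nat.le_ceil _).trans (by exact_mod_cast hN)
  have hev2 : ∀ᶠ N : ℕ in atTop, 2 * L / g ≤ N := eventually_ge_atTop ⌈2 * L / g⌉₊ |>.mono
    fun N hN => (Nat.le_ceil _).trans (by exact_mod_cast hN)
  filter_upwards [hX.gl1, hX.mw g hg0, hev1, hev2, eventually_ge_atTop 1] with N h1 h2 h3 h4 h5
    x y hx1 hx2 hy
  have hN1 : (1 : ℝ) ≤ N := by exact_mod_cast h5
  have hN0 : (0 : ℝ) < N := by linarith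
  rcases le_total ρ |x| with hρx | hρx
  · refine (h1 x y hρx hx2 hy).trans (Real.exp_le_exp.2
      (mul_le_mul_of_nonneg_left ?_ hN0.le))
    have e1 : 1 * (κ / 2) ≤ (t : ℝ) * (κ / 2) := mul_le_mul_of_nonneg_right ht' (by positivity)
    have e2 : min (κ / 2) g ≤ κ / 2 := min_le_left _ _
    linarith
  · have hyτ : |y| ≤ τ := by
      refine hy.trans ?_
      rw [div_le_iff₀ hN0]
      rw [div_le_iff₀ hτ0] at h3
      linarith
    have hmem : (x : ℂ) + y * Complex.I ∈ Rc (2 * ρ) (2 * τ) := by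
      constructor
      · have : ((x : ℂ) + y * Complex.I).re = x := by simp
        rw [this]; linarith
      · have : ((x : ℂ) + y * Complex.I).im = y := by simp
        rw [this]; linarith
    obtain ⟨k1, k2⟩ := h2 _ hmem
    have k3 := (abs_le.1 k2).2
    have k4 : Real.log ‖X N (x + y * Complex.I)‖ ≤ N * (F (x + y * Complex.I)).re + g * N := by
      linarith
    rw [Real.log_le_iff_le_exp (norm_pos_iff.2 k1)] at k4
    refine k4.trans (Real.exp_le_exp.2 ?_)
    have k5 := (Complex.re_le_norm _).trans (hLF x y hρx hyτ)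
    rw [Complex.sub_re] at k5
    have k6 := hdec x hρx
    have k7 : (|x| + |y|) * |y| ≤ 2 * (1 / N) := by
      have e1 : |y| ≤ 1 := hy.trans (by rw [div_le_one hN0]; exact hN1)
      have e2 : |x| ≤ 1 := by linarith
      have e3 : |x| + |y| ≤ 2 := by linarith
      exact mul_le_mul e3 hy (abs_nonneg _) (by norm_num)
    have k8 : L * ((|x| + |y|) * |y|) ≤ g := by
      refine (mul_le_mul_of_nonneg_left k7 hL).trans ?_
      have e : L * (2 * (1 / (N : ℝ))) = 2 * L / N := by ring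
      rw [e, div_le_iff₀ hN0]
      rw [div_le_iff₀ hg0] at h4
      linarith
    have k9 : 4 * g ≤ c / 4 * x ^ 2 := by
      rw [hg]
      have : r ^ 2 ≤ x ^ 2 := by
        rw [← sq_abs x]
        gcongr
      nlinarith
    have k10 : min (κ / 2) g ≤ g := min_le_right _ _
    nlinarith

/-- **The integrand at the nodes.** -/
theorem node_est {ρ τ κ c : ℝ} {s dl : ℂ → ℂ → ℂ} (hK : KD ρ τ κ c s dl) {ε₀ ρ₂ τ₂ : ℝ}
    (hρ₂ : ρ₂ ≤ ρ) (hτ₂ : τ₂ ≤ τ) (hρ20 : 0 < ρ₂) (hτ20 : 0 < τ₂)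
    (hH : ∀ (t : ℕ) (F : ℂ → ℂ), 1 ≤ t → DifferentiableOn ℂ F (Rc (3 * ρ) (3 * τ)) →
      (∀ ψ ∈ Rc (3 * ρ) (3 * τ), F (-ψ) = F ψ) →
      (∀ ψ ∈ Rc (3 * ρ) (3 * τ), ‖F ψ - F 0 - t * (s 0 ψ - s 0 0)‖ ≤ t * ε₀) →
      ∀ x : ℝ, |x| ≤ ρ → (F x).re ≤ (F 0).re - c / 4 * x ^ 2)
    {t m : ℕ} {X : ℕ → ℂ → ℂ} {F : ℂ → ℂ} {A : ℕ → ℂ → ℂ} (ht : 1 ≤ t)
    (hX : GoodU ρ τ κ ε₀ s t X F) (hA : GX ρ₂ τ₂ m X F A) :
    ∃ (a₂ A₀ : ℂ) (C : ℝ), a₂.re < 0 ∧ A₀ ≠ 0 ∧ 0 < C ∧ ∀ᶠ N : ℕ in atTop, ∀ k < N,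
      ‖Pn m (F 0) N * X N (ps N k) - A₀ * Complex.exp (N * (a₂ * (ps N k : ℂ) ^ 2))‖ ≤ C / N ∧
      ‖(Complex.cos (ps N k) - 1) * (Pn m (F 0) N * X N (ps N k))‖ ≤ C / N ∧
      ‖Complex.sin (ps N k) * (Pn m (F 0) N * deriv (X N) (ps N k)) - 2 * a₂ * N * ps N k *
        Complex.sin (ps N k) * (Pn m (F 0) N * X N (ps N k))‖ ≤ C / N ∧
      ‖(ps N k * Complex.sin (ps N k)) * (Pn m (F 0) N * X N (ps N k))‖ ≤ C / N := by
  obtain ⟨hρ0, hρ1⟩ := hK.hρ
  obtain ⟨hτ0, hτ1⟩ := hK.hτ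
  have hc0 := hK.hc
  have hπ := Real.pi_gt_three
  have hdec : ∀ x : ℝ, |x| ≤ ρ → (F x).re ≤ (F 0).re - c / 4 * x ^ 2 := fun x hx =>
    hH t F ht hX.Fan hX.Fev hX.Fcl x hx
  obtain ⟨δ, hδ⟩ : ∃ δ : ℝ, δ = min ρ₂ τ₂ := ⟨_, rfl⟩
  have hδ0 : 0 < δ := by rw [hδ]; exact lt_min hρ20 hτ20
  have hδρ : δ ≤ ρ := by rw [hδ]; exact (min_le_left _ _).trans hρ₂
  have hball : ∀ u ∈ ball (0 : ℂ) δ, u ∈ Rc ρ₂ τ₂ := by
    intro u hu
    rw [mem_ball_zero_iff, hδ] at hu
    exact ⟨(Complex.abs_re_le_norm u).trans_lt (hu.trans_le (min_le_left _ _)),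
      (Complex.abs_im_le_norm u).trans_lt (hu.trans_le (min_le_right _ _))⟩
  have hRr : Rc ρ₂ τ₂ ⊆ Rc (3 * ρ) (3 * τ) := fun w hw =>
    ⟨by linarith [hw.1], by linarith [hw.2]⟩
  have hFd : DifferentiableOn ℂ F (ball 0 δ) := hX.Fan.mono fun u hu => hRr (hball u hu)
  have hFe : ∀ z ∈ ball (0 : ℂ) δ, F (-z) = F z := fun z hz => hX.Fev z (hRr (hball z hz))
  have hAd : ∀ k, DifferentiableOn ℂ (A k) (ball 0 δ) := fun k => (hA.an k).mono hball
  have hneg : ∀ z ∈ ball (0 : ℂ) δ, -z ∈ ball (0 : ℂ) δ := by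
    intro z hz
    rw [mem_ball_zero_iff] at hz ⊢
    rwa [norm_neg]
  have h00 : (0 : ℂ) ∈ ball (0 : ℂ) δ := mem_ball_self hδ0
  -- the normalised function
  obtain ⟨H, hHdef⟩ : ∃ H : ℕ → ℂ → ℂ, H = fun (N : ℕ) (z : ℂ) => (N : ℂ) ^ (2 * m) * (-1) ^ (N * m) *
    Complex.exp (-(N * F z)) * X N z := ⟨_, rfl⟩
  have hHd : ∀ N, DifferentiableOn ℂ (H N) (ball 0 δ) := by
    intro N
    rw [hHdef]
    have h1 : DifferentiableOn ℂ (fun z => Complex.exp (-((N : ℂ) * F z))) (ball 0 δ) :=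
      ((hFd.const_mul (N : ℂ)).neg).cexp
    exact (h1.const_mul ((N : ℂ) ^ (2 * m) * (-1) ^ (N * m))).mul (hX.an N).differentiableOn
  have hux : UX H A (ball 0 δ) := by
    rw [hHdef]
    exact ux_comp hA.ux (fun z => z) (ball 0 δ) (fun z hz => hball z hz)
  have hux' : UX (fun N z => deriv (H N) z) (fun k z => deriv (A k) z) (ball 0 (δ / 2)) :=
    ux_deriv (by linarith) hHd hAd hux
  -- `A 0` is even
  have hA0e : ∀ z ∈ ball (0 : ℂ) δ, A 0 (-z) = A 0 z := by
    have hlim : ∀ z ∈ ball (0 : ℂ) δ, Tendsto (fun N : ℕ => H N z) atTop (𝓝 (A 0 z)) := by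
      intro z hz
      obtain ⟨C, hC⟩ := hux 1
      rw [tendsto_iff_norm_sub_tendsto_zero]
      have h1 : Tendsto (fun N : ℕ => C / (N : ℝ)) atTop (𝓝 0) :=
        tendsto_const_div_atTop_nhds_zero_nat C
      refine squeeze_zero' (Eventually.of_forall fun N => norm_nonneg _) ?_ h1
      filter_upwards [hC] with N hN
      have := hN z hz
      simpa using this
    intro z hz
    refine tendsto_nhds_unique (hlim _ (hneg z hz)) ((hlim z hz).congr fun N => ?_)
    rw [hHdef]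
    simp only
    rw [hX.ev, hFe z hz]
  obtain ⟨a₂, C1, hC1, hF⟩ := even_exp hδ0 hFd hFe
  obtain ⟨a', C2, hC2, hA0⟩ := even_exp hδ0 (hAd 0) hA0e
  obtain ⟨C3, hC3⟩ := hux 1
  obtain ⟨C4, hC4⟩ := hux' 1
  have hA00 : A 0 0 ≠ 0 := hA.nz 0 (hball 0 h00)
  -- the real part of `a₂`
  have ha₂ : a₂.re ≤ -(c / 4) := by
    by_contra hcon
    push Not at hcon
    obtain ⟨x, hx0, hxδ, hxC⟩ : ∃ x : ℝ, 0 < x ∧ x ≤ δ / 2 ∧ C1 * x ^ 2 < a₂.re + c / 4 := by
      obtain ⟨e, he⟩ : ∃ e : ℝ, e = a₂.re + c / 4 := ⟨_, rfl⟩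
      have he0 : 0 < e := by rw [he]; linarith
      rw [← he]
      have h1 : Tendsto (fun x : ℝ => C1 * x ^ 2) (𝓝[>] 0) (𝓝 0) := by
        have : Tendsto (fun x : ℝ => C1 * x ^ 2) (𝓝 0) (𝓝 (C1 * 0 ^ 2)) :=
          (Continuous.tendsto (by fun_prop) 0)
        rw [zero_pow two_ne_zero, mul_zero] at this
        exact this.mono_left nhdsWithin_le_nhds
      have h2 := h1.eventually_lt_const he0
      have h3 : ∀ᶠ x : ℝ in 𝓝[>] 0, x ∈ Set.Ioo (0 : ℝ) (δ / 2) :=
        Ioo_mem_nhdsGT (by linarith)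
      obtain ⟨x, h4, h5⟩ := (h2.and h3).exists
      exact ⟨x, h5.1, h5.2.le, h4⟩
    have h1 := hdec x (by rw [abs_of_pos hx0]; linarith)
    have h2 := (hF x (by rw [Complex.norm_real, Real.norm_eq_abs, abs_of_pos hx0]; exact hxδ)).2.2.1
    have h3 := (Complex.abs_re_le_norm _).trans h2
    rw [Complex.norm_real, Real.norm_eq_abs, abs_of_pos hx0] at h3
    have h4 : (F x - F 0 - a₂ * (x : ℂ) ^ 2).re = (F x).re - (F 0).re - a₂.re * x ^ 2 := by
      rw [Complex.sub_re, Complex.sub_re]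
      have : a₂ * (x : ℂ) ^ 2 = a₂ * ((x ^ 2 : ℝ) : ℂ) := by push_cast; ring
      rw [this, Complex.re_mul_ofReal]
    rw [h4] at h3
    have h5 := (abs_le.1 h3).1
    have h6 : (a₂.re + c / 4) * x ^ 2 ≤ C1 * x ^ 2 * x ^ 2 := by nlinarith
    have h7 : a₂.re + c / 4 ≤ C1 * x ^ 2 := le_of_mul_le_mul_right h6 (by positivity)
    linarith
  -- the radius
  obtain ⟨r, hr0, hrδ, hrC, hr1⟩ : ∃ r : ℝ, 0 < r ∧ r < δ / 2 ∧ C1 * r ^ 2 ≤ c / 8 ∧ r ≤ 1 := by
    have h1 : Tendsto (fun x : ℝ => C1 * x ^ 2) (𝓝[>] 0) (𝓝 0) := by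
      have : Tendsto (fun x : ℝ => C1 * x ^ 2) (𝓝 0) (𝓝 (C1 * 0 ^ 2)) :=
        (Continuous.tendsto (by fun_prop) 0)
      rw [zero_pow two_ne_zero, mul_zero] at this
      exact this.mono_left nhdsWithin_le_nhds
    have h2 := h1.eventually_lt_const (show (0 : ℝ) < c / 8 by positivity)
    have h3 : ∀ᶠ x : ℝ in 𝓝[>] 0, x ∈ Set.Ioo (0 : ℝ) (min (δ / 2) 1) :=
      Ioo_mem_nhdsGT (lt_min (by linarith) one_pos)
    obtain ⟨x, h4, h5⟩ := (h2.and h3).exists
    exact ⟨x, h5.1, h5.2.trans_le (min_le_left _ _), h4.le, (h5.2.trans_le (min_le_right _ _)).le⟩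
  obtain ⟨κ', hκ', hfar⟩ := far_bd hK ht hX hdec (show (0 : ℝ) < r / 2 by positivity)
  -- constants
  obtain ⟨α, hα⟩ : ∃ α : ℝ, α = ‖A 0 0‖ := ⟨_, rfl⟩
  have hα0 : 0 ≤ α := by rw [hα]; exact norm_nonneg _
  have hC30 : 0 ≤ |C3| := abs_nonneg _
  have hC40 : 0 ≤ |C4| := abs_nonneg _
  obtain ⟨B, hB⟩ : ∃ B : ℝ, B = α + C2 + |C3| := ⟨_, rfl⟩
  have hB0 : 0 ≤ B := by rw [hB]; positivity
  obtain ⟨C, hC⟩ : ∃ C : ℝ, C = 1 + α + (|C3| + C2 * (4 / c)) + α * (C1 * (4 / (c / 8) ^ 2)) +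
    B * (4 / c) + (B * C1 * (4 / (c / 4) ^ 2) + (C2 * (4 / c) + |C4|)) + ‖a₂‖ := ⟨_, rfl⟩
  have p0 : 0 ≤ ‖a₂‖ := norm_nonneg _
  have p1 : 0 ≤ C2 * (4 / c) := by positivity
  have p2 : 0 ≤ α * (C1 * (4 / (c / 8) ^ 2)) := by positivity
  have p3 : 0 ≤ B * (4 / c) := by positivity
  have p4 : 0 ≤ B * C1 * (4 / (c / 4) ^ 2) := by positivity
  have hCpos : 0 < C := by rw [hC]; linarith
  refine ⟨a₂, A 0 0, C, by linarith, hA00, hCpos, ?_⟩
  have hevr : ∀ᶠ N : ℕ in atTop, 1 / r ≤ N := eventually_ge_atTop ⌈1 / r⌉₊ |>.mono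
    fun N hN => (Nat.le_ceil _).trans (by exact_mod_cast hN)
  filter_upwards [hC3, hC4, hfar, exp_small κ' hκ' (2 * m + 2) 1,
    exp_small (c / 4 * r ^ 2) (by positivity) 0 1, eventually_ge_atTop 10, hevr] with
    N h1 h2 h3 h4 h5 h6 h7 k hk
  have hN1 : (10 : ℝ) ≤ N := by exact_mod_cast h6
  have hN0 : (0 : ℝ) < N := by linarith
  have hNn : 0 < N := by omega
  obtain ⟨x, hx⟩ : ∃ x : ℝ, x = ps N k := ⟨_, rfl⟩
  rw [← hx]
  obtain ⟨P, hP⟩ : ∃ P : ℂ, P = Pn m (F 0) N := ⟨_, rfl⟩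
  rw [← hP]
  have hxn : ‖(x : ℂ)‖ = |x| := by rw [Complex.norm_real, Real.norm_eq_abs]
  have hcos : ‖Complex.cos (x : ℂ) - 1‖ ≤ x ^ 2 := by
    rw [← Complex.ofReal_cos, ← Complex.ofReal_one, ← Complex.ofReal_sub, Complex.norm_real,
      Real.norm_eq_abs, abs_le]
    have a1 := Real.one_sub_sq_div_two_le_cos (x := x)
    have a2 := Real.cos_le_one x
    constructor <;> nlinarith [sq_nonneg x]
  have hsin : ‖Complex.sin (x : ℂ)‖ ≤ |x| := by
    rw [← Complex.ofReal_sin, Complex.norm_real, Real.norm_eq_abs]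
    exact Real.abs_sin_le_abs
  have hsin1 : ‖Complex.sin (x : ℂ)‖ ≤ 1 := by
    rw [← Complex.ofReal_sin, Complex.norm_real, Real.norm_eq_abs]
    exact Real.abs_sin_le_one x
  rcases lt_or_ge |x| r with hxr | hxr
  · -- near the origin
    have hxδ : ‖(x : ℂ)‖ ≤ δ / 2 := by rw [hxn]; linarith
    have hxb : (x : ℂ) ∈ ball (0 : ℂ) δ := by rw [mem_ball_zero_iff]; linarith
    have hxb2 : (x : ℂ) ∈ ball (0 : ℂ) (δ / 2) := by rw [mem_ball_zero_iff, hxn]; linarith
    have hx1 : |x| ≤ 1 := by linarith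
    have hx2 : x ^ 2 ≤ 1 := by rw [← sq_abs]; exact pow_le_one₀ (abs_nonneg _) hx1
    obtain ⟨f1, f2, f3, f4⟩ := hF x hxδ
    obtain ⟨g1, g2, -, -⟩ := hA0 x hxδ
    have u1 := h1 x hxb
    have u2 := h2 x hxb2
    simp only [range_one, sum_singleton, pow_zero, div_one, pow_one] at u1 u2
    have u1' : ‖H N x - A 0 x‖ ≤ |C3| / N := u1.trans (by gcongr; exact le_abs_self _)
    have u2' : ‖deriv (H N) x - deriv (A 0) x‖ ≤ |C4| / N := u2.trans (by gcongr; exact le_abs_self _)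
    rw [hxn, sq_abs] at g1
    rw [hxn] at g2 f2 f3 f4
    have hx4 : |x| ^ 4 = x ^ 4 := by
      rw [show (4 : ℕ) = 2 * 2 by norm_num, pow_mul, sq_abs, ← pow_mul]
    rw [hx4] at f3
    have v1 : ‖H N x - A 0 0‖ ≤ |C3| / N + C2 * x ^ 2 := by
      have : H N x - A 0 0 = (H N x - A 0 x) + (A 0 x - A 0 0) := by ring
      rw [this]
      exact (norm_add_le _ _).trans (add_le_add u1' g1)
    have v2 : ‖H N x‖ ≤ B := by
      have : H N x = A 0 0 + (H N x - A 0 0) := by ring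
      rw [this]
      refine (norm_add_le _ _).trans ?_
      rw [hB, ← hα]
      have e1 : |C3| / N ≤ |C3| := div_le_self hC30 (by linarith)
      have e2 : C2 * x ^ 2 ≤ C2 := by nlinarith
      linarith
    have v3 : ‖deriv (H N) x‖ ≤ |C4| / N + C2 * |x| := by
      have : deriv (H N) x = (deriv (H N) x - deriv (A 0) x) + deriv (A 0) x := by ring
      rw [this]
      exact (norm_add_le _ _).trans (add_le_add u2' g2)
    -- the exponential
    obtain ⟨E, hE⟩ : ∃ E : ℂ, E = Complex.exp (N * (F x - F 0)) := ⟨_, rfl⟩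
    have hEn : ‖E‖ ≤ Real.exp (-(c / 4 * N * x ^ 2)) := by
      rw [hE, Complex.norm_exp]
      refine Real.exp_le_exp.2 ?_
      have e1 : ((N : ℂ) * (F x - F 0)).re = N * ((F x).re - (F 0).re) := by simp
      rw [e1]
      have := hdec x (by linarith)
      nlinarith
    have hPX : P * X N x = E * H N x := by
      rw [hP, hE, hHdef]
      unfold Pn
      simp only
      have e1 : Complex.exp (N * (F x - F 0)) = Complex.exp (-(N * F 0)) *
          Complex.exp (N * F x) := by rw [← Complex.exp_add]; ring_nf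
      have e2 : Complex.exp (N * F x) * Complex.exp (-(N * F x)) = 1 := by
        rw [← Complex.exp_add, add_neg_cancel, Complex.exp_zero]
      rw [e1]
      linear_combination (-((N : ℂ) ^ (2 * m) * (-1) ^ (N * m) * Complex.exp (-(N * F 0)) *
        X N x)) * e2
    have hPX' : P * deriv (X N) x = E * (N * deriv F x * H N x + deriv (H N) x) := by
      have e0 : (fun z => P * X N z) =ᶠ[𝓝 (x : ℂ)]
          fun z => Complex.exp (N * (F z - F 0)) * H N z := by
        filter_upwards [isOpen_ball.mem_nhds hxb] with z _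
        rw [hP, hHdef]
        unfold Pn
        simp only
        have e1 : Complex.exp (N * (F z - F 0)) = Complex.exp (-(N * F 0)) *
            Complex.exp (N * F z) := by rw [← Complex.exp_add]; ring_nf
        have e2 : Complex.exp (N * F z) * Complex.exp (-(N * F z)) = 1 := by
          rw [← Complex.exp_add, add_neg_cancel, Complex.exp_zero]
        rw [e1]
        linear_combination (-((N : ℂ) ^ (2 * m) * (-1) ^ (N * m) * Complex.exp (-(N * F 0)) *
          X N z)) * e2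
      have d1 : HasDerivAt (fun z => P * X N z) (P * deriv (X N) x) (x : ℂ) :=
        ((hX.an N x).hasDerivAt).const_mul P
      have d2 : HasDerivAt F (deriv F x) (x : ℂ) :=
        ((hFd x hxb).differentiableAt (isOpen_ball.mem_nhds hxb)).hasDerivAt
      have d3 : HasDerivAt (H N) (deriv (H N) x) (x : ℂ) :=
        ((hHd N x hxb).differentiableAt (isOpen_ball.mem_nhds hxb)).hasDerivAt
      have d4 := (((d2.sub_const (F 0)).const_mul (N : ℂ)).cexp).mul d3
      have d5 := d1.unique (d4.congr_of_eventuallyEq e0)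
      rw [d5, hE]
      ring
    have hPXn : ‖P * X N x‖ ≤ B * Real.exp (-(c / 4 * N * x ^ 2)) := by
      rw [hPX, norm_mul, mul_comm]
      exact mul_le_mul v2 hEn (norm_nonneg _) hB0
    have ga2 := gau2 (c := c / 4) (by positivity) hNn x
    have ga4 := gau4 (c := c / 4) (by positivity) hNn x
    have ga4' := gau4 (c := c / 8) (by positivity) hNn x
    have e4c : 1 / (c / 4) = 4 / c := by field_simp
    rw [e4c] at ga2
    have hex1 : Real.exp (-(c / 4 * N * x ^ 2)) ≤ 1 := by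
      rw [Real.exp_le_one_iff]
      have : 0 ≤ c / 4 * N * x ^ 2 := by positivity
      linarith
    have hex0 := Real.exp_pos (-(c / 4 * N * x ^ 2))
    refine ⟨?_, ?_, ?_, ?_⟩
    · have w1 : P * X N x - A 0 0 * Complex.exp (N * (a₂ * (x : ℂ) ^ 2)) =
          E * (H N x - A 0 0) + A 0 0 * (E - Complex.exp (N * (a₂ * (x : ℂ) ^ 2))) := by
        rw [hPX]; ring
      have w2 : ‖E * (H N x - A 0 0)‖ ≤ (|C3| + C2 * (4 / c)) / N := by
        rw [norm_mul]
        calc ‖E‖ * ‖H N x - A 0 0‖ ≤ Real.exp (-(c / 4 * N * x ^ 2)) * (|C3| / N + C2 * x ^ 2) :=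
              mul_le_mul hEn v1 (norm_nonneg _) hex0.le
          _ = Real.exp (-(c / 4 * N * x ^ 2)) * (|C3| / N) + C2 * (x ^ 2 *
                Real.exp (-(c / 4 * N * x ^ 2))) := by ring
          _ ≤ 1 * (|C3| / N) + C2 * (4 / c / N) := by gcongr
          _ = _ := by ring
      have w3 : ‖E - Complex.exp (N * (a₂ * (x : ℂ) ^ 2))‖ ≤ C1 * (4 / (c / 8) ^ 2) / N := by
        rw [hE]
        refine (exp_diff _ _).trans ?_
        have q1 : ‖(N : ℂ) * (F x - F 0) - N * (a₂ * (x : ℂ) ^ 2)‖ ≤ C1 * (N * x ^ 4) := by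
          rw [← mul_sub, norm_mul, Complex.norm_natCast]
          nlinarith
        have q2 : C1 * (N * x ^ 4) ≤ c / 8 * N * x ^ 2 := by
          have q3 : x ^ 2 ≤ r ^ 2 := by
            rw [← sq_abs]
            exact pow_le_pow_left₀ (abs_nonneg _) hxr.le 2
          have q4 : C1 * x ^ 2 ≤ c / 8 := (mul_le_mul_of_nonneg_left q3 hC1).trans hrC
          calc C1 * (N * x ^ 4) = (C1 * x ^ 2) * (N * x ^ 2) := by ring
            _ ≤ (c / 8) * (N * x ^ 2) := by gcongr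
            _ = _ := by ring
        have q5 : ((N : ℂ) * (a₂ * (x : ℂ) ^ 2)).re ≤ -(c / 4 * N * x ^ 2) := by
          have : (N : ℂ) * (a₂ * (x : ℂ) ^ 2) = a₂ * ((N * x ^ 2 : ℝ) : ℂ) := by push_cast; ring
          rw [this, Complex.re_mul_ofReal]
          have : 0 ≤ N * x ^ 2 := by positivity
          nlinarith
        calc Real.exp ((N : ℂ) * (a₂ * (x : ℂ) ^ 2)).re *
              (‖(N : ℂ) * (F x - F 0) - N * (a₂ * (x : ℂ) ^ 2)‖ *
                Real.exp ‖(N : ℂ) * (F x - F 0) - N * (a₂ * (x : ℂ) ^ 2)‖)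
            ≤ Real.exp (-(c / 4 * N * x ^ 2)) * (C1 * (N * x ^ 4) *
              Real.exp (c / 8 * N * x ^ 2)) := by
                gcongr
                exact q1.trans q2
          _ = C1 * (N * x ^ 4 * Real.exp (-(c / 8 * N * x ^ 2))) := by
              have : Real.exp (-(c / 4 * N * x ^ 2)) * Real.exp (c / 8 * N * x ^ 2) =
                  Real.exp (-(c / 8 * N * x ^ 2)) := by rw [← Real.exp_add]; ring_nf
              rw [← this]; ring
          _ ≤ C1 * (4 / (c / 8) ^ 2 / N) := by gcongr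
          _ = _ := by ring
      rw [w1]
      refine (norm_add_le _ _).trans ?_
      rw [norm_mul (A 0 0), ← hα]
      have w4 : α * ‖E - Complex.exp (N * (a₂ * (x : ℂ) ^ 2))‖ ≤
          α * (C1 * (4 / (c / 8) ^ 2)) / N := by
        rw [mul_div_assoc]
        gcongr
      refine (add_le_add w2 w4).trans ?_
      rw [← add_div]
      gcongr
      rw [hC]
      linarith
    · rw [norm_mul]
      calc ‖Complex.cos (x : ℂ) - 1‖ * ‖P * X N x‖ ≤ x ^ 2 * (B *
            Real.exp (-(c / 4 * N * x ^ 2))) := mul_le_mul hcos hPXn (norm_nonneg _) (sq_nonneg _)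
        _ = B * (x ^ 2 * Real.exp (-(c / 4 * N * x ^ 2))) := by ring
        _ ≤ B * (4 / c / N) := by gcongr
        _ = B * (4 / c) / N := by ring
        _ ≤ C / N := by
            gcongr
            rw [hC]
            linarith
    · have w1 : Complex.sin (x : ℂ) * (P * deriv (X N) x) - 2 * a₂ * N * x *
          Complex.sin x * (P * X N x) = Complex.sin x * (E * (N * (deriv F x - 2 * a₂ * x) *
            H N x + deriv (H N) x)) := by
        rw [hPX, hPX']; ring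
      rw [w1, norm_mul, norm_mul]
      have w2 : ‖(N : ℂ) * (deriv F x - 2 * a₂ * x) * H N x + deriv (H N) x‖ ≤
          N * (C1 * |x| ^ 3) * B + (|C4| / N + C2 * |x|) := by
        refine (norm_add_le _ _).trans (add_le_add ?_ v3)
        rw [norm_mul, norm_mul, Complex.norm_natCast]
        gcongr
      have w3 : |x| * (N * (C1 * |x| ^ 3) * B + (|C4| / N + C2 * |x|)) =
          B * C1 * (N * x ^ 4) + (|C4| / N * |x| + C2 * x ^ 2) := by
        rw [← hx4, ← sq_abs x]; ring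
      calc ‖Complex.sin (x : ℂ)‖ * (‖E‖ * ‖(N : ℂ) * (deriv F x - 2 * a₂ * x) * H N x +
            deriv (H N) x‖) ≤ |x| * (Real.exp (-(c / 4 * N * x ^ 2)) *
              (N * (C1 * |x| ^ 3) * B + (|C4| / N + C2 * |x|))) := by gcongr
        _ = Real.exp (-(c / 4 * N * x ^ 2)) * (|x| * (N * (C1 * |x| ^ 3) * B +
              (|C4| / N + C2 * |x|))) := by ring
        _ = B * C1 * (N * x ^ 4 * Real.exp (-(c / 4 * N * x ^ 2))) +
              (|C4| / N * |x| * Real.exp (-(c / 4 * N * x ^ 2)) +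
                C2 * (x ^ 2 * Real.exp (-(c / 4 * N * x ^ 2)))) := by rw [w3]; ring
        _ ≤ B * C1 * (4 / (c / 4) ^ 2 / N) + (|C4| / N * 1 * 1 + C2 * (4 / c / N)) := by gcongr
        _ = (B * C1 * (4 / (c / 4) ^ 2) + (C2 * (4 / c) + |C4|)) / N := by ring
        _ ≤ C / N := by
            gcongr
            rw [hC]
            linarith
    · rw [norm_mul, norm_mul, hxn]
      calc |x| * ‖Complex.sin (x : ℂ)‖ * ‖P * X N x‖ ≤ |x| * |x| * (B *
            Real.exp (-(c / 4 * N * x ^ 2))) := by gcongr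
        _ = B * (x ^ 2 * Real.exp (-(c / 4 * N * x ^ 2))) := by rw [← sq_abs x]; ring
        _ ≤ B * (4 / c / N) := by gcongr
        _ = B * (4 / c) / N := by ring
        _ ≤ C / N := by
            gcongr
            rw [hC]
            linarith
  · -- away from the origin
    have hkN : (k : ℝ) + 1 ≤ N := by exact_mod_cast hk
    have hk0 : (0 : ℝ) ≤ k := Nat.cast_nonneg k
    have hxπ : |x| ≤ π - π / N := by
      rw [hx]
      unfold ps
      rw [abs_div, abs_mul, abs_of_pos Real.pi_pos, abs_of_pos hN0, div_le_iff₀ hN0]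
      have e1 : |2 * (k : ℝ) + 1 - N| ≤ N - 1 := by
        rw [abs_le]
        constructor <;> linarith
      have e2 : (π - π / N) * N = π * (N - 1) := by field_simp
      rw [e2]
      exact mul_le_mul_of_nonneg_left e1 Real.pi_pos.le
    have hNpi : 1 / (2 * (N : ℝ)) ≤ π / N := by
      rw [div_le_div_iff₀ (by positivity) hN0]
      nlinarith
    have hNr : 1 / (2 * (N : ℝ)) ≤ r / 2 := by
      rw [div_le_iff₀ hr0] at h7
      rw [div_le_div_iff₀ (by positivity) (by norm_num)]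
      linarith
    have hsup : ∀ w ∈ sphere (x : ℂ) (1 / (2 * N)), ‖X N w‖ ≤
        Real.exp (N * ((F 0).re - κ')) := by
      intro w hw
      rw [mem_sphere, dist_eq_norm] at hw
      have e1 : |w.re - x| ≤ 1 / (2 * N) := by
        have := Complex.abs_re_le_norm (w - x)
        rw [hw] at this
        simpa using this
      have e2 : |w.im| ≤ 1 / (2 * N) := by
        have := Complex.abs_im_le_norm (w - x)
        rw [hw] at this
        simpa using this
      have e3 := h3 w.re w.im ?_ ?_ ?_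
      · rwa [Complex.re_add_im] at e3
      · have := abs_sub_abs_le_abs_sub x w.re
        rw [abs_sub_comm] at this
        linarith
      · have := abs_sub_abs_le_abs_sub w.re x
        linarith
      · refine e2.trans ?_
        gcongr
        linarith
    have hcen : ‖X N x‖ ≤ Real.exp (N * ((F 0).re - κ')) := by
      have := h3 x 0 (by linarith) (by have := div_nonneg Real.pi_pos.le hN0.le; linarith)
        (by rw [abs_zero]; positivity)
      simpa using this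
    have hder : ‖deriv (X N) x‖ ≤ 2 * N * Real.exp (N * ((F 0).re - κ')) := by
      have := Complex.norm_deriv_le_of_forall_mem_sphere_norm_le
        (show 0 < 1 / (2 * (N : ℝ)) by positivity) (hX.an N).diffContOnCl hsup
      refine this.trans (le_of_eq ?_)
      field_simp
    have hPn : ‖P‖ = (N : ℝ) ^ (2 * m) * Real.exp (-(N * (F 0).re)) := by rw [hP, norm_Pn]
    obtain ⟨e, he⟩ : ∃ e : ℝ, e = (N : ℝ) ^ (2 * m) * Real.exp (-(κ' * N)) := ⟨_, rfl⟩
    have he0 : 0 ≤ e := by rw [he]; positivity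
    have he1 : e * N ^ 2 ≤ 1 / N := by
      rw [he]
      calc (N : ℝ) ^ (2 * m) * Real.exp (-(κ' * N)) * N ^ 2 = (N : ℝ) ^ (2 * m + 2) *
            Real.exp (-(κ' * N)) := by ring
        _ ≤ 1 / (N : ℝ) ^ 1 := h4
        _ = _ := by rw [pow_one]
    have he2 : (N : ℝ) ^ (2 * m) * Real.exp (-(N * (F 0).re)) *
        Real.exp (N * ((F 0).re - κ')) = e := by
      rw [he, mul_assoc, ← Real.exp_add]
      ring_nf
    have hPXe : ‖P * X N x‖ ≤ e := by
      rw [norm_mul, hPn, ← he2]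
      gcongr
    have hPX'e : ‖P * deriv (X N) x‖ ≤ 2 * N * e := by
      rw [norm_mul, hPn, ← he2]
      calc (N : ℝ) ^ (2 * m) * Real.exp (-(N * (F 0).re)) * ‖deriv (X N) x‖
          ≤ (N : ℝ) ^ (2 * m) * Real.exp (-(N * (F 0).re)) * (2 * N *
            Real.exp (N * ((F 0).re - κ'))) := by gcongr
        _ = _ := by ring
    have hxπ' : |x| ≤ 4 := by
      have := Real.pi_lt_d2
      have := div_nonneg Real.pi_pos.le hN0.le
      linarith
    have hee : e ≤ 1 / (100 * N) := by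
      have e1 : e * 100 ≤ 1 / N := by
        refine le_trans ?_ he1
        have h100 : (100 : ℝ) ≤ N ^ 2 := by nlinarith only [hN1]
        gcongr
      have e2 : (1 : ℝ) / (100 * N) = 1 / N / 100 := by field_simp
      rw [e2, le_div_iff₀ (by norm_num)]
      exact e1
    have heN : N * e ≤ 1 / (10 * N) := by
      have e1 : N * e * 10 ≤ 1 / N := by
        refine le_trans ?_ he1
        have := mul_nonneg (mul_nonneg he0 hN0.le) (sub_nonneg.2 hN1)
        linarith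
      have e2 : (1 : ℝ) / (10 * N) = 1 / N / 10 := by field_simp
      rw [e2, le_div_iff₀ (by norm_num)]
      exact e1
    have hone : 1 / (N : ℝ) ≤ C / N := by
      gcongr
      rw [hC]
      linarith
    refine ⟨?_, ?_, ?_, ?_⟩
    · refine (norm_sub_le _ _).trans ?_
      have w1 : ‖A 0 0 * Complex.exp (N * (a₂ * (x : ℂ) ^ 2))‖ ≤ α * (1 / N) := by
        rw [norm_mul, ← hα, Complex.norm_exp]
        refine mul_le_mul_of_nonneg_left ?_ hα0
        have q5 : ((N : ℂ) * (a₂ * (x : ℂ) ^ 2)).re ≤ -(c / 4 * r ^ 2 * N) := by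
          have : (N : ℂ) * (a₂ * (x : ℂ) ^ 2) = a₂ * ((N * x ^ 2 : ℝ) : ℂ) := by push_cast; ring
          rw [this, Complex.re_mul_ofReal]
          have q3 : r ^ 2 ≤ x ^ 2 := by
            rw [← sq_abs x]
            exact pow_le_pow_left₀ hr0.le hxr 2
          have q6 : N * r ^ 2 ≤ N * x ^ 2 := by gcongr
          have q7 : 0 ≤ N * x ^ 2 := by positivity
          nlinarith
        refine (Real.exp_le_exp.2 q5).trans ?_
        have := h5
        rw [pow_zero, one_mul, pow_one] at this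
        exact this
      have w2 : e ≤ 1 / N := by
        refine hee.trans ?_
        gcongr
        linarith
      refine (add_le_add (hPXe.trans w2) w1).trans ?_
      have w3 : 1 / (N : ℝ) + α * (1 / N) = (1 + α) / N := by ring
      rw [w3]
      gcongr
      rw [hC]
      linarith
    · rw [norm_mul]
      have w1 : ‖Complex.cos (x : ℂ) - 1‖ ≤ 2 := by
        refine (norm_sub_le _ _).trans ?_
        rw [← Complex.ofReal_cos, Complex.norm_real, Real.norm_eq_abs, norm_one]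
        have := Real.abs_cos_le_one x
        linarith
      calc ‖Complex.cos (x : ℂ) - 1‖ * ‖P * X N x‖ ≤ 2 * e := by gcongr
        _ ≤ 2 * (1 / (100 * N)) := by gcongr
        _ ≤ 1 / N := by
            rw [mul_one_div, div_le_div_iff₀ (by positivity) hN0]
            linarith
        _ ≤ C / N := hone
    · obtain ⟨b, hb⟩ : ∃ b : ℝ, b = ‖a₂‖ := ⟨_, rfl⟩
      refine (norm_sub_le _ _).trans ?_
      have w1 : ‖Complex.sin (x : ℂ) * (P * deriv (X N) x)‖ ≤ 2 * (N * e) := by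
        rw [norm_mul]
        calc ‖Complex.sin (x : ℂ)‖ * ‖P * deriv (X N) x‖ ≤ 1 * (2 * N * e) := by gcongr
          _ = _ := by ring
      have w2 : ‖2 * a₂ * N * x * Complex.sin (x : ℂ) * (P * X N x)‖ ≤ 8 * b * (N * e) := by
        rw [norm_mul, norm_mul, norm_mul, norm_mul, norm_mul, Complex.norm_ofNat,
          Complex.norm_natCast, hxn, ← hb]
        calc 2 * b * N * |x| * ‖Complex.sin (x : ℂ)‖ * ‖P * X N x‖ ≤ 2 * b * N * 4 * 1 * e := by
              have : 0 ≤ b := by rw [hb]; exact norm_nonneg _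
              gcongr
          _ = _ := by ring
      have w3 : 2 * (N * e) + 8 * b * (N * e) ≤ (1 + b) / N := by
        have hb0 : 0 ≤ b := by rw [hb]; exact norm_nonneg _
        calc 2 * (N * e) + 8 * b * (N * e) = (2 + 8 * b) * (N * e) := by ring
          _ ≤ (2 + 8 * b) * (1 / (10 * N)) := by gcongr
          _ ≤ (1 + b) / N := by
              rw [mul_one_div, div_le_div_iff₀ (by positivity) hN0]
              nlinarith [mul_nonneg hb0 hN0.le]
      refine (add_le_add w1 w2).trans (w3.trans ?_)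
      gcongr
      rw [hC, hb]
      linarith
    · rw [norm_mul, norm_mul, hxn]
      calc |x| * ‖Complex.sin (x : ℂ)‖ * ‖P * X N x‖ ≤ 4 * 1 * e := by gcongr
        _ ≤ 4 * 1 * (1 / (100 * N)) := by gcongr
        _ ≤ 1 / N := by
            rw [mul_one, mul_one_div, div_le_div_iff₀ (by positivity) hN0]
            linarith
        _ ≤ C / N := hone

end Pool.Agent.Q99.VC
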