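import Pool.Agent.Q99.VC.Theta2
import Pool.Agent.Q99.VC.Theta4
import Pool.Agent.Q99.VC.Disc

/-!
# The sums over the nodes and the theta constants
-/

set_option autoImplicit false

namespace Pool.Agent.Q99.VC

open Filter Finset Topology Metric
open Pool.Agent.W711.HT hiding XX sv
open Pool.Agent.W719.AR (ps)
open scoped Real

/-- the terms of the theta series -/
noncomputable def ft (N : ℕ) (τ : ℂ) (j : ℤ) : ℂ :=
  Complex.exp (π * Complex.I * (2 * (j : ℂ) + 1 - N) ^ 2 * τ / 4)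

lemma norm_ft (N : ℕ) (τ : ℂ) (j : ℤ) :
    ‖ft N τ j‖ = Real.exp (-(π * (2 * (j : ℝ) + 1 - N) ^ 2 * τ.im / 4)) := by
  unfold ft
  rw [Complex.norm_exp]
  congr 1
  have : (π * Complex.I * (2 * (j : ℂ) + 1 - N) ^ 2 * τ / 4 : ℂ) =
      ((π * (2 * (j : ℝ) + 1 - N) ^ 2 / 4 : ℝ) : ℂ) * (τ * Complex.I) := by
    push_cast; ring
  rw [this, Complex.re_ofReal_mul]
  simp
  ring

/-- the tail of the theta series -/
lemma theta_tail {β : ℝ} (hβ : 0 < β) : ∃ C : ℝ, 0 < C ∧ ∀ N : ℕ, 0 < N → ∀ τ : ℂ,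
    τ.im = β / N → ‖(if Even N then t2 τ else t3 τ) - ∑ j ∈ range N, ft N τ j‖ ≤ C := by
  have hp := Real.pi_pos
  obtain ⟨r, hr⟩ : ∃ r : ℝ, r = Real.exp (-(π * β)) := ⟨_, rfl⟩
  have hr0 : 0 < r := by rw [hr]; exact Real.exp_pos _
  have hr1 : r < 1 := by
    rw [hr, Real.exp_lt_one_iff]
    have := mul_pos hp hβ
    linarith
  refine ⟨2 * (1 - r)⁻¹, by have : 0 < (1 - r)⁻¹ := inv_pos.2 (by linarith)
                            positivity, fun N hN τ hτ => ?_⟩
  have hNr : (0 : ℝ) < N := by exact_mod_cast hN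
  have him : 0 < τ.im := by rw [hτ]; positivity
  have h1 := theta_hasSum N him
  have h1' : HasSum (ft N τ) (if Even N then t2 τ else t3 τ) := h1
  have s1 : Summable fun n : ℕ => ft N τ (n : ℤ) :=
    h1'.summable.comp_injective Nat.cast_injective
  have s2 : Summable fun n : ℕ => ft N τ (-((n : ℤ) + 1)) :=
    h1'.summable.comp_injective (i := fun n : ℕ => (-((n : ℤ) + 1) : ℤ)) (fun a b h => by
      simp only [neg_inj, add_left_inj, Nat.cast_inj] at h
      exact h)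
  have h2 := tsum_of_nat_of_neg_add_one s1 s2
  rw [h1'.tsum_eq] at h2
  have h3 := s1.sum_add_tsum_nat_add N
  have geo := hasSum_geometric_of_lt_one hr0.le hr1
  have key : ∀ (n : ℕ) (x : ℝ), x ^ 2 = (2 * (n : ℝ) + 1 + N) ^ 2 →
      Real.exp (-(π * x ^ 2 * τ.im / 4)) ≤ r ^ n := by
    intro n x hx
    rw [hx, hr, ← Real.exp_nat_mul, hτ]
    refine Real.exp_le_exp.2 ?_
    have hn : (0 : ℝ) ≤ n := Nat.cast_nonneg n
    have e1 : 4 * (N : ℝ) * n ≤ (2 * (n : ℝ) + 1 + N) ^ 2 := by nlinarith [sq_nonneg (2 * (n : ℝ) + 1 - N)]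
    have e2 : (n : ℝ) * (π * β) ≤ π * (2 * (n : ℝ) + 1 + N) ^ 2 * (β / N) / 4 := by
      have e3 : π * (2 * (n : ℝ) + 1 + N) ^ 2 * (β / N) / 4 =
          (π * β) * ((2 * (n : ℝ) + 1 + N) ^ 2 / (4 * N)) := by field_simp
      rw [e3, mul_comm]
      refine mul_le_mul_of_nonneg_left ?_ (by positivity)
      rw [le_div_iff₀ (by positivity)]
      linarith
    linarith
  have b1 : ‖∑' n : ℕ, ft N τ ((n + N : ℕ) : ℤ)‖ ≤ (1 - r)⁻¹ := by
    refine tsum_of_norm_bounded geo fun n => ?_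
    rw [norm_ft]
    refine key n _ ?_
    push_cast
    ring
  have b2 : ‖∑' n : ℕ, ft N τ (-((n : ℤ) + 1))‖ ≤ (1 - r)⁻¹ := by
    refine tsum_of_norm_bounded geo fun n => ?_
    rw [norm_ft]
    refine key n _ ?_
    push_cast
    ring
  have e : (if Even N then t2 τ else t3 τ) - ∑ j ∈ range N, ft N τ j =
      (∑' n : ℕ, ft N τ ((n + N : ℕ) : ℤ)) + ∑' n : ℕ, ft N τ (-((n : ℤ) + 1)) := by
    rw [h2, ← h3]
    ring
  rw [e]
  refine (norm_add_le _ _).trans ?_
  linarith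

lemma Ea_gauss {N : ℕ} (hN : 0 < N) (A : ℤ) (a₂ : ℂ) (k : ℕ) :
    Ea A N (ps N k) * Complex.exp (N * (a₂ * (ps N k : ℂ) ^ 2)) =
      ft N (ta (4 * π * a₂.im) (-(4 * π * a₂.re)) N A) (k : ℤ) := by
  have hNc : (N : ℂ) ≠ 0 := by exact_mod_cast hN.ne'
  have hpi : (π : ℂ) ≠ 0 := by exact_mod_cast Real.pi_ne_zero
  unfold Ea ft ta ps
  rw [← Complex.exp_add]
  congr 1
  have h1 : (((A : ℝ) + 4 * π * a₂.im : ℝ) : ℂ) + ((-(4 * π * a₂.re) : ℝ) : ℂ) * Complex.I =
      A - 4 * π * Complex.I * a₂ := by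
    conv_rhs => rw [← Complex.re_add_im a₂]
    push_cast
    linear_combination (4 * π * (a₂.im : ℂ)) * Complex.I_sq
  rw [h1]
  push_cast
  field_simp
  linear_combination (4 * π * a₂ * (2 * k + 1 - N) ^ 2) * Complex.I_sq

lemma norm_Ea (A : ℤ) (N : ℕ) (x : ℝ) : ‖Ea A N x‖ = 1 := by
  unfold Ea
  have : (Complex.I * A * N * (x : ℂ) ^ 2 / (4 * π) : ℂ) =
      ((A * N * x ^ 2 / (4 * π) : ℝ) : ℂ) * Complex.I := by
    push_cast; ring
  rw [this, Complex.norm_exp_ofReal_mul_I]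

/-- the sum with a crossing circle -/
noncomputable def Zs (X : ℕ → ℂ → ℂ) (A : ℤ) (N : ℕ) : ℂ :=
  ∑ k ∈ range N, Ea A N (ps N k) * X N (ps N k)

/-- the constant part of the sum without circle -/
noncomputable def S1 (X : ℕ → ℂ → ℂ) (A : ℤ) (N : ℕ) : ℂ :=
  ∑ k ∈ range N, Ea A N (ps N k) * (X N (ps N k) * Complex.cos (ps N k) +
    deriv (X N) (ps N k) * Complex.sin (ps N k))

/-- the linear part of the sum without circle -/
noncomputable def S2 (X : ℕ → ℂ → ℂ) (A : ℤ) (N : ℕ) : ℂ :=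
  Complex.I * N / (2 * π) * ∑ k ∈ range N, Ea A N (ps N k) *
    (ps N k * Complex.sin (ps N k) * X N (ps N k))

/-- **The sums over the nodes and the theta constants.** -/
theorem sums_est {X : ℕ → ℂ → ℂ} {P : ℕ → ℂ} {a₂ A₀ : ℂ} {C : ℝ} (ha : a₂.re < 0)
    (hA₀ : A₀ ≠ 0) (hC : 0 < C)
    (h : ∀ᶠ N : ℕ in atTop, ∀ k < N,
      ‖P N * X N (ps N k) - A₀ * Complex.exp (N * (a₂ * (ps N k : ℂ) ^ 2))‖ ≤ C / N ∧
      ‖(Complex.cos (ps N k) - 1) * (P N * X N (ps N k))‖ ≤ C / N ∧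
      ‖Complex.sin (ps N k) * (P N * deriv (X N) (ps N k)) - 2 * a₂ * N * ps N k *
        Complex.sin (ps N k) * (P N * X N (ps N k))‖ ≤ C / N ∧
      ‖(ps N k * Complex.sin (ps N k)) * (P N * X N (ps N k))‖ ≤ C / N) :
    ∃ α β c₀ C' : ℝ, 0 < β ∧ 0 < c₀ ∧ 0 < C' ∧ ∀ᶠ N : ℕ in atTop, ∀ A : ℤ,
      (c₀ * mn (ta α β N A) - C' ≤ ‖P N * Zs X A N‖ ∧
        ‖P N * Zs X A N‖ ≤ C' * mx (ta α β N A) + C') ∧
      c₀ * mn (ta α β N A) - C' ≤ C' * (‖P N * S1 X A N‖ + ‖P N * S2 X A N‖) ∧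
      ‖P N * S1 X A N‖ ≤ C' * N ∧ ‖P N * S2 X A N‖ ≤ C' * N := by
  have hp := Real.pi_gt_three
  obtain ⟨β, hβ⟩ : ∃ β : ℝ, β = -(4 * π * a₂.re) := ⟨_, rfl⟩
  have hβ0 : 0 < β := by rw [hβ]; nlinarith
  obtain ⟨T, hT, htail⟩ := theta_tail hβ0
  obtain ⟨a, hadef⟩ : ∃ a : ℝ, a = ‖A₀‖ := ⟨_, rfl⟩
  have ha0 : 0 < a := by rw [hadef]; exact norm_pos_iff.2 hA₀
  obtain ⟨b, hb⟩ : ∃ b : ℝ, b = ‖a₂‖ := ⟨_, rfl⟩
  have hb0 : 0 ≤ b := by rw [hb]; exact norm_nonneg _
  obtain ⟨C', hC'⟩ : ∃ C' : ℝ, C' = (C + a * T) + (2 * C + C + a * T) + a + (1 + 4 * π * b) +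
    (4 * C + 2 * C + a + 2 * b * C) := ⟨_, rfl⟩
  have hpb : 0 ≤ π * b := by positivity
  have haT : 0 < a * T := by positivity
  have hbC : 0 ≤ b * C := by positivity
  have hC'0 : 0 < C' := by rw [hC']; nlinarith
  refine ⟨4 * π * a₂.im, β, a, C', hβ0, ha0, hC'0, ?_⟩
  filter_upwards [h, eventually_ge_atTop 1] with N h1 hN1 A
  have hN0 : 0 < N := hN1
  have hNr : (0 : ℝ) < N := by exact_mod_cast hN0
  have hN1r : (1 : ℝ) ≤ N := by exact_mod_cast hN1
  obtain ⟨τ, hτ⟩ : ∃ τ : ℂ, τ = ta (4 * π * a₂.im) β N A := ⟨_, rfl⟩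
  rw [← hτ]
  have hsumN : ∀ (f : ℕ → ℂ) (B : ℝ), (∀ k < N, ‖f k‖ ≤ B / N) → ‖∑ k ∈ range N, f k‖ ≤ B := by
    intro f B hf
    refine (norm_sum_le _ _).trans ?_
    refine (Finset.sum_le_card_nsmul _ _ (B / N) fun k hk => hf k (Finset.mem_range.1 hk)).trans ?_
    rw [Finset.card_range, nsmul_eq_mul]
    exact le_of_eq (by field_simp)
  -- the Gaussian sum
  have hG : ‖P N * Zs X A N - A₀ * (if Even N then t2 τ else t3 τ)‖ ≤ C + a * T := by
    have e1 : P N * Zs X A N - A₀ * (if Even N then t2 τ else t3 τ) =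
        (∑ k ∈ range N, Ea A N (ps N k) * (P N * X N (ps N k) -
          A₀ * Complex.exp (N * (a₂ * (ps N k : ℂ) ^ 2)))) -
        A₀ * ((if Even N then t2 τ else t3 τ) - ∑ j ∈ range N, ft N τ j) := by
      have e2 : ∑ k ∈ range N, Ea A N (ps N k) * (P N * X N (ps N k) -
          A₀ * Complex.exp (N * (a₂ * (ps N k : ℂ) ^ 2))) =
          P N * Zs X A N - A₀ * ∑ j ∈ range N, ft N τ j := by
        unfold Zs
        rw [Finset.mul_sum, Finset.mul_sum, ← Finset.sum_sub_distrib]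
        refine Finset.sum_congr rfl fun k _ => ?_
        have := Ea_gauss hN0 A a₂ k
        rw [← hβ, ← hτ] at this
        rw [← this]
        ring
      rw [e2]
      ring
    rw [e1]
    refine (norm_sub_le _ _).trans (add_le_add ?_ ?_)
    · refine hsumN _ _ fun k hk => ?_
      rw [norm_mul, norm_Ea, one_mul]
      exact (h1 k hk).1
    · rw [norm_mul, ← hadef]
      refine mul_le_mul_of_nonneg_left ?_ ha0.le
      refine htail N hN0 τ ?_
      rw [hτ, ta_im]
  have hlow := mn_le_ite N τ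
  have hupp := ite_le_mx N τ
  obtain ⟨θ, hθ⟩ : ∃ θ : ℂ, θ = if Even N then t2 τ else t3 τ := ⟨_, rfl⟩
  rw [← hθ] at hlow hupp hG
  have hmx0 : 0 ≤ mx τ := (norm_nonneg _).trans hupp
  have hz1 : a * mn τ - (C + a * T) ≤ ‖P N * Zs X A N‖ := by
    have e1 := norm_sub_norm_le (A₀ * θ) (A₀ * θ - P N * Zs X A N)
    rw [sub_sub_cancel, norm_sub_rev (A₀ * θ), norm_mul, ← hadef] at e1
    have e2 := mul_le_mul_of_nonneg_left hlow ha0.le
    linarith
  have hz2 : ‖P N * Zs X A N‖ ≤ a * mx τ + (C + a * T) := by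
    have e1 := norm_add_le (P N * Zs X A N - A₀ * θ) (A₀ * θ)
    rw [sub_add_cancel, norm_mul A₀, ← hadef] at e1
    have e2 := mul_le_mul_of_nonneg_left hupp ha0.le
    linarith
  -- the combination
  have hcomb : ‖P N * S1 X A N + 4 * π * Complex.I * a₂ * (P N * S2 X A N) - P N * Zs X A N‖ ≤
      2 * C := by
    have e1 : P N * S1 X A N + 4 * π * Complex.I * a₂ * (P N * S2 X A N) - P N * Zs X A N =
        ∑ k ∈ range N, Ea A N (ps N k) * ((Complex.cos (ps N k) - 1) * (P N * X N (ps N k)) +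
          (Complex.sin (ps N k) * (P N * deriv (X N) (ps N k)) - 2 * a₂ * N * ps N k *
            Complex.sin (ps N k) * (P N * X N (ps N k)))) := by
      have hpi : (π : ℂ) ≠ 0 := by exact_mod_cast Real.pi_ne_zero
      have e2 : 4 * π * Complex.I * a₂ * (P N * S2 X A N) =
          ∑ k ∈ range N, -(2 * a₂ * N) * P N * (Ea A N (ps N k) *
            (ps N k * Complex.sin (ps N k) * X N (ps N k))) := by
        unfold S2
        rw [← Finset.mul_sum]
        have : 4 * π * Complex.I * a₂ * (P N * (Complex.I * N / (2 * π) *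
            ∑ k ∈ range N, Ea A N (ps N k) * (ps N k * Complex.sin (ps N k) * X N (ps N k)))) =
            (Complex.I ^ 2) * (2 * a₂ * N) * P N * ∑ k ∈ range N, Ea A N (ps N k) *
              (ps N k * Complex.sin (ps N k) * X N (ps N k)) := by
          field_simp
          ring
        rw [this, Complex.I_sq]
        ring
      rw [e2]
      unfold S1 Zs
      rw [Finset.mul_sum, Finset.mul_sum, ← Finset.sum_add_distrib, ← Finset.sum_sub_distrib]
      refine Finset.sum_congr rfl fun k _ => ?_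
      ring
    rw [e1]
    refine hsumN _ _ fun k hk => ?_
    rw [norm_mul, norm_Ea, one_mul]
    refine (norm_add_le _ _).trans ?_
    have := add_le_add (h1 k hk).2.1 (h1 k hk).2.2.1
    refine this.trans (le_of_eq ?_)
    ring
  have hc2 : ‖P N * Zs X A N‖ ≤ ‖P N * S1 X A N‖ + 4 * π * b * ‖P N * S2 X A N‖ + 2 * C := by
    have e1 := norm_sub_le (P N * S1 X A N + 4 * π * Complex.I * a₂ * (P N * S2 X A N))
      (P N * S1 X A N + 4 * π * Complex.I * a₂ * (P N * S2 X A N) - P N * Zs X A N)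
    rw [sub_sub_cancel] at e1
    have e2 := norm_add_le (P N * S1 X A N) (4 * π * Complex.I * a₂ * (P N * S2 X A N))
    have e3 : ‖4 * π * Complex.I * a₂ * (P N * S2 X A N)‖ = 4 * π * b * ‖P N * S2 X A N‖ := by
      rw [norm_mul, norm_mul, norm_mul, norm_mul, Complex.norm_I, Complex.norm_real,
        Complex.norm_ofNat, Real.norm_eq_abs, abs_of_pos Real.pi_pos, hb]
      ring
    rw [e3] at e2
    linarith
  have n1 := norm_nonneg (P N * S1 X A N)
  have n2 := norm_nonneg (P N * S2 X A N)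
  -- the bound of the second sum
  have hs2 : ‖P N * S2 X A N‖ ≤ N * C := by
    have e1 : P N * S2 X A N = Complex.I * N / (2 * π) * ∑ k ∈ range N, Ea A N (ps N k) *
        ((ps N k * Complex.sin (ps N k)) * (P N * X N (ps N k))) := by
      unfold S2
      rw [← mul_assoc, mul_comm (P N) _, mul_assoc, Finset.mul_sum]
      congr 1
      refine Finset.sum_congr rfl fun k _ => ?_
      ring
    rw [e1, norm_mul]
    have e2 : ‖(Complex.I * N / (2 * π) : ℂ)‖ ≤ N := by
      rw [norm_div, norm_mul, norm_mul, Complex.norm_I, Complex.norm_natCast, Complex.norm_real,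
        Complex.norm_ofNat, Real.norm_eq_abs, abs_of_pos Real.pi_pos, one_mul]
      rw [div_le_iff₀ (by positivity)]
      nlinarith
    refine mul_le_mul e2 (hsumN _ _ fun k hk => ?_) (norm_nonneg _) hNr.le
    rw [norm_mul, norm_Ea, one_mul]
    exact (h1 k hk).2.2.2
  -- the bound of the first sum
  have hs1 : ‖P N * S1 X A N‖ ≤ (4 * C + 2 * C + a + 2 * b * C) * N := by
    have hX : ∀ k < N, ‖P N * X N (ps N k)‖ ≤ C + a := by
      intro k hk
      have e1 := norm_add_le (P N * X N (ps N k) - A₀ * Complex.exp (N * (a₂ *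
        (ps N k : ℂ) ^ 2))) (A₀ * Complex.exp (N * (a₂ * (ps N k : ℂ) ^ 2)))
      rw [sub_add_cancel, norm_mul A₀, ← hadef, Complex.norm_exp] at e1
      have e2 : Real.exp ((N : ℂ) * (a₂ * (ps N k : ℂ) ^ 2)).re ≤ 1 := by
        rw [Real.exp_le_one_iff]
        have : (N : ℂ) * (a₂ * (ps N k : ℂ) ^ 2) = a₂ * ((N * ps N k ^ 2 : ℝ) : ℂ) := by
          push_cast; ring
        rw [this, Complex.re_mul_ofReal]
        exact mul_nonpos_of_nonpos_of_nonneg ha.le (by positivity)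
      have e3 : C / N ≤ C := div_le_self hC.le hN1r
      have e4 := (h1 k hk).1
      nlinarith
    have hterm : ∀ k < N, ‖Ea A N (ps N k) * ((P N * X N (ps N k)) * Complex.cos (ps N k) +
        Complex.sin (ps N k) * (P N * deriv (X N) (ps N k)))‖ ≤
        4 * C + 2 * C + a + 2 * b * C := by
      intro k hk
      rw [norm_mul, norm_Ea, one_mul]
      have e1 : ‖(P N * X N (ps N k)) * Complex.cos (ps N k)‖ ≤ C + a := by
        rw [norm_mul]
        have : ‖Complex.cos (ps N k : ℂ)‖ ≤ 1 := by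
          rw [← Complex.ofReal_cos, Complex.norm_real, Real.norm_eq_abs]
          exact Real.abs_cos_le_one _
        calc _ ≤ (C + a) * 1 := mul_le_mul (hX k hk) this (norm_nonneg _) (by positivity)
          _ = _ := mul_one _
      have e2 : ‖Complex.sin (ps N k) * (P N * deriv (X N) (ps N k))‖ ≤ C + 2 * b * C := by
        have f1 := norm_add_le (Complex.sin (ps N k) * (P N * deriv (X N) (ps N k)) -
          2 * a₂ * N * ps N k * Complex.sin (ps N k) * (P N * X N (ps N k)))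
          (2 * a₂ * N * ps N k * Complex.sin (ps N k) * (P N * X N (ps N k)))
        rw [sub_add_cancel] at f1
        have f2 : 2 * a₂ * N * ps N k * Complex.sin (ps N k) * (P N * X N (ps N k)) =
            (2 * a₂ * N) * ((ps N k * Complex.sin (ps N k)) * (P N * X N (ps N k))) := by ring
        have f0 : ‖2 * a₂ * (N : ℂ)‖ = 2 * b * N := by
          rw [norm_mul, norm_mul, Complex.norm_ofNat, Complex.norm_natCast, ← hb]
        rw [f2, norm_mul (2 * a₂ * (N : ℂ)), f0] at f1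
        have f3 := (h1 k hk).2.2.2
        have f4 : 2 * b * N * ‖(ps N k * Complex.sin (ps N k)) * (P N * X N (ps N k))‖ ≤
            2 * b * C := by
          calc 2 * b * N * ‖(ps N k * Complex.sin (ps N k)) * (P N * X N (ps N k))‖ ≤
                2 * b * N * (C / N) := by gcongr
            _ = _ := by field_simp
        have f5 := (h1 k hk).2.2.1
        rw [f2] at f5
        have f6 : C / N ≤ C := div_le_self hC.le hN1r
        linarith
      refine (norm_add_le _ _).trans ?_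
      linarith
    have e1 : P N * S1 X A N = ∑ k ∈ range N, Ea A N (ps N k) * ((P N * X N (ps N k)) *
        Complex.cos (ps N k) + Complex.sin (ps N k) * (P N * deriv (X N) (ps N k))) := by
      unfold S1
      rw [Finset.mul_sum]
      refine Finset.sum_congr rfl fun k _ => ?_
      ring
    rw [e1]
    refine (norm_sum_le _ _).trans ?_
    refine (Finset.sum_le_card_nsmul _ _ _ fun k hk => hterm k (Finset.mem_range.1 hk)).trans ?_
    rw [Finset.card_range, nsmul_eq_mul, mul_comm]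
  refine ⟨⟨?_, ?_⟩, ?_, ?_, ?_⟩
  · refine le_trans ?_ hz1
    rw [hC']
    nlinarith
  · refine hz2.trans ?_
    have e1 : a * mx τ ≤ C' * mx τ := by
      refine mul_le_mul_of_nonneg_right ?_ hmx0
      rw [hC']; nlinarith
    have e2 : C + a * T ≤ C' := by rw [hC']; nlinarith
    linarith
  · have e1 : ‖P N * S1 X A N‖ + 4 * π * b * ‖P N * S2 X A N‖ ≤
        (1 + 4 * π * b) * (‖P N * S1 X A N‖ + ‖P N * S2 X A N‖) := by nlinarith
    have e2 : (1 + 4 * π * b) * (‖P N * S1 X A N‖ + ‖P N * S2 X A N‖) ≤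
        C' * (‖P N * S1 X A N‖ + ‖P N * S2 X A N‖) := by
      refine mul_le_mul_of_nonneg_right ?_ (by positivity)
      rw [hC']; nlinarith
    have e3 : 2 * C + (C + a * T) ≤ C' := by rw [hC']; nlinarith
    linarith
  · refine hs1.trans (mul_le_mul_of_nonneg_right ?_ hNr.le)
    rw [hC']; nlinarith
  · refine hs2.trans ?_
    rw [mul_comm]
    refine mul_le_mul_of_nonneg_right ?_ hNr.le
    rw [hC']; nlinarith

end Pool.Agent.Q99.VC
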