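import Pool.Agent.Q99.VC.Rat3
import Pool.Agent.TH563.UV.Final

/-!
# Twisting by `k N` half twists, `N` even or `k` even
-/

set_option autoImplicit false

namespace Pool.Agent.Q99.VC

open Filter Finset Topology Metric
open Pool.Agent.W711.HT hiding XX
open Pool.Agent.W719.AR
open scoped Real

/-- `-sin (N (ψ + π))` -/
noncomputable def Wd (N : ℕ) (ψ : ℂ) : ℂ := -Complex.sin (N * (ψ + π))

lemma Wd_diff (N : ℕ) : Differentiable ℂ (Wd N) := by
  unfold Wd
  fun_prop

lemma Wd_neg (N : ℕ) (ψ : ℂ) : Wd N (-ψ) = -Wd N ψ := by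
  unfold Wd
  have e : (N : ℂ) * (-ψ + π) = -(N * (ψ + π)) + (N : ℤ) * (2 * π) := by push_cast; ring
  rw [e, Complex.sin_add_int_mul_two_pi, Complex.sin_neg]

lemma node_arg {N : ℕ} (hN : 0 < N) (c : ℤ) :
    (N : ℂ) * (pz N c + π) = ((2 * c + 1 : ℤ) : ℂ) * π := by
  have hN0 : (N : ℂ) ≠ 0 := by exact_mod_cast hN.ne'
  unfold pz
  push_cast
  field_simp
  ring

lemma Wd_node {N : ℕ} (hN : 0 < N) (c : ℤ) : Wd N (pz N c) = 0 := by
  unfold Wd
  rw [node_arg hN, Complex.sin_int_mul_pi, neg_zero]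

lemma Wd_deriv {N : ℕ} (hN : 0 < N) (c : ℤ) : HasDerivAt (Wd N) N (pz N c) := by
  have a1 : HasDerivAt (fun ψ : ℂ => (N : ℂ) * (ψ + π)) N (pz N c) := by
    have := ((hasDerivAt_id (pz N c)).add_const (π : ℂ)).const_mul (N : ℂ)
    simpa using this
  have a2 := ((Complex.hasDerivAt_sin ((N : ℂ) * (pz N c + π))).comp (pz N c) a1).neg
  refine a2.congr_deriv ?_
  have h1 : Complex.cos (((2 * c + 1 : ℤ) : ℂ) * π) = -1 := by
    have : ((2 * c + 1 : ℤ) : ℂ) * π = π + (c : ℤ) * (2 * π) := by push_cast; ring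
    rw [this, Complex.cos_add_int_mul_two_pi, Complex.cos_pi]
  rw [node_arg hN, h1]
  ring

/-- the phase of `k N` half twists -/
noncomputable def uk (k : ℤ) (N : ℕ) : ℂ :=
  if Even N then Complex.exp (Complex.I * (π * k / 4 : ℝ)) else 1

lemma norm_uk (k : ℤ) (N : ℕ) : ‖uk k N‖ = 1 := by
  unfold uk
  split_ifs
  · exact norm_exp_I _
  · exact norm_one

lemma exp_val {k : ℤ} {N : ℕ} (hN : 0 < N) (hk : Even N ∨ Even k) (c : ℤ) :
    Complex.exp (Complex.I * (k * N) * N * pz N c ^ 2 / (4 * π)) = uk k N := by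
  have hN0 : (N : ℂ) ≠ 0 := by exact_mod_cast hN.ne'
  have hpi : (π : ℂ) ≠ 0 := by exact_mod_cast Real.pi_ne_zero
  have e1 : Complex.I * (k * N) * N * pz N c ^ 2 / (4 * π) =
      Complex.I * π * (k * (2 * c + 1 - N) ^ 2 / 4) := by
    unfold pz
    field_simp
  rw [e1]
  unfold uk
  rcases Nat.even_or_odd N with h | h
  · rw [if_pos h]
    obtain ⟨n, hn⟩ := h
    -- `2 c + 1 - N = 2 l + 1`
    set l : ℤ := c - n with hl
    have e2 : (2 * (c:ℂ) + 1 - N) = 2 * l + 1 := by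
      rw [hl, hn]; push_cast; ring
    rw [e2]
    obtain ⟨r, hr⟩ := Int.even_mul_succ_self l
    have e3 : Complex.I * π * (k * (2 * (l:ℂ) + 1) ^ 2 / 4) =
        (k * r : ℤ) * (2 * π * Complex.I) + Complex.I * ((π * k / 4 : ℝ) : ℂ) := by
      have h2 : (l : ℂ) * (l + 1) = r + r := by exact_mod_cast hr
      push_cast
      linear_combination (Complex.I * π * k) * h2
    rw [e3, Complex.exp_add, Complex.exp_int_mul_two_pi_mul_I, one_mul]
  · have hne : ¬ Even N := Nat.not_even_iff_odd.2 h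
    rw [if_neg hne]
    obtain ⟨n, hn⟩ := h
    obtain ⟨r, hr⟩ := hk.resolve_left hne
    have e3 : Complex.I * π * (k * (2 * (c:ℂ) + 1 - N) ^ 2 / 4) =
        (r * (c - n) ^ 2 : ℤ) * (2 * π * Complex.I) := by
      rw [hr, hn]
      push_cast
      ring
    rw [e3, Complex.exp_int_mul_two_pi_mul_I]

/-- the integral for a root weight `b + k N` -/
lemma even_swap (hE : S_STPE) (t : Tr) {N : ℕ} (hN : 2 ≤ N) {b k : ℤ} (hk : Even N ∨ Even k)
    (hw : t.wt = b + k * N) :
    JT t N = upp (1 / N) fun ψ => (uk k N * (1 + Complex.I * k * N / (2 * π) * (ψ * Wd N ψ)) *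
      (Ea b N ψ * Pool.Agent.W719.AR.XX t N ψ)) * kr N ψ := by
  have hN0 : 0 < N := by omega
  have hX := XX_an hE t N
  have hP : Differentiable ℂ fun ψ => Ea b N ψ * Pool.Agent.W719.AR.XX t N ψ :=
    (Ea_diff b N).mul hX
  have hQ : Differentiable ℂ fun ψ =>
      uk k N * (1 + Complex.I * k * N / (2 * π) * (ψ * Wd N ψ)) :=
    ((differentiable_id.mul (Wd_diff N)).const_mul _ |>.const_add _).const_mul _
  refine swap t hN (hQ.mul hP) (fun ψ => ?_) (fun c hc => ?_) (fun c hc => ?_)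
  · rw [Ea_even, XX_even hE, Wd_neg]
    ring
  · rw [hw, Ea_split, ps_pz, exp_val hN0 hk, Wd_node hN0]
    ring
  · rw [ps_pz]
    set z : ℂ := pz N c with hz
    have e2 : (fun ψ => Ea t.wt N ψ * Pool.Agent.W719.AR.XX t N ψ) =
        fun ψ => Complex.exp (Complex.I * (k * N) * N * ψ ^ 2 / (4 * π)) *
          (Ea b N ψ * Pool.Agent.W719.AR.XX t N ψ) := by
      funext ψ; rw [hw, Ea_split]; ring
    rw [e2]
    have d1 : HasDerivAt (fun ψ => uk k N * (1 + Complex.I * k * N / (2 * π) * (ψ * Wd N ψ)))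
        (uk k N * (Complex.I * k * N ^ 2 * z / (2 * π))) z := by
      have a1 := (((hasDerivAt_id z).mul (Wd_deriv hN0 (c : ℤ))).const_mul
        (Complex.I * k * N / (2 * π))).const_add 1 |>.const_mul (uk k N)
      refine a1.congr_deriv ?_
      have := Wd_node hN0 (c : ℤ)
      rw [← hz] at this
      simp only [id]
      rw [this]
      ring
    have d2 : HasDerivAt (fun ψ : ℂ => Complex.exp (Complex.I * (k * N) * N * ψ ^ 2 / (4 * π)))
        (uk k N * (Complex.I * k * N ^ 2 * z / (2 * π))) z := by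
      have a1 : HasDerivAt (fun ψ : ℂ => Complex.I * (k * N) * N * ψ ^ 2 / (4 * π))
          (Complex.I * (k * N) * N * (2 * z) / (4 * π)) z := by
        have := ((hasDerivAt_pow 2 z).const_mul (Complex.I * (k * N) * N)).div_const (4 * (π : ℂ))
        simpa using this
      have a2 := (Complex.hasDerivAt_exp (Complex.I * (k * N) * N * z ^ 2 / (4 * π))).comp z a1
      refine a2.congr_deriv ?_
      have c1 := exp_val hN0 hk (c : ℤ)
      rw [← hz] at c1
      rw [c1]
      ring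
    have d3 := (hP z).hasDerivAt
    have v1 : uk k N * (1 + Complex.I * k * N / (2 * π) * (z * Wd N z)) = uk k N := by
      have := Wd_node hN0 (c : ℤ)
      rw [← hz] at this
      rw [this]; ring
    have v2 : Complex.exp (Complex.I * (k * N) * N * z ^ 2 / (4 * π)) = uk k N :=
      exp_val hN0 hk (c : ℤ)
    have f1 := (d1.mul d3).deriv
    have f2 := (d2.mul d3).deriv
    have g1 : deriv (fun ψ => uk k N * (1 + Complex.I * k * N / (2 * π) * (ψ * Wd N ψ)) *
      (Ea b N ψ * Pool.Agent.W719.AR.XX t N ψ)) z = _ := f1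
    have g2 : deriv (fun ψ => Complex.exp (Complex.I * (k * N) * N * ψ ^ 2 / (4 * π)) *
          (Ea b N ψ * Pool.Agent.W719.AR.XX t N ψ)) z = _ := f2
    rw [g1, g2, v1, v2]

end Pool.Agent.Q99.VC
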