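import Pool.Agent.Q99.VC.Diag1
import Pool.Agent.W719.AX.FinA

/-!
# Laplace's method with an amplitude `x sin x`
-/

set_option autoImplicit false

namespace Pool.Agent.Q99.VC

open Filter Finset Topology Metric
open Pool.Agent.W719.AX
open Pool.Agent.W21.AX (ux_comp ux_cst ux_small exp_small)
open scoped Real

/-- derivatives of expansions -/
lemma ux_deriv {δ δ' : ℝ} (hδ : δ' < δ) {Y : ℕ → ℂ → ℂ} {A : ℕ → ℂ → ℂ}
    (hY : ∀ N, DifferentiableOn ℂ (Y N) (ball 0 δ)) (hA : ∀ k, DifferentiableOn ℂ (A k) (ball 0 δ))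
    (h : UX Y A (ball 0 δ)) :
    UX (fun N z => deriv (Y N) z) (fun k z => deriv (A k) z) (ball 0 δ') := by
  intro K
  obtain ⟨C, hC⟩ := h K
  set r : ℝ := (δ - δ') / 2 with hr
  have hr0 : 0 < r := by rw [hr]; linarith
  refine ⟨C / r, hC.mono fun N hN z hz => ?_⟩
  rw [mem_ball_zero_iff] at hz
  have hsub : closedBall z r ⊆ ball (0 : ℂ) δ := by
    intro w hw
    rw [mem_closedBall, dist_eq_norm] at hw
    rw [mem_ball_zero_iff]
    have : ‖w‖ ≤ ‖w - z‖ + ‖z‖ := by
      calc ‖w‖ = ‖(w - z) + z‖ := by ring_nf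
        _ ≤ _ := norm_add_le _ _
    linarith
  have hopen : IsOpen (ball (0 : ℂ) δ) := isOpen_ball
  set g : ℂ → ℂ := fun w => Y N w - ∑ k ∈ range K, A k w / (N : ℂ) ^ k with hg
  have hgd : DifferentiableOn ℂ g (ball 0 δ) :=
    (hY N).sub (DifferentiableOn.fun_sum fun k _ => (hA k).div_const _)
  have hz' : z ∈ ball (0 : ℂ) δ := hsub (mem_closedBall_self hr0.le)
  have hd : deriv g z = deriv (Y N) z - ∑ k ∈ range K, deriv (A k) z / (N : ℂ) ^ k := by
    have h1 : HasDerivAt (Y N) (deriv (Y N) z) z :=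
      ((hY N z hz').differentiableAt (hopen.mem_nhds hz')).hasDerivAt
    have h2 : HasDerivAt (fun w => ∑ k ∈ range K, A k w / (N : ℂ) ^ k)
        (∑ k ∈ range K, deriv (A k) z / (N : ℂ) ^ k) z :=
      HasDerivAt.fun_sum fun k _ =>
        (((hA k z hz').differentiableAt (hopen.mem_nhds hz')).hasDerivAt).div_const _
    exact (h1.sub h2).deriv
  rw [← hd]
  have h3 : DiffContOnCl ℂ g (ball z r) := by
    refine ⟨hgd.mono (ball_subset_closedBall.trans hsub), ?_⟩
    rw [closure_ball z hr0.ne']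
    exact hgd.continuousOn.mono hsub
  have h4 := Complex.norm_deriv_le_of_forall_mem_sphere_norm_le hr0 h3
    (C := C / (N : ℝ) ^ K) (fun w hw => hN w (hsub (sphere_subset_closedBall hw)))
  refine h4.trans (le_of_eq ?_)
  ring

/-- multiplication by a fixed bounded function -/
lemma ux_fix {S : Set ℂ} {Y : ℕ → ℂ → ℂ} {A : ℕ → ℂ → ℂ} (h : UX Y A S) {θ : ℂ → ℂ} {B : ℝ}
    (hB : ∀ z ∈ S, ‖θ z‖ ≤ B) :
    UX (fun N z => θ z * Y N z) (fun k z => θ z * A k z) S := by
  intro K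
  obtain ⟨C, hC⟩ := h K
  refine ⟨B * |C|, hC.mono fun N hN z hz => ?_⟩
  have e : θ z * Y N z - ∑ k ∈ range K, θ z * A k z / (N : ℂ) ^ k =
      θ z * (Y N z - ∑ k ∈ range K, A k z / (N : ℂ) ^ k) := by
    rw [mul_sub, mul_sum]
    congr 1
    exact sum_congr rfl fun k _ => by ring
  rw [e, norm_mul]
  have h1 := hB z hz
  have h2 := hN z hz
  have hB0 : 0 ≤ B := (norm_nonneg _).trans h1
  have h3 : C / (N : ℝ) ^ K ≤ |C| / (N : ℝ) ^ K := by
    gcongr
    exact le_abs_self C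
  calc ‖θ z‖ * _ ≤ B * (|C| / (N : ℝ) ^ K) := by
        refine mul_le_mul h1 (h2.trans h3) (norm_nonneg _) hB0
    _ = _ := by ring

/-- Laplace's method with the amplitude `x sin x` -/
theorem lap_xsin {δ B c c₁ : ℝ} (hδ : 0 < δ) (hc : 0 < c) (hc₁ : 0 < c₁) {q : ℂ → ℂ}
    (hq : DifferentiableOn ℂ q (ball 0 δ)) (hqB : ∀ u ∈ ball (0 : ℂ) δ, ‖q u‖ ≤ B)
    (hq0 : q 0 = 0) (hq1 : deriv q 0 = 0) (hq2 : (deriv (deriv q) 0).re ≤ -c)
    (hdec : ∀ x : ℝ, |x| < δ → (q x).re ≤ -(c₁ * x ^ 2)) :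
    ∃ δ' : ℝ, 0 < δ' ∧ δ' < δ ∧ ∀ η : ℝ, 0 < η → η ≤ δ' → ∀ H h : ℕ → ℂ → ℂ,
      (∀ N, DifferentiableOn ℂ (H N) (ball 0 δ)) → (∀ k, DifferentiableOn ℂ (h k) (ball 0 δ)) →
      UX H h (ball 0 δ) → h 0 0 ≠ 0 →
      ∃ A : ℕ → ℂ, A 0 ≠ 0 ∧ UX (fun (N : ℕ) (_ : Unit) => (Real.sqrt N : ℂ) * (N *
        ∫ x in (-η)..η, (x * Complex.sin x) * (Complex.exp (N * q x) * H N x)))
        (fun k _ => A k) Set.univ := by
  have hopen : IsOpen (ball (0 : ℂ) δ) := isOpen_ball
  have h00 : (0 : ℂ) ∈ ball (0 : ℂ) δ := mem_ball_self hδ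
  -- the function `r`
  obtain ⟨r, hr⟩ : ∃ r : ℂ → ℂ, r = dslope (deriv q) 0 := ⟨_, rfl⟩
  have hrd : DifferentiableOn ℂ r (ball 0 δ) := by
    rw [hr]
    exact (Complex.differentiableOn_dslope (hopen.mem_nhds h00)).2 (hq.deriv hopen)
  have hr0 : r 0 = deriv (deriv q) 0 := by rw [hr, dslope_same]
  have hr0' : r 0 ≠ 0 := by
    intro h
    rw [← hr0, h, Complex.zero_re] at hq2
    linarith
  have hqr : ∀ z, deriv q z = z * r z := by
    intro z
    have := sub_smul_dslope (deriv q) 0 z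
    rw [hq1, sub_zero, sub_zero, ← hr, smul_eq_mul] at this
    exact this.symm
  obtain ⟨δ₁, hδ₁, hδ₁δ, hrn⟩ : ∃ δ₁ : ℝ, 0 < δ₁ ∧ δ₁ < δ ∧ ∀ z ∈ ball (0 : ℂ) δ₁, r z ≠ 0 := by
    have h1 : ∀ᶠ z in 𝓝 (0 : ℂ), r z ≠ 0 :=
      (hrd.continuousOn.continuousAt (hopen.mem_nhds h00)).eventually_ne hr0'
    obtain ⟨ε, hε, h2⟩ := Metric.eventually_nhds_iff_ball.1 h1
    refine ⟨min ε (δ / 2), lt_min hε (by linarith), (min_le_right _ _).trans_lt (by linarith), ?_⟩
    exact fun z hz => h2 z (ball_subset_ball (min_le_left _ _) hz)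
  -- the function `θ`
  obtain ⟨θ, hθ⟩ : ∃ θ : ℂ → ℂ, θ = fun z => Complex.sin z / r z := ⟨_, rfl⟩
  have hθd : DifferentiableOn ℂ θ (ball 0 δ₁) := by
    rw [hθ]
    exact Complex.differentiable_sin.differentiableOn.div
      (hrd.mono (ball_subset_ball hδ₁δ.le)) hrn
  have hθr : ∀ z ∈ ball (0 : ℂ) δ₁, θ z * deriv q z = z * Complex.sin z := by
    intro z hz
    have := hrn z hz
    rw [hqr, hθ]
    field_simp
  have hθ0 : θ 0 = 0 := by rw [hθ]; simp
  have hθ1 : deriv θ 0 = 1 / r 0 := by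
    have h1 : HasDerivAt r (deriv r 0) 0 :=
      ((hrd 0 h00).differentiableAt (hopen.mem_nhds h00)).hasDerivAt
    have h2 := (Complex.hasDerivAt_sin 0).div h1 hr0'
    have h3 : deriv θ 0 = (Complex.cos 0 * r 0 - Complex.sin 0 * deriv r 0) / r 0 ^ 2 := by
      rw [hθ]; exact h2.deriv
    rw [h3, Complex.sin_zero, Complex.cos_zero]
    field_simp
    ring
  -- three balls
  set δ₂ : ℝ := δ₁ / 2 with hδ₂
  set δ₃ : ℝ := δ₁ / 4 with hδ₃
  have s12 : ball (0 : ℂ) δ₂ ⊆ ball 0 δ₁ := ball_subset_ball (by rw [hδ₂]; linarith)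
  have s13 : ball (0 : ℂ) δ₃ ⊆ ball 0 δ₁ := ball_subset_ball (by rw [hδ₃]; linarith)
  have s2 : ball (0 : ℂ) δ₂ ⊆ ball 0 δ := ball_subset_ball (by rw [hδ₂]; linarith)
  have s3 : ball (0 : ℂ) δ₃ ⊆ ball 0 δ := ball_subset_ball (by rw [hδ₃]; linarith)
  have s23 : ball (0 : ℂ) δ₃ ⊆ ball 0 δ₂ := ball_subset_ball (by rw [hδ₃, hδ₂]; linarith)
  obtain ⟨Bθ, hBθ⟩ := (isCompact_closedBall (0 : ℂ) δ₂).exists_bound_of_continuousOn
    (hθd.continuousOn.mono (fun z hz => by
      rw [mem_closedBall_zero_iff] at hz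
      rw [mem_ball_zero_iff]
      linarith : closedBall (0 : ℂ) δ₂ ⊆ ball 0 δ₁))
  obtain ⟨δ', hδ', hδ'3, hLap⟩ := f_LX δ₃ B c (by rw [hδ₃]; linarith) hc
  refine ⟨δ', hδ', by linarith, ?_⟩
  intro η hη hηδ H h hH hh hux hne
  have hη3 : η < δ₃ := by linarith
  -- the amplitude `G = θ H`
  set G : ℕ → ℂ → ℂ := fun N z => θ z * H N z with hG
  have hGd : ∀ N, DifferentiableOn ℂ (G N) (ball 0 δ₂) := fun N =>
    (hθd.mono s12).mul ((hH N).mono s2)
  have hgd : ∀ k, DifferentiableOn ℂ (fun z => θ z * h k z) (ball 0 δ₂) := fun k =>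
    (hθd.mono s12).mul ((hh k).mono s2)
  have u1 : UX G (fun k z => θ z * h k z) (ball 0 δ₂) :=
    ux_fix (ux_comp hux (fun z => z) (ball 0 δ₂) (fun z hz => s2 hz))
      (fun z hz => hBθ z (ball_subset_closedBall hz))
  have u2 : UX (fun N z => deriv (G N) z) (fun k z => deriv (fun z => θ z * h k z) z)
      (ball 0 δ₃) := ux_deriv (by rw [hδ₂, hδ₃]; linarith) hGd hgd u1
  have u3 : UX (fun N z => -1 * deriv (G N) z) (fun k z => -1 * deriv (fun z => θ z * h k z) z)
      (ball 0 δ₃) := ux_fix u2 (B := 1) (fun z _ => by simp)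
  have hqd3 : DifferentiableOn ℂ q (ball 0 δ₃) := hq.mono s3
  have hGd' : ∀ N, DifferentiableOn ℂ (fun z => -1 * deriv (G N) z) (ball 0 δ₃) := fun N =>
    (((hGd N).deriv isOpen_ball).mono s23).const_mul _
  obtain ⟨A, hA, hA0⟩ := hLap η hη hηδ Unit Set.univ (fun _ => q)
    (fun N x => -1 * deriv (G N) x.2) (fun k x => -1 * deriv (fun z => θ z * h k z) x.2)
    (fun _ _ => ⟨hqd3, fun u hu => hqB u (s3 hu), hq0, hq1, hq2⟩)
    (Eventually.of_forall fun N _ _ => (hGd' N).continuousOn)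
    (fun k _ _ => ((((hgd k).deriv isOpen_ball).mono s23).const_mul _))
    (ux_comp u3 (fun x : Unit × ℂ => x.2) (Set.univ ×ˢ ball 0 δ₃) (fun x hx => hx.2))
  refine ⟨fun k => A k (), ?_, ?_⟩
  · have h1 := hA0 () (Set.mem_univ _)
    show A 0 () ≠ 0
    rw [h1]
    have h2 : deriv (fun z => θ z * h 0 z) 0 = h 0 0 / r 0 := by
      have d1 : HasDerivAt θ (deriv θ 0) 0 :=
        ((hθd 0 (mem_ball_self hδ₁)).differentiableAt
          (isOpen_ball.mem_nhds (mem_ball_self hδ₁))).hasDerivAt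
      have d2 : HasDerivAt (h 0) (deriv (h 0) 0) 0 :=
        ((hh 0 0 h00).differentiableAt (hopen.mem_nhds h00)).hasDerivAt
      have d3 : deriv (fun z => θ z * h 0 z) 0 = deriv θ 0 * h 0 0 + θ 0 * deriv (h 0) 0 :=
        (d1.mul d2).deriv
      rw [d3, hθ0, hθ1]
      ring
    rw [h2]
    refine mul_ne_zero (mul_ne_zero (by norm_num) (div_ne_zero hne hr0')) ?_
    rw [Ne, Complex.cpow_eq_zero_iff]
    rintro ⟨h5, -⟩
    have h8 : (2 * (π : ℂ)) ≠ 0 := by
      have := Complex.ofReal_ne_zero.2 Real.pi_ne_zero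
      exact mul_ne_zero two_ne_zero this
    rw [hr0] at hr0'
    exact (div_ne_zero h8 (neg_ne_zero.2 hr0')) h5
  · -- integration by parts
    have hmem : ∀ x ∈ Set.uIcc (-η) η, (x : ℂ) ∈ ball (0 : ℂ) δ₃ := by
      intro x hx
      rw [Set.uIcc_of_le (by linarith), Set.mem_Icc, ← abs_le] at hx
      rw [mem_ball_zero_iff, Complex.norm_real, Real.norm_eq_abs]
      linarith
    have hibp : ∀ N : ℕ, (N : ℂ) * ∫ x in (-η)..η, (x * Complex.sin x) *
        (Complex.exp (N * q x) * H N x) = (∫ x in (-η)..η, Complex.exp (N * q x) *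
          (-1 * deriv (G N) x)) + (G N η * Complex.exp (N * q η) -
            G N (-η : ℝ) * Complex.exp (N * q (-η : ℝ))) := by
      intro N
      have hder : ∀ x ∈ Set.uIcc (-η) η, HasDerivAt (fun x : ℝ => G N x * Complex.exp (N * q x))
          (deriv (G N) x * Complex.exp (N * q x) +
            G N x * (Complex.exp (N * q x) * (N * deriv q x))) x := by
        intro x hx
        have hx' := hmem x hx
        have a1 : HasDerivAt (G N) (deriv (G N) x) (x : ℂ) :=
          ((hGd N x (s23 hx')).differentiableAt (isOpen_ball.mem_nhds (s23 hx'))).hasDerivAt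
        have a2 : HasDerivAt q (deriv q x) (x : ℂ) :=
          ((hqd3 x hx').differentiableAt (isOpen_ball.mem_nhds hx')).hasDerivAt
        have a3 : HasDerivAt (fun z => Complex.exp (N * q z))
            (Complex.exp (N * q x) * (N * deriv q x)) (x : ℂ) := (a2.const_mul (N : ℂ)).cexp
        exact (a1.mul a3).comp_ofReal
      have hcq : ContinuousOn (fun x : ℝ => q x) (Set.uIcc (-η) η) :=
        hqd3.continuousOn.comp Complex.continuous_ofReal.continuousOn hmem
      have hcq' : ContinuousOn (fun x : ℝ => deriv q x) (Set.uIcc (-η) η) :=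
        (hqd3.deriv isOpen_ball).continuousOn.comp Complex.continuous_ofReal.continuousOn hmem
      have hcG : ContinuousOn (fun x : ℝ => G N x) (Set.uIcc (-η) η) :=
        ((hGd N).mono s23).continuousOn.comp Complex.continuous_ofReal.continuousOn hmem
      have hcG' : ContinuousOn (fun x : ℝ => deriv (G N) x) (Set.uIcc (-η) η) :=
        (((hGd N).deriv isOpen_ball).mono s23).continuousOn.comp
          Complex.continuous_ofReal.continuousOn hmem
      have hce : ContinuousOn (fun x : ℝ => Complex.exp (N * q x)) (Set.uIcc (-η) η) :=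
        (continuousOn_const.mul hcq).cexp
      have hi1 : IntervalIntegrable (fun x : ℝ => deriv (G N) x * Complex.exp (N * q x))
          MeasureTheory.volume (-η) η := (hcG'.mul hce).intervalIntegrable
      have hi2 : IntervalIntegrable (fun x : ℝ => G N x * (Complex.exp (N * q x) *
          (N * deriv q x))) MeasureTheory.volume (-η) η :=
        (hcG.mul (hce.mul (continuousOn_const.mul hcq'))).intervalIntegrable
      have h1 := intervalIntegral.integral_eq_sub_of_hasDerivAt hder (hi1.add hi2)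
      rw [intervalIntegral.integral_add hi1 hi2] at h1
      have h2 : (∫ x in (-η)..η, G N x * (Complex.exp (N * q x) * (N * deriv q x))) =
          N * ∫ x in (-η)..η, (x * Complex.sin x) * (Complex.exp (N * q x) * H N x) := by
        rw [← intervalIntegral.integral_const_mul]
        apply intervalIntegral.integral_congr
        intro x hx
        have h3 := hθr x (s13 (hmem x hx))
        simp only [hG]
        linear_combination (N : ℂ) * Complex.exp (N * q x) * H N x * h3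
      have h4 : (∫ x in (-η)..η, Complex.exp (N * q x) * (-1 * deriv (G N) x)) =
          -∫ x in (-η)..η, deriv (G N) x * Complex.exp (N * q x) := by
        rw [← intervalIntegral.integral_neg]
        apply intervalIntegral.integral_congr
        intro x _
        ring
      rw [h2] at h1
      rw [h4]
      linear_combination h1
    -- the boundary terms
    obtain ⟨C₀, hC₀⟩ := u1 0
    refine ux_small hA (fun K => ⟨2 * |C₀|, ?_⟩)
    filter_upwards [hC₀, exp_small (c₁ * η ^ 2) (by positivity) 1 K, eventually_ge_atTop 1] with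
      N h1 h2 h3 p _
    have hN1 : (1 : ℝ) ≤ N := by exact_mod_cast h3
    have hb : ∀ x : ℝ, |x| = η → ‖G N x * Complex.exp (N * q x)‖ ≤
        |C₀| * Real.exp (-(c₁ * η ^ 2 * N)) := by
      intro x hx
      have hx3 : (x : ℂ) ∈ ball (0 : ℂ) δ₂ := by
        rw [mem_ball_zero_iff, Complex.norm_real, Real.norm_eq_abs, hx]
        have : δ₃ < δ₂ := by rw [hδ₂, hδ₃]; linarith
        linarith
      have k1 := h1 x hx3
      simp only [range_zero, sum_empty, sub_zero, pow_zero, div_one] at k1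
      have k2 := hdec x (by rw [hx]; linarith)
      rw [norm_mul, Complex.norm_exp]
      have k3 : ((N : ℂ) * q x).re ≤ -(c₁ * η ^ 2 * N) := by
        have : ((N : ℂ) * q x).re = N * (q x).re := by simp
        rw [this]
        have hx2 : x ^ 2 = η ^ 2 := by rw [← sq_abs, hx]
        rw [hx2] at k2
        nlinarith
      exact mul_le_mul (k1.trans (le_abs_self _)) (Real.exp_le_exp.2 k3) (Real.exp_pos _).le
        (abs_nonneg _)
    rw [hibp N]
    have e5 : (Real.sqrt N : ℂ) * ((∫ x in (-η)..η, Complex.exp (N * q x) *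
          (-1 * deriv (G N) x)) + (G N η * Complex.exp (N * q η) -
            G N (-η : ℝ) * Complex.exp (N * q (-η : ℝ)))) -
        (Real.sqrt N : ℂ) * (∫ x in (-η)..η, Complex.exp (N * q x) *
          (-1 * deriv (G N) x)) = (Real.sqrt N : ℂ) * (G N η * Complex.exp (N * q η) -
            G N (-η : ℝ) * Complex.exp (N * q (-η : ℝ))) := by ring
    rw [e5, norm_mul, Complex.norm_real, Real.norm_of_nonneg (Real.sqrt_nonneg _)]
    have hb1 := hb η (abs_of_pos hη)
    have hb2 := hb (-η) (by rw [abs_neg, abs_of_pos hη])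
    have hb3 := (norm_sub_le (G N η * Complex.exp (N * q η))
      (G N (-η : ℝ) * Complex.exp (N * q (-η : ℝ)))).trans (add_le_add hb1 hb2)
    have e8 : Real.sqrt N ≤ N := by
      rw [Real.sqrt_le_left (by positivity)]
      nlinarith
    calc Real.sqrt N * _ ≤ N * (|C₀| * Real.exp (-(c₁ * η ^ 2 * N)) +
          |C₀| * Real.exp (-(c₁ * η ^ 2 * N))) := by gcongr
      _ = 2 * |C₀| * ((N : ℝ) ^ 1 * Real.exp (-(c₁ * η ^ 2 * N))) := by ring
      _ ≤ 2 * |C₀| * (1 / (N : ℝ) ^ K) := by gcongr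
      _ = _ := by ring

end Pool.Agent.Q99.VC
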