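import Pool.Agent.Q99.VC.Diag2
import Pool.Agent.TH929.J29
import Pool.Agent.TH563.Z.Upp

/-!
# The outer integral with the factor `ψ sin ψ` at an encircled root
-/

set_option autoImplicit false
set_option maxHeartbeats 1000000

namespace Pool.Agent.Q99.VC

open Filter Finset Topology Metric
open Pool.Agent.W711.HT hiding XX
open Pool.Agent.W719.AX
open Pool.Agent.W85.HT (Kc Kc_mem Kc_compact ev_exp)
open Pool.Agent.W21.AX (ux_comp ux_cst ux_small exp_small)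
open Pool.Agent.TH563.UV (UN GoodU)
open Pool.Agent.TH929.J29 (locb outer bounds even_deriv_zero deriv2_le UN_diff UN_sin m0)
open Pool.Agent.W346.HT (IntP IntP_kr Ea_cont)
open Pool.Agent.TH563.Z (upp_add)
open scoped Real

/-- `1 + w sin w / 8` -/
noncomputable def fw (w : ℂ) : ℂ := 1 + w * Complex.sin w / 8

lemma fw_diff : Differentiable ℂ fw := by
  unfold fw
  exact ((differentiable_id.mul Complex.differentiable_sin).div_const 8).const_add 1

lemma fw_bd {w : ℂ} (h1 : |w.re| ≤ 1 / 2) (h2 : |w.im| ≤ 1 / 2) :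
    fw w ≠ 0 ∧ |Real.log ‖fw w‖| ≤ 1 := by
  have h3 : ‖w‖ ≤ 1 := by
    have := Complex.norm_le_abs_re_add_abs_im w
    linarith
  have h4 : ‖Complex.sin w‖ ≤ 3 := by
    refine (norm_sin_le' w).trans ?_
    have h5 : Real.exp |w.im| ≤ Real.exp 1 := Real.exp_le_exp.2 (by linarith)
    have := Real.exp_one_lt_d9
    linarith
  have h5 : ‖w * Complex.sin w / 8‖ ≤ 3 / 8 := by
    rw [norm_div, norm_mul, Complex.norm_ofNat]
    have := mul_le_mul h3 h4 (norm_nonneg _) zero_le_one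
    linarith
  have h6 : 5 / 8 ≤ ‖fw w‖ := by
    have := norm_sub_le (fw w) (w * Complex.sin w / 8)
    have e : fw w - w * Complex.sin w / 8 = 1 := by unfold fw; ring
    rw [e, norm_one] at this
    linarith
  have h7 : ‖fw w‖ ≤ 11 / 8 := by
    unfold fw
    refine (norm_add_le _ _).trans ?_
    rw [norm_one]
    linarith
  refine ⟨fun h => by rw [h, norm_zero] at h6; linarith, abs_le.2 ⟨?_, ?_⟩⟩
  · rw [Real.le_log_iff_exp_le (by linarith)]
    have h8 : Real.exp (-1) ≤ 1 / 2 := by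
      rw [Real.exp_neg, inv_le_comm₀ (Real.exp_pos _) (by norm_num)]
      have := Real.exp_one_gt_d9
      norm_num
      linarith
    linarith
  · refine (Real.log_le_sub_one_of_pos (by linarith)).trans (by linarith)

theorem circ_xsin {ρ τ κ c : ℝ} {s dl : ℂ → ℂ → ℂ} (hK : KD ρ τ κ c s dl) {ε₀ ρ₂ τ₂ : ℝ}
    (hρ₂ : ρ₂ ≤ ρ) (hτ₂ : τ₂ ≤ τ) (hρ20 : 0 < ρ₂) (hτ20 : 0 < τ₂)
    (hH : ∀ (t : ℕ) (F : ℂ → ℂ), 1 ≤ t → DifferentiableOn ℂ F (Rc (3 * ρ) (3 * τ)) →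
      (∀ ψ ∈ Rc (3 * ρ) (3 * τ), F (-ψ) = F ψ) →
      (∀ ψ ∈ Rc (3 * ρ) (3 * τ), ‖F ψ - F 0 - t * (s 0 ψ - s 0 0)‖ ≤ t * ε₀) →
      ∀ x : ℝ, |x| ≤ ρ → (F x).re ≤ (F 0).re - c / 4 * x ^ 2)
    {t m : ℕ} {X : ℕ → ℂ → ℂ} {F : ℂ → ℂ} {A : ℕ → ℂ → ℂ} (ht : 1 ≤ t)
    (hX : GoodU ρ τ κ ε₀ s t X F) (hA : GX ρ₂ τ₂ m X F A) (b : ℤ) :
    ∃ y : ℕ → ℂ, y 0 ≠ 0 ∧ UX (fun (N : ℕ) (_ : Unit) => (Real.sqrt N : ℂ) * (N *
      ((N : ℂ) ^ (2 * m) * (-1) ^ (N * m) * Complex.exp (-(N * F 0)) *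
        upp (1 / N) fun ψ => (ψ * Wd N ψ) * (Ea b N ψ * X N ψ) * kr N ψ)))
      (fun k _ => y k) Set.univ := by
  obtain ⟨hρ0, hρ1⟩ := hK.hρ
  obtain ⟨hτ0, hτ1⟩ := hK.hτ
  obtain ⟨hκ0, hκ1⟩ := hK.hκ
  have hc0 := hK.hc
  have hπ := Real.pi_gt_three
  have hρπ : ρ ≤ π := by linarith
  have hm0 := m0 hK
  have hopen3 : IsOpen (Rc (3 * ρ) (3 * τ)) := Pool.Agent.W688.AX.isOpen_Rcx _ _
  have hKc : Kc ρ₂ τ₂ ⊆ Rc (3 * ρ) (3 * τ) := by
    intro w hw
    rw [Kc_mem] at hw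
    exact ⟨by linarith [hw.1], by linarith [hw.2]⟩
  have hSK : Rc ρ₂ τ₂ ⊆ Kc ρ₂ τ₂ := by
    intro w hw
    rw [Kc_mem]
    exact ⟨hw.1.le, hw.2.le⟩
  have hRr : Rc ρ₂ τ₂ ⊆ Rc (3 * ρ) (3 * τ) := hSK.trans hKc
  set δ : ℝ := min ρ₂ τ₂ with hδd
  have hδ0 : 0 < δ := lt_min hρ20 hτ20
  have hδρ₂ : δ ≤ ρ₂ := min_le_left _ _
  have hball : ∀ u ∈ ball (0 : ℂ) δ, u ∈ Rc ρ₂ τ₂ := by
    intro u hu
    rw [mem_ball_zero_iff] at hu
    exact ⟨(Complex.abs_re_le_norm u).trans_lt (hu.trans_le (min_le_left _ _)),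
      (Complex.abs_im_le_norm u).trans_lt (hu.trans_le (min_le_right _ _))⟩
  have hdec1 : ∀ x : ℝ, |x| ≤ ρ → (F x).re ≤ (F 0).re - c / 4 * x ^ 2 := fun x hx =>
    hH t F ht hX.Fan hX.Fev hX.Fcl x hx
  have hdec : ∀ p ∈ (Set.univ : Set Unit), ∀ x : ℝ, |x| ≤ ρ →
      (F x).re ≤ (F 0).re - c / 4 * x ^ 2 := fun _ _ x hx => hdec1 x hx
  obtain ⟨L, hL, hLF, -⟩ := bounds hK hX
  have hbd : ∀ w ∈ Rc (2 * ρ) (2 * τ), fw w ≠ 0 ∧ |Real.log ‖fw w‖| ≤ 1 := by
    intro w hw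
    exact fw_bd (by linarith [hw.1]) (by linarith [hw.2])
  have hMW : ∀ ε : ℝ, 0 < ε → ∀ᶠ N : ℕ in atTop, ∀ w ∈ Rc (2 * ρ) (2 * τ),
      ∀ p ∈ (Set.univ : Set Unit), X N w ≠ 0 ∧
      |Real.log ‖X N w‖ - N * (F w).re| ≤ ε * N := by
    intro ε hε
    filter_upwards [hX.mw ε hε] with N h1 w hw _ _
    exact h1 w hw
  have hMW1 : ∀ ε : ℝ, 0 < ε → ∀ᶠ N : ℕ in atTop, ∀ w ∈ Rc (2 * ρ) (2 * τ),
      ∀ p ∈ (Set.univ : Set Unit), fw w * X N w ≠ 0 ∧
      |Real.log ‖fw w * X N w‖ - N * (F w).re| ≤ ε * N := by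
    intro ε hε
    have hev : ∀ᶠ N : ℕ in atTop, 2 / ε ≤ N := eventually_ge_atTop ⌈2 / ε⌉₊ |>.mono fun N hN =>
      (Nat.le_ceil _).trans (by exact_mod_cast hN)
    filter_upwards [hX.mw (ε / 2) (by positivity), hev] with N h1 h2 w hw _ _
    obtain ⟨k1, k2⟩ := h1 w hw
    obtain ⟨k3, k4⟩ := hbd w hw
    refine ⟨mul_ne_zero k3 k1, ?_⟩
    rw [norm_mul, Real.log_mul (norm_ne_zero_iff.2 k3) (norm_ne_zero_iff.2 k1)]
    rw [div_le_iff₀ hε] at h2
    rw [abs_le] at k2 k4 ⊢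
    constructor
    · linarith [k2.1, k4.1]
    · linarith [k2.2, k4.2]
  have hup : ∀ p ∈ (Set.univ : Set Unit), ∀ x y : ℝ, |x| ≤ ρ → 0 ≤ y → y ≤ τ →
      (F (x + y * Complex.I)).re ≤ (F x).re + L * ((|x| + y) * y) := by
    intro p hp x y hx hy hy'
    have h1 := (Complex.re_le_norm _).trans (hLF x y hx (by rwa [abs_of_nonneg hy]))
    rw [Complex.sub_re, abs_of_nonneg hy] at h1
    linarith
  have hXd1 : ∀ N, Differentiable ℂ (fun w => fw w * X N w) := fun N => fw_diff.mul (hX.an N)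
  have ht' : (1 : ℝ) ≤ t := by exact_mod_cast ht
  have hfar0 : ∀ᶠ N : ℕ in atTop, ∀ p ∈ (Set.univ : Set Unit), ∀ x y : ℝ, ρ ≤ |x| → |x| ≤ π →
      |y| ≤ 1 / N → ‖X N (x + y * Complex.I)‖ ≤ Real.exp (N * ((F 0).re - κ / 2)) := by
    filter_upwards [hX.gl1] with N h1 p hp x y hx1 hx2 hy
    refine (h1 x y hx1 hx2 hy).trans (Real.exp_le_exp.2
      (mul_le_mul_of_nonneg_left ?_ (Nat.cast_nonneg N)))
    have : 1 * (κ / 2) ≤ (t : ℝ) * (κ / 2) := mul_le_mul_of_nonneg_right ht' (by positivity)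
    linarith
  have hfar1 : ∀ᶠ N : ℕ in atTop, ∀ p ∈ (Set.univ : Set Unit), ∀ x y : ℝ, ρ ≤ |x| → |x| ≤ π →
      |y| ≤ 1 / N → ‖fw (x + y * Complex.I) * X N (x + y * Complex.I)‖ ≤
        Real.exp (N * ((F 0).re - κ / 4)) := by
    filter_upwards [hfar0, ev_exp (show 0 < κ / 4 by positivity) 3, eventually_ge_atTop 1] with
      N h1 h2 h3 p hp x y hx1 hx2 hy
    have k1 := h1 p hp x y hx1 hx2 hy
    have hN1 : (1 : ℝ) ≤ N := by exact_mod_cast h3
    have hy1 : |y| ≤ 1 := hy.trans (by rw [div_le_one (by linarith)]; exact hN1)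
    have k2 : ‖fw (x + y * Complex.I)‖ ≤ 3 := by
      have e1 : ‖(x : ℂ) + y * Complex.I‖ ≤ π + 1 := by
        refine (norm_add_le _ _).trans ?_
        rw [norm_mul, Complex.norm_I, mul_one, Complex.norm_real, Complex.norm_real,
          Real.norm_eq_abs, Real.norm_eq_abs]
        linarith
      have e2 : ‖Complex.sin ((x : ℂ) + y * Complex.I)‖ ≤ 3 := by
        refine (norm_sin_le' _).trans ?_
        have e3 : ((x : ℂ) + y * Complex.I).im = y := by simp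
        rw [e3]
        have h5 : Real.exp |y| ≤ Real.exp 1 := Real.exp_le_exp.2 hy1
        have := Real.exp_one_lt_d9
        linarith
      unfold fw
      refine (norm_add_le _ _).trans ?_
      rw [norm_one, norm_div, norm_mul, Complex.norm_ofNat]
      have h6 := mul_le_mul e1 e2 (norm_nonneg _) (by linarith)
      have := Real.pi_lt_d2
      linarith
    rw [norm_mul]
    calc _ ≤ 3 * Real.exp (N * ((F 0).re - κ / 2)) := mul_le_mul k2 k1 (norm_nonneg _) (by norm_num)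
      _ ≤ Real.exp (κ / 4 * N) * Real.exp (N * ((F 0).re - κ / 2)) := by gcongr
      _ = _ := by rw [← Real.exp_add]; ring_nf
  obtain ⟨κ₀, hκ₀, hloc0⟩ := locb Pool.Agent.W711.HT.upb (a := b) (K := (Set.univ : Set Unit))
    (Y := fun N w _ => X N w) (G := fun w _ => F w)
    (c₀ := c / 4) (L := L) (τ₁ := τ) hρ0 hρπ hτ0 hτ0 (fun N _ _ => hX.an N) hMW (by positivity)
    hL hdec hup ⟨κ / 2, by positivity, hfar0⟩
  obtain ⟨κ₁, hκ₁, hloc1⟩ := locb Pool.Agent.W711.HT.upb (a := b) (K := (Set.univ : Set Unit))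
    (Y := fun N w _ => fw w * X N w) (G := fun w _ => F w)
    (c₀ := c / 4) (L := L) (τ₁ := τ) hρ0 hρπ hτ0 hτ0 (fun N _ _ => hXd1 N) hMW1 (by positivity)
    hL hdec hup ⟨κ / 4, by positivity, hfar1⟩
  have hG0 : deriv F 0 = 0 := even_deriv_zero hopen3 hm0 hX.Fan hX.Fev
  have hG2 := deriv2_le (c₀ := c / 4) hopen3 hm0 hX.Fan hG0 hρ0 (hdec () (Set.mem_univ _))
  obtain ⟨BF, hBF⟩ := (Kc_compact ρ₂ τ₂).exists_bound_of_continuousOn
    (hX.Fan.continuousOn.mono hKc)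
  -- the exponent
  obtain ⟨β, hβ⟩ : ∃ β : ℂ, β = Complex.I * b / (4 * π) := ⟨_, rfl⟩
  have hβre : β.re = 0 := by
    rw [hβ]
    have : Complex.I * b / (4 * π) = (((b : ℝ) / (4 * π) : ℝ) : ℂ) * Complex.I := by
      push_cast
      ring
    rw [this, Complex.re_ofReal_mul, Complex.I_re, mul_zero]
  set q : ℂ → ℂ := fun u => β * u ^ 2 + (F u - F 0) with hq
  have hopen2 : IsOpen (Rc ρ₂ τ₂) := Pool.Agent.W688.AX.isOpen_Rcx _ _
  have h0 : (0 : ℂ) ∈ Rc ρ₂ τ₂ := hball 0 (mem_ball_self hδ0)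
  have hFd : DifferentiableOn ℂ F (Rc ρ₂ τ₂) := hX.Fan.mono hRr
  have hq1 : ∀ u ∈ Rc ρ₂ τ₂, deriv q u = 2 * β * u + deriv F u := by
    intro u hu
    have h1 : HasDerivAt F (deriv F u) u :=
      ((hFd u hu).differentiableAt (hopen2.mem_nhds hu)).hasDerivAt
    have h2 : HasDerivAt (fun w : ℂ => β * w ^ 2) (2 * β * u) u :=
      ((hasDerivAt_pow 2 u).const_mul β).congr_deriv (by push_cast; ring)
    exact (h2.add (h1.sub_const _)).deriv
  have hqd : DifferentiableOn ℂ q (ball 0 δ) := by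
    have hd : DifferentiableOn ℂ (fun u : ℂ => β * u ^ 2) (ball 0 δ) :=
      (show Differentiable ℂ (fun u : ℂ => β * u ^ 2) by fun_prop).differentiableOn
    exact hd.add ((hFd.mono hball).sub_const _)
  have hqB : ∀ u ∈ ball (0 : ℂ) δ, ‖q u‖ ≤ ‖β‖ * δ ^ 2 + (BF + BF) := by
    intro u hu
    have h1 := hBF u (hSK (hball u hu))
    have h2 := hBF 0 (hSK h0)
    rw [mem_ball_zero_iff] at hu
    refine (norm_add_le _ _).trans (add_le_add ?_ ((norm_sub_le _ _).trans (add_le_add h1 h2)))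
    rw [norm_mul, norm_pow]
    gcongr
  have hq00 : q 0 = 0 := by simp [hq]
  have hq10 : deriv q 0 = 0 := by rw [hq1 0 h0, hG0]; ring
  have hq20 : (deriv (deriv q) 0).re ≤ -(c / 2) := by
    have h5 : deriv q =ᶠ[𝓝 0] fun u => 2 * β * u + deriv F u := by
      filter_upwards [hopen2.mem_nhds h0] with u hu
      exact hq1 u hu
    rw [h5.deriv_eq]
    have h6 : HasDerivAt (deriv F) (deriv (deriv F) 0) 0 :=
      (((hFd.deriv hopen2) 0 h0).differentiableAt (hopen2.mem_nhds h0)).hasDerivAt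
    have h7 : HasDerivAt (fun w : ℂ => 2 * β * w) (2 * β) 0 := by
      simpa using (hasDerivAt_id (0 : ℂ)).const_mul (2 * β)
    have h8 : deriv (fun u => 2 * β * u + deriv F u) 0 =
        2 * β + deriv (deriv F) 0 := (h7.add h6).deriv
    rw [h8, Complex.add_re]
    have : (2 * β : ℂ).re = 0 := by
      rw [Complex.mul_re, hβre]
      simp
    rw [this, zero_add]
    linarith
  have hqdec : ∀ x : ℝ, |x| < δ → (q x).re ≤ -(c / 4 * x ^ 2) := by
    intro x hx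
    have h1 := hdec1 x (by linarith)
    have e1 : (β * (x : ℂ) ^ 2).re = 0 := by
      have : β * (x : ℂ) ^ 2 = β * ((x ^ 2 : ℝ) : ℂ) := by push_cast; ring
      rw [this, Complex.re_mul_ofReal, hβre, zero_mul]
    simp only [hq]
    rw [Complex.add_re, e1, Complex.sub_re]
    linarith
  obtain ⟨δ', hδ', hδ'δ, hLap⟩ := lap_xsin hδ0 (show 0 < c / 2 by positivity)
    (show 0 < c / 4 by positivity) hqd hqB hq00 hq10 hq20 hqdec
  -- the amplitude
  set H : ℕ → ℂ → ℂ := fun N z => -Complex.I * ((N : ℂ) ^ (2 * m) * (-1) ^ (N * m) *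
    Complex.exp (-(N * F z)) * X N z) with hHd
  have hHdiff : ∀ N, DifferentiableOn ℂ (H N) (ball 0 δ) := by
    intro N
    have h1 : DifferentiableOn ℂ (fun z => Complex.exp (-((N : ℂ) * F z))) (ball 0 δ) :=
      (((hFd.mono hball).const_mul (N : ℂ)).neg).cexp
    exact ((h1.const_mul ((N : ℂ) ^ (2 * m) * (-1) ^ (N * m))).mul
      (hX.an N).differentiableOn).const_mul _
  have hhd : ∀ k, DifferentiableOn ℂ (fun z => -Complex.I * A k z) (ball 0 δ) := fun k =>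
    ((hA.an k).mono hball).const_mul _
  have hux : UX H (fun k z => -Complex.I * A k z) (ball 0 δ) :=
    ux_fix (ux_comp hA.ux (fun z => z) (ball 0 δ) (fun z hz => hball z hz)) (B := 1)
      (fun z _ => by rw [norm_neg, Complex.norm_I])
  have hδ'ρ : δ' ≤ ρ := by linarith
  obtain ⟨y, hy0, hy⟩ := hLap δ' hδ' le_rfl H (fun k z => -Complex.I * A k z) hHdiff hhd hux
    (mul_ne_zero (neg_ne_zero.2 Complex.I_ne_zero) (hA.nz 0 h0))
  refine ⟨y, hy0, ux_small hy (fun K => ⟨1, ?_⟩)⟩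
  obtain ⟨κ₂, hκ₂, hout0⟩ := outer (a := b) (K := (Set.univ : Set Unit))
    (Y := fun N w _ => X N w) (G := fun w _ => F w)
    (c₀ := c / 4) hρ0 (by linarith) hτ0 hδ' hδ'ρ (fun N _ _ => hX.an N) hMW
    (by positivity) hdec
  obtain ⟨κ₃, hκ₃, hout1⟩ := outer (a := b) (K := (Set.univ : Set Unit))
    (Y := fun N w _ => fw w * X N w) (G := fun w _ => F w)
    (c₀ := c / 4) hρ0 (by linarith) hτ0 hδ' hδ'ρ (fun N _ _ => hXd1 N) hMW1
    (by positivity) hdec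
  obtain ⟨κ', hκ'⟩ : ∃ κ' : ℝ, κ' = min (min κ₀ κ₁) (min κ₂ κ₃) := ⟨_, rfl⟩
  have hκ'0 : 0 < κ' := by
    rw [hκ']
    exact lt_min (lt_min hκ₀ hκ₁) (lt_min hκ₂ hκ₃)
  have hκ'a : κ' ≤ κ₀ := by rw [hκ']; exact (min_le_left _ _).trans (min_le_left _ _)
  have hκ'b : κ' ≤ κ₁ := by rw [hκ']; exact (min_le_left _ _).trans (min_le_right _ _)
  have hκ'c : κ' ≤ κ₂ := by rw [hκ']; exact (min_le_right _ _).trans (min_le_left _ _)
  have hκ'd : κ' ≤ κ₃ := by rw [hκ']; exact (min_le_right _ _).trans (min_le_right _ _)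
  filter_upwards [hloc0, hloc1, hout0, hout1, exp_small κ' hκ'0 (2 * m + 4) K,
    eventually_ge_atTop 32] with N k0 k1 k2 k3 h4 h5 p hp
  have hN0 : 0 < N := by omega
  have hN1 : (32 : ℝ) ≤ N := by exact_mod_cast h5
  have k0 := k0 p hp
  have k1 := k1 p hp
  have k2 := k2 p hp
  have k3 := k3 p hp
  obtain ⟨V, hV⟩ : ∃ V : ℝ, V = (F 0).re := ⟨_, rfl⟩
  rw [← hV] at k0 k1 k2 k3
  have mono : ∀ κ'' : ℝ, κ' ≤ κ'' → Real.exp (N * (V - κ'')) ≤ Real.exp (N * (V - κ')) := by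
    intro κ'' h
    refine Real.exp_le_exp.2 (mul_le_mul_of_nonneg_left (by linarith) (by linarith))
  have k0 := k0.trans (mono _ hκ'a)
  have k1 := k1.trans (mono _ hκ'b)
  have k2 := k2.trans (mono _ hκ'c)
  have k3 := k3.trans (mono _ hκ'd)
  -- linearity of the path integral
  have hcE : Continuous (Ea b N) := Ea_cont b N
  have hP0 : IntP (1 / N) (fun w => Ea b N w * (UN N w * X N w) * kr N w) :=
    IntP_kr hN0 (g := fun w => Ea b N w * (UN N w * X N w))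
      (hcE.mul ((UN_diff N).continuous.mul (hX.an N).continuous))
  have hP1 : IntP (1 / N) (fun w => Ea b N w * (UN N w * (fw w * X N w)) * kr N w) :=
    IntP_kr hN0 (g := fun w => Ea b N w * (UN N w * (fw w * X N w)))
      (hcE.mul ((UN_diff N).continuous.mul (hXd1 N).continuous))
  have hlin : (upp (1 / N) fun ψ => (ψ * Wd N ψ) * (Ea b N ψ * X N ψ) * kr N ψ) =
      8 * (upp (1 / N) fun w => Ea b N w * (UN N w * (fw w * X N w)) * kr N w) +
      (-8) * (upp (1 / N) fun w => Ea b N w * (UN N w * X N w) * kr N w) := by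
    rw [← Pool.Agent.W346.HT.upp_const_mul, ← Pool.Agent.W346.HT.upp_const_mul,
      ← upp_add (hP1.const_mul 8) (hP0.const_mul (-8))]
    congr 1
    funext w
    have h1 := UN_sin N w
    have h2 : Wd N w = UN N w * Complex.sin w := by rw [h1]; rfl
    rw [h2]
    unfold fw
    ring
  rw [hlin]
  obtain ⟨U1, hU1⟩ : ∃ U : ℂ, U = upp (1 / N) fun w => Ea b N w *
    (UN N w * (fw w * X N w)) * kr N w := ⟨_, rfl⟩
  obtain ⟨U0, hU0⟩ : ∃ U : ℂ, U = upp (1 / N) fun w => Ea b N w *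
    (UN N w * X N w) * kr N w := ⟨_, rfl⟩
  obtain ⟨I0, hI0⟩ : ∃ I : ℂ, I = ∫ x in (-ρ)..ρ, Ea b N x * X N x := ⟨_, rfl⟩
  obtain ⟨I1, hI1⟩ : ∃ I : ℂ, I = ∫ x in (-ρ)..ρ, Ea b N x * (fw x * X N x) := ⟨_, rfl⟩
  obtain ⟨J0, hJ0⟩ : ∃ I : ℂ, I = ∫ x in (-δ')..δ', Ea b N x * X N x := ⟨_, rfl⟩
  obtain ⟨J1, hJ1⟩ : ∃ I : ℂ, I = ∫ x in (-δ')..δ', Ea b N x * (fw x * X N x) := ⟨_, rfl⟩
  rw [← hU0, ← hI0] at k0
  rw [← hU1, ← hI1] at k1
  rw [← hI0, ← hJ0] at k2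
  rw [← hI1, ← hJ1] at k3
  rw [← hU0, ← hU1]
  have hcx : ∀ Y : ℂ → ℂ, Differentiable ℂ Y → Continuous (fun x : ℝ => Ea b N x * Y x) :=
    fun Y hY => (hcE.comp Complex.continuous_ofReal).mul
      (hY.continuous.comp Complex.continuous_ofReal)
  have hJ : (∫ x in (-δ')..δ', Ea b N x * (x * Complex.sin x * X N x)) = 8 * J1 + (-8) * J0 := by
    rw [hJ1, hJ0, ← intervalIntegral.integral_const_mul, ← intervalIntegral.integral_const_mul,
      ← intervalIntegral.integral_add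
        (((hcx _ (hXd1 N)).const_mul 8).intervalIntegrable _ _)
        (((hcx _ (hX.an N)).const_mul (-8)).intervalIntegrable _ _)]
    apply intervalIntegral.integral_congr
    intro x _
    simp only [fw]
    ring
  have e1 : (∫ x in (-δ')..δ', (x * Complex.sin x) * (Complex.exp (N * q x) * H N x)) =
      (N : ℂ) ^ (2 * m) * (-1) ^ (N * m) * Complex.exp (-(N * F 0)) *
        (-Complex.I * (8 * J1 + (-8) * J0)) := by
    rw [← hJ, ← intervalIntegral.integral_const_mul, ← intervalIntegral.integral_const_mul]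
    apply intervalIntegral.integral_congr
    intro x _
    simp only [hHd, hq, Ea]
    have e3 : Complex.exp (N * (β * (x : ℂ) ^ 2 + (F x - F 0))) =
        Complex.exp (-(N * F 0)) *
          Complex.exp (Complex.I * b * N * (x : ℂ) ^ 2 / (4 * π)) *
          Complex.exp (N * F x) := by
      rw [← Complex.exp_add, ← Complex.exp_add, hβ]
      congr 1
      ring
    have e4 : Complex.exp (N * F x) * Complex.exp (-(N * F x)) = 1 := by
      rw [← Complex.exp_add, add_neg_cancel, Complex.exp_zero]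
    rw [e3]
    linear_combination (x * Complex.sin x * Complex.exp (-(N * F 0)) *
      Complex.exp (Complex.I * b * N * (x : ℂ) ^ 2 / (4 * π)) * (-Complex.I) *
      ((N : ℂ) ^ (2 * m) * (-1) ^ (N * m) * X N x)) * e4
  rw [e1]
  set P : ℂ := (N : ℂ) ^ (2 * m) * (-1) ^ (N * m) * Complex.exp (-(N * F 0)) with hPd
  have e2 : (Real.sqrt N : ℂ) * (N * (P * (8 * U1 + -8 * U0))) -
      (Real.sqrt N : ℂ) * (N * (P * (-Complex.I * (8 * J1 + -8 * J0)))) =
      (Real.sqrt N : ℂ) * (N * (P * (8 * ((U1 - (-Complex.I) * I1) + (-Complex.I) * (I1 - J1)) -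
        8 * ((U0 - (-Complex.I) * I0) + (-Complex.I) * (I0 - J0))))) := by ring
  rw [e2, norm_mul, norm_mul, norm_mul, Complex.norm_real,
    Real.norm_of_nonneg (Real.sqrt_nonneg _), Complex.norm_natCast]
  have hPn : ‖P‖ = (N : ℝ) ^ (2 * m) * Real.exp (-(N * V)) := by
    rw [hPd, norm_mul, norm_mul, norm_pow, norm_pow, norm_neg, norm_one, one_pow, mul_one,
      Complex.norm_natCast, Complex.norm_exp, hV]
    congr 2
    simp
  rw [hPn]
  have hsum : ‖8 * ((U1 - (-Complex.I) * I1) + (-Complex.I) * (I1 - J1)) -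
        8 * ((U0 - (-Complex.I) * I0) + (-Complex.I) * (I0 - J0))‖ ≤
      32 * Real.exp (N * (V - κ')) := by
    have n1 : ‖(U1 - (-Complex.I) * I1) + (-Complex.I) * (I1 - J1)‖ ≤
        2 * Real.exp (N * (V - κ')) := by
      refine (norm_add_le _ _).trans ?_
      rw [norm_mul (-Complex.I), norm_neg, Complex.norm_I, one_mul]
      linarith
    have n0 : ‖(U0 - (-Complex.I) * I0) + (-Complex.I) * (I0 - J0)‖ ≤
        2 * Real.exp (N * (V - κ')) := by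
      refine (norm_add_le _ _).trans ?_
      rw [norm_mul (-Complex.I), norm_neg, Complex.norm_I, one_mul]
      linarith
    refine (norm_sub_le _ _).trans ?_
    rw [norm_mul, norm_mul, Complex.norm_ofNat]
    linarith
  have e8 : Real.sqrt N ≤ N := by
    rw [Real.sqrt_le_left (by positivity)]
    nlinarith
  calc Real.sqrt N * (N * ((N : ℝ) ^ (2 * m) * Real.exp (-(N * V)) * _))
      ≤ N * (N * ((N : ℝ) ^ (2 * m) * Real.exp (-(N * V)) * (32 * Real.exp (N * (V - κ'))))) := by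
        gcongr
    _ = 32 * ((N : ℝ) ^ (2 * m + 2) * Real.exp (-(κ' * N))) := by
        have : Real.exp (-(N * V)) * Real.exp (N * (V - κ')) = Real.exp (-(κ' * N)) := by
          rw [← Real.exp_add]; ring_nf
        rw [← this]
        ring
    _ ≤ N * ((N : ℝ) ^ (2 * m + 2) * Real.exp (-(κ' * N))) := by gcongr
    _ = (N : ℝ) ^ (2 * m + 3) * Real.exp (-(κ' * N)) := by ring
    _ ≤ (N : ℝ) ^ (2 * m + 4) * Real.exp (-(κ' * N)) := by
        have : (N : ℝ) ^ (2 * m + 3) ≤ (N : ℝ) ^ (2 * m + 4) :=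
          pow_le_pow_right₀ (by linarith) (by omega)
        gcongr
    _ ≤ _ := h4

end Pool.Agent.Q99.VC
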