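import Pool.Agent.W711.HT.Stm2

/-!
# Upper bound of an even holomorphic function with concave real part
-/

set_option autoImplicit false

namespace Pool.Agent.Q99.VC

open Filter Finset Topology Metric
open Pool.Agent.W711.HT
open scoped Real

lemma Rc_open (ρ τ : ℝ) : IsOpen (Rc ρ τ) := by
  have h1 : Continuous fun z : ℂ => |z.re| := by fun_prop
  have h2 : Continuous fun z : ℂ => |z.im| := by fun_prop
  exact (isOpen_lt h1 continuous_const).inter (isOpen_lt h2 continuous_const)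

lemma deriv_bd {ρ C : ℝ} {g : ℂ → ℂ} {U : Set ℂ}
    (hg : DifferentiableOn ℂ g U) (hb : ∀ z ∈ U, ‖g z‖ ≤ C) {z : ℂ}
    (hz : closedBall z ρ ⊆ U) (hρ : 0 < ρ) : ‖deriv g z‖ ≤ C / ρ := by
  refine Complex.norm_deriv_le_of_forall_mem_sphere_norm_le hρ ?_ ?_
  · refine DifferentiableOn.diffContOnCl ?_
    rw [closure_ball z hρ.ne']
    exact hg.mono hz
  · intro w hw
    exact hb w (hz (sphere_subset_closedBall hw))

lemma mem_of_close {ρ τ r : ℝ} {z w : ℂ} (h1 : |z.re| + r < ρ) (h2 : |z.im| + r < τ)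
    (h : ‖w - z‖ ≤ r) : w ∈ Rc ρ τ := by
  have e1 : |w.re - z.re| ≤ r := by
    have := Complex.abs_re_le_norm (w - z)
    rw [Complex.sub_re] at this
    exact this.trans h
  have e2 : |w.im - z.im| ≤ r := by
    have := Complex.abs_im_le_norm (w - z)
    rw [Complex.sub_im] at this
    exact this.trans h
  constructor
  · have : |w.re| ≤ |w.re - z.re| + |z.re| := by
      simpa using abs_add_le (w.re - z.re) z.re
    linarith
  · have : |w.im| ≤ |w.im - z.im| + |z.im| := by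
      simpa using abs_add_le (w.im - z.im) z.im
    linarith

lemma second_bd {ρ τ C : ℝ} (hτ : 0 < τ) (hτρ : τ ≤ ρ) {g : ℂ → ℂ}
    (hg : DifferentiableOn ℂ g (Rc (3 * ρ) (3 * τ))) (hb : ∀ z ∈ Rc (3 * ρ) (3 * τ), ‖g z‖ ≤ C)
    {z : ℂ} (h1 : |z.re| ≤ ρ) (h2 : |z.im| ≤ τ) : ‖deriv (deriv g) z‖ ≤ C / (τ / 2) / (τ / 2) := by
  have hU : IsOpen (Rc (2 * ρ) (2 * τ)) := Rc_open _ _
  have hρ : 0 < ρ := hτ.trans_le hτρ
  have hd : DifferentiableOn ℂ (deriv g) (Rc (2 * ρ) (2 * τ)) := by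
    refine (hg.deriv (Rc_open _ _)).mono ?_
    rintro w ⟨h3, h4⟩
    exact ⟨by linarith, by linarith⟩
  refine deriv_bd hd (fun w hw => ?_) ?_ (by linarith)
  · refine deriv_bd hg hb ?_ (by linarith)
    intro u hu
    refine mem_of_close (z := w) (r := τ / 2) ?_ ?_ ?_
    · have := hw.1
      linarith
    · have := hw.2
      linarith
    · simpa [dist_eq_norm] using hu
  · intro u hu
    refine mem_of_close (z := z) (r := τ / 2) ?_ ?_ ?_
    · linarith
    · linarith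
    · simpa [dist_eq_norm] using hu

lemma deriv_zero {ρ τ : ℝ} (hρ : 0 < ρ) (hτ : 0 < τ) {g : ℂ → ℂ}
    (hg : DifferentiableOn ℂ g (Rc ρ τ)) (hev : ∀ z ∈ Rc ρ τ, g (-z) = g z) : deriv g 0 = 0 := by
  have h0 : (0 : ℂ) ∈ Rc ρ τ := ⟨by simpa using hρ, by simpa using hτ⟩
  have hd : DifferentiableAt ℂ g 0 := (hg 0 h0).differentiableAt ((Rc_open ρ τ).mem_nhds h0)
  have h1 : HasDerivAt g (deriv g 0) 0 := hd.hasDerivAt
  have h2 : HasDerivAt (fun z => g (-z)) (-(deriv g 0)) 0 := by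
    have h3 : HasDerivAt g (deriv g 0) (-(0 : ℂ)) := by simpa using h1
    have := h3.scomp (0 : ℂ) (hasDerivAt_neg (0 : ℂ))
    simpa [Function.comp_def] using this
  have h4 : HasDerivAt g (-(deriv g 0)) 0 := by
    refine h2.congr_of_eventuallyEq ?_
    filter_upwards [(Rc_open ρ τ).mem_nhds h0] with z hz
    exact (hev z hz).symm
  have h5 := h1.unique h4
  have h6 : (2 : ℂ) * deriv g 0 = 0 := by linear_combination h5
  simpa using h6

lemma ray {ρ τ c C : ℝ} (hτ : 0 < τ) (hτρ : τ ≤ ρ) (hc : 0 < c) {g : ℂ → ℂ}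
    (hg : DifferentiableOn ℂ g (Rc (3 * ρ) (3 * τ))) (hb : ∀ z ∈ Rc (3 * ρ) (3 * τ), ‖g z‖ ≤ C)
    (hev : ∀ z ∈ Rc (3 * ρ) (3 * τ), g (-z) = g z)
    (hcc : ∀ z ∈ Rc (3 * ρ) (3 * τ), (deriv (deriv g) z).re ≤ -c) {x y : ℝ}
    (hx : |x| ≤ ρ) (hy : |y| ≤ τ) :
    (g (x + y * Complex.I)).re ≤ (g 0).re +
      ((C / (τ / 2) / (τ / 2) + 2 * (C / (τ / 2) / (τ / 2)) ^ 2 / c) / 2 * y ^ 2 -
        c / 4 * x ^ 2) := by
  set M2 := C / (τ / 2) / (τ / 2) with hM2
  have hρ : 0 < ρ := hτ.trans_le hτρ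
  have h0 : (0 : ℂ) ∈ Rc (3 * ρ) (3 * τ) :=
    ⟨by simpa using (by linarith : (0:ℝ) < ρ), by simpa using (by linarith : (0:ℝ) < τ)⟩
  have hC : 0 ≤ C := (norm_nonneg _).trans (hb 0 h0)
  have hM0 : 0 ≤ M2 := by positivity
  set z : ℂ := x + y * Complex.I with hz
  have hzr : z.re = x := by simp [hz]
  have hzi : z.im = y := by simp [hz]
  have hm : ∀ t : ℝ, t ∈ Set.Icc (0:ℝ) 1 → ((t : ℂ) * z) ∈ Rc (3 * ρ) (3 * τ) ∧
      |((t : ℂ) * z).re| ≤ ρ ∧ |((t : ℂ) * z).im| ≤ τ := by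
    intro t ht
    have e1 : ((t : ℂ) * z).re = t * x := by simp [hz]
    have e2 : ((t : ℂ) * z).im = t * y := by simp [hz]
    have h1 : |t * x| ≤ ρ := by
      rw [abs_mul, abs_of_nonneg ht.1]
      nlinarith [ht.2, abs_nonneg x, ht.1]
    have h2 : |t * y| ≤ τ := by
      rw [abs_mul, abs_of_nonneg ht.1]
      nlinarith [ht.2, abs_nonneg y, ht.1]
    refine ⟨⟨?_, ?_⟩, ?_, ?_⟩
    · rw [e1]; linarith
    · rw [e2]; linarith
    · rw [e1]; exact h1
    · rw [e2]; exact h2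
  have hopen := Rc_open (3 * ρ) (3 * τ)
  have hgd : ∀ t ∈ Set.Icc (0:ℝ) 1, HasDerivAt (fun t : ℝ => (g ((t : ℂ) * z)).re)
      (z * deriv g ((t : ℂ) * z)).re t := by
    intro t ht
    have h1 : HasDerivAt g (deriv g ((t : ℂ) * z)) ((t : ℂ) * z) :=
      ((hg _ (hm t ht).1).differentiableAt (hopen.mem_nhds (hm t ht).1)).hasDerivAt
    have h2 : HasDerivAt (fun t : ℝ => (t : ℂ) * z) (1 * z) t :=
      (Complex.ofRealCLM.hasDerivAt (x := t)).mul_const z
    have h3 := h1.comp t h2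
    have h4 := Complex.reCLM.hasFDerivAt.comp_hasDerivAt t h3
    simpa [Function.comp_def, mul_comm] using h4
  have hgd2 : ∀ t ∈ Set.Icc (0:ℝ) 1, HasDerivAt (fun t : ℝ => (z * deriv g ((t : ℂ) * z)).re)
      (z * (z * deriv (deriv g) ((t : ℂ) * z))).re t := by
    intro t ht
    have hd : DifferentiableOn ℂ (deriv g) (Rc (3 * ρ) (3 * τ)) := hg.deriv hopen
    have h1 : HasDerivAt (deriv g) (deriv (deriv g) ((t : ℂ) * z)) ((t : ℂ) * z) :=
      ((hd _ (hm t ht).1).differentiableAt (hopen.mem_nhds (hm t ht).1)).hasDerivAt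
    have h2 : HasDerivAt (fun t : ℝ => (t : ℂ) * z) (1 * z) t :=
      (Complex.ofRealCLM.hasDerivAt (x := t)).mul_const z
    have h3 := (h1.comp t h2).const_mul z
    have h4 := Complex.reCLM.hasFDerivAt.comp_hasDerivAt t h3
    simpa [Function.comp_def, mul_comm] using h4
  set M := (M2 + 2 * M2 ^ 2 / c) * y ^ 2 - c / 2 * x ^ 2 with hM
  have hsec : ∀ t ∈ Set.Icc (0:ℝ) 1, (z * (z * deriv (deriv g) ((t : ℂ) * z))).re ≤ M := by
    intro t ht
    obtain ⟨m1, m2, m3⟩ := hm t ht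
    have h1 := hcc _ m1
    have h2 : ‖deriv (deriv g) ((t : ℂ) * z)‖ ≤ M2 := second_bd hτ hτρ hg hb m2 m3
    set w := deriv (deriv g) ((t : ℂ) * z) with hw
    have h3 : |w.re| ≤ M2 := (Complex.abs_re_le_norm w).trans h2
    have h4 : |w.im| ≤ M2 := (Complex.abs_im_le_norm w).trans h2
    have e : (z * (z * w)).re = (x ^ 2 - y ^ 2) * w.re - 2 * x * y * w.im := by
      rw [Complex.mul_re, Complex.mul_re, Complex.mul_im, hzr, hzi]
      ring
    rw [e, hM]
    have h5 : -(2 * x * y * w.im) ≤ 2 * |x| * |y| * M2 := by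
      calc -(2 * x * y * w.im) ≤ |2 * x * y * w.im| := neg_le_abs _
        _ = 2 * |x| * |y| * |w.im| := by rw [abs_mul, abs_mul, abs_mul, abs_two]
        _ ≤ _ := by gcongr
    have h6 : -(y ^ 2 * w.re) ≤ y ^ 2 * M2 := by
      have := neg_le_abs w.re
      nlinarith [sq_nonneg y]
    have h7 : x ^ 2 * w.re ≤ -c * x ^ 2 := by nlinarith [sq_nonneg x]
    have h8 : 2 * |x| * |y| * M2 ≤ c / 2 * x ^ 2 + 2 * M2 ^ 2 / c * y ^ 2 := by
      have h9 : 0 ≤ (c / 2) * (|x| - 2 * M2 / c * |y|) ^ 2 := by positivity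
      have h10 : (c / 2) * (|x| - 2 * M2 / c * |y|) ^ 2 =
          c / 2 * x ^ 2 + 2 * M2 ^ 2 / c * y ^ 2 - 2 * |x| * |y| * M2 := by
        have : |x| ^ 2 = x ^ 2 := sq_abs x
        have : |y| ^ 2 = y ^ 2 := sq_abs y
        field_simp
        nlinarith [sq_abs x, sq_abs y]
      linarith
    nlinarith
  have hz0 : (z * deriv g 0).re = 0 := by
    rw [deriv_zero (by linarith) (by linarith) hg hev]
    simp
  have hcv : Convex ℝ (Set.Icc (0:ℝ) 1) := convex_Icc 0 1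
  have hfirst : ∀ t ∈ Set.Icc (0:ℝ) 1, (z * deriv g ((t : ℂ) * z)).re ≤ M * t := by
    intro t ht
    have := hcv.image_sub_le_mul_sub_of_deriv_le
      (f := fun t : ℝ => (z * deriv g ((t : ℂ) * z)).re)
      (fun u hu => (hgd2 u hu).continuousAt.continuousWithinAt)
      (fun u hu => (hgd2 u (interior_subset hu)).differentiableAt.differentiableWithinAt)
      (C := M) (fun u hu => by rw [(hgd2 u (interior_subset hu)).deriv]; exact hsec u (interior_subset hu))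
      0 (by simp) t ht ht.1
    simp only [Complex.ofReal_zero, zero_mul, hz0, sub_zero] at this
    exact this
  have hlast := hcv.image_sub_le_mul_sub_of_deriv_le
      (f := fun t : ℝ => (g ((t : ℂ) * z)).re - M * t ^ 2 / 2)
      (fun u hu => ((hgd u hu).continuousAt.sub (by fun_prop)).continuousWithinAt)
      (fun u hu => ((hgd u (interior_subset hu)).differentiableAt.sub
        (by fun_prop)).differentiableWithinAt)
      (C := 0) (fun u hu => by
        have h1 := hgd u (interior_subset hu)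
        have h2 : HasDerivAt (fun t : ℝ => M * t ^ 2 / 2) (M * u) u := by
          have := ((hasDerivAt_pow 2 u).const_mul M).div_const 2
          refine this.congr_deriv ?_
          simp
          ring
        have h3 : HasDerivAt (fun t : ℝ => (g ((t : ℂ) * z)).re - M * t ^ 2 / 2)
            ((z * deriv g ((u : ℂ) * z)).re - M * u) u := h1.sub h2
        rw [h3.deriv]
        have := hfirst u (interior_subset hu)
        linarith) 0 (by simp) 1 (by simp) zero_le_one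
  simp only [Complex.ofReal_one, one_mul, Complex.ofReal_zero, zero_mul] at hlast
  rw [hM] at hlast
  nlinarith [hlast]

/-- the upper bound of the potential -/
lemma s_bound {ρ τ κ c : ℝ} {s dl : ℂ → ℂ → ℂ} (hK : KD ρ τ κ c s dl) :
    ∃ A B : ℝ, 0 < A ∧ 0 < B ∧ ∀ x y x' y' : ℝ, |x| ≤ ρ → |y| ≤ τ → |x'| ≤ ρ → |y'| ≤ τ →
      (s (x + y * Complex.I) (x' + y' * Complex.I)).re ≤
        2 * bet + (A * y ^ 2 - B * x ^ 2) + (A * y' ^ 2 - B * x' ^ 2) := by
  obtain ⟨C, hC⟩ := hK.sbd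
  have hτ := hK.hτ.1
  have hτρ := hK.hτ.2
  have hc := hK.hc
  have hρ : 0 < ρ := hK.hρ.1
  have h0 : (0 : ℂ) ∈ Rc (3 * ρ) (3 * τ) :=
    ⟨by simpa using (by linarith : (0:ℝ) < ρ), by simpa using (by linarith : (0:ℝ) < τ)⟩
  have hC0 : 0 ≤ C := (norm_nonneg _).trans (hC 0 h0 0 h0)
  have hmem : ∀ x y : ℝ, |x| ≤ ρ → |y| ≤ τ → ((x : ℂ) + y * Complex.I) ∈ Rc (3 * ρ) (3 * τ) := by
    intro x y hx hy
    constructor
    · simp; linarith
    · simp; linarith
  have hdiff : ∀ ψ' ∈ Rc (3 * ρ) (3 * τ), DifferentiableOn ℂ (fun z => s z ψ')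
      (Rc (3 * ρ) (3 * τ)) := by
    intro ψ' hψ'
    have h1 : DifferentiableOn ℂ (fun z : ℂ => (z, ψ')) (Rc (3 * ρ) (3 * τ)) := by fun_prop
    exact hK.san.comp h1 (fun z hz => ⟨hz, hψ'⟩)
  set A0 := (C / (τ / 2) / (τ / 2) + 2 * (C / (τ / 2) / (τ / 2)) ^ 2 / c) / 2 with hA0
  have hA00 : 0 ≤ A0 := by positivity
  refine ⟨A0 + 1, c / 4, by linarith, by linarith, ?_⟩
  intro x y x' y' hx hy hx' hy'
  have m := hmem x y hx hy
  have m' := hmem x' y' hx' hy'
  have r1 := ray hτ hτρ hc (hdiff _ m') (fun z hz => hC z hz _ m')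
    (fun z hz => hK.ev z hz _ m') (fun z hz => hK.conc z hz _ m') hx hy
  have r2 := ray hτ hτρ hc (hdiff _ h0) (fun z hz => hC z hz _ h0)
    (fun z hz => hK.ev z hz _ h0) (fun z hz => hK.conc z hz _ h0) hx' hy'
  have e : s 0 (x' + y' * Complex.I) = s (x' + y' * Complex.I) 0 := hK.sym _ h0 _ m'
  have e2 : (s 0 0).re = 2 * bet := by rw [hK.zero]; simp

  rw [e] at r1
  rw [e2] at r2
  nlinarith [sq_nonneg y, sq_nonneg y']

end Pool.Agent.Q99.VC
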