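import Pool.Agent.W503.HT.Upb
import Pool.Agent.Q99.VC.Ray

/-!
# The integral near the origin: deformation of the path
-/

set_option autoImplicit false

namespace Pool.Agent.Q99.VC

open Filter Finset Topology Metric
open Pool.Agent.W711.HT
open scoped Real

lemma norm_Ea_up (a : ℤ) (N : ℕ) (x y : ℝ) (hy : 0 ≤ y) :
    ‖Ea a N (x + y * Complex.I)‖ ≤ Real.exp (N * (|(a : ℝ)| * |x| * y / (2 * π))) := by
  have e : Complex.I * a * N * ((x : ℂ) + y * Complex.I) ^ 2 / (4 * π) =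
      ((-(a * N * x * y) / (2 * π) : ℝ) : ℂ) +
        ((a * N * (x ^ 2 - y ^ 2) / (4 * π) : ℝ) : ℂ) * Complex.I := by
    have hpi : (π : ℂ) ≠ 0 := by exact_mod_cast Real.pi_ne_zero
    push_cast
    field_simp
    linear_combination (a * N * (4 * (x : ℂ) * y + 2 * Complex.I * y ^ 2)) * Complex.I_sq
  rw [Ea, e, Complex.norm_exp]
  refine Real.exp_le_exp.2 ?_
  have e2 : (((-(a * N * x * y) / (2 * π) : ℝ) : ℂ) +
        ((a * N * (x ^ 2 - y ^ 2) / (4 * π) : ℝ) : ℂ) * Complex.I).re =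
        -(a * N * x * y) / (2 * π) := by
    simp only [Complex.add_re, Complex.mul_re, Complex.ofReal_re, Complex.ofReal_im,
      Complex.I_re, Complex.I_im, mul_zero, zero_mul, sub_zero, add_zero]
  rw [e2]
  refine (le_abs_self _).trans ?_
  have hN : (0:ℝ) ≤ N := Nat.cast_nonneg N
  rw [abs_div, abs_neg, abs_mul, abs_mul, abs_mul, abs_of_pos (mul_pos two_pos Real.pi_pos),
    abs_of_nonneg hN, abs_of_nonneg hy]
  apply le_of_eq
  ring

lemma sinh_low {q : ℝ} (hq : 1 / 2 ≤ q) : 3 / 10 * Real.exp q ≤ Real.sinh q := by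
  rw [Real.sinh_eq]
  have h1 : Real.exp (-q) * Real.exp (2 * q) = Real.exp q := by
    rw [← Real.exp_add]; ring_nf
  have h2 : (2.7182818283 : ℝ) < Real.exp 1 := Real.exp_one_gt_d9
  have h3 : Real.exp 1 ≤ Real.exp (2 * q) := Real.exp_le_exp.2 (by linarith)
  have h4 := Real.exp_pos (-q)
  nlinarith

lemma norm_kr_up {N : ℕ} (hN : 1 ≤ N) (x y : ℝ) (hy1 : 1 / N ≤ y) (hy2 : y ≤ 1) :
    ‖kr N (x + y * Complex.I)‖ ≤ 16 * Real.exp (-(N * y)) := by
  have hN0 : (0:ℝ) < N := by exact_mod_cast hN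
  have hy0 : 0 < y := lt_of_lt_of_le (by positivity) hy1
  have hq : (1:ℝ) / 2 ≤ N * y / 2 := by
    have : (1:ℝ) ≤ N * y := by
      rw [div_le_iff₀ hN0] at hy1
      linarith
    linarith
  have h1 := sinh_low hq
  have h2 : (3 / 10 * Real.exp (N * y / 2)) ^ 2 ≤ Real.sinh (N * y / 2) ^ 2 := by
    gcongr
  have h3 : (3 / 10 * Real.exp (N * y / 2)) ^ 2 = 9 / 100 * Real.exp (N * y) := by
    rw [mul_pow, ← Real.exp_nat_mul]
    ring_nf
  rw [h3] at h2
  have hS : 9 / 100 * Real.exp (N * y) ≤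
      Real.cos (N * (x + π) / 2) ^ 2 + Real.sinh (N * y / 2) ^ 2 := by
    nlinarith [sq_nonneg (Real.cos (N * (x + π) / 2))]
  have hE := Real.exp_pos (N * y)
  rw [kr, cos_arg, norm_div, norm_mul, norm_mul, norm_pow, sq_norm_cos_add]
  have hpos : 0 < ‖(4:ℂ)‖ * (Real.cos (N * (x + π) / 2) ^ 2 + Real.sinh (N * y / 2) ^ 2) := by
    have : ‖(4:ℂ)‖ = 4 := by simp
    rw [this]
    nlinarith
  rw [div_le_iff₀ hpos]
  have h5 := norm_sin_le x y (by rw [abs_of_pos hy0]; exact hy2)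
  have h6 : ‖(2:ℂ)‖ = 2 := by simp
  have h7 : ‖(4:ℂ)‖ = 4 := by simp
  rw [h6, h7]
  have h8 : Real.exp 1 < 2.7182818286 := Real.exp_one_lt_d9
  have h9 : Real.exp (-(N * y)) * Real.exp (N * y) = 1 := by
    rw [← Real.exp_add]; simp
  have h10 := Real.exp_pos (-(N * y))
  calc 2 * ‖Complex.sin (x + y * Complex.I)‖ ≤ 2 * Real.exp 1 := by linarith
    _ ≤ 16 * (4 * (9 / 100)) * (Real.exp (-(N * y)) * Real.exp (N * y)) := by
        rw [h9]; linarith
    _ = 16 * Real.exp (-(N * y)) * (4 * (9 / 100 * Real.exp (N * y))) := by ring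
    _ ≤ _ := by gcongr

/-- the constants -/
structure Cst (ρ τ κ A B K : ℝ) : Prop where
  hρ : 0 < ρ ∧ ρ ≤ 1 / 4
  hτ : 0 < τ ∧ τ ≤ ρ
  hκ : 0 < κ
  hA : 0 < A
  hB : 0 < B
  hK : 0 < K
  k1 : A + 1 / (8 * π ^ 2 * B) ≤ K
  k2 : 1 / (2 * K) ≤ τ
  k3 : 1 / (4 * K) ≤ B * ρ ^ 2 / 2
  k4 : 1 / (4 * K) ≤ κ / 4

/-- the gap -/
noncomputable def gap (K : ℝ) (n : ℕ) (a : ℤ) : ℝ := n / (4 * K * ((n : ℝ) ^ 2 + (a : ℝ) ^ 2))

section

variable {ρ τ κ A B K : ℝ}

lemma gap_nonneg (hK : 0 < K) (n : ℕ) (a : ℤ) : 0 ≤ gap K n a := by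
  unfold gap; positivity

lemma gap_le (hK : 0 < K) {n : ℕ} (hn : 1 ≤ n) (a : ℤ) : gap K n a ≤ 1 / (4 * K) := by
  unfold gap
  have hn1 : (1:ℝ) ≤ n := by exact_mod_cast hn
  have : (n:ℝ) ≤ (n : ℝ) ^ 2 + (a : ℝ) ^ 2 := by nlinarith [sq_nonneg (a:ℝ)]
  rw [div_le_div_iff₀ (by positivity) (by positivity)]
  nlinarith [mul_le_mul_of_nonneg_left this hK.le]

/-- the exponent on the deformed path -/
lemma expo (h : Cst ρ τ κ A B K) {n : ℕ} (hn : 1 ≤ n) (a : ℤ) {x y : ℝ}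
    (hy0 : 0 ≤ y) (hy : y ≤ 2 * gap K n a) (hc : y = 2 * gap K n a ∨ |x| = ρ) :
    -y + |(a : ℝ)| * |x| * y / (2 * π) + n * (A * y ^ 2 - B * x ^ 2) ≤ -gap K n a := by
  have hn1 : (1:ℝ) ≤ n := by exact_mod_cast hn
  have hB := h.hB
  have hA := h.hA
  have hK := h.hK
  have hpi := Real.pi_pos
  have hg0 := gap_nonneg hK n a
  set D : ℝ := (n : ℝ) ^ 2 + (a : ℝ) ^ 2 with hD
  have hD0 : 0 < D := by nlinarith [sq_nonneg (a:ℝ)]
  -- completing the square
  have h1 : |(a : ℝ)| * |x| * y / (2 * π) ≤ n * B * x ^ 2 / 2 +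
      (a : ℝ) ^ 2 * y ^ 2 / (8 * π ^ 2 * (n * B)) := by
    have h2 : 0 ≤ (n * B) / 2 * (|x| - |(a : ℝ)| * y / (2 * π * (n * B))) ^ 2 := by positivity
    have h3 : (n * B) / 2 * (|x| - |(a : ℝ)| * y / (2 * π * (n * B))) ^ 2 =
        n * B * x ^ 2 / 2 + (a : ℝ) ^ 2 * y ^ 2 / (8 * π ^ 2 * (n * B)) -
          |(a : ℝ)| * |x| * y / (2 * π) := by
      rw [← sq_abs x, ← sq_abs (a : ℝ)]
      field_simp
      ring
    linarith
  have h4 : (n : ℝ) * A * y ^ 2 + (a : ℝ) ^ 2 * y ^ 2 / (8 * π ^ 2 * (n * B)) ≤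
      K * y ^ 2 * D / n := by
    have e1 : (a : ℝ) ^ 2 * y ^ 2 / (8 * π ^ 2 * (n * B)) =
        (1 / (8 * π ^ 2 * B)) * (y ^ 2 * ((a : ℝ) ^ 2 / n)) := by
      field_simp
    have e2 : K * y ^ 2 * D / n = K * (y ^ 2 * (n + (a : ℝ) ^ 2 / n)) := by
      rw [hD]; field_simp
    rw [e1, e2]
    have h5 : 0 ≤ 1 / (8 * π ^ 2 * B) := by positivity
    have h6 := h.k1
    have h7 : 0 ≤ y ^ 2 * ((a : ℝ) ^ 2 / n) := by positivity
    have h8 : 0 ≤ y ^ 2 * (n:ℝ) := by positivity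
    have h9 : A ≤ K := by linarith
    have h10 : 1 / (8 * π ^ 2 * B) ≤ K := by linarith
    nlinarith [mul_le_mul_of_nonneg_right h9 h8, mul_le_mul_of_nonneg_right h10 h7]
  have hgD : gap K n a * (4 * K * D) = n := by
    unfold gap
    rw [← hD]
    field_simp
  have h5 : K * y ^ 2 * D / n ≤ y / 2 := by
    rw [div_le_div_iff₀ (by linarith) two_pos]
    have : y * (4 * K * D) ≤ 2 * n := by
      calc y * (4 * K * D) ≤ 2 * gap K n a * (4 * K * D) := by gcongr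
        _ = 2 * n := by rw [mul_assoc, hgD]
    nlinarith
  rcases hc with hc | hc
  · have hx2 : 0 ≤ (n : ℝ) * B * x ^ 2 := by positivity
    nlinarith
  · have h6 : x ^ 2 = ρ ^ 2 := by rw [← sq_abs, hc]
    have h7 : gap K n a ≤ B * ρ ^ 2 / 2 := (gap_le hK hn a).trans h.k3
    have h8 : B * ρ ^ 2 / 2 ≤ n * B * ρ ^ 2 / 2 := by
      have : 0 ≤ B * ρ ^ 2 := by positivity
      nlinarith
    rw [h6] at h1 ⊢
    nlinarith

end

/-- deformation of a horizontal path -/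
lemma deform {F : ℂ → ℂ} {ρ h1 h2 : ℝ} (h12 : h1 ≤ h2) (hρ : 0 < ρ)
    (hF : DifferentiableOn ℂ F {z : ℂ | h1 ≤ z.im}) {M : ℝ}
    (ht : ∀ x : ℝ, |x| ≤ ρ → ‖F (x + h2 * Complex.I)‖ ≤ M)
    (hl : ∀ y : ℝ, h1 ≤ y → y ≤ h2 → ‖F ((-ρ : ℝ) + y * Complex.I)‖ ≤ M)
    (hr : ∀ y : ℝ, h1 ≤ y → y ≤ h2 → ‖F ((ρ : ℝ) + y * Complex.I)‖ ≤ M) :
    ‖∫ x in (-ρ)..ρ, F (x + h1 * Complex.I)‖ ≤ (2 * ρ + 2 * (h2 - h1)) * M := by
  have hcau := Complex.integral_boundary_rect_eq_zero_of_differentiableOn F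
    ((-ρ : ℝ) + h1 * Complex.I) ((ρ : ℝ) + h2 * Complex.I) (hF.mono (by
      intro z hz
      have := hz.2
      simp only [Complex.add_im, Complex.ofReal_im, Complex.mul_im, Complex.ofReal_re,
        Complex.I_im, mul_one, Complex.I_re, mul_zero, add_zero, zero_add] at this
      rw [Set.mem_preimage, Set.uIcc_of_le h12] at this
      exact this.1))
  simp only [Complex.add_re, Complex.ofReal_re, Complex.mul_re, Complex.I_re, mul_zero,
    Complex.ofReal_im, Complex.I_im, mul_one, sub_self, add_zero, Complex.add_im,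
    Complex.mul_im, zero_add, smul_eq_mul] at hcau
  have e : (∫ x in (-ρ)..ρ, F (x + h1 * Complex.I)) = (∫ x in (-ρ)..ρ, F (x + h2 * Complex.I)) -
      Complex.I * (∫ y in h1..h2, F ((ρ : ℝ) + y * Complex.I)) +
      Complex.I * (∫ y in h1..h2, F ((-ρ : ℝ) + y * Complex.I)) := by
    linear_combination hcau
  rw [e]
  have i1 : ‖∫ x in (-ρ)..ρ, F (x + h2 * Complex.I)‖ ≤ M * |ρ - -ρ| := by
    refine intervalIntegral.norm_integral_le_of_norm_le_const ?_
    intro x hx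
    rw [Set.uIoc_of_le (by linarith)] at hx
    exact ht x (abs_le.2 ⟨hx.1.le, hx.2⟩)
  have i2 : ‖∫ y in h1..h2, F ((ρ : ℝ) + y * Complex.I)‖ ≤ M * |h2 - h1| := by
    refine intervalIntegral.norm_integral_le_of_norm_le_const ?_
    intro y hy
    rw [Set.uIoc_of_le h12] at hy
    exact hr y hy.1.le hy.2
  have i3 : ‖∫ y in h1..h2, F ((-ρ : ℝ) + y * Complex.I)‖ ≤ M * |h2 - h1| := by
    refine intervalIntegral.norm_integral_le_of_norm_le_const ?_
    intro y hy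
    rw [Set.uIoc_of_le h12] at hy
    exact hl y hy.1.le hy.2
  rw [abs_of_nonneg (by linarith)] at i1 i2 i3
  have hI : ∀ z : ℂ, ‖Complex.I * z‖ = ‖z‖ := by intro z; rw [norm_mul, Complex.norm_I, one_mul]
  refine (norm_add_le _ _).trans ?_
  have t1 := norm_sub_le (∫ x in (-ρ)..ρ, F (x + h2 * Complex.I))
    (Complex.I * (∫ y in h1..h2, F ((ρ : ℝ) + y * Complex.I)))
  rw [hI] at t1
  rw [hI]
  nlinarith

/-- the integrand is holomorphic above the real axis -/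
lemma hol_up {N : ℕ} (hN : 1 ≤ N) (a : ℤ) {f : ℂ → ℂ} (hf : Differentiable ℂ f) :
    DifferentiableOn ℂ (fun ψ => Ea a N ψ * f ψ * kr N ψ) {z : ℂ | (1 / N : ℝ) ≤ z.im} := by
  have hN0 : (0:ℝ) < N := by exact_mod_cast hN
  intro z hz
  have hz1 : (1 / N : ℝ) ≤ z.im := hz
  have hz0 : z = z.re + z.im * Complex.I := (Complex.re_add_im z).symm
  have hq : (1:ℝ) / 2 ≤ N * z.im / 2 := by
    have : (1:ℝ) ≤ N * z.im := by
      rw [div_le_iff₀ hN0] at hz1
      linarith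
    linarith
  have hcos : Complex.cos (N * (z + π) / 2) ≠ 0 := by
    intro h0
    have h2 := sq_norm_cos_add (N * (z.re + π) / 2) (N * z.im / 2)
    rw [← cos_arg, ← hz0, h0] at h2
    have h3 := sinh_low hq
    have h4 : 0 < Real.sinh (N * z.im / 2) := lt_of_lt_of_le (by positivity) h3
    simp only [norm_zero, ne_eq, OfNat.ofNat_ne_zero, not_false_eq_true, zero_pow] at h2
    nlinarith [sq_nonneg (Real.cos (N * (z.re + π) / 2))]
  refine DifferentiableAt.differentiableWithinAt ?_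
  refine DifferentiableAt.mul (DifferentiableAt.mul ?_ (hf z)) ?_
  · unfold Ea
    fun_prop
  · unfold kr
    refine DifferentiableAt.div (by fun_prop) (by fun_prop) ?_
    exact mul_ne_zero (by norm_num) (pow_ne_zero _ hcos)

lemma near_int {ρ τ κ A B K : ℝ} (h : Cst ρ τ κ A B K) {N : ℕ} (hN : 1 ≤ N)
    (hNτ : (1 : ℝ) / N ≤ τ) {n : ℕ} (hn : 1 ≤ n) (a : ℤ) {f : ℂ → ℂ} (hf : Differentiable ℂ f)
    {G M : ℝ} (hb : ∀ x y : ℝ, |x| ≤ ρ → |y| ≤ τ →
      ‖f (x + y * Complex.I)‖ ≤ Real.exp (N * (G + n * (A * y ^ 2 - B * x ^ 2)) + M)) :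
    ‖∫ x in (-ρ)..ρ, Ea a N (x + (1 / N : ℝ) * Complex.I) *
          f (x + (1 / N : ℝ) * Complex.I) * kr N (x + (1 / N : ℝ) * Complex.I)‖ ≤
      Real.exp (|(a : ℝ)| / 2 + n * A + 4 + M + N * (G - gap K n a)) := by
  have hN0 : (0:ℝ) < N := by exact_mod_cast hN
  have hN1 : (1:ℝ) ≤ N := by exact_mod_cast hN
  have hρ := h.hρ
  have hτ := h.hτ
  have hA := h.hA
  have hB := h.hB
  have hK := h.hK
  have hn0 : (0:ℝ) ≤ n := Nat.cast_nonneg n
  have hg0 := gap_nonneg hK n a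
  have hpi := Real.pi_gt_three
  have hh0 : (0:ℝ) < 1 / N := by positivity
  rcases le_total (2 * gap K n a) (1 / N) with hc | hc
  · -- no deformation
    have hNg : N * gap K n a ≤ 1 / 2 := by
      have : N * (2 * gap K n a) ≤ N * (1 / N) := by gcongr
      have e : (N : ℝ) * (1 / N) = 1 := by field_simp
      linarith
    have hpt : ∀ x ∈ Set.uIoc (-ρ) ρ, ‖Ea a N (x + (1 / N : ℝ) * Complex.I) *
          f (x + (1 / N : ℝ) * Complex.I) * kr N (x + (1 / N : ℝ) * Complex.I)‖ ≤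
          Real.exp (|(a : ℝ)| / 2) * Real.exp (N * G + n * A + M) * (2 * Real.exp 1) := by
      intro x hx
      rw [Set.uIoc_of_le (by linarith)] at hx
      have hx1 : |x| ≤ ρ := abs_le.2 ⟨hx.1.le, hx.2⟩
      have b1 := norm_Ea_le a hN (x := x) (y := 1 / N) (by linarith) (by rw [abs_of_pos hh0])
      have b2 := hb x (1 / N) hx1 (by rw [abs_of_pos hh0]; exact hNτ)
      have b3 := norm_kr_hor hN x
      have b4 : N * (G + n * (A * (1 / (N:ℝ)) ^ 2 - B * x ^ 2)) + M ≤ N * G + n * A + M := by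
        have e : (N:ℝ) * (1 / (N:ℝ)) ^ 2 = 1 / N := by field_simp
        have e2 : N * (G + n * (A * (1 / (N:ℝ)) ^ 2 - B * x ^ 2)) =
          N * G + n * A * (N * (1 / (N:ℝ)) ^ 2) - N * (n * (B * x ^ 2)) := by ring
        rw [e2, e]
        have e3 : 1 / (N:ℝ) ≤ 1 := by rw [div_le_one hN0]; exact hN1
        have e4 : 0 ≤ N * (n * (B * x ^ 2)) := by positivity
        have e5 : n * A * (1 / (N:ℝ)) ≤ n * A * 1 := by gcongr
        linarith
      have b5 := b2.trans (Real.exp_le_exp.2 b4)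
      rw [norm_mul, norm_mul]
      gcongr
    have h1 := intervalIntegral.norm_integral_le_of_norm_le_const hpt
    refine h1.trans ?_
    rw [abs_of_nonneg (show (0:ℝ) ≤ ρ - -ρ by linarith)]
    have e1 : Real.exp (|(a : ℝ)| / 2) * Real.exp (N * G + n * A + M) * (2 * Real.exp 1) =
        2 * Real.exp (|(a : ℝ)| / 2 + (N * G + n * A + M) + 1) := by
      rw [Real.exp_add (|(a : ℝ)| / 2 + (N * G + n * A + M)) 1,
        Real.exp_add (|(a : ℝ)| / 2) (N * G + n * A + M)]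
      ring
    rw [e1]
    have e2 : 2 * Real.exp (|(a : ℝ)| / 2 + (N * G + n * A + M) + 1) * (ρ - -ρ) ≤
        Real.exp (|(a : ℝ)| / 2 + (N * G + n * A + M) + 1) * 1 := by
      have := Real.exp_pos (|(a : ℝ)| / 2 + (N * G + n * A + M) + 1)
      nlinarith
    refine e2.trans ?_
    rw [mul_one]
    refine Real.exp_le_exp.2 ?_
    linarith
  · -- deformation
    have h2τ : 2 * gap K n a ≤ τ := by
      have h1 := gap_le hK hn a
      have h2 := h.k2
      have h3 : 2 * (1 / (4 * K)) = 1 / (2 * K) := by field_simp; ring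
      linarith
    set X : ℝ := 16 * Real.exp (N * (G - gap K n a) + M) with hX
    have hpt : ∀ x y : ℝ, |x| ≤ ρ → 1 / N ≤ y → y ≤ 2 * gap K n a →
        (y = 2 * gap K n a ∨ |x| = ρ) →
        ‖Ea a N (x + y * Complex.I) * f (x + y * Complex.I) * kr N (x + y * Complex.I)‖ ≤ X := by
      intro x y hx hy1 hy2 hor
      have hy0 : 0 ≤ y := hh0.le.trans hy1
      have b1 := norm_Ea_up a N x y hy0
      have b2 := hb x y hx (by rw [abs_of_nonneg hy0]; linarith)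
      have b3 := norm_kr_up hN x y hy1 (by linarith)
      have b4 := expo h hn a hy0 hy2 hor
      rw [norm_mul, norm_mul]
      calc _ ≤ Real.exp (N * (|(a : ℝ)| * |x| * y / (2 * π))) *
            Real.exp (N * (G + n * (A * y ^ 2 - B * x ^ 2)) + M) *
            (16 * Real.exp (-(N * y))) := by gcongr
        _ = 16 * Real.exp (N * (G + (-y + |(a : ℝ)| * |x| * y / (2 * π) +
            n * (A * y ^ 2 - B * x ^ 2))) + M) := by
          rw [mul_comm, mul_assoc, mul_comm (Real.exp (-(N * y))), ← Real.exp_add, ← Real.exp_add]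
          ring_nf
        _ ≤ X := by
          rw [hX]
          have : N * (G + (-y + |(a : ℝ)| * |x| * y / (2 * π) +
            n * (A * y ^ 2 - B * x ^ 2))) + M ≤ N * (G - gap K n a) + M := by
            have := mul_le_mul_of_nonneg_left b4 hN0.le
            nlinarith
          gcongr
    have hd := deform (F := fun ψ => Ea a N ψ * f ψ * kr N ψ) (ρ := ρ) (h1 := 1 / N)
      (h2 := 2 * gap K n a) hc hρ.1 (hol_up hN a hf) (M := X)
      (fun x hx => hpt x _ hx hc le_rfl (Or.inl rfl))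
      (fun y hy1 hy2 => hpt (-ρ) y (by rw [abs_neg, abs_of_pos hρ.1]) hy1 hy2
        (Or.inr (by rw [abs_neg, abs_of_pos hρ.1])))
      (fun y hy1 hy2 => hpt ρ y (by rw [abs_of_pos hρ.1]) hy1 hy2
        (Or.inr (by rw [abs_of_pos hρ.1])))
    refine hd.trans ?_
    have hX0 : 0 < X := by rw [hX]; positivity
    have e1 : (2 * ρ + 2 * (2 * gap K n a - 1 / N)) * X ≤ 1 * X := by
      refine mul_le_mul_of_nonneg_right ?_ hX0.le
      linarith
    refine e1.trans ?_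
    have e2 : (16 : ℝ) ≤ Real.exp 4 := by
      have h2 : (2.7182818283 : ℝ) < Real.exp 1 := Real.exp_one_gt_d9
      have h3 : Real.exp 4 = Real.exp 1 ^ 4 := by rw [← Real.exp_nat_mul]; norm_num
      rw [h3]
      calc (16:ℝ) ≤ 2.7182818283 ^ 4 := by norm_num
        _ ≤ _ := by gcongr
    rw [one_mul, hX]
    calc 16 * Real.exp (N * (G - gap K n a) + M) ≤
        Real.exp 4 * Real.exp (N * (G - gap K n a) + M) := by gcongr
      _ = Real.exp (4 + (N * (G - gap K n a) + M)) := (Real.exp_add 4 _).symm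
      _ ≤ _ := by
        refine Real.exp_le_exp.2 ?_
        have : 0 ≤ |(a : ℝ)| / 2 := by positivity
        have : 0 ≤ n * A := by positivity
        linarith

end Pool.Agent.Q99.VC
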