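import Pool.Agent.Q99.VC.Swap

/-!
# The bound with a factor of smaller exponential growth
-/

set_option autoImplicit false

namespace Pool.Agent.Q99.VC

open Filter Finset Topology Metric
open Pool.Agent.W711.HT hiding XX
open Pool.Agent.W719.AR
open scoped Real

section

variable {ρ τ κ A B K ε σ : ℝ} {N : ℕ}

/-- the exponent on the deformed path -/
lemma expo_gen (h : Cst ρ τ κ A B K) (hσ : 0 < σ) (hσ1 : σ ≤ 1) {n : ℕ} (hn : 1 ≤ n) (a : ℤ)
    {x y : ℝ} (hy0 : 0 ≤ y) (hy : y ≤ σ * gap K n a) (hc : y = σ * gap K n a ∨ |x| = ρ) :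
    -(σ * y) + |(a : ℝ)| * |x| * y / (2 * π) + n * (A * y ^ 2 - B * x ^ 2) ≤
      -(σ ^ 2 * gap K n a / 2) := by
  have hn1 : (1:ℝ) ≤ n := by exact_mod_cast hn
  have hB := h.hB
  have hA := h.hA
  have hK := h.hK
  have hpi := Real.pi_pos
  have hg0 := gap_nonneg hK n a
  set D : ℝ := (n : ℝ) ^ 2 + (a : ℝ) ^ 2 with hD
  have hD0 : 0 < D := by nlinarith [sq_nonneg (a:ℝ)]
  have h1 : |(a : ℝ)| * |x| * y / (2 * π) ≤ n * B * x ^ 2 / 2 +
      (a : ℝ) ^ 2 * y ^ 2 / (8 * π ^ 2 * (n * B)) := by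
    have h2 : 0 ≤ (n * B) / 2 * (|x| - |(a : ℝ)| * y / (2 * π * (n * B))) ^ 2 := by positivity
    have h3 : (n * B) / 2 * (|x| - |(a : ℝ)| * y / (2 * π * (n * B))) ^ 2 =
        n * B * x ^ 2 / 2 + (a : ℝ) ^ 2 * y ^ 2 / (8 * π ^ 2 * (n * B)) -
          |(a : ℝ)| * |x| * y / (2 * π) := by
      rw [← sq_abs x, ← sq_abs (a : ℝ)]
      field_simp
      ring
    linarith
  have h4 : (n : ℝ) * A * y ^ 2 + (a : ℝ) ^ 2 * y ^ 2 / (8 * π ^ 2 * (n * B)) ≤
      K * y ^ 2 * D / n := by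
    have e1 : (a : ℝ) ^ 2 * y ^ 2 / (8 * π ^ 2 * (n * B)) =
        (1 / (8 * π ^ 2 * B)) * (y ^ 2 * ((a : ℝ) ^ 2 / n)) := by
      field_simp
    have e2 : K * y ^ 2 * D / n = K * (y ^ 2 * (n + (a : ℝ) ^ 2 / n)) := by
      rw [hD]; field_simp
    rw [e1, e2]
    have h5 : 0 ≤ 1 / (8 * π ^ 2 * B) := by positivity
    have h6 := h.k1
    have h7 : 0 ≤ y ^ 2 * ((a : ℝ) ^ 2 / n) := by positivity
    have h8 : 0 ≤ y ^ 2 * (n:ℝ) := by positivity
    have h9 : A ≤ K := by linarith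
    have h10 : 1 / (8 * π ^ 2 * B) ≤ K := by linarith
    nlinarith [mul_le_mul_of_nonneg_right h9 h8, mul_le_mul_of_nonneg_right h10 h7]
  have hgD : gap K n a * (4 * K * D) = n := by
    unfold gap
    rw [← hD]
    field_simp
  have h5 : K * y ^ 2 * D / n ≤ σ * y / 4 := by
    rw [div_le_div_iff₀ (by linarith) (by norm_num)]
    have : y * (4 * K * D) ≤ σ * n := by
      calc y * (4 * K * D) ≤ (σ * gap K n a) * (4 * K * D) := by gcongr
        _ = σ * (gap K n a * (4 * K * D)) := by ring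
        _ = σ * n := by rw [hgD]
    nlinarith
  rcases hc with hc | hc
  · have hx2 : 0 ≤ (n : ℝ) * B * x ^ 2 := by positivity
    have h6 : σ * y = σ ^ 2 * gap K n a := by rw [hc]; ring
    have h7 : 0 ≤ σ ^ 2 * gap K n a := by positivity
    nlinarith
  · have h6 : x ^ 2 = ρ ^ 2 := by rw [← sq_abs, hc]
    have h7 : gap K n a ≤ B * ρ ^ 2 / 2 := (gap_le hK hn a).trans h.k3
    have h8 : B * ρ ^ 2 / 2 ≤ n * B * ρ ^ 2 / 2 := by
      have : 0 ≤ B * ρ ^ 2 := by positivity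
      nlinarith
    rw [h6] at h1 ⊢
    have h9 : σ ^ 2 ≤ 1 := by nlinarith
    have h10 : σ ^ 2 * gap K n a ≤ 1 * gap K n a := by gcongr
    have h11 : 0 ≤ σ * y := by positivity
    nlinarith

lemma near_gen (h : Cst ρ τ κ A B K) (hN : 1 ≤ N) (hσ : 0 < σ) (hσ1 : σ ≤ 1)
    (hNτ : (1 : ℝ) / N ≤ τ) {n : ℕ} (hn : 1 ≤ n) (a : ℤ) {f : ℂ → ℂ} (hf : Differentiable ℂ f)
    {G M : ℝ} (hb : ∀ x y : ℝ, |x| ≤ ρ → |y| ≤ τ →
      ‖f (x + y * Complex.I)‖ ≤
        Real.exp (N * (G + (1 - σ) * |y| + n * (A * y ^ 2 - B * x ^ 2)) + M)) :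
    ‖∫ x in (-ρ)..ρ, Ea a N (x + (1 / N : ℝ) * Complex.I) *
          f (x + (1 / N : ℝ) * Complex.I) * kr N (x + (1 / N : ℝ) * Complex.I)‖ ≤
      Real.exp (|(a : ℝ)| / 2 + n * A + 5 + M + N * (G - σ ^ 2 * gap K n a / 2)) := by
  have hN0 : (0:ℝ) < N := by exact_mod_cast hN
  have hN1 : (1:ℝ) ≤ N := by exact_mod_cast hN
  have hρ := h.hρ
  have hτ := h.hτ
  have hA := h.hA
  have hB := h.hB
  have hK := h.hK
  have hn0 : (0:ℝ) ≤ n := Nat.cast_nonneg n
  have hg0 := gap_nonneg hK n a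
  have hpi := Real.pi_gt_three
  have hh0 : (0:ℝ) < 1 / N := by positivity
  rcases le_total (σ * gap K n a) (1 / N) with hc | hc
  · -- no deformation
    have hNg : N * (σ ^ 2 * gap K n a) ≤ 1 := by
      have h1 : N * (σ * gap K n a) ≤ N * (1 / N) := by gcongr
      have e : (N : ℝ) * (1 / N) = 1 := by field_simp
      have h2 : N * (σ ^ 2 * gap K n a) = σ * (N * (σ * gap K n a)) := by ring
      rw [h2]
      have h3 : 0 ≤ N * (σ * gap K n a) := by positivity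
      nlinarith
    have hpt : ∀ x ∈ Set.uIoc (-ρ) ρ, ‖Ea a N (x + (1 / N : ℝ) * Complex.I) *
          f (x + (1 / N : ℝ) * Complex.I) * kr N (x + (1 / N : ℝ) * Complex.I)‖ ≤
          Real.exp (|(a : ℝ)| / 2) * Real.exp (N * G + 1 + n * A + M) *
            (2 * Real.exp 1) := by
      intro x hx
      rw [Set.uIoc_of_le (by linarith)] at hx
      have hx1 : |x| ≤ ρ := abs_le.2 ⟨hx.1.le, hx.2⟩
      have b1 := norm_Ea_le a hN (x := x) (y := 1 / N) (by linarith) (by rw [abs_of_pos hh0])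
      have b2 := hb x (1 / N) hx1 (by rw [abs_of_pos hh0]; exact hNτ)
      have b3 := norm_kr_hor hN x
      have b4 : N * (G + (1 - σ) * |1 / (N:ℝ)| + n * (A * (1 / (N:ℝ)) ^ 2 - B * x ^ 2)) + M ≤
          N * G + 1 + n * A + M := by
        rw [abs_of_pos hh0]
        have e : (N:ℝ) * (1 / (N:ℝ)) ^ 2 = 1 / N := by field_simp
        have e6 : (N:ℝ) * (1 / (N:ℝ)) = 1 := by field_simp
        have e2 : N * (G + (1 - σ) * (1 / (N:ℝ)) + n * (A * (1 / (N:ℝ)) ^ 2 - B * x ^ 2)) =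
          N * G + (1 - σ) * ((N:ℝ) * (1 / (N:ℝ))) + n * A * (N * (1 / (N:ℝ)) ^ 2) -
            N * (n * (B * x ^ 2)) := by ring
        rw [e2, e, e6]
        have e3 : 1 / (N:ℝ) ≤ 1 := by rw [div_le_one hN0]; exact hN1
        have e4 : 0 ≤ N * (n * (B * x ^ 2)) := by positivity
        have e5 : n * A * (1 / (N:ℝ)) ≤ n * A * 1 := by gcongr
        linarith
      have b5 := b2.trans (Real.exp_le_exp.2 b4)
      rw [norm_mul, norm_mul]
      gcongr
    have h1 := intervalIntegral.norm_integral_le_of_norm_le_const hpt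
    refine h1.trans ?_
    rw [abs_of_nonneg (show (0:ℝ) ≤ ρ - -ρ by linarith)]
    have e1 : Real.exp (|(a : ℝ)| / 2) * Real.exp (N * G + 1 + n * A + M) *
        (2 * Real.exp 1) =
        2 * Real.exp (|(a : ℝ)| / 2 + (N * G + 1 + n * A + M) + 1) := by
      rw [Real.exp_add (|(a : ℝ)| / 2 + (N * G + 1 + n * A + M)) 1,
        Real.exp_add (|(a : ℝ)| / 2) (N * G + 1 + n * A + M)]
      ring
    rw [e1]
    have e2 : 2 * Real.exp (|(a : ℝ)| / 2 + (N * G + 1 + n * A + M) + 1) * (ρ - -ρ) ≤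
        Real.exp (|(a : ℝ)| / 2 + (N * G + 1 + n * A + M) + 1) * 1 := by
      have := Real.exp_pos (|(a : ℝ)| / 2 + (N * G + 1 + n * A + M) + 1)
      nlinarith
    refine e2.trans ?_
    rw [mul_one]
    refine Real.exp_le_exp.2 ?_
    linarith
  · -- deformation
    have hσg : σ * gap K n a ≤ gap K n a := by nlinarith
    have h2τ : gap K n a ≤ τ := by
      have h1 := gap_le hK hn a
      have h2 := h.k2
      have h3 : 2 * (1 / (4 * K)) = 1 / (2 * K) := by field_simp; ring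
      have h4 : 0 ≤ 1 / (4 * K) := by positivity
      linarith
    set X : ℝ := 16 * Real.exp (N * (G - σ ^ 2 * gap K n a / 2) + M) with hX
    have hpt : ∀ x y : ℝ, |x| ≤ ρ → 1 / N ≤ y → y ≤ σ * gap K n a →
        (y = σ * gap K n a ∨ |x| = ρ) →
        ‖Ea a N (x + y * Complex.I) * f (x + y * Complex.I) * kr N (x + y * Complex.I)‖ ≤ X := by
      intro x y hx hy1 hy2 hor
      have hy0 : 0 ≤ y := hh0.le.trans hy1
      have b1 := norm_Ea_up a N x y hy0
      have b2 := hb x y hx (by rw [abs_of_nonneg hy0]; linarith)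
      rw [abs_of_nonneg hy0] at b2
      have b3 := norm_kr_up hN x y hy1 (by linarith)
      have b4 := expo_gen h hσ hσ1 hn a hy0 hy2 hor
      rw [norm_mul, norm_mul]
      calc _ ≤ Real.exp (N * (|(a : ℝ)| * |x| * y / (2 * π))) *
            Real.exp (N * (G + (1 - σ) * y + n * (A * y ^ 2 - B * x ^ 2)) + M) *
            (16 * Real.exp (-(N * y))) := by gcongr
        _ = 16 * Real.exp (N * (G + (-(σ * y) + |(a : ℝ)| * |x| * y / (2 * π) +
            n * (A * y ^ 2 - B * x ^ 2))) + M) := by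
          rw [mul_comm, mul_assoc, mul_comm (Real.exp (-(N * y))), ← Real.exp_add, ← Real.exp_add]
          ring_nf
        _ ≤ X := by
          rw [hX]
          have : N * (G + (-(σ * y) + |(a : ℝ)| * |x| * y / (2 * π) +
            n * (A * y ^ 2 - B * x ^ 2))) + M ≤ N * (G - σ ^ 2 * gap K n a / 2) + M := by
            have := mul_le_mul_of_nonneg_left b4 hN0.le
            nlinarith
          gcongr
    have hd := deform (F := fun ψ => Ea a N ψ * f ψ * kr N ψ) (ρ := ρ) (h1 := 1 / N)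
      (h2 := σ * gap K n a) hc hρ.1 (hol_up hN a hf) (M := X)
      (fun x hx => hpt x _ hx hc le_rfl (Or.inl rfl))
      (fun y hy1 hy2 => hpt (-ρ) y (by rw [abs_neg, abs_of_pos hρ.1]) hy1 hy2
        (Or.inr (by rw [abs_neg, abs_of_pos hρ.1])))
      (fun y hy1 hy2 => hpt ρ y (by rw [abs_of_pos hρ.1]) hy1 hy2
        (Or.inr (by rw [abs_of_pos hρ.1])))
    refine hd.trans ?_
    have hX0 : 0 < X := by rw [hX]; positivity
    have e1 : (2 * ρ + 2 * (σ * gap K n a - 1 / N)) * X ≤ 1 * X := by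
      refine mul_le_mul_of_nonneg_right ?_ hX0.le
      linarith
    refine e1.trans ?_
    have e2 : (16 : ℝ) ≤ Real.exp 5 := by
      have h2 : (2.7182818283 : ℝ) < Real.exp 1 := Real.exp_one_gt_d9
      have h3 : Real.exp 5 = Real.exp 1 ^ 5 := by rw [← Real.exp_nat_mul]; norm_num
      rw [h3]
      calc (16:ℝ) ≤ 2.7182818283 ^ 5 := by norm_num
        _ ≤ _ := by gcongr
    rw [one_mul, hX]
    calc 16 * Real.exp (N * (G - σ ^ 2 * gap K n a / 2) + M) ≤
        Real.exp 5 * Real.exp (N * (G - σ ^ 2 * gap K n a / 2) + M) := by gcongr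
      _ = Real.exp (5 + (N * (G - σ ^ 2 * gap K n a / 2) + M)) := (Real.exp_add 5 _).symm
      _ ≤ _ := by
        refine Real.exp_le_exp.2 ?_
        have : 0 ≤ |(a : ℝ)| / 2 := by positivity
        have : 0 ≤ n * A := by positivity
        linarith

/-- the root with a factor `Q` -/
lemma HB.root_gen (hC : Cst ρ τ κ A B K) (hN : 1 ≤ N) (hσ : 0 < σ) (hσ1 : σ ≤ 1)
    (hNτ : (1 : ℝ) / N ≤ τ) {n : ℕ} (hn : 1 ≤ n) {G L : ℝ} {X : ℂ → ℂ}
    (h : HB ρ τ κ A B N n G L X) (b : ℤ) {Q : ℂ → ℂ} (hQ : Differentiable ℂ Q) {T : ℝ}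
    (hT1 : 1 ≤ T) (hQb : ∀ x y : ℝ, |x| ≤ π → |y| ≤ 1 →
      ‖Q (x + y * Complex.I)‖ ≤ T * Real.exp ((1 - σ) * (N * |y|))) :
    ‖upp (1 / N) fun ψ => Ea b N ψ * (Q ψ * X ψ) * kr N ψ‖ ≤
      T * Real.exp (|(b : ℝ)| / 2 + n * A + 6 + L + N * (G - σ ^ 2 * gap K n b / 2)) := by
  have hpi := Real.pi_gt_three
  have hρ := hC.hρ
  have hτ := hC.hτ
  have hN0 : (0:ℝ) < N := by exact_mod_cast hN
  have hN1 : (1:ℝ) ≤ N := by exact_mod_cast hN
  have hh0 : (0:ℝ) < 1 / N := by positivity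
  have hT0 : 0 < T := by linarith
  have hf : Differentiable ℂ fun ψ => Q ψ * X ψ := hQ.mul h.an
  have hfar : ∀ x y : ℝ, ρ ≤ |x| → |x| ≤ π → |y| ≤ 1 / N →
      ‖Q (x + y * Complex.I) * X (x + y * Complex.I)‖ ≤
        T * Real.exp 1 * Real.exp (N * (G - n * (κ / 2)) + L) := by
    intro x y h1 h2 h3
    have b1 := hQb x y h2 (by linarith)
    have b2 := h.far x y h1 h2 h3
    have b3 : Real.exp ((1 - σ) * (N * |y|)) ≤ Real.exp 1 := by
      refine Real.exp_le_exp.2 ?_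
      have h4 : N * |y| ≤ N * (1 / N) := by gcongr
      have e : (N : ℝ) * (1 / N) = 1 := by field_simp
      have h5 : 0 ≤ N * |y| := by positivity
      nlinarith
    rw [norm_mul]
    have b4 : ‖Q (x + y * Complex.I)‖ ≤ T * Real.exp 1 := b1.trans (by gcongr)
    exact mul_le_mul b4 b2 (norm_nonneg _) (by positivity)
  have hnear : ∀ x y : ℝ, |x| ≤ ρ → |y| ≤ τ →
      ‖Q (x + y * Complex.I) * X (x + y * Complex.I)‖ ≤
        Real.exp (N * (G + (1 - σ) * |y| + n * (A * y ^ 2 - B * x ^ 2)) + (L + Real.log T)) := by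
    intro x y h1 h2
    have b1 := hQb x y (by linarith) (by linarith)
    have b2 := h.near x y h1 h2
    rw [norm_mul]
    refine (mul_le_mul b1 b2 (norm_nonneg _) (by positivity)).trans ?_
    rw [← Real.exp_log hT0, ← Real.exp_add, ← Real.exp_add, Real.exp_log hT0]
    refine Real.exp_le_exp.2 (le_of_eq ?_)
    ring
  have h1 := upp_far b hN hρ.1 (by linarith) hf.continuous
    (B := T * Real.exp 1 * Real.exp (N * (G - n * (κ / 2)) + L)) hfar
  have h2 := near_gen hC hN hσ hσ1 hNτ hn b hf (G := G) (M := L + Real.log T) hnear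
  refine (h1.trans (add_le_add_right h2 _)).trans ?_
  have hκ := hC.hκ
  have hA := hC.hA
  have hn1 : (1:ℝ) ≤ n := by exact_mod_cast hn
  have hg : gap K n b ≤ κ / 4 := (gap_le hC.hK hn b).trans hC.k4
  have hg0 := gap_nonneg hC.hK n b
  have hσ2 : σ ^ 2 * gap K n b ≤ 1 * gap K n b := by
    have : σ ^ 2 ≤ 1 := by nlinarith
    gcongr
  have b1 : Real.exp (|(b : ℝ)| / 2 + 4) *
      (T * Real.exp 1 * Real.exp (N * (G - n * (κ / 2)) + L)) ≤
      T * Real.exp (|(b : ℝ)| / 2 + n * A + 5 + L + N * (G - σ ^ 2 * gap K n b / 2)) := by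
    have e : Real.exp (|(b : ℝ)| / 2 + 4) *
      (T * Real.exp 1 * Real.exp (N * (G - n * (κ / 2)) + L)) =
      T * Real.exp (|(b : ℝ)| / 2 + 4 + 1 + (N * (G - n * (κ / 2)) + L)) := by
      rw [Real.exp_add (|(b : ℝ)| / 2 + 4 + 1), Real.exp_add (|(b : ℝ)| / 2 + 4) 1]
      ring
    rw [e]
    have c1 : G - n * (κ / 2) ≤ G - σ ^ 2 * gap K n b / 2 := by nlinarith
    have c2 := mul_le_mul_of_nonneg_left c1 hN0.le
    have c3 : 0 ≤ n * A := by positivity
    have c4 : |(b : ℝ)| / 2 + 4 + 1 + (N * (G - n * (κ / 2)) + L) ≤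
        |(b : ℝ)| / 2 + n * A + 5 + L + N * (G - σ ^ 2 * gap K n b / 2) := by linarith
    gcongr
  have b2 : Real.exp (|(b : ℝ)| / 2 + n * A + 5 + (L + Real.log T) +
      N * (G - σ ^ 2 * gap K n b / 2)) =
      T * Real.exp (|(b : ℝ)| / 2 + n * A + 5 + L + N * (G - σ ^ 2 * gap K n b / 2)) := by
    have e : |(b : ℝ)| / 2 + n * A + 5 + (L + Real.log T) + N * (G - σ ^ 2 * gap K n b / 2) =
      Real.log T + (|(b : ℝ)| / 2 + n * A + 5 + L + N * (G - σ ^ 2 * gap K n b / 2)) := by ring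
    rw [e, Real.exp_add, Real.exp_log hT0]
  rw [b2]
  refine (add_le_add_left b1 _).trans ?_
  have e1 : Real.exp (|(b : ℝ)| / 2 + n * A + 6 + L + N * (G - σ ^ 2 * gap K n b / 2)) =
      Real.exp 1 *
        Real.exp (|(b : ℝ)| / 2 + n * A + 5 + L + N * (G - σ ^ 2 * gap K n b / 2)) := by
    rw [← Real.exp_add]; ring_nf
  rw [e1]
  have e2 : (2.7182818283 : ℝ) < Real.exp 1 := Real.exp_one_gt_d9
  have e3 := Real.exp_pos (|(b : ℝ)| / 2 + n * A + 5 + L + N * (G - σ ^ 2 * gap K n b / 2))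
  have e4 : 0 < T * Real.exp (|(b : ℝ)| / 2 + n * A + 5 + L +
      N * (G - σ ^ 2 * gap K n b / 2)) := by
    positivity
  nlinarith

end

end Pool.Agent.Q99.VC
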