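import Pool.Agent.Q99.VC.Rat1

/-!
# Interpolation of the phases in rational directions
-/

set_option autoImplicit false

namespace Pool.Agent.Q99.VC

open Filter Finset Topology Metric
open scoped Real

/-- the phase at the node `c` -/
noncomputable def vj (p : ℤ) (q N : ℕ) (c : ℤ) : ℂ :=
  Complex.exp (Complex.I * π * p * (2 * c + 1 - N) ^ 2 / (4 * q))

noncomputable def er (q N k : ℕ) (c : ℤ) : ℂ :=
  Complex.exp (Complex.I * π * (2 * k + 1) * (2 * c + 1 - N) / (2 * q))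

noncomputable def em (q N k : ℕ) (c : ℤ) : ℂ :=
  Complex.exp (-(Complex.I * π * (2 * k + 1) * (2 * c + 1 - N) / (2 * q)))

noncomputable def ck (p : ℤ) (q N k : ℕ) : ℂ :=
  (1 / q) * ∑ m ∈ range q, vj p q N m * em q N k m

lemma exp_int (n : ℤ) : Complex.exp (Complex.I * π * n) = (-1) ^ n := by
  have : Complex.I * π * n = n * (π * Complex.I) := by ring
  rw [this, Complex.exp_int_mul, Complex.exp_pi_mul_I]

lemma norm_exp_I (x : ℝ) : ‖Complex.exp (Complex.I * x)‖ = 1 := by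
  rw [mul_comm, Complex.norm_exp_ofReal_mul_I]

lemma norm_vj (p : ℤ) (q N : ℕ) (c : ℤ) : ‖vj p q N c‖ = 1 := by
  unfold vj
  have : Complex.I * π * p * (2 * c + 1 - N) ^ 2 / (4 * q) =
      Complex.I * ((π * p * (2 * c + 1 - N) ^ 2 / (4 * q) : ℝ) : ℂ) := by
    push_cast; ring
  rw [this, norm_exp_I]

lemma norm_em (q N k : ℕ) (c : ℤ) : ‖em q N k c‖ = 1 := by
  unfold em
  have : -(Complex.I * π * (2 * k + 1) * (2 * c + 1 - N) / (2 * q)) =
      Complex.I * ((-(π * (2 * k + 1) * (2 * c + 1 - N) / (2 * q)) : ℝ) : ℂ) := by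
    push_cast; ring
  rw [this, norm_exp_I]

lemma norm_ck (p : ℤ) {q : ℕ} (hq : 0 < q) (N k : ℕ) : ‖ck p q N k‖ ≤ 1 := by
  have hq0 : (0:ℝ) < q := by exact_mod_cast hq
  unfold ck
  rw [norm_mul]
  have h1 : ‖(1 / q : ℂ)‖ = 1 / q := by
    rw [norm_div, norm_one, Complex.norm_natCast]
  have h2 : ‖∑ m ∈ range q, vj p q N m * em q N k m‖ ≤ q := by
    refine (norm_sum_le _ _).trans ?_
    have : ∀ m ∈ range q, ‖vj p q N m * em q N k m‖ ≤ 1 := fun m _ => by
      rw [norm_mul, norm_vj, norm_em, one_mul]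
    refine (sum_le_sum this).trans ?_
    simp
  rw [h1]
  calc 1 / (q:ℝ) * _ ≤ 1 / (q:ℝ) * q := by gcongr
    _ = 1 := by field_simp

lemma vj_shift {p : ℤ} (hp : Odd p) {q N : ℕ} (hq : 0 < q) (hqN : Even (q + N)) (c u : ℤ) :
    vj p q N (c + q * u) = (-1) ^ u * vj p q N c := by
  have hq0 : (q : ℂ) ≠ 0 := by exact_mod_cast hq.ne'
  unfold vj
  have e1 : Complex.I * π * p * (2 * ((c + q * u : ℤ) : ℂ) + 1 - N) ^ 2 / (4 * q) =
      Complex.I * π * ((p * u * (2 * c + 1 - N + q * u) : ℤ) : ℂ) +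
        Complex.I * π * p * (2 * c + 1 - N) ^ 2 / (4 * q) := by
    push_cast
    field_simp
    ring
  rw [e1, Complex.exp_add, exp_int]
  congr 1
  have hpar : Odd (q:ℤ) ↔ Odd (N:ℤ) := by
    have := (Nat.even_add.1 hqN)
    rw [Int.odd_coe_nat, Int.odd_coe_nat, ← Nat.not_even_iff_odd, ← Nat.not_even_iff_odd, this]
  rcases Int.even_or_odd u with hu | hu
  · rw [hu.neg_one_zpow]
    exact ((hu.mul_left p).mul_right _).neg_one_zpow
  · rw [hu.neg_one_zpow]
    refine Odd.neg_one_zpow ((hp.mul hu).mul ?_)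
    have e2 : (2 * c + 1 - N + q * u : ℤ) = 2 * c + (1 + (q * u - N)) := by ring
    rw [e2]
    refine (even_two_mul c).add_odd (odd_one.add_even ?_)
    rcases Int.even_or_odd (q:ℤ) with h | h
    · have h' : Even (N:ℤ) := by
        rw [← Int.not_odd_iff_even, ← hpar, Int.not_odd_iff_even]; exact h
      exact (h.mul_right u).sub h'
    · exact (h.mul hu).sub_odd (hpar.1 h)

lemma gsum_zero {q : ℕ} (hq : 0 < q) {d : ℤ} (hd : ¬ (q : ℤ) ∣ d) :
    ∑ k ∈ range q, Complex.exp (Complex.I * π * (2 * k + 1) * d / q) = 0 := by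
  have hq0 : (q : ℂ) ≠ 0 := by exact_mod_cast hq.ne'
  set x : ℂ := Complex.exp (2 * π * Complex.I * d / q) with hx
  have h1 : ∀ k : ℕ, Complex.exp (Complex.I * π * (2 * k + 1) * d / q) =
      Complex.exp (Complex.I * π * d / q) * x ^ k := by
    intro k
    rw [hx, ← Complex.exp_nat_mul, ← Complex.exp_add]
    congr 1
    ring
  have hx1 : x ≠ 1 := by
    intro h
    rw [hx, Complex.exp_eq_one_iff] at h
    obtain ⟨n, hn⟩ := h
    apply hd
    refine ⟨n, ?_⟩
    have hpi : (π : ℂ) ≠ 0 := by exact_mod_cast Real.pi_ne_zero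
    have h2 : (d : ℂ) = q * n := by
      field_simp at hn
      linear_combination hn
    exact_mod_cast h2
  have hxq : x ^ q = 1 := by
    rw [hx, ← Complex.exp_nat_mul]
    have : (q : ℂ) * (2 * π * Complex.I * d / q) = d * (2 * π * Complex.I) := by
      field_simp
    rw [this, Complex.exp_int_mul_two_pi_mul_I]
  rw [sum_congr rfl fun k _ => h1 k, ← mul_sum, geom_sum_eq hx1, hxq, sub_self, zero_div, mul_zero]

lemma gsum_mul {q : ℕ} (hq : 0 < q) (u : ℤ) :
    ∑ k ∈ range q, Complex.exp (Complex.I * π * (2 * k + 1) * ((q * u : ℤ) : ℂ) / q) =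
      q * (-1) ^ u := by
  have hq0 : (q : ℂ) ≠ 0 := by exact_mod_cast hq.ne'
  have h1 : ∀ k ∈ range q, Complex.exp (Complex.I * π * (2 * k + 1) * ((q * u : ℤ) : ℂ) / q) =
      (-1) ^ u := by
    intro k _
    have e : Complex.I * π * (2 * k + 1) * ((q * u : ℤ) : ℂ) / q =
        Complex.I * π * (((2 * k + 1) * u : ℤ) : ℂ) := by
      push_cast
      field_simp
    rw [e, exp_int]
    rcases Int.even_or_odd u with hu | hu
    · rw [hu.neg_one_zpow]
      exact (hu.mul_left _).neg_one_zpow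
    · rw [hu.neg_one_zpow]
      exact Odd.neg_one_zpow ((odd_two_mul_add_one _).mul hu)
  rw [sum_congr rfl h1, sum_const, card_range, nsmul_eq_mul]

/-- the finite Fourier expansion -/
lemma dft {p : ℤ} (hp : Odd p) {q N : ℕ} (hq : 0 < q) (hqN : Even (q + N)) (c : ℤ) :
    ∑ k ∈ range q, ck p q N k * er q N k c = vj p q N c := by
  have hq0 : (q : ℂ) ≠ 0 := by exact_mod_cast hq.ne'
  have hqz : (q : ℤ) ≠ 0 := by exact_mod_cast hq.ne'
  have h1 : ∀ k ∈ range q, ck p q N k * er q N k c = ∑ m ∈ range q, (1 / q) * (vj p q N m *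
      Complex.exp (Complex.I * π * (2 * k + 1) * ((c - m : ℤ) : ℂ) / q)) := by
    intro k _
    unfold ck
    rw [mul_assoc, sum_mul, mul_sum]
    refine sum_congr rfl fun m _ => ?_
    congr 1
    rw [mul_assoc]
    congr 1
    unfold em er
    rw [← Complex.exp_add]
    congr 1
    push_cast
    field_simp
    ring
  rw [sum_congr rfl h1, sum_comm]
  have h2 : ∀ m ∈ range q, ∑ k ∈ range q, (1 / q : ℂ) * (vj p q N m *
      Complex.exp (Complex.I * π * (2 * k + 1) * ((c - m : ℤ) : ℂ) / q)) =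
      (1 / q : ℂ) * (vj p q N m * ∑ k ∈ range q,
        Complex.exp (Complex.I * π * (2 * k + 1) * ((c - m : ℤ) : ℂ) / q)) := by
    intro m _
    rw [← mul_sum, ← mul_sum]
  rw [sum_congr rfl h2]
  -- the only term
  set m₀ : ℕ := (c % q).toNat with hm₀
  have hm0 : ((m₀ : ℕ) : ℤ) = c % q := by
    rw [hm₀, Int.toNat_of_nonneg (Int.emod_nonneg _ hqz)]
  have hm1 : m₀ < q := by
    have := Int.emod_lt_of_pos c (show (0:ℤ) < q by exact_mod_cast hq)
    rw [← hm0] at this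
    exact_mod_cast this
  have hc : c = m₀ + q * (c / q) := by
    rw [hm0]
    have := Int.emod_add_mul_ediv c q
    linarith
  rw [sum_eq_single m₀]
  · have e : (c - m₀ : ℤ) = q * (c / q) := by linarith
    rw [e, gsum_mul hq]
    conv_rhs => rw [hc]
    rw [vj_shift hp hq hqN]
    field_simp
  · intro m hm hne
    rw [gsum_zero hq, mul_zero, mul_zero]
    intro hdvd
    apply hne
    have h3 : ((m:ℤ) - m₀) % q = 0 := by
      obtain ⟨w, hw⟩ := hdvd
      have : (m : ℤ) - m₀ = q * (c / q - w) := by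
        rw [mul_sub]; linarith
      rw [this]
      exact Int.mul_emod_right _ _
    have h4 : (m : ℤ) % q = m₀ % q := Int.emod_eq_emod_iff_emod_sub_eq_zero.2 h3
    rw [mem_range] at hm
    rw [Int.emod_eq_of_lt (Int.natCast_nonneg m) (by exact_mod_cast hm),
      Int.emod_eq_of_lt (Int.natCast_nonneg m₀) (by exact_mod_cast hm1)] at h4
    exact_mod_cast h4
  · intro h
    exact absurd (mem_range.2 hm1) h

/-- one term of the interpolating function -/
noncomputable def Qk (p : ℤ) (q d k : ℕ) (ψ : ℂ) : ℂ :=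
  (1 - (2 * k + 1) / (2 * q) + p * d * ψ / (2 * π)) *
      Complex.exp (Complex.I * (2 * k + 1) * d * ψ / 2) +
    (-1) ^ (q * d + 1) * ((2 * k + 1) / (2 * q) - p * d * ψ / (2 * π)) *
      Complex.exp (Complex.I * (2 * k + 1 - 2 * q) * d * ψ / 2)

noncomputable def Q1 (p : ℤ) (q d : ℕ) (ψ : ℂ) : ℂ :=
  ∑ k ∈ range q, ck p q (q * d) k * Qk p q d k ψ

/-- the interpolating function -/
noncomputable def Qr (p : ℤ) (q d : ℕ) (ψ : ℂ) : ℂ := (Q1 p q d ψ + Q1 p q d (-ψ)) / 2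

/-- the node `c` -/
noncomputable def pz (N : ℕ) (c : ℤ) : ℂ := π * (2 * c + 1 - N) / N

lemma pz_neg {N : ℕ} (c : ℤ) : -pz N c = pz N (N - 1 - c) := by
  unfold pz
  push_cast
  ring

lemma Qk_diff (p : ℤ) (q d k : ℕ) : Differentiable ℂ (Qk p q d k) := by
  unfold Qk
  fun_prop

lemma Q1_diff (p : ℤ) (q d : ℕ) : Differentiable ℂ (Q1 p q d) := by
  unfold Q1
  refine Differentiable.fun_sum fun k _ => (Qk_diff p q d k).const_mul _

lemma Qr_diff (p : ℤ) (q d : ℕ) : Differentiable ℂ (Qr p q d) := by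
  unfold Qr
  exact ((Q1_diff p q d).add ((Q1_diff p q d).comp differentiable_neg)).div_const 2

lemma Qr_even (p : ℤ) (q d : ℕ) (ψ : ℂ) : Qr p q d (-ψ) = Qr p q d ψ := by
  unfold Qr
  rw [neg_neg, add_comm]

section

variable {p : ℤ} {q d : ℕ} (hq : 0 < q) (hd : 0 < d) (k : ℕ) (c : ℤ)

include hq hd

lemma exp1_node : Complex.exp (Complex.I * (2 * k + 1) * d * pz (q * d) c / 2) =
    er q (q * d) k c := by
  have hq0 : (q : ℂ) ≠ 0 := by exact_mod_cast hq.ne'
  have hd0 : (d : ℂ) ≠ 0 := by exact_mod_cast hd.ne'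
  unfold er pz
  congr 1
  push_cast
  field_simp

lemma exp2_node : Complex.exp (Complex.I * (2 * k + 1 - 2 * q) * d * pz (q * d) c / 2) =
    (-1) ^ (q * d + 1) * er q (q * d) k c := by
  have hq0 : (q : ℂ) ≠ 0 := by exact_mod_cast hq.ne'
  have hd0 : (d : ℂ) ≠ 0 := by exact_mod_cast hd.ne'
  have e : Complex.I * (2 * k + 1 - 2 * q) * d * pz (q * d) c / 2 =
      Complex.I * π * ((-(2 * c + 1 - (q * d : ℕ)) : ℤ) : ℂ) +
        Complex.I * π * (2 * k + 1) * (2 * c + 1 - (q * d : ℕ)) / (2 * q) := by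
    unfold pz
    push_cast
    field_simp
    ring
  rw [e, Complex.exp_add, exp_int]
  unfold er
  congr 1
  have h2 : ((-1 : ℂ)) ^ (q * d + 1) = (-1) ^ (((q * d + 1 : ℕ) : ℤ)) := (zpow_natCast _ _).symm
  rw [h2]
  rcases Int.even_or_odd (((q * d : ℕ) : ℤ)) with h | h
  · rw [Odd.neg_one_zpow, Odd.neg_one_zpow]
    · push_cast at h ⊢
      exact h.add_odd odd_one
    · push_cast at h ⊢
      rw [show (-(2 * c + 1 - (q:ℤ) * d) : ℤ) = (q:ℤ) * d + (2 * (-c - 1) + 1) by ring]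
      exact h.add_odd (odd_two_mul_add_one _)
  · rw [Even.neg_one_zpow, Even.neg_one_zpow]
    · push_cast at h ⊢
      exact h.add_odd odd_one
    · push_cast at h ⊢
      rw [show (-(2 * c + 1 - (q:ℤ) * d) : ℤ) = (q:ℤ) * d + (2 * (-c - 1) + 1) by ring]
      exact h.add_odd (odd_two_mul_add_one _)

lemma Qk_node : Qk p q d k (pz (q * d) c) = er q (q * d) k c := by
  have hs : ((-1 : ℂ)) ^ (q * d + 1) * (-1) ^ (q * d + 1) = 1 := by
    rw [← mul_pow]; norm_num
  unfold Qk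
  rw [exp1_node hq hd, exp2_node hq hd]
  linear_combination ((2 * k + 1) / (2 * q) - p * d * pz (q * d) c / (2 * π)) *
    er q (q * d) k c * hs

lemma Qk_deriv : HasDerivAt (Qk p q d k)
    (er q (q * d) k c * (Complex.I * p * d * (q * d : ℕ) * pz (q * d) c / (2 * π)))
    (pz (q * d) c) := by
  have hs : ((-1 : ℂ)) ^ (q * d + 1) * (-1) ^ (q * d + 1) = 1 := by
    rw [← mul_pow]; norm_num
  have hq0 : (q : ℂ) ≠ 0 := by exact_mod_cast hq.ne'
  have hd0 : (d : ℂ) ≠ 0 := by exact_mod_cast hd.ne'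
  have hpi : (π : ℂ) ≠ 0 := by exact_mod_cast Real.pi_ne_zero
  set z : ℂ := pz (q * d) c with hz
  have a1 : HasDerivAt (fun ψ : ℂ => 1 - (2 * (k:ℂ) + 1) / (2 * q) + p * d * ψ / (2 * π))
      (p * d / (2 * π)) z := by
    have := (((hasDerivAt_id z).const_mul ((p : ℂ) * d)).div_const (2 * (π:ℂ))).const_add
      (1 - (2 * (k:ℂ) + 1) / (2 * q))
    simpa using this
  have a2 : HasDerivAt (fun ψ : ℂ => (-1 : ℂ) ^ (q * d + 1) *
      ((2 * (k:ℂ) + 1) / (2 * q) - p * d * ψ / (2 * π)))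
      ((-1 : ℂ) ^ (q * d + 1) * (-(p * d / (2 * π)))) z := by
    have := ((((hasDerivAt_id z).const_mul ((p : ℂ) * d)).div_const (2 * (π:ℂ))).const_sub
      ((2 * (k:ℂ) + 1) / (2 * q))).const_mul ((-1 : ℂ) ^ (q * d + 1))
    simpa using this
  have a3 : HasDerivAt (fun ψ : ℂ => Complex.exp (Complex.I * (2 * k + 1) * d * ψ / 2))
      (er q (q * d) k c * (Complex.I * (2 * k + 1) * d / 2)) z := by
    have h1 : HasDerivAt (fun ψ : ℂ => Complex.I * (2 * k + 1) * d * ψ / 2)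
        (Complex.I * (2 * k + 1) * d / 2) z := by
      have := ((hasDerivAt_id z).const_mul (Complex.I * (2 * (k:ℂ) + 1) * d)).div_const 2
      simpa using this
    have h2 := (Complex.hasDerivAt_exp (Complex.I * (2 * k + 1) * d * z / 2)).comp z h1
    rw [hz, exp1_node hq hd, ← hz] at h2
    exact h2
  have a4 : HasDerivAt (fun ψ : ℂ => Complex.exp (Complex.I * (2 * k + 1 - 2 * q) * d * ψ / 2))
      ((-1) ^ (q * d + 1) * er q (q * d) k c * (Complex.I * (2 * k + 1 - 2 * q) * d / 2)) z := by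
    have h1 : HasDerivAt (fun ψ : ℂ => Complex.I * (2 * k + 1 - 2 * q) * d * ψ / 2)
        (Complex.I * (2 * k + 1 - 2 * q) * d / 2) z := by
      have := ((hasDerivAt_id z).const_mul (Complex.I * (2 * (k:ℂ) + 1 - 2 * q) * d)).div_const 2
      simpa using this
    have h2 := (Complex.hasDerivAt_exp (Complex.I * (2 * k + 1 - 2 * q) * d * z / 2)).comp z h1
    rw [hz, exp2_node hq hd, ← hz] at h2
    exact h2
  have h := (a1.mul a3).add (a2.mul a4)
  refine h.congr_deriv ?_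
  have v1 := exp1_node hq hd k c
  have v2 := exp2_node hq hd k c
  rw [← hz] at v1 v2
  rw [v1, v2]
  push_cast
  have e1 : (p:ℂ) * d / (2 * π) * er q (q * d) k c +
      (1 - (2 * (k:ℂ) + 1) / (2 * q) + p * d * z / (2 * π)) *
        (er q (q * d) k c * (Complex.I * (2 * k + 1) * d / 2)) +
      ((-1 : ℂ) ^ (q * d + 1) * (-(p * d / (2 * π))) * ((-1) ^ (q * d + 1) * er q (q * d) k c) +
      (-1 : ℂ) ^ (q * d + 1) * ((2 * (k:ℂ) + 1) / (2 * q) - p * d * z / (2 * π)) *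
        ((-1) ^ (q * d + 1) * er q (q * d) k c * (Complex.I * (2 * k + 1 - 2 * q) * d / 2))) =
      (p:ℂ) * d / (2 * π) * er q (q * d) k c +
      (1 - (2 * (k:ℂ) + 1) / (2 * q) + p * d * z / (2 * π)) *
        (er q (q * d) k c * (Complex.I * (2 * k + 1) * d / 2)) +
      (-(p * d / (2 * π)) * er q (q * d) k c +
      ((2 * (k:ℂ) + 1) / (2 * q) - p * d * z / (2 * π)) *
        (er q (q * d) k c * (Complex.I * (2 * k + 1 - 2 * q) * d / 2))) := by
    linear_combination (-(p * d / (2 * π)) * er q (q * d) k c +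
      ((2 * (k:ℂ) + 1) / (2 * q) - p * d * z / (2 * π)) *
        (er q (q * d) k c * (Complex.I * (2 * k + 1 - 2 * q) * d / 2))) * hs
  rw [e1]
  field_simp
  ring

end

lemma Q1_node {p : ℤ} (hp : Odd p) {q d : ℕ} (hq : 0 < q) (hd : 0 < d) (hqN : Even (q + q * d))
    (c : ℤ) : Q1 p q d (pz (q * d) c) = vj p q (q * d) c := by
  unfold Q1
  rw [← dft hp hq hqN c]
  exact sum_congr rfl fun k _ => by rw [Qk_node hq hd]

lemma Q1_deriv {p : ℤ} (hp : Odd p) {q d : ℕ} (hq : 0 < q) (hd : 0 < d)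
    (hqN : Even (q + q * d)) (c : ℤ) : HasDerivAt (Q1 p q d)
      (vj p q (q * d) c * (Complex.I * p * d * (q * d : ℕ) * pz (q * d) c / (2 * π)))
      (pz (q * d) c) := by
  have h : HasDerivAt (fun ψ => ∑ k ∈ range q, ck p q (q * d) k * Qk p q d k ψ)
      (∑ k ∈ range q, ck p q (q * d) k * (er q (q * d) k c *
        (Complex.I * p * d * (q * d : ℕ) * pz (q * d) c / (2 * π)))) (pz (q * d) c) :=
    HasDerivAt.fun_sum fun k _ => (Qk_deriv hq hd k c).const_mul _
  refine h.congr_deriv ?_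
  rw [← dft hp hq hqN c, sum_mul]
  exact sum_congr rfl fun k _ => by ring

lemma vj_neg (p : ℤ) (q N : ℕ) (c : ℤ) : vj p q N (N - 1 - c) = vj p q N c := by
  unfold vj
  congr 1
  push_cast
  ring

lemma Qr_node {p : ℤ} (hp : Odd p) {q d : ℕ} (hq : 0 < q) (hd : 0 < d) (hqN : Even (q + q * d))
    (c : ℤ) : Qr p q d (pz (q * d) c) = vj p q (q * d) c := by
  unfold Qr
  rw [pz_neg, Q1_node hp hq hd hqN, Q1_node hp hq hd hqN, vj_neg]
  ring

lemma Qr_deriv {p : ℤ} (hp : Odd p) {q d : ℕ} (hq : 0 < q) (hd : 0 < d)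
    (hqN : Even (q + q * d)) (c : ℤ) : HasDerivAt (Qr p q d)
      (vj p q (q * d) c * (Complex.I * p * d * (q * d : ℕ) * pz (q * d) c / (2 * π)))
      (pz (q * d) c) := by
  have h1 := Q1_deriv hp hq hd hqN c
  have h2 : HasDerivAt (Q1 p q d) (vj p q (q * d) c *
      (Complex.I * p * d * (q * d : ℕ) * -pz (q * d) c / (2 * π))) (-pz (q * d) c) := by
    have := Q1_deriv hp hq hd hqN (((q * d : ℕ) : ℤ) - 1 - c)
    rw [vj_neg, ← pz_neg] at this
    exact this
  have h3 := h2.comp (pz (q * d) c) (hasDerivAt_neg _)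
  have h4 := (h1.add h3).div_const 2
  refine h4.congr_deriv ?_
  ring

lemma norm_Qk (p : ℤ) {q d k : ℕ} (hk : k < q) {x y : ℝ} (hx : |x| ≤ π) (hy : |y| ≤ 1) :
    ‖Qk p q d k (x + y * Complex.I)‖ ≤
      (1 + 2 * |(p : ℝ)| * d) * Real.exp ((1 - 1 / (2 * q)) * ((q * d : ℕ) * |y|)) := by
  have hpi := Real.pi_gt_three
  have hq : 0 < q := by omega
  have hq0 : (0:ℝ) < q := by exact_mod_cast hq
  have hd0 : (0:ℝ) ≤ d := Nat.cast_nonneg d
  have hy0 := abs_nonneg y
  have hk1 : (k : ℝ) + 1 ≤ q := by exact_mod_cast hk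
  have hk0 : (0:ℝ) ≤ k := Nat.cast_nonneg k
  set E : ℝ := Real.exp ((1 - 1 / (2 * q)) * ((q * d : ℕ) * |y|)) with hE
  have eE : (1 - 1 / (2 * (q:ℝ))) * ((q * d : ℕ) * |y|) = (2 * q - 1) * d * |y| / 2 := by
    push_cast
    field_simp
  have hexp : ∀ r : ℝ, |r| ≤ 2 * q - 1 →
      ‖Complex.exp (Complex.I * r * d * (x + y * Complex.I) / 2)‖ ≤ E := by
    intro r hr
    rw [Complex.norm_exp, hE, eE]
    refine Real.exp_le_exp.2 ?_
    have e : Complex.I * r * d * (x + y * Complex.I) / 2 =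
        ((-(r * d * y / 2) : ℝ) : ℂ) + ((r * d * x / 2 : ℝ) : ℂ) * Complex.I := by
      push_cast
      linear_combination ((r:ℂ) * d * y / 2) * Complex.I_mul_I
    rw [e]
    simp only [Complex.add_re, Complex.ofReal_re, Complex.mul_re, Complex.I_re, mul_zero,
      Complex.ofReal_im, Complex.I_im, mul_one, sub_self, add_zero]
    have h1 : -(r * y) ≤ |r| * |y| := by rw [← abs_mul]; exact neg_le_abs _
    have h2 : |r| * |y| ≤ (2 * q - 1) * |y| := by gcongr
    nlinarith [mul_le_mul_of_nonneg_left (h1.trans h2) hd0]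
  have hr1 : |(2 * (k:ℝ) + 1)| ≤ 2 * q - 1 := by
    rw [abs_of_nonneg (by linarith)]; linarith
  have hr2 : |(2 * (k:ℝ) + 1 - 2 * q)| ≤ 2 * q - 1 := by
    rw [abs_of_nonpos (by linarith)]; linarith
  have b1 := hexp _ hr1
  have b2 := hexp _ hr2
  have hβ : ‖(p : ℂ) * d * (x + y * Complex.I) / (2 * π)‖ ≤ |(p : ℝ)| * d := by
    have h4 : ‖(x : ℂ) + y * Complex.I‖ ≤ π + 1 := by
      refine (norm_add_le _ _).trans ?_
      rw [norm_mul, Complex.norm_I, mul_one, Complex.norm_real, Complex.norm_real,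
        Real.norm_eq_abs, Real.norm_eq_abs]
      linarith
    rw [norm_div, norm_mul, norm_mul, norm_mul, Complex.norm_intCast,
      Complex.norm_natCast, Complex.norm_real, Real.norm_eq_abs, abs_of_pos Real.pi_pos,
      Complex.norm_ofNat, div_le_iff₀ (by positivity)]
    have h5 : 0 ≤ |(p : ℝ)| * d := by positivity
    nlinarith [mul_le_mul_of_nonneg_left h4 h5]
  have hc1 : ‖(1 : ℂ) - (2 * k + 1) / (2 * q) + p * d * (x + y * Complex.I) / (2 * π)‖ ≤
      (1 - (2 * (k:ℝ) + 1) / (2 * q)) + |(p : ℝ)| * d := by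
    refine (norm_add_le _ _).trans (add_le_add (le_of_eq ?_) hβ)
    have e : (1 : ℂ) - (2 * k + 1) / (2 * q) = ((1 - (2 * (k:ℝ) + 1) / (2 * q) : ℝ) : ℂ) := by
      push_cast; ring
    rw [e, Complex.norm_real, Real.norm_eq_abs, abs_of_nonneg]
    rw [sub_nonneg, div_le_one (by positivity)]
    linarith
  have hc2 : ‖(-1 : ℂ) ^ (q * d + 1) *
      ((2 * k + 1) / (2 * q) - p * d * (x + y * Complex.I) / (2 * π))‖ ≤
      (2 * (k:ℝ) + 1) / (2 * q) + |(p : ℝ)| * d := by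
    rw [norm_mul, norm_pow, norm_neg, norm_one, one_pow, one_mul]
    refine (norm_sub_le _ _).trans (add_le_add (le_of_eq ?_) hβ)
    have e : ((2 * k + 1) / (2 * q) : ℂ) = (((2 * (k:ℝ) + 1) / (2 * q) : ℝ) : ℂ) := by
      push_cast; ring
    rw [e, Complex.norm_real, Real.norm_eq_abs, abs_of_nonneg]
    positivity
  unfold Qk
  refine (norm_add_le _ _).trans ?_
  rw [norm_mul, norm_mul ((-1 : ℂ) ^ (q * d + 1) * _)]
  have e1 : Complex.exp (Complex.I * (2 * k + 1) * d * (x + y * Complex.I) / 2) =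
      Complex.exp (Complex.I * ((2 * (k:ℝ) + 1 : ℝ) : ℂ) * d * (x + y * Complex.I) / 2) := by
    push_cast; rfl
  have e2 : Complex.exp (Complex.I * (2 * k + 1 - 2 * q) * d * (x + y * Complex.I) / 2) =
      Complex.exp (Complex.I * ((2 * (k:ℝ) + 1 - 2 * q : ℝ) : ℂ) * d *
        (x + y * Complex.I) / 2) := by
    push_cast; rfl
  rw [e1, e2]
  have hE0 : 0 < E := Real.exp_pos _
  calc _ ≤ ((1 - (2 * (k:ℝ) + 1) / (2 * q)) + |(p : ℝ)| * d) * E +
        ((2 * (k:ℝ) + 1) / (2 * q) + |(p : ℝ)| * d) * E := by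
        refine add_le_add (mul_le_mul hc1 b1 (norm_nonneg _) ?_)
          (mul_le_mul hc2 b2 (norm_nonneg _) ?_)
        · exact (norm_nonneg _).trans hc1
        · exact (norm_nonneg _).trans hc2
    _ = _ := by ring

lemma norm_Qr (p : ℤ) {q d : ℕ} (hq : 0 < q) {x y : ℝ} (hx : |x| ≤ π) (hy : |y| ≤ 1) :
    ‖Qr p q d (x + y * Complex.I)‖ ≤
      (q * (1 + 2 * |(p : ℝ)| * d)) * Real.exp ((1 - 1 / (2 * q)) * ((q * d : ℕ) * |y|)) := by
  have key : ∀ x y : ℝ, |x| ≤ π → |y| ≤ 1 → ‖Q1 p q d (x + y * Complex.I)‖ ≤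
      (q * (1 + 2 * |(p : ℝ)| * d)) * Real.exp ((1 - 1 / (2 * q)) * ((q * d : ℕ) * |y|)) := by
    intro x y hx hy
    unfold Q1
    refine (norm_sum_le _ _).trans ?_
    have h1 : ∀ k ∈ range q, ‖ck p q (q * d) k * Qk p q d k (x + y * Complex.I)‖ ≤
        (1 + 2 * |(p : ℝ)| * d) * Real.exp ((1 - 1 / (2 * q)) * ((q * d : ℕ) * |y|)) := by
      intro k hk
      rw [norm_mul]
      have h2 := norm_ck p hq (q * d) k
      have h3 := norm_Qk p (d := d) (mem_range.1 hk) hx hy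
      refine (mul_le_mul h2 h3 (norm_nonneg _) zero_le_one).trans ?_
      rw [one_mul]
    refine (sum_le_sum h1).trans (le_of_eq ?_)
    rw [sum_const, card_range, nsmul_eq_mul]
    ring
  unfold Qr
  rw [norm_div, Complex.norm_ofNat, div_le_iff₀ two_pos]
  have h1 := key x y hx hy
  have h2 := key (-x) (-y) (by rwa [abs_neg]) (by rwa [abs_neg])
  rw [abs_neg] at h2
  have e : -((x:ℂ) + y * Complex.I) = ((-x : ℝ) : ℂ) + ((-y : ℝ) : ℂ) * Complex.I := by
    push_cast; ring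
  rw [e]
  refine (norm_add_le _ _).trans ?_
  linarith

end Pool.Agent.Q99.VC
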