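import Pool.Agent.Q99.VC.Rat2

/-!
# The bound in rational directions with vanishing Gauss sum
-/

set_option autoImplicit false

namespace Pool.Agent.Q99.VC

open Filter Finset Topology Metric
open Pool.Agent.W711.HT hiding XX
open Pool.Agent.W719.AR
open scoped Real

lemma ps_pz (N c : ℕ) : (ps N c : ℂ) = pz N c := by
  unfold ps pz
  push_cast
  ring

lemma Ea_split' (b p : ℤ) (d N : ℕ) (ψ : ℂ) : Ea (b + p * d) N ψ =
    Complex.exp (Complex.I * (p * d) * N * ψ ^ 2 / (4 * π)) * Ea b N ψ := by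
  unfold Ea
  rw [← Complex.exp_add]
  congr 1
  push_cast
  ring

lemma rat_swap (hE : S_STPE) (t : Tr) {q d : ℕ} (hq : 0 < q) (hd : 0 < d) (hN : 2 ≤ q * d)
    (hqN : Even (q + q * d)) {b p : ℤ} (hp : Odd p) (hw : t.wt = b + p * d) :
    JT t (q * d) = upp (1 / (q * d : ℕ)) fun ψ =>
      Ea b (q * d) ψ * (Qr p q d ψ * Pool.Agent.W719.AR.XX t (q * d) ψ) * kr (q * d) ψ := by
  have hX := XX_an hE t (q * d)
  have hP : Differentiable ℂ fun ψ => Ea b (q * d) ψ * Pool.Agent.W719.AR.XX t (q * d) ψ :=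
    (Ea_diff b (q * d)).mul hX
  have hF : Differentiable ℂ fun ψ =>
      Ea b (q * d) ψ * (Qr p q d ψ * Pool.Agent.W719.AR.XX t (q * d) ψ) :=
    (Ea_diff b (q * d)).mul ((Qr_diff p q d).mul hX)
  have hq0 : (q : ℂ) ≠ 0 := by exact_mod_cast hq.ne'
  have hd0 : (d : ℂ) ≠ 0 := by exact_mod_cast hd.ne'
  have hpi : (π : ℂ) ≠ 0 := by exact_mod_cast Real.pi_ne_zero
  have hval : ∀ c : ℤ, Complex.exp (Complex.I * (p * d) * (q * d : ℕ) * pz (q * d) c ^ 2 /
      (4 * π)) = vj p q (q * d) c := by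
    intro c
    unfold vj pz
    congr 1
    push_cast
    field_simp
  refine swap t hN hF (fun ψ => ?_) (fun c hc => ?_) (fun c hc => ?_)
  · rw [Ea_even, Qr_even, XX_even hE]
  · rw [hw, Ea_split', ps_pz, hval, Qr_node hp hq hd hqN]
    ring
  · rw [ps_pz]
    set z : ℂ := pz (q * d) c with hz
    have e1 : (fun ψ => Ea b (q * d) ψ * (Qr p q d ψ * Pool.Agent.W719.AR.XX t (q * d) ψ)) =
        fun ψ => Qr p q d ψ * (Ea b (q * d) ψ * Pool.Agent.W719.AR.XX t (q * d) ψ) := by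
      funext ψ; ring
    have e2 : (fun ψ => Ea t.wt (q * d) ψ * Pool.Agent.W719.AR.XX t (q * d) ψ) =
        fun ψ => Complex.exp (Complex.I * (p * d) * (q * d : ℕ) * ψ ^ 2 / (4 * π)) *
          (Ea b (q * d) ψ * Pool.Agent.W719.AR.XX t (q * d) ψ) := by
      funext ψ; rw [hw, Ea_split']; ring
    rw [e1, e2]
    have d1 := Qr_deriv hp hq hd hqN (c : ℤ)
    rw [← hz] at d1
    have d2 : HasDerivAt (fun ψ : ℂ =>
        Complex.exp (Complex.I * (p * d) * (q * d : ℕ) * ψ ^ 2 / (4 * π)))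
        (vj p q (q * d) c * (Complex.I * p * d * (q * d : ℕ) * z / (2 * π))) z := by
      have a1 : HasDerivAt (fun ψ : ℂ => Complex.I * (p * d) * (q * d : ℕ) * ψ ^ 2 / (4 * π))
          (Complex.I * (p * d) * (q * d : ℕ) * (2 * z) / (4 * π)) z := by
        have := ((hasDerivAt_pow 2 z).const_mul (Complex.I * (p * d) * (q * d : ℕ))).div_const
          (4 * (π : ℂ))
        simpa using this
      have a2 := (Complex.hasDerivAt_exp (Complex.I * (p * d) * (q * d : ℕ) * z ^ 2 /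
        (4 * π))).comp z a1
      refine a2.congr_deriv ?_
      have c1 := hval c
      rw [← hz] at c1
      rw [c1]
      ring
    have d3 := (hP z).hasDerivAt
    have v1 : Qr p q d z = vj p q (q * d) c := Qr_node hp hq hd hqN c
    have v2 : Complex.exp (Complex.I * (p * d) * (q * d : ℕ) * z ^ 2 / (4 * π)) =
        vj p q (q * d) c := hval c
    have f1 := (d1.mul d3).deriv
    have f2 := (d2.mul d3).deriv
    have g1 : deriv (fun ψ => Qr p q d ψ * (Ea b (q * d) ψ *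
      Pool.Agent.W719.AR.XX t (q * d) ψ)) z = _ := f1
    have g2 : deriv (fun ψ => Complex.exp (Complex.I * (p * d) * (q * d : ℕ) * ψ ^ 2 / (4 * π)) *
          (Ea b (q * d) ψ * Pool.Agent.W719.AR.XX t (q * d) ψ)) z = _ := f2
    rw [g1, g2, v1, v2]

theorem rat_main : ∃ c : ℝ, 0 < c ∧ ∀ ε : ℝ, 0 < ε → ∃ N₀ : ℕ, ∀ q d : ℕ, N₀ ≤ q * d → 0 < q →
    0 < d → Even (q + q * d) → ∀ t : Tr, 1 ≤ t.nc → ∀ b p : ℤ, Odd p → t.wt = b + p * d →
    ‖jt t (q * d) (vN (q * d))‖ ≤ (q * (1 + 2 * |(p : ℝ)| * d)) *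
      Real.exp ((|(b : ℝ)| + wts (others t)) / 2 + (q * d : ℕ) * (ne t * (2 * bet + ε) -
      c * ((1 / (q:ℝ) ^ 2) * (t.nc / ((t.nc : ℝ) ^ 2 + (b : ℝ) ^ 2)) +
        ((others t).map fun p : ℕ × ℤ => (p.1 : ℝ) / ((p.1 : ℝ) ^ 2 + (p.2 : ℝ) ^ 2)).sum))) := by
  obtain ⟨ρ, τ, κ, c, s, dl, hK⟩ := f_KER
  obtain ⟨A, B, hA, hB, hs⟩ := s_bound hK
  obtain ⟨K, hC⟩ := exists_cst hK hA hB
  have hK0 := hC.hK
  refine ⟨1 / (32 * K), by positivity, fun ε hε => ?_⟩
  have hev : ∀ᶠ N : ℕ in atTop, (2 * A + 11) + 4 * Real.log N ≤ ε / 2 * N := by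
    have h1 : Tendsto (fun N : ℕ => Real.log (N : ℝ) / N) atTop (𝓝 0) :=
      (Real.isLittleO_log_id_atTop.tendsto_div_nhds_zero).comp tendsto_natCast_atTop_atTop
    have h2 : Tendsto (fun N : ℕ => (2 * A + 11) / (N : ℝ)) atTop (𝓝 0) :=
      tendsto_const_div_atTop_nhds_zero_nat _
    filter_upwards [h1.eventually (gt_mem_nhds (show (0:ℝ) < ε / 16 by linarith)),
      h2.eventually (gt_mem_nhds (show (0:ℝ) < ε / 8 by linarith)), eventually_ge_atTop 1]
      with N a1 a2 a3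
    have hN0 : (0:ℝ) < N := by exact_mod_cast a3
    rw [div_lt_iff₀ hN0] at a1 a2
    nlinarith
  obtain ⟨N₀, hN₀⟩ := eventually_atTop.1 ((nice hK (half_pos hε)).and
    (hev.and (eventually_ge_atTop 2)))
  refine ⟨N₀, fun q d hN hq hd hqN t ht b p hp hw => ?_⟩
  obtain ⟨hn, hlog, hN2⟩ := hN₀ (q * d) hN
  have hq1 : (1:ℝ) ≤ q := by exact_mod_cast hq
  have hd1 : (1:ℝ) ≤ d := by exact_mod_cast hd
  have hT1 : 1 ≤ (q:ℝ) * (1 + 2 * |(p : ℝ)| * d) := by
    have : 0 ≤ 2 * |(p : ℝ)| * d := by positivity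
    nlinarith
  have hσ : (0:ℝ) < 1 / (2 * q) := by positivity
  have hσ1 : 1 / (2 * (q:ℝ)) ≤ 1 := by
    rw [div_le_one (by positivity)]; linarith
  have h1 := (tree_HB hC hs (half_pos hε).le hn W398.HT.t_STPE t).root_gen hC hn.hN hσ hσ1
    hn.hNτ ht b (Qr_diff p q d) hT1 (fun x y hx hy => norm_Qr p hq hx hy)
  rw [← rat_swap W398.HT.t_STPE t hq hd hN2 hqN hp hw] at h1
  have h2 := (rtt_all t (q * d) hN2).2
  generalize hNN : q * d = N at *
  have hN1 : (1:ℝ) ≤ N := by exact_mod_cast hn.hN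
  have hN0 : (0:ℝ) < N := by linarith
  have hpi := Real.pi_gt_three
  have hE : (1:ℝ) ≤ ne t := by exact_mod_cast ne_pos t ht
  rw [h2]
  have h3 : ((N : ℝ) ^ 2 / (2 * π)) ^ t.nv ≤ Real.exp (4 * Real.log N * ne t) := by
    rw [nv_eq]
    have h4 : (N : ℝ) ^ 2 / (2 * π) ≤ Real.exp (2 * Real.log N) := by
      have h5 : Real.exp (2 * Real.log N) = (N : ℝ) ^ 2 := by
        rw [mul_comm, Real.exp_mul, Real.exp_log hN0]
        norm_cast
      rw [h5, div_le_iff₀ (by positivity)]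
      nlinarith [sq_nonneg (N:ℝ)]
    calc ((N : ℝ) ^ 2 / (2 * π)) ^ (ne t + 1) ≤ Real.exp (2 * Real.log N) ^ (ne t + 1) := by
          gcongr
      _ = Real.exp (((ne t + 1 : ℕ) : ℝ) * (2 * Real.log N)) := by rw [← Real.exp_nat_mul]
      _ ≤ _ := by
        refine Real.exp_le_exp.2 ?_
        push_cast
        have : 0 ≤ Real.log N := Real.log_nonneg hN1
        nlinarith
  refine (mul_le_mul h3 h1 (norm_nonneg _) (Real.exp_pos _).le).trans ?_
  rw [mul_left_comm, ← Real.exp_add]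
  refine mul_le_mul_of_nonneg_left (Real.exp_le_exp.2 ?_) (by linarith)
  have e1 : (t.nc : ℝ) + degs (others t) = 2 * ne t := by exact_mod_cast degs_others t
  have e2 : 1 / (32 * K) * ((others t).map fun p : ℕ × ℤ =>
        (p.1 : ℝ) / ((p.1 : ℝ) ^ 2 + (p.2 : ℝ) ^ 2)).sum = gaps K (others t) / 8 := by
    have e3 := gaps_eq K (others t)
    have e5 : 1 / (32 * K) = 1 / (4 * K) / 8 := by field_simp; ring
    rw [e5, div_mul_eq_mul_div, ← e3]
  have e2' : 1 / (32 * K) * ((1 / (q:ℝ) ^ 2) * (t.nc / ((t.nc : ℝ) ^ 2 + (b : ℝ) ^ 2))) =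
      (1 / (2 * (q:ℝ))) ^ 2 * gap K t.nc b / 2 := by
    unfold gap
    have hn1 : (1:ℝ) ≤ t.nc := by exact_mod_cast ht
    have : 0 < (t.nc : ℝ) ^ 2 + (b : ℝ) ^ 2 := by positivity
    field_simp
    ring
  rw [mul_add (1 / (32 * K)), e2, e2']
  have e6 : 0 ≤ gaps K (others t) := by
    unfold gaps
    refine List.sum_nonneg fun x hx => ?_
    obtain ⟨p, _, rfl⟩ := List.mem_map.1 hx
    exact gap_nonneg hK0 _ _
  have e7 : (degs (others t) : ℝ) = 2 * ne t - t.nc := by linarith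
  rw [e7]
  have h6 : (ne t : ℝ) * ((2 * A + 11) + 4 * Real.log N) ≤ ne t * (ε / 2 * N) := by gcongr
  have h7 : (0:ℝ) ≤ N * gaps K (others t) := by positivity
  have h8 : (0:ℝ) ≤ N := hN0.le
  nlinarith

end Pool.Agent.Q99.VC
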