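import Pool.Agent.Q99.VC.Near
import Pool.Agent.W719.AR.Defs

/-!
# Bounds of the iterated integral of a tree
-/

set_option autoImplicit false

namespace Pool.Agent.Q99.VC

open Filter Finset Topology Metric
open Pool.Agent.W711.HT hiding XX
open Pool.Agent.W719.AR
open scoped Real

lemma e4 : (2 * Real.exp 1) * (2 + 2 * π) ≤ Real.exp 4 := by
  have h2 : (2.7182818283 : ℝ) < Real.exp 1 := Real.exp_one_gt_d9
  have h1 : Real.exp 1 < 2.7182818286 := Real.exp_one_lt_d9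
  have h3 : Real.exp 4 = Real.exp 1 ^ 4 := by rw [← Real.exp_nat_mul]; norm_num
  have h5 : π < 3.15 := Real.pi_lt_d2
  rw [h3]
  calc (2 * Real.exp 1) * (2 + 2 * π) ≤ (2 * 2.7182818286) * (2 + 2 * 3.15) := by gcongr
    _ ≤ 2.7182818283 ^ 4 := by norm_num
    _ ≤ _ := by gcongr

/-- the part of the path away from the origin -/
lemma upp_far (a : ℤ) {N : ℕ} (hN : 1 ≤ N) {ρ : ℝ} (hρ : 0 < ρ) (hρπ : ρ ≤ π) {f : ℂ → ℂ}
    {B : ℝ} (hf : Continuous f)
    (hB : ∀ x y : ℝ, ρ ≤ |x| → |x| ≤ π → |y| ≤ 1 / N → ‖f (x + y * Complex.I)‖ ≤ B) :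
    ‖upp (1 / N) fun ψ => Ea a N ψ * f ψ * kr N ψ‖ ≤ Real.exp (|(a : ℝ)| / 2 + 4) * B +
        ‖∫ x in (-ρ)..ρ, Ea a N (x + (1 / N : ℝ) * Complex.I) *
          f (x + (1 / N : ℝ) * Complex.I) * kr N (x + (1 / N : ℝ) * Complex.I)‖ := by
  set K : ℝ := Real.exp (|(a : ℝ)| / 2) * (2 * Real.exp 1) with hK
  have hK0 : 0 < K := by positivity
  have hN1 : (1:ℝ) ≤ N := by exact_mod_cast hN
  have hN0 : (0:ℝ) < N := by linarith
  have hh0 : (0:ℝ) < 1 / N := by positivity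
  have hh1 : (1:ℝ) / N ≤ 1 := by rw [div_le_one hN0]; exact hN1
  have hpi := Real.pi_pos
  have key : ∀ (B : ℝ) (U V W : ℂ), ‖U‖ ≤ Real.exp (|(a : ℝ)| / 2) → ‖V‖ ≤ B →
      ‖W‖ ≤ 2 * Real.exp 1 → ‖U * V * W‖ ≤ K * B := by
    intro B U V W hU hV hW
    have hB : 0 ≤ B := (norm_nonneg _).trans hV
    rw [norm_mul, norm_mul]
    calc ‖U‖ * ‖V‖ * ‖W‖ ≤ Real.exp (|(a : ℝ)| / 2) * B * (2 * Real.exp 1) := by gcongr
      _ = K * B := by rw [hK]; ring
  have hor : ∀ (x : ℝ) (B : ℝ), |x| ≤ π → ‖f (x + (1 / N : ℝ) * Complex.I)‖ ≤ B →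
      ‖Ea a N (x + (1 / N : ℝ) * Complex.I) *
        f (x + (1 / N : ℝ) * Complex.I) * kr N (x + (1 / N : ℝ) * Complex.I)‖ ≤ K * B := by
    intro x B hx hB
    refine key B _ _ _ (norm_Ea_le a hN hx ?_) hB (norm_kr_hor hN x)
    rw [abs_of_pos hh0]
  have hcont := cont_hor hN a hf
  have hB0 : 0 ≤ B := (norm_nonneg _).trans
    (hB π 0 (by rwa [abs_of_pos hpi]) (by rw [abs_of_pos hpi]) (by simp))
  have hint : ∀ p q : ℝ, IntervalIntegrable (fun x : ℝ => Ea a N (x + (1 / N : ℝ) * Complex.I) *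
      f (x + (1 / N : ℝ) * Complex.I) * kr N (x + (1 / N : ℝ) * Complex.I))
      MeasureTheory.volume p q := fun p q => hcont.intervalIntegrable p q
  have e : (upp (1 / N) fun ψ => Ea a N ψ * f ψ * kr N ψ) =
        (Complex.I * (∫ y in (0:ℝ)..(1 / N), Ea a N (-π + y * Complex.I) *
          f (-π + y * Complex.I) * kr N (-π + y * Complex.I)) +
        ((∫ x in (-π)..(-ρ), Ea a N (x + (1 / N : ℝ) * Complex.I) *
          f (x + (1 / N : ℝ) * Complex.I) * kr N (x + (1 / N : ℝ) * Complex.I)) +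
        (∫ x in (ρ)..π, Ea a N (x + (1 / N : ℝ) * Complex.I) *
          f (x + (1 / N : ℝ) * Complex.I) * kr N (x + (1 / N : ℝ) * Complex.I))) -
        Complex.I * (∫ y in (0:ℝ)..(1 / N), Ea a N (π + y * Complex.I) *
          f (π + y * Complex.I) * kr N (π + y * Complex.I))) +
        ∫ x in (-ρ)..ρ, Ea a N (x + (1 / N : ℝ) * Complex.I) *
          f (x + (1 / N : ℝ) * Complex.I) * kr N (x + (1 / N : ℝ) * Complex.I) := by
    unfold upp
    rw [← intervalIntegral.integral_add_adjacent_intervals (hint (-π) (-ρ)) (hint (-ρ) π),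
      ← intervalIntegral.integral_add_adjacent_intervals (hint (-ρ) ρ) (hint ρ π)]
    ring
  rw [e]
  refine (norm_add_le _ _).trans ?_
  gcongr
  have v1 : ‖∫ y in (0:ℝ)..(1 / N), Ea a N (-π + y * Complex.I) *
          f (-π + y * Complex.I) * kr N (-π + y * Complex.I)‖ ≤ K * B * |(1 / N : ℝ) - 0| := by
    refine intervalIntegral.norm_integral_le_of_norm_le_const ?_
    intro y hy
    rw [Set.uIoc_of_le hh0.le] at hy
    have hy1 : |y| ≤ 1 / N := by rw [abs_of_pos hy.1]; exact hy.2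
    refine key B _ _ _ ?_ ?_ (norm_kr_left y (hy1.trans hh1))
    · have := norm_Ea_le a hN (x := -π) (y := y) (by rw [abs_neg, abs_of_pos hpi]) hy1
      simpa using this
    · have := hB (-π) y (by rwa [abs_neg, abs_of_pos hpi]) (by rw [abs_neg, abs_of_pos hpi]) hy1
      simpa using this
  have v2 : ‖∫ y in (0:ℝ)..(1 / N), Ea a N (π + y * Complex.I) *
          f (π + y * Complex.I) * kr N (π + y * Complex.I)‖ ≤ K * B * |(1 / N : ℝ) - 0| := by
    refine intervalIntegral.norm_integral_le_of_norm_le_const ?_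
    intro y hy
    rw [Set.uIoc_of_le hh0.le] at hy
    have hy1 : |y| ≤ 1 / N := by rw [abs_of_pos hy.1]; exact hy.2
    refine key B _ _ _ ?_ ?_ (norm_kr_right y (hy1.trans hh1))
    · exact norm_Ea_le a hN (x := π) (y := y) (by rw [abs_of_pos hpi]) hy1
    · exact hB π y (by rwa [abs_of_pos hpi]) (by rw [abs_of_pos hpi]) hy1
  have h1 : ‖∫ x in (-π)..(-ρ), Ea a N (x + (1 / N : ℝ) * Complex.I) *
          f (x + (1 / N : ℝ) * Complex.I) * kr N (x + (1 / N : ℝ) * Complex.I)‖ ≤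
          K * B * |-ρ - -π| := by
    refine intervalIntegral.norm_integral_le_of_norm_le_const ?_
    intro x hx
    rw [Set.uIoc_of_le (by linarith)] at hx
    have hx0 : x < 0 := by linarith [hx.2]
    have hx1 : |x| = -x := abs_of_neg hx0
    refine hor x B (by rw [hx1]; linarith [hx.1]) ?_
    exact hB x (1 / N) (by rw [hx1]; linarith [hx.2]) (by rw [hx1]; linarith [hx.1])
      (by rw [abs_of_pos hh0])
  have h2 : ‖∫ x in ρ..π, Ea a N (x + (1 / N : ℝ) * Complex.I) *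
          f (x + (1 / N : ℝ) * Complex.I) * kr N (x + (1 / N : ℝ) * Complex.I)‖ ≤
          K * B * |π - ρ| := by
    refine intervalIntegral.norm_integral_le_of_norm_le_const ?_
    intro x hx
    rw [Set.uIoc_of_le (by linarith)] at hx
    have hx0 : 0 < x := by linarith [hx.1]
    have hx1 : |x| = x := abs_of_pos hx0
    refine hor x B (by rw [hx1]; linarith [hx.2]) ?_
    exact hB x (1 / N) (by rw [hx1]; linarith [hx.1]) (by rw [hx1]; linarith [hx.2])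
      (by rw [abs_of_pos hh0])
  have hI : ∀ z : ℂ, ‖Complex.I * z‖ = ‖z‖ := by intro z; rw [norm_mul, Complex.norm_I, one_mul]
  refine (norm_sub_le _ _).trans ?_
  have t1 := norm_add_le (Complex.I * (∫ y in (0:ℝ)..(1 / N), Ea a N (-π + y * Complex.I) *
          f (-π + y * Complex.I) * kr N (-π + y * Complex.I)))
        ((∫ x in (-π)..(-ρ), Ea a N (x + (1 / N : ℝ) * Complex.I) *
          f (x + (1 / N : ℝ) * Complex.I) * kr N (x + (1 / N : ℝ) * Complex.I)) +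
        (∫ x in (ρ)..π, Ea a N (x + (1 / N : ℝ) * Complex.I) *
          f (x + (1 / N : ℝ) * Complex.I) * kr N (x + (1 / N : ℝ) * Complex.I)))
  have t2 := norm_add_le (∫ x in (-π)..(-ρ), Ea a N (x + (1 / N : ℝ) * Complex.I) *
          f (x + (1 / N : ℝ) * Complex.I) * kr N (x + (1 / N : ℝ) * Complex.I))
        (∫ x in (ρ)..π, Ea a N (x + (1 / N : ℝ) * Complex.I) *
          f (x + (1 / N : ℝ) * Complex.I) * kr N (x + (1 / N : ℝ) * Complex.I))
  rw [hI] at t1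
  rw [hI]
  rw [sub_zero, abs_of_pos hh0] at v1 v2
  rw [abs_of_nonneg (by linarith)] at h1 h2
  have hKB : 0 ≤ K * B := by positivity
  have m1 : K * B * (1 / N) ≤ K * B * 1 := by gcongr
  have m2 : K * B * (2 + 2 * π) ≤ Real.exp (|(a : ℝ)| / 2 + 4) * B := by
    rw [Real.exp_add, hK]
    calc Real.exp (|(a : ℝ)| / 2) * (2 * Real.exp 1) * B * (2 + 2 * π) =
        Real.exp (|(a : ℝ)| / 2) * ((2 * Real.exp 1) * (2 + 2 * π)) * B := by ring
      _ ≤ _ := by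
        have := e4
        gcongr
  nlinarith [mul_nonneg hKB hρ.le]

lemma near_all (a : ℤ) {N : ℕ} (hN : 1 ≤ N) {ρ : ℝ} (hρ : 0 < ρ) (hρπ : ρ ≤ 1 / 4) {f : ℂ → ℂ}
    {B : ℝ} (hB : ∀ x : ℝ, |x| ≤ ρ → ‖f (x + (1 / N : ℝ) * Complex.I)‖ ≤ B) :
    ‖∫ x in (-ρ)..ρ, Ea a N (x + (1 / N : ℝ) * Complex.I) *
          f (x + (1 / N : ℝ) * Complex.I) * kr N (x + (1 / N : ℝ) * Complex.I)‖ ≤
      Real.exp (|(a : ℝ)| / 2 + 4) * B := by
  have hN1 : (1:ℝ) ≤ N := by exact_mod_cast hN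
  have hN0 : (0:ℝ) < N := by linarith
  have hh0 : (0:ℝ) < 1 / N := by positivity
  have hpi := Real.pi_gt_three
  have hB0 : 0 ≤ B := (norm_nonneg _).trans (hB 0 (by simpa using hρ.le))
  have h1 : ‖∫ x in (-ρ)..ρ, Ea a N (x + (1 / N : ℝ) * Complex.I) *
          f (x + (1 / N : ℝ) * Complex.I) * kr N (x + (1 / N : ℝ) * Complex.I)‖ ≤
          (Real.exp (|(a : ℝ)| / 2) * B * (2 * Real.exp 1)) * |ρ - -ρ| := by
    refine intervalIntegral.norm_integral_le_of_norm_le_const ?_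
    intro x hx
    rw [Set.uIoc_of_le (by linarith)] at hx
    have hx1 : |x| ≤ ρ := abs_le.2 ⟨hx.1.le, hx.2⟩
    have b1 := norm_Ea_le a hN (x := x) (y := 1 / N) (by linarith) (by rw [abs_of_pos hh0])
    have b2 := hB x hx1
    have b3 := norm_kr_hor hN x
    rw [norm_mul, norm_mul]
    gcongr
  refine h1.trans ?_
  rw [abs_of_nonneg (show (0:ℝ) ≤ ρ - -ρ by linarith), Real.exp_add]
  have h4 := e4
  have h5 := Real.exp_pos (|(a : ℝ)| / 2)
  have h6 := Real.exp_pos (1 : ℝ)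
  have h7 : (2 * Real.exp 1) * (ρ - -ρ) ≤ Real.exp 4 := by nlinarith
  calc Real.exp (|(a : ℝ)| / 2) * B * (2 * Real.exp 1) * (ρ - -ρ) =
      Real.exp (|(a : ℝ)| / 2) * B * ((2 * Real.exp 1) * (ρ - -ρ)) := by ring
    _ ≤ Real.exp (|(a : ℝ)| / 2) * B * Real.exp 4 := by gcongr
    _ = _ := by ring

/-- the bounds for one `N` -/
structure Nice (ρ τ κ ε : ℝ) (s : ℂ → ℂ → ℂ) (N : ℕ) : Prop where
  hN : 1 ≤ N
  hNτ : (1 : ℝ) / N ≤ τ
  mw : ∀ ψ ∈ Rc (3 * ρ) (3 * τ), ∀ ψ' ∈ Rc (3 * ρ) (3 * τ),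
    ‖ker N ψ ψ'‖ ≤ Real.exp (N * ((s ψ ψ').re + ε))
  far : ∀ x y : ℝ, ρ ≤ |x| → |x| ≤ π → |y| ≤ 1 / N → ∀ ψ' ∈ Rc (3 * ρ) (3 * τ),
    ‖ker N (x + y * Complex.I) ψ'‖ ≤ Real.exp (N * ((s 0 ψ').re - κ))
  farg : ∀ x y x' y' : ℝ, |x| ≤ π → ρ ≤ |x'| → |x'| ≤ π → |y| ≤ 1 / N → |y'| ≤ 1 / N →
    ‖ker N (x + y * Complex.I) (x' + y' * Complex.I)‖ ≤ Real.exp (N * (2 * bet - 5 / 4 * κ))

lemma nice {ρ τ κ c : ℝ} {s dl : ℂ → ℂ → ℂ} (hK : KD ρ τ κ c s dl) {ε : ℝ} (hε : 0 < ε) :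
    ∀ᶠ N : ℕ in atTop, Nice ρ τ κ ε s N := by
  have h1 : ∀ᶠ N : ℕ in atTop, (1 : ℝ) / N ≤ τ := by
    have := tendsto_one_div_atTop_nhds_zero_nat (𝕜 := ℝ)
    filter_upwards [this.eventually (gt_mem_nhds hK.hτ.1)] with N hN
    exact hN.le
  filter_upwards [h1, eventually_ge_atTop 1, hK.mw ε hε, hK.far, hK.farg] with N a1 a2 a3 a4 a5
  refine ⟨a2, a1, fun ψ hψ ψ' hψ' => ?_, a4, a5⟩
  obtain ⟨h0, h2⟩ := a3 ψ hψ ψ' hψ'
  rw [← Real.exp_log (norm_pos_iff.2 h0)]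
  refine Real.exp_le_exp.2 ?_
  have := le_abs_self (Real.log ‖ker N ψ ψ'‖ - N * (s ψ ψ').re)
  linarith

/-- bounds of a function of the recursion, for one `N` -/
structure HB (ρ τ κ A B : ℝ) (N : ℕ) (t : ℕ) (G L : ℝ) (X : ℂ → ℂ) : Prop where
  an : Differentiable ℂ X
  near : ∀ x y : ℝ, |x| ≤ ρ → |y| ≤ τ →
    ‖X (x + y * Complex.I)‖ ≤ Real.exp (N * (G + t * (A * y ^ 2 - B * x ^ 2)) + L)
  far : ∀ x y : ℝ, ρ ≤ |x| → |x| ≤ π → |y| ≤ 1 / N →
    ‖X (x + y * Complex.I)‖ ≤ Real.exp (N * (G - t * (κ / 2)) + L)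

section

variable {ρ τ κ A B K ε : ℝ} {N : ℕ}

lemma HB.one : HB ρ τ κ A B N 0 0 0 (fun _ => 1) :=
  ⟨differentiable_const _, fun x y _ _ => by simp, fun x y _ _ _ => by simp⟩

lemma HB.mul {t₁ t₂ : ℕ} {G₁ G₂ L₁ L₂ : ℝ} {X₁ X₂ : ℂ → ℂ} (h₁ : HB ρ τ κ A B N t₁ G₁ L₁ X₁)
    (h₂ : HB ρ τ κ A B N t₂ G₂ L₂ X₂) :
    HB ρ τ κ A B N (t₁ + t₂) (G₁ + G₂) (L₁ + L₂) (fun ψ => X₁ ψ * X₂ ψ) := by
  refine ⟨h₁.an.mul h₂.an, fun x y hx hy => ?_, fun x y hx hx' hy => ?_⟩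
  · have a1 := h₁.near x y hx hy
    have a2 := h₂.near x y hx hy
    rw [norm_mul]
    calc _ ≤ _ := mul_le_mul a1 a2 (norm_nonneg _) (Real.exp_pos _).le
      _ = _ := by
        rw [← Real.exp_add]
        push_cast
        ring_nf
  · have a1 := h₁.far x y hx hx' hy
    have a2 := h₂.far x y hx hx' hy
    rw [norm_mul]
    calc _ ≤ _ := mul_le_mul a1 a2 (norm_nonneg _) (Real.exp_pos _).le
      _ = _ := by
        rw [← Real.exp_add]
        push_cast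
        ring_nf

/-- the root -/
lemma HB.root (hC : Cst ρ τ κ A B K) (hN : 1 ≤ N) (hNτ : (1 : ℝ) / N ≤ τ) {n : ℕ} (hn : 1 ≤ n)
    {G L : ℝ} {X : ℂ → ℂ} (h : HB ρ τ κ A B N n G L X) (a : ℤ) :
    ‖upp (1 / N) fun ψ => Ea a N ψ * X ψ * kr N ψ‖ ≤
      Real.exp (|(a : ℝ)| / 2 + n * A + 5 + L + N * (G - gap K n a)) := by
  have hpi := Real.pi_gt_three
  have h1 := upp_far a hN hC.hρ.1 (by linarith [hC.hρ.2]) h.an.continuous
    (B := Real.exp (N * (G - n * (κ / 2)) + L)) h.far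
  have h2 := near_int hC hN hNτ hn a h.an (G := G) (M := L) h.near
  refine (h1.trans (add_le_add_right h2 _)).trans ?_
  have hκ := hC.hκ
  have hA := hC.hA
  have hn1 : (1:ℝ) ≤ n := by exact_mod_cast hn
  have hN0 : (0:ℝ) ≤ N := Nat.cast_nonneg N
  have hg : gap K n a ≤ κ / 4 := (gap_le hC.hK hn a).trans hC.k4
  have b1 : Real.exp (|(a : ℝ)| / 2 + 4) * Real.exp (N * (G - n * (κ / 2)) + L) ≤
      Real.exp (|(a : ℝ)| / 2 + n * A + 4 + L + N * (G - gap K n a)) := by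
    rw [← Real.exp_add]
    refine Real.exp_le_exp.2 ?_
    have c1 : G - n * (κ / 2) ≤ G - gap K n a := by nlinarith
    have c2 := mul_le_mul_of_nonneg_left c1 hN0
    have c3 : 0 ≤ n * A := by positivity
    linarith
  refine (add_le_add_left b1 _).trans ?_
  have e1 : Real.exp (|(a : ℝ)| / 2 + n * A + 5 + L + N * (G - gap K n a)) =
      Real.exp 1 * Real.exp (|(a : ℝ)| / 2 + n * A + 4 + L + N * (G - gap K n a)) := by
    rw [← Real.exp_add]; ring_nf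
  rw [e1]
  have e2 : (2.7182818283 : ℝ) < Real.exp 1 := Real.exp_one_gt_d9
  have e3 := Real.exp_pos (|(a : ℝ)| / 2 + n * A + 4 + L + N * (G - gap K n a))
  nlinarith

lemma ker_an (N : ℕ) (ψ' : ℂ) : Differentiable ℂ fun ψ => ker N ψ ψ' := by
  unfold Pool.Agent.W711.HT.ker Rp
  fun_prop

/-- one step -/
lemma HB.step (hC : Cst ρ τ κ A B K) {s : ℂ → ℂ → ℂ}
    (hs : ∀ x y x' y' : ℝ, |x| ≤ ρ → |y| ≤ τ → |x'| ≤ ρ → |y'| ≤ τ →
      (s (x + y * Complex.I) (x' + y' * Complex.I)).re ≤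
        2 * bet + (A * y ^ 2 - B * x ^ 2) + (A * y' ^ 2 - B * x' ^ 2))
    (hε : 0 ≤ ε) (hn : Nice ρ τ κ ε s N) (hE : S_STPE) {t : ℕ} {G L : ℝ} {X : ℕ → ℂ → ℂ}
    (hX : ∀ N, Differentiable ℂ (X N))
    (h : HB ρ τ κ A B N t G L (X N)) (a : ℤ) :
    HB ρ τ κ A B N 1 (G + 2 * bet - gap K (t + 1) a)
      (L + |(a : ℝ)| / 2 + ((t + 1 : ℕ) : ℝ) * A + 5 + ε * N) (stp a X N) := by
  have hpi := Real.pi_gt_three
  have hρ := hC.hρ
  have hτ := hC.hτ
  have hκ := hC.hκ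
  have hA := hC.hA
  have hN := hn.hN
  have hN0 : (0:ℝ) ≤ N := Nat.cast_nonneg N
  have hN1 : (1:ℝ) ≤ N := by exact_mod_cast hN
  have hNp : (0:ℝ) < N := by linarith
  have hh0 : (0:ℝ) < 1 / N := by positivity
  have ht0 : (0:ℝ) ≤ t := Nat.cast_nonneg t
  have hg : gap K (t + 1) a ≤ κ / 4 := (gap_le hC.hK (by omega) a).trans hC.k4
  have hmem : ∀ x y : ℝ, |x| ≤ ρ → |y| ≤ τ → ((x : ℂ) + y * Complex.I) ∈ Rc (3 * ρ) (3 * τ) := by
    intro x y hx hy
    constructor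
    · simp; linarith
    · simp; linarith
  refine ⟨(hE a X hX).1 N, fun x' y' hx' hy' => ?_, fun x' y' hx1 hx2 hy' => ?_⟩
  · -- near
    set ψ' : ℂ := x' + y' * Complex.I with hψ'
    have hm' := hmem x' y' hx' hy'
    have hf : Differentiable ℂ fun ψ => X N ψ * ker N ψ ψ' := h.an.mul (ker_an N ψ')
    have e : stp a X N ψ' = upp (1 / N) fun ψ => Ea a N ψ * (X N ψ * ker N ψ ψ') * kr N ψ := by
      unfold stp
      congr 1
      funext ψ
      ring
    have bf : ∀ x y : ℝ, ρ ≤ |x| → |x| ≤ π → |y| ≤ 1 / N →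
        ‖X N (x + y * Complex.I) * ker N (x + y * Complex.I) ψ'‖ ≤
          Real.exp (N * (G + 2 * bet + (A * y' ^ 2 - B * x' ^ 2) - κ) + L) := by
      intro x y h1 h2 h3
      have b1 := h.far x y h1 h2 h3
      have b2 := hn.far x y h1 h2 h3 ψ' hm'
      have b3 := hs 0 0 x' y' (by simpa using hρ.1.le) (by simpa using hτ.1.le) hx' hy'
      have b3' : (s 0 ψ').re ≤ 2 * bet + (A * y' ^ 2 - B * x' ^ 2) := by
        simpa [hψ'] using b3
      rw [norm_mul]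
      refine (mul_le_mul b1 b2 (norm_nonneg _) (Real.exp_pos _).le).trans ?_
      rw [← Real.exp_add]
      refine Real.exp_le_exp.2 ?_
      have c1 : 0 ≤ t * (κ / 2) := by positivity
      have c2 : G - t * (κ / 2) + ((s 0 ψ').re - κ) ≤
        G + 2 * bet + (A * y' ^ 2 - B * x' ^ 2) - κ := by linarith
      have c3 := mul_le_mul_of_nonneg_left c2 hN0
      linarith
    have bn : ∀ x y : ℝ, |x| ≤ ρ → |y| ≤ τ →
        ‖X N (x + y * Complex.I) * ker N (x + y * Complex.I) ψ'‖ ≤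
          Real.exp (N * (G + 2 * bet + (A * y' ^ 2 - B * x' ^ 2) +
            ((t + 1 : ℕ) : ℝ) * (A * y ^ 2 - B * x ^ 2)) + (L + ε * N)) := by
      intro x y h1 h2
      have b1 := h.near x y h1 h2
      have b2 := hn.mw _ (hmem x y h1 h2) ψ' hm'
      have b3 := hs x y x' y' h1 h2 hx' hy'
      rw [norm_mul]
      refine (mul_le_mul b1 b2 (norm_nonneg _) (Real.exp_pos _).le).trans ?_
      rw [← Real.exp_add]
      refine Real.exp_le_exp.2 ?_
      push_cast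
      have c3 := mul_le_mul_of_nonneg_left b3 hN0
      nlinarith
    rw [e]
    have h1 := upp_far a hN hρ.1 (by linarith) hf.continuous
      (B := Real.exp (N * (G + 2 * bet + (A * y' ^ 2 - B * x' ^ 2) - κ) + L)) bf
    have h2 := near_int hC hN hn.hNτ (n := t + 1) (by omega) a hf
      (G := G + 2 * bet + (A * y' ^ 2 - B * x' ^ 2)) (M := L + ε * N) bn
    refine (h1.trans (add_le_add_right h2 _)).trans ?_
    have n0 : (0:ℝ) ≤ ((t + 1 : ℕ) : ℝ) * A := by positivity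
    have b1 : Real.exp (|(a : ℝ)| / 2 + 4) *
        Real.exp (N * (G + 2 * bet + (A * y' ^ 2 - B * x' ^ 2) - κ) + L) ≤
        Real.exp (|(a : ℝ)| / 2 + ((t + 1 : ℕ) : ℝ) * A + 4 + (L + ε * N) +
          N * (G + 2 * bet + (A * y' ^ 2 - B * x' ^ 2) - gap K (t + 1) a)) := by
      rw [← Real.exp_add]
      refine Real.exp_le_exp.2 ?_
      have c1 : G + 2 * bet + (A * y' ^ 2 - B * x' ^ 2) - κ ≤
        G + 2 * bet + (A * y' ^ 2 - B * x' ^ 2) - gap K (t + 1) a := by linarith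
      have c2 := mul_le_mul_of_nonneg_left c1 hN0
      have c3 : 0 ≤ ε * N := by positivity
      linarith
    refine (add_le_add_left b1 _).trans ?_
    have e1 : Real.exp (N * (G + 2 * bet - gap K (t + 1) a +
        ((1 : ℕ) : ℝ) * (A * y' ^ 2 - B * x' ^ 2)) +
        (L + |(a : ℝ)| / 2 + ((t + 1 : ℕ) : ℝ) * A + 5 + ε * N)) =
        Real.exp 1 * Real.exp (|(a : ℝ)| / 2 + ((t + 1 : ℕ) : ℝ) * A + 4 + (L + ε * N) +
          N * (G + 2 * bet + (A * y' ^ 2 - B * x' ^ 2) - gap K (t + 1) a)) := by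
      rw [← Real.exp_add]
      congr 1
      push_cast
      ring
    rw [e1]
    have e2 : (2.7182818283 : ℝ) < Real.exp 1 := Real.exp_one_gt_d9
    have e3 := Real.exp_pos (|(a : ℝ)| / 2 + ((t + 1 : ℕ) : ℝ) * A + 4 + (L + ε * N) +
          N * (G + 2 * bet + (A * y' ^ 2 - B * x' ^ 2) - gap K (t + 1) a))
    nlinarith
  · -- far
    set ψ' : ℂ := x' + y' * Complex.I with hψ'
    have hf : Differentiable ℂ fun ψ => X N ψ * ker N ψ ψ' := h.an.mul (ker_an N ψ')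
    have e : stp a X N ψ' = upp (1 / N) fun ψ => Ea a N ψ * (X N ψ * ker N ψ ψ') * kr N ψ := by
      unfold stp
      congr 1
      funext ψ
      ring
    set Y : ℝ := Real.exp (N * (G + 2 * bet - 5 / 4 * κ) + L + ((t + 1 : ℕ) : ℝ) * A) with hY
    have bf : ∀ x y : ℝ, ρ ≤ |x| → |x| ≤ π → |y| ≤ 1 / N →
        ‖X N (x + y * Complex.I) * ker N (x + y * Complex.I) ψ'‖ ≤ Y := by
      intro x y h1 h2 h3
      have b1 := h.far x y h1 h2 h3
      have b2 := hn.farg x y x' y' h2 hx1 hx2 h3 hy'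
      rw [norm_mul]
      refine (mul_le_mul b1 b2 (norm_nonneg _) (Real.exp_pos _).le).trans ?_
      rw [← Real.exp_add, hY]
      refine Real.exp_le_exp.2 ?_
      have c1 : 0 ≤ t * (κ / 2) := by positivity
      have c2 : G - t * (κ / 2) + (2 * bet - 5 / 4 * κ) ≤ G + 2 * bet - 5 / 4 * κ := by linarith
      have c3 := mul_le_mul_of_nonneg_left c2 hN0
      have n0 : (0:ℝ) ≤ ((t + 1 : ℕ) : ℝ) * A := by positivity
      linarith
    have bn : ∀ x : ℝ, |x| ≤ ρ →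
        ‖X N (x + (1 / N : ℝ) * Complex.I) * ker N (x + (1 / N : ℝ) * Complex.I) ψ'‖ ≤ Y := by
      intro x h1
      have b1 := h.near x (1 / N) h1 (by rw [abs_of_pos hh0]; exact hn.hNτ)
      have b2 := hn.farg x (1 / N) x' y' (by linarith) hx1 hx2 (by rw [abs_of_pos hh0]) hy'
      rw [norm_mul]
      refine (mul_le_mul b1 b2 (norm_nonneg _) (Real.exp_pos _).le).trans ?_
      rw [← Real.exp_add, hY]
      refine Real.exp_le_exp.2 ?_
      have e0 : (N:ℝ) * (1 / (N:ℝ)) ^ 2 = 1 / N := by field_simp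
      have e2 : N * (G + t * (A * (1 / (N:ℝ)) ^ 2 - B * x ^ 2)) =
        N * G + t * A * (N * (1 / (N:ℝ)) ^ 2) - N * (t * (B * x ^ 2)) := by ring
      rw [e2, e0]
      have e3 : 1 / (N:ℝ) ≤ 1 := by rw [div_le_one hNp]; exact hN1
      have hB := hC.hB
      have e4 : 0 ≤ N * (t * (B * x ^ 2)) := by positivity
      have e5 : t * A * (1 / (N:ℝ)) ≤ t * A * 1 := by gcongr
      push_cast
      nlinarith
    rw [e]
    have h1 := upp_far a hN hρ.1 (by linarith) hf.continuous (B := Y) bf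
    have h2 := near_all a hN hρ.1 hρ.2 (f := fun ψ => X N ψ * ker N ψ ψ') (B := Y) bn
    refine (h1.trans (add_le_add_right h2 _)).trans ?_
    have e1 : Real.exp (|(a : ℝ)| / 2 + 4) * Y + Real.exp (|(a : ℝ)| / 2 + 4) * Y ≤
        Real.exp 1 * (Real.exp (|(a : ℝ)| / 2 + 4) * Y) := by
      have e2 : (2.7182818283 : ℝ) < Real.exp 1 := Real.exp_one_gt_d9
      have e3 : 0 < Real.exp (|(a : ℝ)| / 2 + 4) * Y := by positivity
      nlinarith
    refine e1.trans ?_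
    rw [hY, ← Real.exp_add, ← Real.exp_add]
    refine Real.exp_le_exp.2 ?_
    have c1 : G + 2 * bet - 5 / 4 * κ ≤ G + 2 * bet - gap K (t + 1) a - ((1 : ℕ) : ℝ) * (κ / 2) := by
      push_cast
      linarith
    have c2 := mul_le_mul_of_nonneg_left c1 hN0
    have c3 : 0 ≤ ε * N := by positivity
    linarith

end

end Pool.Agent.Q99.VC
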