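import Pool.Agent.Q99.VC.Tree

/-!
# Replacing the factor of the root by another function with the same values at the nodes
-/

set_option autoImplicit false

namespace Pool.Agent.Q99.VC

open Filter Finset Topology Metric
open Pool.Agent.W711.HT hiding XX
open Pool.Agent.W719.AR
open scoped Real

theorem lmt_all : S_LMT := Pool.Agent.W571.AR.lmt Pool.Agent.W490.AR.lmd Pool.Agent.W12.AR.gam_lim

lemma lm_all (N : ℕ) (hN : 2 ≤ N) (t : Tr) :
    ∃ K : ℂ, ‖K‖ * ((N : ℝ) ^ 2 / (2 * π)) = ((N : ℝ) ^ 2 / (2 * π)) ^ t.nv ∧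
      Lm N (fun v c => Pool.Agent.W719.AR.ev N v t c)
        (fun ψ => K * (Ea t.wt N ψ * Pool.Agent.W719.AR.XX t N ψ)) :=
  Pool.Agent.W803.AR.lm_tree (Pool.Agent.W885.AR.lmr Pool.Agent.W490.AR.lmd
    Pool.Agent.W12.AR.gam_lim) Pool.Agent.W199.AR.lmv lmm N hN t

/-- the integral depends only on the values and the derivatives at the nodes -/
lemma swap (t : Tr) {N : ℕ} (hN : 2 ≤ N) {F : ℂ → ℂ} (hF : Differentiable ℂ F)
    (hev : ∀ ψ, F (-ψ) = F ψ)
    (h0 : ∀ c < N, F (ps N c) = Ea t.wt N (ps N c) * Pool.Agent.W719.AR.XX t N (ps N c))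
    (h1 : ∀ c < N, deriv F (ps N c) =
      deriv (fun ψ => Ea t.wt N ψ * Pool.Agent.W719.AR.XX t N ψ) (ps N c)) :
    JT t N = upp (1 / N) fun ψ => F ψ * kr N ψ := by
  obtain ⟨K, hK, hLm⟩ := lm_all N hN t
  have hN0 : (0 : ℝ) < N := by exact_mod_cast (by omega : 0 < N)
  have hpi := Real.pi_pos
  have hpos : 0 < (N : ℝ) ^ 2 / (2 * π) := by positivity
  have hK0 : K ≠ 0 := by
    rintro rfl
    rw [norm_zero, zero_mul] at hK
    have := pow_pos hpos t.nv
    linarith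
  have hLm' : Lm N (fun v c => Pool.Agent.W719.AR.ev N v t c) (fun ψ => K * F ψ) := by
    refine ⟨hF.const_mul K, fun ψ => by rw [hev], fun c hc => ?_, fun c hc hc' => ?_⟩
    · have := hLm.l0 c hc
      rw [h0 c hc]
      exact this
    · have := hLm.l1 c hc hc'
      have e1 : deriv (fun ψ => K * F ψ) (ps N c) =
          deriv (fun ψ => K * (Ea t.wt N ψ * Pool.Agent.W719.AR.XX t N ψ)) (ps N c) := by
        have hd1 : DifferentiableAt ℂ F (ps N c) := hF _
        by_cases hd : DifferentiableAt ℂ (fun ψ => Ea t.wt N ψ *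
            Pool.Agent.W719.AR.XX t N ψ) (ps N c)
        · rw [deriv_const_mul K hd1, deriv_const_mul K hd, h1 c hc]
        · exfalso
          have h2 : DifferentiableAt ℂ (fun ψ => K⁻¹ * (K * (Ea t.wt N ψ *
            Pool.Agent.W719.AR.XX t N ψ))) (ps N c) := (hLm.an _).const_mul _
          apply hd
          refine h2.congr_of_eventuallyEq ?_
          filter_upwards with ψ
          rw [← mul_assoc, inv_mul_cancel₀ hK0, one_mul]
      rw [e1]
      exact this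
  have l1 := lmt_all N _ _ hN hLm
  have l2 := lmt_all N _ _ hN hLm'
  have l3 := tendsto_nhds_unique l1 l2
  have hc : (Complex.I * N ^ 2 / (2 * π) : ℂ) ≠ 0 := by
    have h2 : (N : ℂ) ≠ 0 := by exact_mod_cast hN0.ne'
    have h3 : (π : ℂ) ≠ 0 := by exact_mod_cast hpi.ne'
    exact div_ne_zero (mul_ne_zero Complex.I_ne_zero (pow_ne_zero _ h2))
      (mul_ne_zero two_ne_zero h3)
  have l4 := mul_left_cancel₀ hc l3
  have e1 : upp (1 / N) (fun ψ => K * (Ea t.wt N ψ * Pool.Agent.W719.AR.XX t N ψ) * kr N ψ) =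
      K * JT t N := by
    unfold JT
    rw [← Pool.Agent.W803.AR.upp_mul]
    congr 1
    funext ψ
    ring
  have e2 : upp (1 / N) (fun ψ => K * F ψ * kr N ψ) =
      K * upp (1 / N) fun ψ => F ψ * kr N ψ := by
    rw [← Pool.Agent.W803.AR.upp_mul]
    congr 1
    funext ψ
    ring
  rw [e1, e2] at l4
  exact mul_left_cancel₀ hK0 l4

/-! ### Shifting the root weight by an odd multiple of `N`, `N` odd -/

/-- `cos (N ψ / 2) + (i k N ψ / π) sin (N ψ / 2)` -/
noncomputable def Qt (k : ℤ) (N : ℕ) (ψ : ℂ) : ℂ :=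
  Complex.cos (N * ψ / 2) + Complex.I * k * N * ψ / π * Complex.sin (N * ψ / 2)

lemma Qt_diff (k : ℤ) (N : ℕ) : Differentiable ℂ (Qt k N) := by
  unfold Qt
  fun_prop

lemma Qt_even (k : ℤ) (N : ℕ) (ψ : ℂ) : Qt k N (-ψ) = Qt k N ψ := by
  unfold Qt
  have h : (N : ℂ) * -ψ / 2 = -(N * ψ / 2) := by ring
  rw [h, Complex.cos_neg, Complex.sin_neg]
  ring

lemma norm_cos_le' (z : ℂ) : ‖Complex.cos z‖ ≤ Real.exp |z.im| := by
  rw [Complex.cos]
  have h1 : ‖Complex.exp (z * Complex.I)‖ = Real.exp (-z.im) := by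
    rw [Complex.norm_exp]; simp
  have h2 : ‖Complex.exp (-z * Complex.I)‖ = Real.exp (z.im) := by
    rw [Complex.norm_exp]; simp
  rw [norm_div]
  have h3 := norm_add_le (Complex.exp (z * Complex.I)) (Complex.exp (-z * Complex.I))
  rw [h1, h2] at h3
  have h4 : Real.exp (-z.im) ≤ Real.exp |z.im| := Real.exp_le_exp.2 (neg_le_abs _)
  have h5 : Real.exp z.im ≤ Real.exp |z.im| := Real.exp_le_exp.2 (le_abs_self _)
  have h6 : ‖(2:ℂ)‖ = 2 := by simp
  rw [h6, div_le_iff₀ two_pos]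
  linarith

lemma norm_sin_le' (z : ℂ) : ‖Complex.sin z‖ ≤ Real.exp |z.im| := by
  rw [Complex.sin]
  have h1 : ‖Complex.exp (z * Complex.I)‖ = Real.exp (-z.im) := by
    rw [Complex.norm_exp]; simp
  have h2 : ‖Complex.exp (-z * Complex.I)‖ = Real.exp (z.im) := by
    rw [Complex.norm_exp]; simp
  rw [norm_div, norm_mul, Complex.norm_I, mul_one]
  have h3 := norm_sub_le (Complex.exp (-z * Complex.I)) (Complex.exp (z * Complex.I))
  rw [h1, h2] at h3
  have h4 : Real.exp (-z.im) ≤ Real.exp |z.im| := Real.exp_le_exp.2 (neg_le_abs _)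
  have h5 : Real.exp z.im ≤ Real.exp |z.im| := Real.exp_le_exp.2 (le_abs_self _)
  have h6 : ‖(2:ℂ)‖ = 2 := by simp
  rw [h6, div_le_iff₀ two_pos]
  linarith

lemma norm_Qt (k : ℤ) (N : ℕ) {x y : ℝ} (hx : |x| ≤ π) (hy : |y| ≤ 1) :
    ‖Qt k N (x + y * Complex.I)‖ ≤ (1 + 2 * |(k : ℝ)| * N) * Real.exp (N * |y| / 2) := by
  have hpi := Real.pi_gt_three
  have hN : (0:ℝ) ≤ N := Nat.cast_nonneg N
  have him : ((N : ℂ) * (x + y * Complex.I) / 2).im = N * y / 2 := by
    have : (N : ℂ) * (x + y * Complex.I) / 2 = ((N * x / 2 : ℝ) : ℂ) +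
        ((N * y / 2 : ℝ) : ℂ) * Complex.I := by push_cast; ring
    rw [this]
    simp
  have h1 := norm_cos_le' ((N : ℂ) * (x + y * Complex.I) / 2)
  have h2 := norm_sin_le' ((N : ℂ) * (x + y * Complex.I) / 2)
  rw [him] at h1 h2
  have e : |N * y / 2| = N * |y| / 2 := by
    rw [abs_div, abs_mul, abs_of_nonneg hN, abs_two]
  rw [e] at h1 h2
  have h3 : ‖Complex.I * k * N * (x + y * Complex.I) / π‖ ≤ 2 * |(k : ℝ)| * N := by
    have h4 : ‖(x : ℂ) + y * Complex.I‖ ≤ π + 1 := by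
      refine (norm_add_le _ _).trans ?_
      rw [norm_mul, Complex.norm_I, mul_one, Complex.norm_real, Complex.norm_real,
        Real.norm_eq_abs, Real.norm_eq_abs]
      linarith
    rw [norm_div, norm_mul, norm_mul, norm_mul, Complex.norm_I, one_mul, Complex.norm_intCast,
      Complex.norm_natCast, Complex.norm_real, Real.norm_eq_abs, abs_of_pos Real.pi_pos,
      div_le_iff₀ Real.pi_pos]
    have h5 : 0 ≤ |(k : ℝ)| * N := by positivity
    nlinarith [mul_le_mul_of_nonneg_left h4 h5]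
  unfold Qt
  refine (norm_add_le _ _).trans ?_
  rw [norm_mul]
  have h6 := mul_le_mul h3 h2 (norm_nonneg _) (by positivity)
  nlinarith

lemma neg_one_zpow_mul {k j : ℤ} (hk : Odd k) : ((-1 : ℝ)) ^ (k * j ^ 2) = (-1) ^ j := by
  rcases Int.even_or_odd j with hj | hj
  · rw [hj.neg_one_zpow]
    exact ((hj.pow_of_ne_zero two_ne_zero).mul_left k).neg_one_zpow
  · rw [hj.neg_one_zpow]
    exact (hk.mul hj.pow).neg_one_zpow

section

variable {N m : ℕ} (hm : N = 2 * m + 1) (c : ℕ)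

include hm

lemma node_eq : (ps N c : ℝ) = 2 * π * (((c : ℤ) - m : ℤ) : ℝ) / N := by
  have hN : (N : ℝ) = 2 * m + 1 := by rw [hm]; push_cast; ring
  unfold ps
  rw [hN]
  push_cast
  ring

lemma half_eq : (N : ℂ) * (ps N c : ℂ) / 2 = ((((c : ℤ) - m : ℤ) : ℝ) * π : ℝ) := by
  have hN0 : (N : ℝ) ≠ 0 := by
    have : (0 : ℝ) < N := by exact_mod_cast (by omega : 0 < N)
    exact this.ne'
  have h : (N : ℝ) * ps N c / 2 = (((c : ℤ) - m : ℤ) : ℝ) * π := by
    rw [node_eq hm]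
    field_simp
  rw [← h]
  push_cast
  ring

lemma cos_node : Complex.cos ((N : ℂ) * (ps N c : ℂ) / 2) = ((-1) ^ ((c : ℤ) - m) : ℝ) := by
  rw [half_eq hm, ← Complex.ofReal_cos, Real.cos_int_mul_pi]

lemma sin_node : Complex.sin ((N : ℂ) * (ps N c : ℂ) / 2) = 0 := by
  rw [half_eq hm, ← Complex.ofReal_sin, Real.sin_int_mul_pi, Complex.ofReal_zero]

lemma exp_node {k : ℤ} (hk : Odd k) :
    Complex.exp (Complex.I * (k * N) * N * (ps N c : ℂ) ^ 2 / (4 * π)) =
      ((-1) ^ ((c : ℤ) - m) : ℝ) := by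
  have hN0 : (N : ℝ) ≠ 0 := by
    have : (0 : ℝ) < N := by exact_mod_cast (by omega : 0 < N)
    exact this.ne'
  have hpi := Real.pi_pos.ne'
  set j : ℤ := (c : ℤ) - m with hj
  have h : (k : ℝ) * N * N * ps N c ^ 2 / (4 * π) = ((k * j ^ 2 : ℤ) : ℝ) * π := by
    rw [node_eq hm, ← hj]
    push_cast
    field_simp
    ring
  have e : Complex.I * (k * N) * N * (ps N c : ℂ) ^ 2 / (4 * π) =
      ((((k * j ^ 2 : ℤ) : ℝ) * π : ℝ) : ℂ) * Complex.I := by
    rw [← h]
    push_cast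
    ring
  rw [e, Complex.exp_mul_I, ← Complex.ofReal_cos, ← Complex.ofReal_sin, Real.cos_int_mul_pi,
    Real.sin_int_mul_pi, neg_one_zpow_mul hk]
  simp

end

lemma Ea_split (b k : ℤ) (N : ℕ) (ψ : ℂ) : Ea (b + k * N) N ψ =
    Complex.exp (Complex.I * (k * N) * N * ψ ^ 2 / (4 * π)) * Ea b N ψ := by
  unfold Ea
  rw [← Complex.exp_add]
  congr 1
  push_cast
  ring

lemma Ea_diff (b : ℤ) (N : ℕ) : Differentiable ℂ (Ea b N) := by
  unfold Ea
  fun_prop

lemma Ea_even (b : ℤ) (N : ℕ) (ψ : ℂ) : Ea b N (-ψ) = Ea b N ψ := by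
  unfold Ea
  rw [neg_sq]

lemma XX_even (hE : S_STPE) : ∀ (t : Tr) (N : ℕ) (ψ : ℂ),
    Pool.Agent.W719.AR.XX t N (-ψ) = Pool.Agent.W719.AR.XX t N ψ
  | .vx _, N, ψ => by simp only [Pool.Agent.W719.AR.XX]
  | .br t c, N, ψ => by
    simp only [Pool.Agent.W719.AR.XX]
    rw [XX_even hE t N ψ, (hE c.wt _ (XX_an hE c)).2 N ψ]

/-- the integral for a root weight `b + k N`, `k` and `N` odd -/
lemma odd_swap (hE : S_STPE) (t : Tr) {N : ℕ} (hN : 2 ≤ N) (hodd : Odd N) {b k : ℤ} (hk : Odd k)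
    (hw : t.wt = b + k * N) :
    JT t N = upp (1 / N) fun ψ => Ea b N ψ * (Qt k N ψ * Pool.Agent.W719.AR.XX t N ψ) * kr N ψ := by
  obtain ⟨m, hm⟩ := hodd
  have hX := XX_an hE t N
  have hP : Differentiable ℂ fun ψ => Ea b N ψ * Pool.Agent.W719.AR.XX t N ψ :=
    (Ea_diff b N).mul hX
  have hF : Differentiable ℂ fun ψ => Ea b N ψ * (Qt k N ψ * Pool.Agent.W719.AR.XX t N ψ) :=
    (Ea_diff b N).mul ((Qt_diff k N).mul hX)
  refine swap t hN hF (fun ψ => ?_) (fun c hc => ?_) (fun c hc => ?_)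
  · rw [Ea_even, Qt_even, XX_even hE]
  · rw [hw, Ea_split, exp_node hm c hk, Qt, cos_node hm, sin_node hm]
    ring
  · set z : ℂ := (ps N c : ℂ) with hz
    have e1 : (fun ψ => Ea b N ψ * (Qt k N ψ * Pool.Agent.W719.AR.XX t N ψ)) =
        fun ψ => Qt k N ψ * (Ea b N ψ * Pool.Agent.W719.AR.XX t N ψ) := by
      funext ψ; ring
    have e2 : (fun ψ => Ea t.wt N ψ * Pool.Agent.W719.AR.XX t N ψ) =
        fun ψ => Complex.exp (Complex.I * (k * N) * N * ψ ^ 2 / (4 * π)) *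
          (Ea b N ψ * Pool.Agent.W719.AR.XX t N ψ) := by
      funext ψ; rw [hw, Ea_split]; ring
    rw [e1, e2]
    have d1 : HasDerivAt (Qt k N) (Complex.I * k * N ^ 2 * z / (2 * π) *
        ((-1) ^ ((c : ℤ) - m) : ℝ)) z := by
      have a1 : HasDerivAt (fun ψ : ℂ => (N : ℂ) * ψ / 2) ((N : ℂ) / 2) z := by
        have := ((hasDerivAt_id z).const_mul (N : ℂ)).div_const 2
        simpa using this
      have a2 := (Complex.hasDerivAt_cos ((N : ℂ) * z / 2)).comp z a1
      have a3 := (Complex.hasDerivAt_sin ((N : ℂ) * z / 2)).comp z a1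
      have a4 : HasDerivAt (fun ψ : ℂ => Complex.I * k * N * ψ / π) (Complex.I * k * N / π) z := by
        have := ((hasDerivAt_id z).const_mul (Complex.I * k * N)).div_const (π : ℂ)
        simpa using this
      have a5 := a2.add (a4.mul a3)
      refine (a5.congr_deriv ?_)
      have c1 := cos_node hm c
      have c2 := sin_node hm c
      rw [← hz] at c1 c2
      simp only [Function.comp_apply]
      rw [c1, c2]
      have hpi : (π : ℂ) ≠ 0 := by exact_mod_cast Real.pi_ne_zero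
      field_simp
      ring
    have d2 : HasDerivAt (fun ψ : ℂ => Complex.exp (Complex.I * (k * N) * N * ψ ^ 2 / (4 * π)))
        (Complex.I * k * N ^ 2 * z / (2 * π) * ((-1) ^ ((c : ℤ) - m) : ℝ)) z := by
      have a1 : HasDerivAt (fun ψ : ℂ => Complex.I * (k * N) * N * ψ ^ 2 / (4 * π))
          (Complex.I * (k * N) * N * (2 * z) / (4 * π)) z := by
        have := ((hasDerivAt_pow 2 z).const_mul (Complex.I * (k * N) * N)).div_const (4 * (π : ℂ))
        simpa using this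
      have a2 := (Complex.hasDerivAt_exp (Complex.I * (k * N) * N * z ^ 2 / (4 * π))).comp z a1
      refine a2.congr_deriv ?_
      have c1 := exp_node hm c hk
      rw [← hz] at c1
      rw [c1]
      ring
    have d3 := (hP z).hasDerivAt
    have v1 : Qt k N z = ((-1) ^ ((c : ℤ) - m) : ℝ) := by
      have c1 := cos_node hm c
      have c2 := sin_node hm c
      rw [← hz] at c1 c2
      rw [Qt, c1, c2]
      ring
    have v2 : Complex.exp (Complex.I * (k * N) * N * z ^ 2 / (4 * π)) =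
        ((-1) ^ ((c : ℤ) - m) : ℝ) := by
      have c1 := exp_node hm c hk
      rw [← hz] at c1
      exact c1
    have f1 := (d1.mul d3).deriv
    have f2 := (d2.mul d3).deriv
    have g1 : deriv (fun ψ => Qt k N ψ * (Ea b N ψ * Pool.Agent.W719.AR.XX t N ψ)) z = _ := f1
    have g2 : deriv (fun ψ => Complex.exp (Complex.I * (k * N) * N * ψ ^ 2 / (4 * π)) *
          (Ea b N ψ * Pool.Agent.W719.AR.XX t N ψ)) z = _ := f2
    rw [g1, g2, v1, v2]

end Pool.Agent.Q99.VC
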