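import Mathlib

/-!
# Upper and lower bounds of the three theta constants
-/

set_option autoImplicit false

namespace Pool.Agent.Q99.VC

open Filter Finset Topology Complex
open UpperHalfPlane hiding I
open scoped Real MatrixGroups Modular

/-- `θ_3` -/
noncomputable def t3 (τ : ℂ) : ℂ := jacobiTheta₂ 0 τ

/-- `θ_4` -/
noncomputable def t4 (τ : ℂ) : ℂ := jacobiTheta₂ (1 / 2) τ

/-- `θ_2` -/
noncomputable def t2 (τ : ℂ) : ℂ := cexp (π * I * τ / 4) * jacobiTheta₂ (τ / 2) τ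

/-- the smallest modulus of the theta constants -/
noncomputable def mn (τ : ℂ) : ℝ := min ‖t2 τ‖ (min ‖t3 τ‖ ‖t4 τ‖)

/-- the largest modulus of the theta constants -/
noncomputable def mx (τ : ℂ) : ℝ := max ‖t2 τ‖ (max ‖t3 τ‖ ‖t4 τ‖)

lemma t3_add_one (τ : ℂ) : t3 (τ + 1) = t4 τ := by
  unfold t3 t4 jacobiTheta₂
  refine tsum_congr fun n => ?_
  unfold jacobiTheta₂_term
  obtain ⟨r, hr⟩ := Int.even_mul_succ_self n
  have h2 : (n : ℂ) * (n + 1) = r + r := by exact_mod_cast hr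
  rw [Complex.exp_eq_exp_iff_exists_int]
  refine ⟨r - n, ?_⟩
  push_cast
  linear_combination (π * I) * h2

lemma t4_add_one (τ : ℂ) : t4 (τ + 1) = t3 τ := by
  have h := t3_add_one (τ + 1)
  rw [← h]
  unfold t3
  rw [add_assoc, show (1 : ℂ) + 1 = 2 by norm_num, jacobiTheta₂_add_right]

lemma norm_t2_add_one (τ : ℂ) : ‖t2 (τ + 1)‖ = ‖t2 τ‖ := by
  have h1 : jacobiTheta₂ ((τ + 1) / 2) (τ + 1) = jacobiTheta₂ (τ / 2) τ := by
    unfold jacobiTheta₂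
    refine tsum_congr fun n => ?_
    unfold jacobiTheta₂_term
    obtain ⟨r, hr⟩ := Int.even_mul_succ_self n
    have h2 : (n : ℂ) * (n + 1) = r + r := by exact_mod_cast hr
    rw [Complex.exp_eq_exp_iff_exists_int]
    refine ⟨r, ?_⟩
    linear_combination (π * I) * h2
  unfold t2
  rw [h1, norm_mul, norm_mul, Complex.norm_exp, Complex.norm_exp]
  congr 2
  simp

lemma t3_S (τ : ℂ) : t3 τ = 1 / (-I * τ) ^ (1 / 2 : ℂ) * t3 (-1 / τ) := by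
  unfold t3
  rw [jacobiTheta₂_functional_equation]
  simp

lemma t4_S (τ : ℂ) : t4 τ = 1 / (-I * τ) ^ (1 / 2 : ℂ) * t2 (-1 / τ) := by
  unfold t4 t2
  rw [jacobiTheta₂_functional_equation]
  have e1 : (1 / 2 : ℂ) / τ = -((-1 / τ) / 2) := by ring
  have e2 : -(π : ℂ) * I * (1 / 2) ^ 2 / τ = π * I * (-1 / τ) / 4 := by ring
  rw [e1, jacobiTheta₂_neg_left, e2]
  ring

lemma t2_S {τ : ℂ} (hτ : τ ≠ 0) : t2 τ = 1 / (-I * τ) ^ (1 / 2 : ℂ) * t4 (-1 / τ) := by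
  unfold t4 t2
  rw [jacobiTheta₂_functional_equation (τ / 2)]
  have e1 : τ / 2 / τ = 1 / 2 := by field_simp
  have e2 : -(π : ℂ) * I * (τ / 2) ^ 2 / τ = -(π * I * τ / 4) := by field_simp; ring
  rw [e1, e2]
  have e3 : cexp (π * I * τ / 4) * cexp (-(π * I * τ / 4)) = 1 := by
    rw [← Complex.exp_add, add_neg_cancel, Complex.exp_zero]
  linear_combination (1 / (-I * τ) ^ (1 / 2 : ℂ) * jacobiTheta₂ (1 / 2) (-1 / τ)) * e3

lemma norm_S {τ : ℂ} (hτ : τ ≠ 0) : ‖1 / (-I * τ) ^ (1 / 2 : ℂ)‖ = (‖τ‖ ^ (1 / 2 : ℝ))⁻¹ := by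
  have h0 : -I * τ ≠ 0 := mul_ne_zero (neg_ne_zero.2 I_ne_zero) hτ
  rw [norm_div, norm_one, one_div]
  congr 1
  have h1 := Complex.norm_cpow_of_ne_zero h0 (1 / 2 : ℂ)
  rw [h1]
  have : ‖-I * τ‖ = ‖τ‖ := by rw [norm_mul, norm_neg, norm_I, one_mul]
  rw [this]
  simp

lemma mn_add_one (τ : ℂ) : mn (τ + 1) = mn τ := by
  unfold mn
  rw [norm_t2_add_one, t3_add_one, t4_add_one, min_comm ‖t4 τ‖]

lemma mx_add_one (τ : ℂ) : mx (τ + 1) = mx τ := by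
  unfold mx
  rw [norm_t2_add_one, t3_add_one, t4_add_one, max_comm ‖t4 τ‖]

lemma mn_S {τ : ℂ} (hτ : τ ≠ 0) : mn (-1 / τ) = ‖τ‖ ^ (1 / 2 : ℝ) * mn τ := by
  have hp : 0 < ‖τ‖ ^ (1 / 2 : ℝ) := Real.rpow_pos_of_pos (norm_pos_iff.2 hτ) _
  have h2 : ‖t2 τ‖ = (‖τ‖ ^ (1 / 2 : ℝ))⁻¹ * ‖t4 (-1 / τ)‖ := by
    rw [t2_S hτ, norm_mul, norm_S hτ]
  have h3 : ‖t3 τ‖ = (‖τ‖ ^ (1 / 2 : ℝ))⁻¹ * ‖t3 (-1 / τ)‖ := by
    rw [t3_S, norm_mul, norm_S hτ]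
  have h4 : ‖t4 τ‖ = (‖τ‖ ^ (1 / 2 : ℝ))⁻¹ * ‖t2 (-1 / τ)‖ := by
    rw [t4_S, norm_mul, norm_S hτ]
  unfold mn
  rw [h2, h3, h4, ← mul_min_of_nonneg _ _ (inv_nonneg.2 hp.le),
    ← mul_min_of_nonneg _ _ (inv_nonneg.2 hp.le), mul_inv_cancel_left₀ hp.ne']
  ac_rfl

lemma mx_S {τ : ℂ} (hτ : τ ≠ 0) : mx (-1 / τ) = ‖τ‖ ^ (1 / 2 : ℝ) * mx τ := by
  have hp : 0 < ‖τ‖ ^ (1 / 2 : ℝ) := Real.rpow_pos_of_pos (norm_pos_iff.2 hτ) _
  have h2 : ‖t2 τ‖ = (‖τ‖ ^ (1 / 2 : ℝ))⁻¹ * ‖t4 (-1 / τ)‖ := by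
    rw [t2_S hτ, norm_mul, norm_S hτ]
  have h3 : ‖t3 τ‖ = (‖τ‖ ^ (1 / 2 : ℝ))⁻¹ * ‖t3 (-1 / τ)‖ := by
    rw [t3_S, norm_mul, norm_S hτ]
  have h4 : ‖t4 τ‖ = (‖τ‖ ^ (1 / 2 : ℝ))⁻¹ * ‖t2 (-1 / τ)‖ := by
    rw [t4_S, norm_mul, norm_S hτ]
  unfold mx
  rw [h2, h3, h4, ← mul_max_of_nonneg _ _ (inv_nonneg.2 hp.le),
    ← mul_max_of_nonneg _ _ (inv_nonneg.2 hp.le), mul_inv_cancel_left₀ hp.ne']
  ac_rfl

/-- invariance under the modular group, from that under the two generators -/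
lemma inv_all {f : ℂ → ℝ} (hT : ∀ τ, f (τ + 1) = f τ)
    (hS : ∀ τ : ℂ, τ ≠ 0 → f (-1 / τ) = ‖τ‖ ^ (1 / 2 : ℝ) * f τ) (γ : SL(2, ℤ)) (τ : ℍ) :
    ((γ • τ : ℍ).im) ^ (1 / 4 : ℝ) * f (γ • τ : ℍ) = τ.im ^ (1 / 4 : ℝ) * f τ := by
  have hmem : γ ∈ Subgroup.closure {ModularGroup.S, ModularGroup.T} := by
    simp [SpecialLinearGroup.SL2Z_generators]
  induction hmem using Subgroup.closure_induction generalizing τ with
  | mem x hx =>
    rcases hx with rfl | rfl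
    · have hne : (τ : ℂ) ≠ 0 := τ.ne_zero
      have e1 : ((ModularGroup.S • τ : ℍ) : ℂ) = -1 / τ := by
        rw [UpperHalfPlane.modular_S_smul]
        simp [neg_div]
      have e2 : (ModularGroup.S • τ : ℍ).im = τ.im / ‖(τ : ℂ)‖ ^ 2 := by
        rw [ModularGroup.im_smul_eq_div_normSq, ModularGroup.denom_S, Complex.normSq_eq_norm_sq]
      rw [e1, e2, hS _ hne]
      have hn : 0 < ‖(τ : ℂ)‖ := norm_pos_iff.2 hne
      rw [Real.div_rpow τ.im_pos.le (by positivity), ← Real.rpow_natCast, ← Real.rpow_mul hn.le]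
      have e3 : ((2 : ℕ) : ℝ) * (1 / 4) = 1 / 2 := by norm_num
      rw [e3]
      have hp : 0 < ‖(τ : ℂ)‖ ^ (1 / 2 : ℝ) := Real.rpow_pos_of_pos hn _
      field_simp
    · have e1 : ((ModularGroup.T • τ : ℍ) : ℂ) = τ + 1 := by
        rw [UpperHalfPlane.modular_T_smul, UpperHalfPlane.coe_vadd]
        push_cast
        ring
      have e2 : (ModularGroup.T • τ : ℍ).im = τ.im := by
        rw [UpperHalfPlane.modular_T_smul, UpperHalfPlane.vadd_im]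
      rw [e1, e2, hT]
  | one => rw [one_smul]
  | mul x y _ _ hx hy => rw [mul_smul, hx, hy]
  | inv x _ hx =>
    have h := hx (x⁻¹ • τ)
    rw [smul_inv_smul] at h
    exact h.symm

/-! ### The fundamental domain -/

lemma exp_fd {y : ℝ} (hy : 3 ≤ 4 * y ^ 2) (hy0 : 0 < y) : Real.exp (-(π * y)) ≤ 1 / 9 := by
  have h1 : 0.86 ≤ y := by nlinarith
  have h2 : 2.7 ≤ π * y := by nlinarith [Real.pi_gt_d2]
  have h3 : Real.exp (-(π * y)) ≤ Real.exp (-2.7) := Real.exp_le_exp.2 (by linarith)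
  have h4 : Real.exp (-2.7) ≤ 1 / 9 := by
    rw [Real.exp_neg, inv_le_comm₀ (Real.exp_pos _) (by norm_num)]
    have h5 := Real.exp_one_gt_d9
    have h6 : Real.exp 2.7 = Real.exp 1 * Real.exp 1 * Real.exp 0.7 := by
      rw [← Real.exp_add, ← Real.exp_add]; norm_num
    have h7 : (1.7 : ℝ) ≤ Real.exp 0.7 := by
      have := Real.add_one_le_exp (0.7 : ℝ)
      linarith
    rw [h6]
    norm_num
    nlinarith
  linarith

lemma t3_fd {τ : ℂ} (hτ : 0 < τ.im) (h : 3 ≤ 4 * τ.im ^ 2) :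
    1 / 2 ≤ ‖t3 τ‖ ∧ ‖t3 τ‖ ≤ 3 / 2 := by
  have h1 := norm_jacobiTheta_sub_one_le hτ
  rw [jacobiTheta_eq_jacobiTheta₂] at h1
  have h2 := exp_fd h hτ
  have h3 : ‖jacobiTheta₂ 0 τ - 1‖ ≤ 1 / 2 := by
    refine h1.trans ?_
    have e : -π * τ.im = -(π * τ.im) := by ring
    rw [e]
    have hpos : 0 < 1 - Real.exp (-(π * τ.im)) := by linarith
    rw [div_mul_eq_mul_div, div_le_iff₀ hpos]
    linarith
  unfold t3
  constructor
  · have := norm_sub_norm_le (1 : ℂ) (1 - jacobiTheta₂ 0 τ)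
    rw [norm_one, norm_sub_rev 1 (jacobiTheta₂ 0 τ)] at this
    have e : (1 : ℂ) - (1 - jacobiTheta₂ 0 τ) = jacobiTheta₂ 0 τ := by ring
    rw [e] at this
    linarith
  · have := norm_add_le (jacobiTheta₂ 0 τ - 1) 1
    rw [norm_one, sub_add_cancel] at this
    linarith

lemma t4_fd {τ : ℂ} (hτ : 0 < τ.im) (h : 3 ≤ 4 * τ.im ^ 2) :
    1 / 2 ≤ ‖t4 τ‖ ∧ ‖t4 τ‖ ≤ 3 / 2 := by
  rw [← t3_add_one]
  have e : (τ + 1).im = τ.im := by simp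
  exact t3_fd (by rw [e]; exact hτ) (by rw [e]; exact h)

lemma t2_fd {τ : ℂ} (hτ : 0 < τ.im) (h : 3 ≤ 4 * τ.im ^ 2) :
    3 / 2 * Real.exp (-(π * τ.im / 4)) ≤ ‖t2 τ‖ ∧ ‖t2 τ‖ ≤ 5 / 2 := by
  have h1 := (hasSum_jacobiTheta₂_term (τ / 2) hτ).nat_add_neg_add_one
  have h2 : ∀ n : ℕ, jacobiTheta₂_term (n : ℤ) (τ / 2) τ +
      jacobiTheta₂_term (-((n : ℤ) + 1)) (τ / 2) τ = 2 * cexp (π * I * (n * (n + 1)) * τ) := by
    intro n
    unfold jacobiTheta₂_term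
    have e1 : 2 * (π : ℂ) * I * ((n : ℤ) : ℂ) * (τ / 2) + π * I * ((n : ℤ) : ℂ) ^ 2 * τ =
        π * I * (n * (n + 1)) * τ := by push_cast; ring
    have e2 : 2 * (π : ℂ) * I * ((-((n : ℤ) + 1) : ℤ) : ℂ) * (τ / 2) +
        π * I * ((-((n : ℤ) + 1) : ℤ) : ℂ) ^ 2 * τ = π * I * (n * (n + 1)) * τ := by
      push_cast; ring
    rw [e1, e2]
    ring
  simp only [h2] at h1
  obtain ⟨r, hr⟩ : ∃ r : ℝ, r = Real.exp (-(π * τ.im)) := ⟨_, rfl⟩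
  have hr0 : 0 < r := by rw [hr]; exact Real.exp_pos _
  have hr1 : r ≤ 1 / 9 := by rw [hr]; exact exp_fd h hτ
  have h3 : HasSum (fun n : ℕ => 2 * cexp (π * I * (((n + 1 : ℕ) : ℂ) * (((n + 1 : ℕ) : ℂ) + 1)) * τ))
      (jacobiTheta₂ (τ / 2) τ - 2) := by
    have h4 := (hasSum_nat_add_iff' (f := fun n : ℕ => 2 * cexp (π * I * ((n : ℂ) *
      ((n : ℂ) + 1)) * τ)) 1).2 h1
    simpa using h4
  have h4 : HasSum (fun n : ℕ => 2 * r * r ^ n) (2 * r * (1 - r)⁻¹) :=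
    (hasSum_geometric_of_lt_one hr0.le (by linarith)).mul_left _
  have h5 : ‖jacobiTheta₂ (τ / 2) τ - 2‖ ≤ 2 * r * (1 - r)⁻¹ := by
    rw [← h3.tsum_eq, ← h4.tsum_eq]
    refine (norm_tsum_le_tsum_norm h3.summable.norm).trans
      (Summable.tsum_le_tsum (fun n => ?_) h3.summable.norm h4.summable)
    rw [norm_mul, Complex.norm_ofNat, Complex.norm_exp, mul_assoc (2 : ℝ) r]
    refine mul_le_mul_of_nonneg_left ?_ (by norm_num)
    have e1 : (π * I * (((n + 1 : ℕ) : ℂ) * (((n + 1 : ℕ) : ℂ) + 1)) * τ).re =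
        -(π * (((n : ℝ) + 1) * (n + 2)) * τ.im) := by
      have : (π * I * (((n + 1 : ℕ) : ℂ) * (((n + 1 : ℕ) : ℂ) + 1)) * τ) =
          ((π * (((n : ℝ) + 1) * (n + 2)) : ℝ) : ℂ) * (τ * I) := by
        push_cast; ring
      rw [this, Complex.re_ofReal_mul]
      simp
    rw [e1, ← pow_succ', hr, ← Real.exp_nat_mul]
    refine Real.exp_le_exp.2 ?_
    have hn : (0 : ℝ) ≤ n := Nat.cast_nonneg n
    have hpy : 0 < π * τ.im := mul_pos Real.pi_pos hτ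
    push_cast
    nlinarith [mul_nonneg hn hn, mul_nonneg (mul_nonneg hn hn) hpy.le, mul_nonneg hn hpy.le]
  have h6 : 2 * r * (1 - r)⁻¹ ≤ 1 / 2 := by
    rw [← div_eq_mul_inv, div_le_iff₀ (by linarith)]
    linarith
  have h7 : ‖t2 τ‖ = Real.exp (-(π * τ.im / 4)) * ‖jacobiTheta₂ (τ / 2) τ‖ := by
    unfold t2
    rw [norm_mul, Complex.norm_exp]
    congr 2
    have : (π * I * τ / 4 : ℂ) = ((π / 4 : ℝ) : ℂ) * (τ * I) := by push_cast; ring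
    rw [this, Complex.re_ofReal_mul]
    simp
    ring
  have h8 : 3 / 2 ≤ ‖jacobiTheta₂ (τ / 2) τ‖ := by
    have := norm_sub_norm_le (2 : ℂ) (2 - jacobiTheta₂ (τ / 2) τ)
    rw [Complex.norm_ofNat, norm_sub_rev 2 (jacobiTheta₂ (τ / 2) τ)] at this
    have e : (2 : ℂ) - (2 - jacobiTheta₂ (τ / 2) τ) = jacobiTheta₂ (τ / 2) τ := by ring
    rw [e] at this
    linarith
  have h9 : ‖jacobiTheta₂ (τ / 2) τ‖ ≤ 5 / 2 := by
    have := norm_add_le (jacobiTheta₂ (τ / 2) τ - 2) 2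
    rw [Complex.norm_ofNat, sub_add_cancel] at this
    linarith
  have h10 : Real.exp (-(π * τ.im / 4)) ≤ 1 := by
    rw [Real.exp_le_one_iff]
    have := mul_pos Real.pi_pos hτ
    linarith
  rw [h7]
  constructor
  · rw [mul_comm]
    exact mul_le_mul_of_nonneg_left h8 (Real.exp_pos _).le
  · have := Real.exp_pos (-(π * τ.im / 4))
    nlinarith

lemma mn_fd {τ : ℂ} (hτ : 0 < τ.im) (h : 3 ≤ 4 * τ.im ^ 2) :
    1 / 2 * Real.exp (-(π * τ.im / 4)) ≤ mn τ := by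
  have h10 : Real.exp (-(π * τ.im / 4)) ≤ 1 := by
    rw [Real.exp_le_one_iff]
    have := mul_pos Real.pi_pos hτ
    linarith
  have h2 := (t2_fd hτ h).1
  have h3 := (t3_fd hτ h).1
  have h4 := (t4_fd hτ h).1
  have h5 := Real.exp_pos (-(π * τ.im / 4))
  refine le_min ?_ (le_min ?_ ?_)
  all_goals linarith

lemma mx_fd {τ : ℂ} (hτ : 0 < τ.im) (h : 3 ≤ 4 * τ.im ^ 2) : mx τ ≤ 5 / 2 := by
  have h2 := (t2_fd hτ h).2
  have h3 := (t3_fd hτ h).2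
  have h4 := (t4_fd hτ h).2
  refine max_le ?_ (max_le ?_ ?_)
  all_goals linarith

/-- **Bounds of the theta constants** at a point which is not close to a cusp. -/
theorem theta_bounds {y₀ : ℝ} (hy : 1 ≤ y₀) {τ : ℂ} (hτ : 0 < τ.im)
    (h : ∀ c d : ℤ, (c ≠ 0 ∨ d ≠ 0) → τ.im ≤ y₀ * ‖(c : ℂ) * τ + d‖ ^ 2) :
    1 / 4 * Real.exp (-(π * y₀ / 4)) ≤ τ.im ^ (1 / 4 : ℝ) * mn τ ∧
      τ.im ^ (1 / 4 : ℝ) * mx τ ≤ 5 / 2 * y₀ := by
  obtain ⟨γ, hγ⟩ := ModularGroup.exists_smul_mem_fd (⟨τ, hτ⟩ : ℍ)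
  have h1 := inv_all mn_add_one (fun τ hτ => mn_S hτ) γ ⟨τ, hτ⟩
  have h2 := inv_all mx_add_one (fun τ hτ => mx_S hτ) γ ⟨τ, hτ⟩
  have h3 := ModularGroup.three_le_four_mul_im_sq_of_mem_fd hγ
  obtain ⟨z, hz⟩ : ∃ z : ℍ, z = γ • (⟨τ, hτ⟩ : ℍ) := ⟨_, rfl⟩
  rw [← hz] at h1 h2 h3
  have hz0 : 0 < z.im := z.im_pos
  have hzi : ((z : ℂ)).im = z.im := rfl
  have hm := mn_fd (τ := (z : ℂ)) z.im_pos h3
  have hM := mx_fd (τ := (z : ℂ)) z.im_pos h3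
  rw [hzi] at hm
  -- the imaginary part
  have hY : z.im ≤ y₀ := by
    have e1 : z.im = τ.im / ‖((γ 1 0 : ℤ) : ℂ) * τ + (γ 1 1 : ℤ)‖ ^ 2 := by
      rw [hz, ModularGroup.im_smul_eq_div_normSq, ModularGroup.denom_apply,
        Complex.normSq_eq_norm_sq]
      rfl
    have hne : (γ 1 0 ≠ 0 ∨ γ 1 1 ≠ 0) := by
      by_contra hcon
      push Not at hcon
      have hd := γ.det_coe
      rw [Matrix.det_fin_two] at hd
      rw [hcon.1, hcon.2] at hd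
      simp at hd
    have h4 := h _ _ hne
    rw [e1]
    have h5 : 0 < ‖((γ 1 0 : ℤ) : ℂ) * τ + (γ 1 1 : ℤ)‖ ^ 2 := by
      by_contra h6
      have h7 : ‖((γ 1 0 : ℤ) : ℂ) * τ + (γ 1 1 : ℤ)‖ ^ 2 = 0 :=
        le_antisymm (not_lt.1 h6) (by positivity)
      rw [h7, mul_zero] at h4
      linarith
    rw [div_le_iff₀ h5]
    exact h4
  have hz2 : 3 / 4 ≤ z.im := by nlinarith
  have hq1 : 1 / 2 ≤ z.im ^ (1 / 4 : ℝ) := by
    have h4 : ((1:ℝ) / 2) = ((1 / 16 : ℝ)) ^ (1 / 4 : ℝ) := by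
      rw [show (1 / 16 : ℝ) = (1 / 2) ^ (4 : ℕ) by norm_num, ← Real.rpow_natCast,
        ← Real.rpow_mul (by norm_num)]
      norm_num
    rw [h4]
    exact Real.rpow_le_rpow (by norm_num) (by linarith) (by norm_num)
  have hq2 : z.im ^ (1 / 4 : ℝ) ≤ y₀ := by
    calc z.im ^ (1 / 4 : ℝ) ≤ y₀ ^ (1 / 4 : ℝ) := Real.rpow_le_rpow hz0.le hY (by norm_num)
      _ ≤ y₀ ^ (1 : ℝ) := Real.rpow_le_rpow_of_exponent_le hy (by norm_num)
      _ = y₀ := Real.rpow_one _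
  constructor
  · rw [show τ.im ^ (1 / 4 : ℝ) * mn τ = z.im ^ (1 / 4 : ℝ) * mn z from h1.symm]
    have h5 : Real.exp (-(π * y₀ / 4)) ≤ Real.exp (-(π * z.im / 4)) := by
      refine Real.exp_le_exp.2 ?_
      have := mul_le_mul_of_nonneg_left hY Real.pi_pos.le
      linarith
    calc 1 / 4 * Real.exp (-(π * y₀ / 4)) = 1 / 2 * (1 / 2 * Real.exp (-(π * y₀ / 4))) := by ring
      _ ≤ z.im ^ (1 / 4 : ℝ) * mn z :=
        mul_le_mul hq1 (by linarith) (by positivity) (by positivity)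
  · rw [show τ.im ^ (1 / 4 : ℝ) * mx τ = z.im ^ (1 / 4 : ℝ) * mx z from h2.symm]
    have h6 : 0 ≤ mx z := by
      unfold mx
      positivity
    calc z.im ^ (1 / 4 : ℝ) * mx z ≤ y₀ * (5 / 2) := mul_le_mul hq2 hM h6 (by linarith)
      _ = _ := by ring

/-! ### The sum over a progression -/

/-- `∑_j e^(π i (2 j + 1 - N)^2 τ / 4)` is `θ_3` for odd `N`, `θ_2` for even `N` -/
lemma theta_shift (N : ℕ) (τ : ℂ) :
    cexp (π * I * (1 - N) ^ 2 * τ / 4) * jacobiTheta₂ ((1 - N) * τ / 2) τ =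
      if Even N then t2 τ else t3 τ := by
  induction N using Nat.twoStepInduction with
  | zero =>
    simp only [Even.zero, if_true]
    unfold t2
    congr 2
    · push_cast; ring
    · push_cast; ring
  | one =>
    simp only [Nat.not_even_one, if_false]
    unfold t3
    push_cast
    simp
  | more n ih _ =>
    have e : Even (n + 2) ↔ Even n := by
      rw [Nat.even_add]
      simp
    rw [if_congr e rfl rfl, ← ih]
    have h1 := jacobiTheta₂_add_left' ((1 - ((n + 2 : ℕ) : ℂ)) * τ / 2) τ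
    have e2 : (1 - ((n + 2 : ℕ) : ℂ)) * τ / 2 + τ = (1 - (n : ℂ)) * τ / 2 := by push_cast; ring
    rw [e2] at h1
    rw [h1, ← mul_assoc, ← Complex.exp_add]
    congr 2
    push_cast
    ring

lemma theta_hasSum (N : ℕ) {τ : ℂ} (hτ : 0 < τ.im) :
    HasSum (fun j : ℤ => cexp (π * I * (2 * (j : ℂ) + 1 - N) ^ 2 * τ / 4))
      (if Even N then t2 τ else t3 τ) := by
  rw [← theta_shift]
  refine ((hasSum_jacobiTheta₂_term ((1 - N) * τ / 2) hτ).mul_left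
    (cexp (π * I * (1 - N) ^ 2 * τ / 4))).congr_fun ?_
  intro j
  unfold jacobiTheta₂_term
  rw [← Complex.exp_add]
  congr 1
  ring

lemma mn_le_ite (N : ℕ) (τ : ℂ) : mn τ ≤ ‖if Even N then t2 τ else t3 τ‖ := by
  unfold mn
  split_ifs
  · exact min_le_left _ _
  · exact (min_le_right _ _).trans (min_le_left _ _)

lemma ite_le_mx (N : ℕ) (τ : ℂ) : ‖if Even N then t2 τ else t3 τ‖ ≤ mx τ := by
  unfold mx
  split_ifs
  · exact le_max_left _ _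
  · exact (le_max_left _ _).trans (le_max_right _ _)

end Pool.Agent.Q99.VC
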