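import Pool.Agent.Q99.VC.Theta1

/-!
# The theta constants at most points of a horocycle
-/

set_option autoImplicit false

namespace Pool.Agent.Q99.VC

open Filter Finset Topology Complex
open scoped Real

lemma card_int {u v : ℝ} (h : u ≤ v) : ((Finset.Icc ⌈u⌉ ⌊v⌋).card : ℝ) ≤ v - u + 1 := by
  rw [Int.card_Icc]
  have h1 : (((⌊v⌋ + 1 - ⌈u⌉).toNat : ℤ) : ℝ) ≤ v - u + 1 := by
    rw [Int.toNat_eq_max]
    push_cast
    refine max_le ?_ (by linarith)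
    have := Int.floor_le v
    have := Int.le_ceil u
    linarith
  exact_mod_cast h1

/-- the points of the horocycle -/
noncomputable def ta (α β : ℝ) (N : ℕ) (A : ℤ) : ℂ := (((A : ℝ) + α : ℝ) + (β : ℝ) * I) / N

lemma ta_im (α β : ℝ) (N : ℕ) (A : ℤ) : (ta α β N A).im = β / N := by
  unfold ta
  rw [Complex.div_natCast_im]
  simp

lemma norm_ta {α β : ℝ} {N : ℕ} (hN : 0 < N) (A c d : ℤ) : ‖(c : ℂ) * ta α β N A + d‖ ^ 2 =
    ((c * (A + α) + d * N) ^ 2 + (c * β) ^ 2) / (N : ℝ) ^ 2 := by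
  have hN' : (N : ℝ) ≠ 0 := by exact_mod_cast hN.ne'
  have hNc : (N : ℂ) ≠ 0 := by exact_mod_cast hN.ne'
  have e : (c : ℂ) * ta α β N A + d = (((c * (A + α) + d * N) / N : ℝ) : ℂ) +
      ((c * β / N : ℝ) : ℂ) * I := by
    unfold ta
    push_cast
    field_simp
    ring
  rw [e, Complex.sq_norm, Complex.normSq_add_mul_I]
  field_simp

/-- the exceptional points -/
def Bad (α β y₀ : ℝ) (N : ℕ) (A : ℤ) : Prop := ¬ ∀ c d : ℤ, (c ≠ 0 ∨ d ≠ 0) →
  (ta α β N A).im ≤ y₀ * ‖(c : ℂ) * ta α β N A + d‖ ^ 2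

open Classical in
/-- most points of the horocycle are not exceptional -/
theorem count_bad {β : ℝ} (hβ : 0 < β) (α : ℝ) {δ : ℝ} (hδ : 0 < δ) :
    ∃ y₀ : ℝ, 1 ≤ y₀ ∧ ∃ N₀ : ℕ, ∀ N : ℕ, N₀ ≤ N → ∀ (B : ℤ) (L : ℕ), N ≤ L →
      (((Finset.Ico B (B + L)).filter (Bad α β y₀ N)).card : ℝ) ≤ δ * L := by
  set y₀ : ℝ := max 1 (3 * (2 + 1 / β) / δ) with hy₀
  have hy1 : 1 ≤ y₀ := le_max_left _ _
  have hy2 : 3 * (2 + 1 / β) ≤ δ * y₀ := by
    have : 3 * (2 + 1 / β) / δ ≤ y₀ := le_max_right _ _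
    rw [div_le_iff₀ hδ] at this
    linarith
  refine ⟨y₀, hy1, ⌈4 * β⌉₊ + 1, fun N hN B L hL => ?_⟩
  have hNβ : 4 * β < N := by
    have h1 := Nat.le_ceil (4 * β)
    have h2 : ((⌈4 * β⌉₊ + 1 : ℕ) : ℝ) ≤ N := by exact_mod_cast hN
    push_cast at h2
    linarith
  have hNp : (0 : ℝ) < N := by linarith
  have hN0 : 0 < N := by exact_mod_cast hNp
  have hLr : (N : ℝ) ≤ L := by exact_mod_cast hL
  have hy0 : 0 < y₀ := by linarith
  obtain ⟨R, hR⟩ : ∃ R : ℝ, R = Real.sqrt (β * N / y₀) := ⟨_, rfl⟩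
  have hR0 : 0 ≤ R := by rw [hR]; exact Real.sqrt_nonneg _
  have hR2 : R ^ 2 = β * N / y₀ := by rw [hR]; exact Real.sq_sqrt (by positivity)
  obtain ⟨Q, hQ⟩ : ∃ Q : ℝ, Q = Real.sqrt (N / (β * y₀)) := ⟨_, rfl⟩
  have hQ0 : 0 ≤ Q := by rw [hQ]; exact Real.sqrt_nonneg _
  have hQ2 : Q ^ 2 = N / (β * y₀) := by rw [hQ]; exact Real.sq_sqrt (by positivity)
  have hRQ : R * Q = N / y₀ := by
    have h1 : (R * Q) ^ 2 = (N / y₀) ^ 2 := by
      rw [mul_pow, hR2, hQ2]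
      field_simp
    exact (pow_left_inj₀ (by positivity) (by positivity) two_ne_zero).1 h1
  have hRN : 2 * R ≤ N := by
    have h1 : β * N / y₀ ≤ (N / 2) ^ 2 := by
      rw [div_le_iff₀ hy0]
      nlinarith
    have h2 : R ≤ N / 2 := by
      rw [hR]
      exact Real.sqrt_le_iff.2 ⟨by positivity, h1⟩
    linarith
  set C₀ : ℕ := ⌊Q⌋₊ with hC₀
  have hC₀Q : (C₀ : ℝ) ≤ Q := Nat.floor_le hQ0
  -- the covering
  set u : ℕ → ℝ := fun c => (-R - c * (B + L + α)) / N with hu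
  set v : ℕ → ℝ := fun c => (R - c * (B + α)) / N with hv
  have hsub : (Finset.Ico B (B + L)).filter (Bad α β y₀ N) ⊆
      (Finset.Icc 1 C₀).biUnion fun c => (Finset.Icc ⌈u c⌉ ⌊v c⌋).biUnion fun d : ℤ =>
        Finset.Icc ⌈(-R - d * N) / c - α⌉ ⌊(R - d * N) / c - α⌋ := by
    intro A hA
    rw [Finset.mem_filter, Finset.mem_Ico] at hA
    obtain ⟨⟨hA1, hA2⟩, hA3⟩ := hA
    unfold Bad at hA3
    push Not at hA3
    obtain ⟨c', d', hcd, hlt⟩ := hA3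
    rw [norm_ta hN0, ta_im] at hlt
    have h1 : y₀ * ((c' * (A + α) + d' * N) ^ 2 + (c' * β) ^ 2) < β * N := by
      rw [← mul_div_assoc, div_lt_div_iff₀ (by positivity) hNp] at hlt
      have : y₀ * ((c' * (A + α) + d' * N) ^ 2 + (c' * β) ^ 2) * N < (β * N) * N := by
        nlinarith
      exact lt_of_mul_lt_mul_right this hNp.le
    have hc' : c' ≠ 0 := by
      rintro rfl
      have hd' : d' ≠ 0 := by simpa using hcd
      have h2 : (1 : ℝ) ≤ (d' : ℝ) ^ 2 := by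
        have : (0 : ℤ) < d' ^ 2 := by positivity
        have : (1 : ℤ) ≤ d' ^ 2 := this
        exact_mod_cast this
      push_cast at h1
      have h3 : (0 * ((A:ℝ) + α) + d' * N) ^ 2 + (0 * β) ^ 2 = (d' : ℝ) ^ 2 * N ^ 2 := by ring
      rw [h3] at h1
      have h4 : (N : ℝ) ^ 2 ≤ (d' : ℝ) ^ 2 * N ^ 2 := by nlinarith [sq_nonneg (N : ℝ)]
      nlinarith
    -- `c > 0`
    obtain ⟨c, d, hc, h2⟩ : ∃ (c : ℕ) (d : ℤ), 1 ≤ c ∧
        y₀ * ((c * (A + α) + d * N) ^ 2 + (c * β) ^ 2) < β * N := by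
      rcases lt_or_gt_of_ne hc' with h | h
      · refine ⟨c'.natAbs, -d', by omega, ?_⟩
        have e : ((c'.natAbs : ℕ) : ℝ) = -(c' : ℝ) := by
          rw [Nat.cast_natAbs, abs_of_neg h]
          push_cast
          rfl
        rw [e]
        push_cast
        have e2 : (-(c' : ℝ) * (A + α) + -(d' : ℝ) * N) ^ 2 + (-(c' : ℝ) * β) ^ 2 =
          (c' * (A + α) + d' * N) ^ 2 + (c' * β) ^ 2 := by ring
        rw [e2]
        exact h1
      · refine ⟨c'.natAbs, d', by omega, ?_⟩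
        have e : ((c'.natAbs : ℕ) : ℝ) = (c' : ℝ) := by
          rw [Nat.cast_natAbs, abs_of_pos h]
        rw [e]
        exact h1
    have hc1 : (1 : ℝ) ≤ c := by exact_mod_cast hc
    have h3 : (c * (A + α) + d * N) ^ 2 < R ^ 2 := by
      rw [hR2, lt_div_iff₀ hy0]
      nlinarith [sq_nonneg ((c : ℝ) * β), mul_nonneg hy0.le (sq_nonneg ((c : ℝ) * β))]
    have h4 : ((c : ℝ)) ^ 2 < Q ^ 2 := by
      rw [hQ2, lt_div_iff₀ (by positivity)]
      have h5 : y₀ * (c * β) ^ 2 < β * N := by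
        nlinarith [mul_nonneg hy0.le (sq_nonneg ((c : ℝ) * (A + α) + d * N))]
      have h6 : ((c : ℝ) ^ 2 * (β * y₀)) * β < N * β := by nlinarith
      exact lt_of_mul_lt_mul_right h6 hβ.le
    have h5 := abs_lt.1 (abs_lt_of_sq_lt_sq h3 hR0)
    have h6 : (c : ℝ) < Q := lt_of_pow_lt_pow_left₀ 2 hQ0 h4
    have hc0 : (0 : ℝ) < c := by linarith
    have hA1r : (B : ℝ) ≤ A := by exact_mod_cast hA1
    have hA2r : (A : ℝ) ≤ B + L := by
      have : A ≤ B + L := hA2.le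
      exact_mod_cast this
    rw [Finset.mem_biUnion]
    refine ⟨c, Finset.mem_Icc.2 ⟨hc, Nat.le_floor h6.le⟩, ?_⟩
    rw [Finset.mem_biUnion]
    refine ⟨d, Finset.mem_Icc.2 ⟨?_, ?_⟩, Finset.mem_Icc.2 ⟨?_, ?_⟩⟩
    · rw [Int.ceil_le, hu]
      simp only
      rw [div_le_iff₀ hNp]
      have := mul_le_mul_of_nonneg_left hA2r hc0.le
      nlinarith [h5.1]
    · rw [Int.le_floor, hv]
      simp only
      rw [le_div_iff₀ hNp]
      have := mul_le_mul_of_nonneg_left hA1r hc0.le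
      nlinarith [h5.2]
    · rw [Int.ceil_le, sub_le_iff_le_add, div_le_iff₀ hc0]
      nlinarith [h5.1]
    · rw [Int.le_floor, le_sub_iff_add_le, le_div_iff₀ hc0]
      nlinarith [h5.2]
  have hcard := Finset.card_le_card hsub
  have h1 : ((((Finset.Icc 1 C₀).biUnion fun c => (Finset.Icc ⌈u c⌉ ⌊v c⌋).biUnion fun d : ℤ =>
        Finset.Icc ⌈(-R - d * N) / c - α⌉ ⌊(R - d * N) / c - α⌋).card : ℕ) : ℝ) ≤
      ∑ c ∈ Finset.Icc 1 C₀, 3 * L / N * (2 * R + c) := by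
    refine (Nat.cast_le.2 Finset.card_biUnion_le).trans ?_
    rw [Nat.cast_sum]
    refine Finset.sum_le_sum fun c hc => ?_
    rw [Finset.mem_Icc] at hc
    have hc1 : (1 : ℝ) ≤ c := by exact_mod_cast hc.1
    have hc0 : (0 : ℝ) < c := by linarith
    refine (Nat.cast_le.2 Finset.card_biUnion_le).trans ?_
    rw [Nat.cast_sum]
    have h2 : ∀ d ∈ Finset.Icc ⌈u c⌉ ⌊v c⌋,
        ((Finset.Icc ⌈(-R - d * N) / c - α⌉ ⌊(R - d * N) / c - α⌋).card : ℝ) ≤ 2 * R / c + 1 := by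
      intro d _
      refine (card_int ?_).trans (le_of_eq ?_)
      · have : (-R - (d : ℝ) * N) / c ≤ (R - d * N) / c := by gcongr; linarith
        linarith
      · field_simp
        ring
    refine (Finset.sum_le_card_nsmul _ _ _ h2).trans ?_
    rw [nsmul_eq_mul]
    have h3 : ((Finset.Icc ⌈u c⌉ ⌊v c⌋).card : ℝ) ≤ 3 * c * L / N := by
      refine (card_int ?_).trans ?_
      · rw [hu, hv]
        simp only
        have hL0 : (0:ℝ) ≤ L := by linarith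
        have : 0 ≤ (c : ℝ) * L := by positivity
        gcongr ?_ / _
        nlinarith
      · rw [hu, hv]
        simp only
        have e : (R - c * (B + α)) / N - (-R - c * (B + L + α)) / N + 1 =
            (2 * R + c * L + N) / N := by
          field_simp
          ring
        rw [e]
        have h5 : (N : ℝ) ≤ c * L := by nlinarith
        gcongr ?_ / _
        linarith
    have h4 : (0 : ℝ) ≤ 2 * R / c + 1 := by positivity
    refine (mul_le_mul_of_nonneg_right h3 h4).trans (le_of_eq ?_)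
    field_simp
  have h2 : ∑ c ∈ Finset.Icc 1 C₀, 3 * (L : ℝ) / N * (2 * R + c) ≤ 3 * L / N * (2 * N / y₀ +
      N / (β * y₀)) := by
    rw [← Finset.mul_sum]
    refine mul_le_mul_of_nonneg_left ?_ (by positivity)
    have h3 : ∀ c ∈ Finset.Icc 1 C₀, 2 * R + (c : ℝ) ≤ 2 * R + Q := by
      intro c hc
      rw [Finset.mem_Icc] at hc
      have : (c : ℝ) ≤ C₀ := by exact_mod_cast hc.2
      linarith
    refine (Finset.sum_le_card_nsmul _ _ _ h3).trans ?_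
    rw [nsmul_eq_mul, Nat.card_Icc, Nat.add_sub_cancel]
    have h4 : (C₀ : ℝ) * (2 * R + Q) ≤ Q * (2 * R + Q) := by gcongr
    refine h4.trans (le_of_eq ?_)
    rw [← hQ2]
    have : 2 * (N : ℝ) / y₀ = 2 * (R * Q) := by rw [hRQ]; ring
    rw [this]
    ring
  have h3 : 3 * (L : ℝ) / N * (2 * N / y₀ + N / (β * y₀)) = L * (3 * (2 + 1 / β) / y₀) := by
    field_simp
  have h4 : 3 * (2 + 1 / β) / y₀ ≤ δ := by
    rw [div_le_iff₀ hy0]
    exact hy2
  calc (((Finset.Ico B (B + L)).filter (Bad α β y₀ N)).card : ℝ)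
      ≤ _ := by exact_mod_cast hcard
    _ ≤ _ := h1
    _ ≤ _ := h2
    _ = _ := h3
    _ ≤ L * δ := by gcongr
    _ = _ := mul_comm _ _

/-- **Theta constants at most points of a horocycle**: for all but a proportion `δ` of the `A`, all
the three theta constants at `(A + α + β i) / N` are of size `N ^ (1 / 4)`. -/
theorem theta_most {β : ℝ} (hβ : 0 < β) (α : ℝ) {δ : ℝ} (hδ : 0 < δ) :
    ∃ c C : ℝ, 0 < c ∧ 0 < C ∧ ∃ N₀ : ℕ, ∀ N : ℕ, N₀ ≤ N → ∃ S : Set ℤ,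
      (∀ (B : ℤ) (L : ℕ), N ≤ L → ∀ T : Finset ℤ, (∀ A ∈ T, A ∈ S) → T ⊆ Finset.Ico B (B + L) →
        (T.card : ℝ) ≤ δ * L) ∧
      ∀ A : ℤ, A ∉ S → c * (N : ℝ) ^ (1 / 4 : ℝ) ≤ mn (ta α β N A) ∧
        mx (ta α β N A) ≤ C * (N : ℝ) ^ (1 / 4 : ℝ) := by
  classical
  obtain ⟨y₀, hy, N₀, h⟩ := count_bad hβ α hδ
  have hb : 0 < β ^ (1 / 4 : ℝ) := Real.rpow_pos_of_pos hβ _
  refine ⟨1 / 4 * Real.exp (-(π * y₀ / 4)) / β ^ (1 / 4 : ℝ), 5 / 2 * y₀ / β ^ (1 / 4 : ℝ),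
    by positivity, by positivity, max N₀ 1, fun N hN => ⟨{A | Bad α β y₀ N A}, ?_, ?_⟩⟩
  · intro B L hL T hT hTB
    refine le_trans ?_ (h N ((le_max_left _ _).trans hN) B L hL)
    refine Nat.cast_le.2 (Finset.card_le_card fun A hA => ?_)
    rw [Finset.mem_filter]
    exact ⟨hTB hA, hT A hA⟩
  · intro A hA
    have hN1 : 0 < N := lt_of_lt_of_le one_pos ((le_max_right _ _).trans hN)
    have hNr : (0 : ℝ) < N := by exact_mod_cast hN1
    have hA' : ∀ c d : ℤ, (c ≠ 0 ∨ d ≠ 0) →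
        (ta α β N A).im ≤ y₀ * ‖(c : ℂ) * ta α β N A + d‖ ^ 2 := by
      by_contra hcon
      exact hA hcon
    have him : 0 < (ta α β N A).im := by rw [ta_im]; positivity
    obtain ⟨h1, h2⟩ := theta_bounds hy him hA'
    rw [ta_im, Real.div_rpow hβ.le hNr.le] at h1 h2
    have hNq : 0 < (N : ℝ) ^ (1 / 4 : ℝ) := Real.rpow_pos_of_pos hNr _
    constructor
    · rw [div_mul_eq_mul_div, div_le_iff₀ hb]
      rw [div_mul_eq_mul_div (β ^ (1 / 4 : ℝ)), le_div_iff₀ hNq] at h1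
      linarith
    · rw [div_mul_eq_mul_div, le_div_iff₀ hb]
      rw [div_mul_eq_mul_div (β ^ (1 / 4 : ℝ)), div_le_iff₀ hNq] at h2
      linarith

end Pool.Agent.Q99.VC
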