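import Pool.Agent.Q99.VC.Diag3

/-!
# The integrand at the nodes near the origin
-/

set_option autoImplicit false
set_option maxHeartbeats 1000000

namespace Pool.Agent.Q99.VC

open Filter Finset Topology Metric
open Pool.Agent.W711.HT hiding XX
open Pool.Agent.W719.AX
open Pool.Agent.W21.AX (ux_comp exp_small)
open Pool.Agent.TH563.UV (GoodU)
open Pool.Agent.TH929.J29 (bounds m0)
open scoped Real

/-! ### Even holomorphic functions -/

lemma even_quot {δ : ℝ} (hδ : 0 < δ) {G : ℂ → ℂ} (hG : DifferentiableOn ℂ G (ball 0 δ))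
    (hev : ∀ z ∈ ball (0 : ℂ) δ, G (-z) = G z) :
    ∃ K : ℂ → ℂ, DifferentiableOn ℂ K (ball 0 δ) ∧ (∀ z ∈ ball (0 : ℂ) δ, K (-z) = K z) ∧
      ∀ z ∈ ball (0 : ℂ) δ, G z = G 0 + z ^ 2 * K z := by
  have hopen : IsOpen (ball (0 : ℂ) δ) := isOpen_ball
  have h00 : (0 : ℂ) ∈ ball (0 : ℂ) δ := mem_ball_self hδ
  obtain ⟨G1, hG1⟩ : ∃ G1 : ℂ → ℂ, G1 = dslope G 0 := ⟨_, rfl⟩
  have h1 : ∀ z, z * G1 z = G z - G 0 := by
    intro z
    have := sub_smul_dslope G 0 z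
    rw [← hG1, sub_zero, smul_eq_mul] at this
    exact this
  have hG1d : DifferentiableOn ℂ G1 (ball 0 δ) := by
    rw [hG1]
    exact (Complex.differentiableOn_dslope (hopen.mem_nhds h00)).2 hG
  have hneg : ∀ z ∈ ball (0 : ℂ) δ, -z ∈ ball (0 : ℂ) δ := by
    intro z hz
    rw [mem_ball_zero_iff] at hz ⊢
    rwa [norm_neg]
  have hodd : ∀ z ∈ ball (0 : ℂ) δ, z ≠ 0 → G1 (-z) = -G1 z := by
    intro z hz hz0
    have a := h1 z
    have b := h1 (-z)
    rw [hev z hz, ← a] at b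
    have c : z * (G1 (-z) + G1 z) = 0 := by linear_combination -b
    rcases mul_eq_zero.1 c with h | h
    · exact absurd h hz0
    · linear_combination h
  have hG10 : G1 0 = 0 := by
    have hd : deriv G 0 = 0 := by
      have a1 : HasDerivAt G (deriv G 0) 0 :=
        ((hG 0 h00).differentiableAt (hopen.mem_nhds h00)).hasDerivAt
      have a1' : HasDerivAt G (deriv G 0) (-(0 : ℂ)) := by rwa [neg_zero]
      have a2 : HasDerivAt (fun z => G (-z)) (-deriv G 0) 0 := by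
        have := a1'.comp (0 : ℂ) (hasDerivAt_neg 0)
        exact this.congr_deriv (by ring)
      have a3 : (fun z => G (-z)) =ᶠ[𝓝 0] G := by
        filter_upwards [hopen.mem_nhds h00] with z hz
        exact hev z hz
      have a4 := a2.congr_of_eventuallyEq a3.symm
      have a5 := a1.unique a4
      linear_combination (1 / 2 : ℂ) * a5
    rw [hG1, dslope_same, hd]
  obtain ⟨K, hK⟩ : ∃ K : ℂ → ℂ, K = dslope G1 0 := ⟨_, rfl⟩
  have h2 : ∀ z, z * K z = G1 z := by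
    intro z
    have := sub_smul_dslope G1 0 z
    rw [← hK, sub_zero, smul_eq_mul, hG10, sub_zero] at this
    exact this
  refine ⟨K, ?_, fun z hz => ?_, fun z _ => ?_⟩
  · rw [hK]
    exact (Complex.differentiableOn_dslope (hopen.mem_nhds h00)).2 hG1d
  · rcases eq_or_ne z 0 with rfl | hz0
    · rw [neg_zero]
    · have a := h2 z
      have b := h2 (-z)
      rw [hodd z hz hz0, ← a] at b
      have c : z * (K (-z) - K z) = 0 := by linear_combination -b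
      rcases mul_eq_zero.1 c with h | h
      · exact absurd h hz0
      · linear_combination h
  · have a := h1 z
    rw [← h2 z] at a
    linear_combination -a

/-- expansion of an even holomorphic function and of its derivative -/
lemma even_exp {δ : ℝ} (hδ : 0 < δ) {G : ℂ → ℂ} (hG : DifferentiableOn ℂ G (ball 0 δ))
    (hev : ∀ z ∈ ball (0 : ℂ) δ, G (-z) = G z) :
    ∃ (a : ℂ) (C : ℝ), 0 ≤ C ∧ ∀ z : ℂ, ‖z‖ ≤ δ / 2 → ‖G z - G 0‖ ≤ C * ‖z‖ ^ 2 ∧
      ‖deriv G z‖ ≤ C * ‖z‖ ∧ ‖G z - G 0 - a * z ^ 2‖ ≤ C * ‖z‖ ^ 4 ∧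
      ‖deriv G z - 2 * a * z‖ ≤ C * ‖z‖ ^ 3 := by
  obtain ⟨K, hK, hKe, hGK⟩ := even_quot hδ hG hev
  obtain ⟨K2, hK2, -, hKK2⟩ := even_quot hδ hK hKe
  have hopen : IsOpen (ball (0 : ℂ) δ) := isOpen_ball
  have hsub : closedBall (0 : ℂ) (δ / 2) ⊆ ball 0 δ := closedBall_subset_ball (by linarith)
  have hc : IsCompact (closedBall (0 : ℂ) (δ / 2)) := isCompact_closedBall _ _
  obtain ⟨B1, hB1⟩ := hc.exists_bound_of_continuousOn (hK.continuousOn.mono hsub)
  obtain ⟨B2, hB2⟩ := hc.exists_bound_of_continuousOn (hK2.continuousOn.mono hsub)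
  obtain ⟨B3, hB3⟩ := hc.exists_bound_of_continuousOn ((hK.deriv hopen).continuousOn.mono hsub)
  obtain ⟨B4, hB4⟩ := hc.exists_bound_of_continuousOn ((hK2.deriv hopen).continuousOn.mono hsub)
  have h00 : (0 : ℂ) ∈ closedBall (0 : ℂ) (δ / 2) := by
    rw [mem_closedBall_zero_iff, norm_zero]; linarith
  have n1 : 0 ≤ B1 := (norm_nonneg _).trans (hB1 0 h00)
  have n2 : 0 ≤ B2 := (norm_nonneg _).trans (hB2 0 h00)
  have n3 : 0 ≤ B3 := (norm_nonneg _).trans (hB3 0 h00)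
  have n4 : 0 ≤ B4 := (norm_nonneg _).trans (hB4 0 h00)
  refine ⟨K 0, B1 + (2 * B1 + δ * B3) + B2 + (2 * B2 + 2 * B2 + δ * B4), by positivity,
    fun z hz => ?_⟩
  have hzc : z ∈ closedBall (0 : ℂ) (δ / 2) := mem_closedBall_zero_iff.2 hz
  have hzb := hsub hzc
  have b1 := hB1 z hzc
  have b2 := hB2 z hzc
  have b3 := hB3 z hzc
  have b4 := hB4 z hzc
  have hn := norm_nonneg z
  have hd1 : deriv G z = 2 * z * K z + z ^ 2 * deriv K z := by
    have e : G =ᶠ[𝓝 z] fun w => G 0 + w ^ 2 * K w := by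
      filter_upwards [hopen.mem_nhds hzb] with w hw
      exact hGK w hw
    rw [e.deriv_eq]
    have a1 : HasDerivAt K (deriv K z) z :=
      ((hK z hzb).differentiableAt (hopen.mem_nhds hzb)).hasDerivAt
    have a2 : HasDerivAt (fun w : ℂ => w ^ 2) (2 * z) z := by
      simpa using hasDerivAt_pow 2 z
    exact ((a2.mul a1).const_add (G 0)).deriv
  have hd2 : deriv K z = 2 * z * K2 z + z ^ 2 * deriv K2 z := by
    have e : K =ᶠ[𝓝 z] fun w => K 0 + w ^ 2 * K2 w := by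
      filter_upwards [hopen.mem_nhds hzb] with w hw
      exact hKK2 w hw
    rw [e.deriv_eq]
    have a1 : HasDerivAt K2 (deriv K2 z) z :=
      ((hK2 z hzb).differentiableAt (hopen.mem_nhds hzb)).hasDerivAt
    have a2 : HasDerivAt (fun w : ℂ => w ^ 2) (2 * z) z := by
      simpa using hasDerivAt_pow 2 z
    exact ((a2.mul a1).const_add (K 0)).deriv
  have t1 : ‖G z - G 0‖ ≤ B1 * ‖z‖ ^ 2 := by
    rw [hGK z hzb, add_sub_cancel_left, norm_mul, norm_pow, mul_comm]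
    gcongr
  have t2 : ‖deriv G z‖ ≤ (2 * B1 + δ * B3) * ‖z‖ := by
    rw [hd1]
    refine (norm_add_le _ _).trans ?_
    rw [norm_mul, norm_mul, norm_mul, norm_pow, Complex.norm_ofNat]
    have c1 : 2 * ‖z‖ * ‖K z‖ ≤ 2 * ‖z‖ * B1 := by gcongr
    have c2 : ‖z‖ ^ 2 * ‖deriv K z‖ ≤ δ * ‖z‖ * B3 := by
      rw [pow_two]
      have : ‖z‖ ≤ δ := by linarith
      gcongr
    linarith
  have t3 : ‖G z - G 0 - K 0 * z ^ 2‖ ≤ B2 * ‖z‖ ^ 4 := by
    have e : G z - G 0 - K 0 * z ^ 2 = z ^ 4 * K2 z := by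
      rw [hGK z hzb, hKK2 z hzb]; ring
    rw [e, norm_mul, norm_pow, mul_comm]
    gcongr
  have t4 : ‖deriv G z - 2 * K 0 * z‖ ≤ (2 * B2 + 2 * B2 + δ * B4) * ‖z‖ ^ 3 := by
    have e : deriv G z - 2 * K 0 * z = 2 * z ^ 3 * K2 z + (2 * z ^ 3 * K2 z +
        z ^ 4 * deriv K2 z) := by
      rw [hd1, hd2, hKK2 z hzb]; ring
    rw [e]
    refine (norm_add_le _ _).trans ?_
    refine (add_le_add le_rfl (norm_add_le _ _)).trans ?_
    rw [norm_mul, norm_mul, norm_mul, norm_pow, norm_pow, Complex.norm_ofNat]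
    have c1 : 2 * ‖z‖ ^ 3 * ‖K2 z‖ ≤ 2 * ‖z‖ ^ 3 * B2 := by gcongr
    have c2 : ‖z‖ ^ 4 * ‖deriv K2 z‖ ≤ δ * ‖z‖ ^ 3 * B4 := by
      have e4 : ‖z‖ ^ 4 = ‖z‖ * ‖z‖ ^ 3 := by ring
      rw [e4]
      have : ‖z‖ ≤ δ := by linarith
      gcongr
    linarith
  have hδB3 : 0 ≤ δ * B3 := by positivity
  have hδB4 : 0 ≤ δ * B4 := by positivity
  refine ⟨t1.trans ?_, t2.trans ?_, t3.trans ?_, t4.trans ?_⟩
  · refine mul_le_mul_of_nonneg_right ?_ (by positivity)
    linarith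
  · refine mul_le_mul_of_nonneg_right ?_ (by positivity)
    linarith
  · refine mul_le_mul_of_nonneg_right ?_ (by positivity)
    linarith
  · refine mul_le_mul_of_nonneg_right ?_ (by positivity)
    linarith

/-! ### Elementary bounds -/

lemma texp (t : ℝ) : t * Real.exp (-t) ≤ 1 := by
  have h := Real.add_one_le_exp t
  have h1 : Real.exp (-t) * Real.exp t = 1 := by rw [← Real.exp_add]; simp
  have h2 := Real.exp_pos (-t)
  nlinarith

/-- `x ^ 2 e^(-c N x ^ 2) ≤ 1 / (c N)` -/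
lemma gau2 {c : ℝ} (hc : 0 < c) {N : ℕ} (hN : 0 < N) (x : ℝ) :
    x ^ 2 * Real.exp (-(c * N * x ^ 2)) ≤ 1 / c / N := by
  have hNr : (0 : ℝ) < N := by exact_mod_cast hN
  rw [div_div, le_div_iff₀ (by positivity)]
  have := texp (c * N * x ^ 2)
  linarith

/-- `N x ^ 4 e^(-c N x ^ 2) ≤ 4 / (c ^ 2 N)` -/
lemma gau4 {c : ℝ} (hc : 0 < c) {N : ℕ} (hN : 0 < N) (x : ℝ) :
    N * x ^ 4 * Real.exp (-(c * N * x ^ 2)) ≤ 4 / c ^ 2 / N := by
  have hNr : (0 : ℝ) < N := by exact_mod_cast hN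
  have h1 := texp (c * N * x ^ 2 / 2)
  have h0 : 0 ≤ c * N * x ^ 2 / 2 * Real.exp (-(c * N * x ^ 2 / 2)) := by positivity
  have h2 : (c * N * x ^ 2 / 2 * Real.exp (-(c * N * x ^ 2 / 2))) ^ 2 ≤ 1 := pow_le_one₀ h0 h1
  have h3 : Real.exp (-(c * N * x ^ 2 / 2)) ^ 2 = Real.exp (-(c * N * x ^ 2)) := by
    rw [← Real.exp_nat_mul]
    congr 1
    push_cast
    ring
  rw [mul_pow, h3] at h2
  rw [div_div, le_div_iff₀ (by positivity)]
  nlinarith

lemma exp_diff (u v : ℂ) : ‖Complex.exp u - Complex.exp v‖ ≤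
    Real.exp v.re * (‖u - v‖ * Real.exp ‖u - v‖) := by
  have e : Complex.exp u - Complex.exp v = Complex.exp v * (Complex.exp (u - v) - 1) := by
    rw [mul_sub, ← Complex.exp_add, mul_one]
    congr 2
    ring
  rw [e, norm_mul, Complex.norm_exp]
  refine mul_le_mul_of_nonneg_left ?_ (Real.exp_pos _).le
  have := Complex.norm_exp_sub_sum_le_norm_mul_exp (u - v) 1
  simpa using this

end Pool.Agent.Q99.VC
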