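import Pool.Agent.Q99.VC.Step
import Pool.Agent.W719.AR.Final

/-!
# Upper bound of the Kashaev invariants of all arborescent links
-/

set_option autoImplicit false

namespace Pool.Agent.Q99.VC

open Filter Finset Topology Metric
open Pool.Agent.W711.HT hiding XX
open Pool.Agent.W719.AR
open scoped Real

lemma exists_cst {ρ τ κ c : ℝ} {s dl : ℂ → ℂ → ℂ} (hK : KD ρ τ κ c s dl) {A B : ℝ}
    (hA : 0 < A) (hB : 0 < B) : ∃ K : ℝ, Cst ρ τ κ A B K := by
  have hρ := hK.hρ
  have hτ := hK.hτ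
  have hκ := hK.hκ
  have hpi := Real.pi_pos
  set K : ℝ := A + 1 / (8 * π ^ 2 * B) + 1 / (2 * τ) + 1 / (2 * B * ρ ^ 2) + 1 / κ with hKd
  have h1 : 0 < 1 / (8 * π ^ 2 * B) := by positivity
  have h2 : 0 < 1 / (2 * τ) := by have := hτ.1; positivity
  have h3 : 0 < 1 / (2 * B * ρ ^ 2) := by have := hρ.1; positivity
  have h4 : 0 < 1 / κ := by have := hκ.1; positivity
  have hK0 : 0 < K := by linarith
  refine ⟨K, hρ, hτ, hκ.1, hA, hB, hK0, by linarith, ?_, ?_, ?_⟩
  · have := hτ.1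
    rw [div_le_iff₀ (by positivity)]
    have h5 : 1 / (2 * τ) ≤ K := by linarith
    rw [div_le_iff₀ (by positivity)] at h5
    linarith
  · have := hρ.1
    rw [div_le_iff₀ (by positivity)]
    have h5 : 1 / (2 * B * ρ ^ 2) ≤ K := by linarith
    rw [div_le_iff₀ (by positivity)] at h5
    nlinarith
  · have := hκ.1
    rw [div_le_iff₀ (by positivity)]
    have h5 : 1 / κ ≤ K := by linarith
    rw [div_le_iff₀ (by positivity)] at h5
    nlinarith

/-- (number of neighbours, weight) for all vertices other than the root -/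
def others : Tr → List (ℕ × ℤ)
  | .vx _ => []
  | .br t c => others t ++ (c.nc + 1, c.wt) :: others c

/-- number of edges -/
def ne : Tr → ℕ
  | .vx _ => 0
  | .br t c => ne t + (ne c + 1)

/-- (number of neighbours, weight) for all vertices -/
def verts (t : Tr) : List (ℕ × ℤ) := (t.nc, t.wt) :: others t

noncomputable def gaps (K : ℝ) (l : List (ℕ × ℤ)) : ℝ := (l.map fun p => gap K p.1 p.2).sum

noncomputable def wts (l : List (ℕ × ℤ)) : ℝ := (l.map fun p => |(p.2 : ℝ)|).sum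

def degs (l : List (ℕ × ℤ)) : ℕ := (l.map fun p => p.1).sum

lemma degs_others : ∀ t : Tr, t.nc + degs (others t) = 2 * ne t
  | .vx _ => by simp [others, ne, degs, Tr.nc]
  | .br t c => by
    have h1 := degs_others t
    have h2 := degs_others c
    simp only [others, ne, degs, Tr.nc, List.map_append, List.map_cons, List.sum_append,
      List.sum_cons] at *
    omega

lemma nv_eq : ∀ t : Tr, t.nv = ne t + 1
  | .vx _ => by simp [ne, Tr.nv]
  | .br t c => by
    have h1 := nv_eq t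
    have h2 := nv_eq c
    simp only [ne, Tr.nv]
    omega

lemma ne_pos (t : Tr) (h : 1 ≤ t.nc) : 1 ≤ ne t := by
  cases t with
  | vx a => simp [Tr.nc] at h
  | br t c => simp only [ne]; omega

section

variable {ρ τ κ A B K ε : ℝ} {N : ℕ}

lemma XX_an (hE : S_STPE) : ∀ (t : Tr) (N : ℕ), Differentiable ℂ (Pool.Agent.W719.AR.XX t N)
  | .vx _, N => by
    simp only [Pool.Agent.W719.AR.XX]
    exact differentiable_const _
  | .br t c, N => by
    simp only [Pool.Agent.W719.AR.XX]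
    exact (XX_an hE t N).mul ((hE c.wt _ (XX_an hE c)).1 N)

lemma tree_HB (hC : Cst ρ τ κ A B K) {s : ℂ → ℂ → ℂ}
    (hs : ∀ x y x' y' : ℝ, |x| ≤ ρ → |y| ≤ τ → |x'| ≤ ρ → |y'| ≤ τ →
      (s (x + y * Complex.I) (x' + y' * Complex.I)).re ≤
        2 * bet + (A * y ^ 2 - B * x ^ 2) + (A * y' ^ 2 - B * x' ^ 2))
    (hε : 0 ≤ ε) (hn : Nice ρ τ κ ε s N) (hE : S_STPE) : ∀ t : Tr,
    HB ρ τ κ A B N t.nc (ne t * (2 * bet) - gaps K (others t))
      (wts (others t) / 2 + degs (others t) * A + ne t * (5 + ε * N))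
      (Pool.Agent.W719.AR.XX t N)
  | .vx a => by
    have h := HB.one (ρ := ρ) (τ := τ) (κ := κ) (A := A) (B := B) (N := N)
    simpa [Tr.nc, ne, gaps, others, wts, degs, Pool.Agent.W719.AR.XX] using h
  | .br t c => by
    have h1 := tree_HB hC hs hε hn hE t
    have h2 := HB.step hC hs hε hn hE (XX_an hE c) (tree_HB hC hs hε hn hE c) c.wt
    have h3 := h1.mul h2
    have e1 : ne t * (2 * bet) - gaps K (others t) + (ne c * (2 * bet) - gaps K (others c) +
        2 * bet - gap K (c.nc + 1) c.wt) =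
        (ne (.br t c) : ℝ) * (2 * bet) - gaps K (others (.br t c)) := by
      simp only [ne, gaps, others, List.map_append, List.map_cons, List.sum_append,
        List.sum_cons]
      push_cast
      ring
    have e2 : wts (others t) / 2 + degs (others t) * A + ne t * (5 + ε * N) +
        (wts (others c) / 2 + degs (others c) * A + ne c * (5 + ε * N) + |(c.wt : ℝ)| / 2 +
          ((c.nc + 1 : ℕ) : ℝ) * A + 5 + ε * N) =
        wts (others (.br t c)) / 2 + degs (others (.br t c)) * A +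
          (ne (.br t c) : ℝ) * (5 + ε * N) := by
      simp only [ne, wts, degs, others, List.map_append, List.map_cons, List.sum_append,
        List.sum_cons]
      push_cast
      ring
    rw [e1, e2] at h3
    exact h3

lemma JT_bd (hC : Cst ρ τ κ A B K) {s : ℂ → ℂ → ℂ}
    (hs : ∀ x y x' y' : ℝ, |x| ≤ ρ → |y| ≤ τ → |x'| ≤ ρ → |y'| ≤ τ →
      (s (x + y * Complex.I) (x' + y' * Complex.I)).re ≤
        2 * bet + (A * y ^ 2 - B * x ^ 2) + (A * y' ^ 2 - B * x' ^ 2))
    (hε : 0 ≤ ε) (hn : Nice ρ τ κ ε s N) (hE : S_STPE) (t : Tr) (ht : 1 ≤ t.nc) :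
    ‖JT t N‖ ≤ Real.exp (wts (verts t) / 2 + ne t * (2 * A + 10 + ε * N) +
      N * (ne t * (2 * bet) - gaps K (verts t))) := by
  have h := (tree_HB hC hs hε hn hE t).root hC hn.hN hn.hNτ ht t.wt
  unfold JT
  refine h.trans (Real.exp_le_exp.2 ?_)
  have h1 : (t.nc : ℝ) + degs (others t) = 2 * ne t := by exact_mod_cast degs_others t
  have h2 : (1:ℝ) ≤ ne t := by exact_mod_cast ne_pos t ht
  have e1 : wts (verts t) = |(t.wt : ℝ)| + wts (others t) := by
    simp [wts, verts]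
  have e2 : gaps K (verts t) = gap K t.nc t.wt + gaps K (others t) := by
    simp [gaps, verts]
  rw [e1, e2]
  have h3 : (degs (others t) : ℝ) = 2 * ne t - t.nc := by linarith
  rw [h3]
  nlinarith

end

theorem rtt_all : S_RTT :=
  f_RTT Pool.Agent.W637.AR.rote Pool.Agent.W12.AR.gam_lim Pool.Agent.W885.AR.lmr

lemma gaps_eq (K : ℝ) (l : List (ℕ × ℤ)) : gaps K l =
    1 / (4 * K) * (l.map fun p => (p.1 : ℝ) / ((p.1 : ℝ) ^ 2 + (p.2 : ℝ) ^ 2)).sum := by
  unfold gaps
  rw [← List.sum_map_mul_left]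
  congr 1
  refine List.map_congr_left fun p _ => ?_
  unfold gap
  by_cases h : (p.1 : ℝ) ^ 2 + (p.2 : ℝ) ^ 2 = 0
  · rw [h]; simp
  · by_cases hK : K = 0
    · rw [hK]; simp
    · field_simp

theorem tree_main : ∃ c : ℝ, 0 < c ∧ ∀ ε : ℝ, 0 < ε → ∃ N₀ : ℕ, ∀ N : ℕ, N₀ ≤ N → ∀ t : Tr,
    1 ≤ t.nc → ‖jt t N (vN N)‖ ≤ Real.exp (wts (verts t) / 2 + N * (ne t * (2 * bet + ε) -
      c * ((verts t).map fun p => (p.1 : ℝ) / ((p.1 : ℝ) ^ 2 + (p.2 : ℝ) ^ 2)).sum)) := by
  obtain ⟨ρ, τ, κ, c, s, dl, hK⟩ := f_KER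
  obtain ⟨A, B, hA, hB, hs⟩ := s_bound hK
  obtain ⟨K, hC⟩ := exists_cst hK hA hB
  have hK0 := hC.hK
  refine ⟨1 / (4 * K), by positivity, fun ε hε => ?_⟩
  have hev : ∀ᶠ N : ℕ in atTop, (2 * A + 10) + 4 * Real.log N ≤ ε / 2 * N := by
    have h1 : Tendsto (fun N : ℕ => Real.log (N : ℝ) / N) atTop (𝓝 0) :=
      (Real.isLittleO_log_id_atTop.tendsto_div_nhds_zero).comp tendsto_natCast_atTop_atTop
    have h2 : Tendsto (fun N : ℕ => (2 * A + 10) / (N : ℝ)) atTop (𝓝 0) :=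
      tendsto_const_div_atTop_nhds_zero_nat _
    filter_upwards [h1.eventually (gt_mem_nhds (show (0:ℝ) < ε / 16 by linarith)),
      h2.eventually (gt_mem_nhds (show (0:ℝ) < ε / 8 by linarith)), eventually_ge_atTop 1]
      with N a1 a2 a3
    have hN0 : (0:ℝ) < N := by exact_mod_cast a3
    rw [div_lt_iff₀ hN0] at a1 a2
    nlinarith
  obtain ⟨N₀, hN₀⟩ := eventually_atTop.1 ((nice hK (half_pos hε)).and
    (hev.and (eventually_ge_atTop 2)))
  refine ⟨N₀, fun N hN t ht => ?_⟩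
  obtain ⟨hn, hlog, hN2⟩ := hN₀ N hN
  have h1 := JT_bd hC hs (half_pos hε).le hn W398.HT.t_STPE t ht
  have h2 := (rtt_all t N hN2).2
  have hN1 : (1:ℝ) ≤ N := by exact_mod_cast hn.hN
  have hN0 : (0:ℝ) < N := by linarith
  have hpi := Real.pi_gt_three
  have hE : (1:ℝ) ≤ ne t := by exact_mod_cast ne_pos t ht
  rw [h2]
  have h3 : ((N : ℝ) ^ 2 / (2 * π)) ^ t.nv ≤ Real.exp (4 * Real.log N * ne t) := by
    rw [nv_eq]
    have h4 : (N : ℝ) ^ 2 / (2 * π) ≤ Real.exp (2 * Real.log N) := by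
      have h5 : Real.exp (2 * Real.log N) = (N : ℝ) ^ 2 := by
        rw [mul_comm, Real.exp_mul, Real.exp_log hN0]
        norm_cast
      rw [h5, div_le_iff₀ (by positivity)]
      nlinarith [sq_nonneg (N:ℝ)]
    calc ((N : ℝ) ^ 2 / (2 * π)) ^ (ne t + 1) ≤ Real.exp (2 * Real.log N) ^ (ne t + 1) := by
          gcongr
      _ = Real.exp (((ne t + 1 : ℕ) : ℝ) * (2 * Real.log N)) := by rw [← Real.exp_nat_mul]
      _ ≤ _ := by
        refine Real.exp_le_exp.2 ?_
        push_cast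
        have : 0 ≤ Real.log N := Real.log_nonneg hN1
        nlinarith
  refine (mul_le_mul h3 h1 (norm_nonneg _) (Real.exp_pos _).le).trans ?_
  rw [← Real.exp_add]
  refine Real.exp_le_exp.2 ?_
  rw [gaps_eq]
  have h6 : (ne t : ℝ) * ((2 * A + 10) + 4 * Real.log N) ≤ ne t * (ε / 2 * N) := by gcongr
  nlinarith

end Pool.Agent.Q99.VC
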